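import Pool.Agent.OGP.Defs
import Pool.Agent.Lib_MP_33ea09_lc.Code
import Mathlib.Data.Finset.Prod
import Mathlib.Data.Finset.Image
import Mathlib.Logic.Relation

/-!
# Internal notions and the algorithm
-/

set_option linter.unusedVariables false

namespace Pool.Agent.OGP

open Pool.Agent.Bx81 (seg)

/-! ### Triangulations with few crossings (positions only) -/

/-- The edges (pairs of positions) that cross the chord `{i, j}`. -/
def thru (E : Finset (ℕ × ℕ)) (i j : ℕ) : Finset (ℕ × ℕ) := E.filter fun e => Alt i j e.1 e.2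

/-- Every edge has at most one gap: the gap of `e`, if it has one, is at its crossing with
`g e`. -/
def Gapped (E : Finset (ℕ × ℕ)) : Prop :=
  ∃ g : ℕ × ℕ → ℕ × ℕ, ∀ e ∈ E, ∀ f ∈ E, Alt e.1 e.2 f.1 f.2 → g e = f ∨ g f = e

/-- The polygon `i, i + 1, …, j` has a triangulation all of whose chords are crossed by at most `c`
edges. -/
inductive RT (E : Finset (ℕ × ℕ)) (c : ℕ) : ℕ → ℕ → Prop
  | base (i : ℕ) : RT E c i (i + 1)
  | step {i k j : ℕ} (h1 : i < k) (h2 : k < j) (h3 : RT E c i k) (h4 : RT E c k j)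
      (h5 : (thru E i j).card ≤ c) : RT E c i j

/-- Points `0, 1, …, 2 R - 1` on a circle, the even ones are the vertices of a convex `R`-gon, the
odd ones its sides. A pair of points is nontrivial if it is not a side of the polygon and not an
incident vertex-side pair. -/
def NT (R : ℕ) (h : ℕ × ℕ) : Prop :=
  h.1 + 2 ≤ h.2 ∧ ¬ (h.2 = h.1 + 2 ∧ h.1 % 2 = 0) ∧ ¬ (h.1 = 0 ∧ h.2 = 2 * R - 2) ∧
    ¬ (h.1 = 0 ∧ h.2 = 2 * R - 1)

/-- A face: every side is crossed at most once, every edge has at most one gap, every inner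
diagonal is crossed at least twice. -/
structure Face (R : ℕ) (H : Finset (ℕ × ℕ)) : Prop where
  rng : ∀ h ∈ H, h.1 < h.2 ∧ h.2 < 2 * R
  nt : ∀ h ∈ H, NT R h
  odd : ∀ h ∈ H, ∀ h' ∈ H, ∀ z, z % 2 = 1 → (h.1 = z ∨ h.2 = z) → (h'.1 = z ∨ h'.2 = z) → h = h'
  gap : Gapped H
  two : ∀ a b, a + 2 ≤ b → b < R → ¬ (a = 0 ∧ b = R - 1) → 2 ≤ (thru H (2 * a) (2 * b)).card

/-! ### Graphs on sets of numbers -/

/-- The edge `uv`, as an ordered pair. -/
def ed (u v : ℕ) : ℕ × ℕ := (min u v, max u v)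

/-- The graph induced on `W` is outer 1-gap planar: positions and a gap function. -/
def Good (adj : ℕ → ℕ → Bool) (W : Set ℕ) : Prop :=
  ∃ (pos : ℕ → ℕ) (g : ℕ × ℕ → ℕ × ℕ), (∀ x ∈ W, ∀ y ∈ W, pos x = pos y → x = y) ∧
    ∀ u ∈ W, ∀ v ∈ W, ∀ x ∈ W, ∀ y ∈ W, adj u v = true → adj x y = true →
      Alt (pos u) (pos v) (pos x) (pos y) → g (ed u v) = ed x y ∨ g (ed x y) = ed u v

/-- Reachability inside `S`. -/
def Reach (adj : ℕ → ℕ → Bool) (S : Set ℕ) : ℕ → ℕ → Prop :=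
  Relation.ReflTransGen fun u v => adj u v = true ∧ u ∈ S ∧ v ∈ S

/-- The graph induced on `S` is connected (or empty). -/
def ConnOn (adj : ℕ → ℕ → Bool) (S : Set ℕ) : Prop := ∀ x ∈ S, ∀ y ∈ S, Reach adj S x y

/-- The block of the edge `uv` of the graph induced on `V`: the vertices that are not separated from
the edge by another vertex. -/
def Blk (adj : ℕ → ℕ → Bool) (V : Set ℕ) (u v : ℕ) : Set ℕ :=
  {w | w ∈ V ∧ ∀ c ∈ V, c ≠ w → ∃ z, (z = u ∨ z = v) ∧ z ≠ c ∧ Reach adj {t | t ∈ V ∧ t ≠ c} w z}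

/-! ### States of the dynamic programming -/

/-- An edge (inner end, outer end) with a label: the edge at whose crossing it has its gap. -/
abbrev Rec := (ℕ × ℕ) × (ℕ × ℕ)

/-- A state `(((a, b), t), (L, A))`: the chord `ab`, the label `t` of the edge `ab` (if it is one),
the labelled edges leaving the set `A` of the vertices between `a` and `b`, in the order of their
inner ends, and the set `A`. -/
abbrev St := Rec × (List Rec × List ℕ)

/-- Is `z` the inner end of a record? -/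
def inn (L : List Rec) (z : ℕ) : Bool := L.any fun r => decide (r.1.1 = z)

/-- Index of the first record with inner end `z`. -/
def fidx (L : List Rec) (z : ℕ) : ℕ := L.foldr (fun r k => if decide (r.1.1 = z) then 0 else k + 1) 0

/-- Local positions in the triangle `a, v, b`. -/
def loc (L1 L2 : List Rec) (a v b z : ℕ) : ℕ :=
  if decide (z = a) then 0 else if inn L1 z then fidx L1 z + 1 else
  if decide (z = v) then L1.length + 1 else if inn L2 z then L1.length + 2 + fidx L2 z else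
  if decide (z = b) then L1.length + L2.length + 2 else L1.length + L2.length + 3

/-- The labelled edges that touch the triangle `a, v, b`. -/
def locs (adj : ℕ → ℕ → Bool) (s1 s2 s : St) : List Rec :=
  s1.2.1 ++ (s2.2.1 ++ ((s.2.1.filter fun r => decide (r.1.1 = s1.1.1.2)) ++
    ((if adj s1.1.1.1 s1.1.1.2 then [s1.1] else []) ++
    ((if adj s2.1.1.1 s2.1.1.2 then [s2.1] else []) ++
    (if adj s.1.1.1 s.1.1.2 then [s.1] else [])))))

/-- The local positions of the states `s1 = (a, v)` and `s2 = (v, b)`. -/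
def lc (s1 s2 : St) (z : ℕ) : ℕ := loc s1.2.1 s2.2.1 s1.1.1.1 s1.1.1.2 s2.1.1.2 z

/-- The state `s` for the chord `ab` is obtained from `s1` for `av` and `s2` for `vb`: sets and
records. -/
structure MergeA (adj : ℕ → ℕ → Bool) (W : List ℕ) (s1 s2 s : St) : Prop where
  ha : s1.1.1.1 = s.1.1.1
  hv : s2.1.1.1 = s1.1.1.2
  hb : s2.1.1.2 = s.1.1.2
  ab : s.1.1.1 ≠ s.1.1.2
  ha2 : s.1.1.1 ∉ s2.2.2
  hb1 : s.1.1.2 ∉ s1.2.2
  disj : ∀ x ∈ s1.2.2, x ∉ s2.2.2
  sub : ∀ x ∈ s.2.2, x ∈ s1.2.2 ∨ x = s1.1.1.2 ∨ x ∈ s2.2.2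
  supv : s1.1.1.2 ∈ s.2.2
  sup1 : ∀ x ∈ s1.2.2, x ∈ s.2.2
  sup2 : ∀ x ∈ s2.2.2, x ∈ s.2.2
  con12 : ∀ r ∈ s1.2.1, r.1.2 ∈ s2.2.2 → ((r.1.2, r.1.1), r.2) ∈ s2.2.1
  con21 : ∀ r ∈ s2.2.1, r.1.2 ∈ s1.2.2 → ((r.1.2, r.1.1), r.2) ∈ s1.2.1
  fwd : ∀ r ∈ s.2.1, r ∈ s1.2.1 ∨ r ∈ s2.2.1 ∨
    (r.1.1 = s1.1.1.2 ∧ adj s1.1.1.2 r.1.2 = true ∧ r.1.2 ∈ W)
  out : ∀ r ∈ s.2.1, r.1.2 ∉ s.2.2 ∧ r.1.2 ≠ s.1.1.1 ∧ r.1.2 ≠ s.1.1.2
  bwd1 : ∀ r ∈ s1.2.1, r.1.2 ∉ s.2.2 → r.1.2 ≠ s.1.1.1 → r.1.2 ≠ s.1.1.2 → r ∈ s.2.1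
  bwd2 : ∀ r ∈ s2.2.1, r.1.2 ∉ s.2.2 → r.1.2 ≠ s.1.1.1 → r.1.2 ≠ s.1.1.2 → r ∈ s.2.1
  bwdv : ∀ y ∈ W, adj s1.1.1.2 y = true → y ∉ s.2.2 → y ≠ s.1.1.1 → y ≠ s.1.1.2 →
    ∃ r ∈ s.2.1, r.1 = (s1.1.1.2, y)
  func : ∀ r ∈ s.2.1, ∀ r' ∈ s.2.1, r.1 = r'.1 → r = r'

/-- The state `s` for the chord `ab` is obtained from `s1` for `av` and `s2` for `vb`: order and
crossings. -/
structure MergeC (adj : ℕ → ℕ → Bool) (s1 s2 s : St) : Prop where
  srt : s.2.1.Pairwise fun r r' => lc s1 s2 r.1.1 ≤ lc s1 s2 r'.1.1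
  crs : ∀ r ∈ locs adj s1 s2 s, ∀ r' ∈ locs adj s1 s2 s,
    Alt (lc s1 s2 r.1.1) (lc s1 s2 r.1.2) (lc s1 s2 r'.1.1) (lc s1 s2 r'.1.2) →
      r.2 = ed r'.1.1 r'.1.2 ∨ r'.2 = ed r.1.1 r.1.2

/-- The meaning of a state: the vertices of `A` are drawn between `a` and `b`. The vertices of `A`
have the positions strictly between `p a = 0` and `p b = N`, all other vertices have the position
`N + 1`; `g` is the gap function. -/
structure Pre (adj : ℕ → ℕ → Bool) (W : List ℕ) (s : St) (p : ℕ → ℕ) (N : ℕ)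
    (g : ℕ × ℕ → ℕ × ℕ) : Prop where
  wA : ∀ x ∈ s.2.2, x ∈ W
  wa : s.1.1.1 ∈ W
  wb : s.1.1.2 ∈ W
  pa : p s.1.1.1 = 0
  pb : p s.1.1.2 = N
  pos : 0 < N
  inA : ∀ x ∈ s.2.2, 0 < p x ∧ p x < N
  outA : ∀ x, x ∉ s.2.2 → x ≠ s.1.1.1 → x ≠ s.1.1.2 → p x = N + 1
  inj : ∀ x ∈ s.2.2, ∀ y ∈ s.2.2, p x = p y → x = y
  lab : adj s.1.1.1 s.1.1.2 = true → s.1.2 = g (ed s.1.1.1 s.1.1.2)
  rcd : ∀ x y t, ((x, y), t) ∈ s.2.1 ↔ x ∈ s.2.2 ∧ y ∈ W ∧ y ∉ s.2.2 ∧ y ≠ s.1.1.1 ∧
    y ≠ s.1.1.2 ∧ adj x y = true ∧ t = g (ed x y)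
  srt : s.2.1.Pairwise fun r r' => p r.1.1 ≤ p r'.1.1

/-- At every crossing one of the two edges has its gap. -/
def OKc (adj : ℕ → ℕ → Bool) (W : List ℕ) (p : ℕ → ℕ) (g : ℕ × ℕ → ℕ × ℕ) : Prop :=
  ∀ u ∈ W, ∀ v ∈ W, ∀ x ∈ W, ∀ y ∈ W, adj u v = true → adj x y = true →
    Alt (p u) (p v) (p x) (p y) → g (ed u v) = ed x y ∨ g (ed x y) = ed u v

/-- A state that comes from a drawing of its part. -/
def Real (adj : ℕ → ℕ → Bool) (W : List ℕ) (s : St) : Prop :=
  ∃ (p : ℕ → ℕ) (N : ℕ) (g : ℕ × ℕ → ℕ × ℕ), Pre adj W s p N g ∧ OKc adj W p g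

/-- Positions for the union of two parts. -/
def cp (s1 s2 : St) (p1 p2 : ℕ → ℕ) (N1 N2 : ℕ) (z : ℕ) : ℕ :=
  if z ∈ s1.2.2 ∨ z = s1.1.1.1 ∨ z = s1.1.1.2 then p1 z
  else if z ∈ s2.2.2 ∨ z = s2.1.1.2 then N1 + p2 z else N1 + N2 + 1

/-- Gap function for the union of two parts. -/
def cg (s1 s2 s : St) (g1 g2 : ℕ × ℕ → ℕ × ℕ) (e : ℕ × ℕ) : ℕ × ℕ :=
  if e.1 ∈ s1.2.2 ∨ e.2 ∈ s1.2.2 ∨ e = ed s1.1.1.1 s1.1.1.2 then g1 e
  else if e.1 ∈ s2.2.2 ∨ e.2 ∈ s2.2.2 ∨ e = ed s2.1.1.1 s2.1.1.2 then g2 e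
  else if e = ed s.1.1.1 s.1.1.2 then s.1.2
  else match s.2.1.find? (fun r => decide (ed r.1.1 r.1.2 = e)) with
    | some r => r.2
    | none => e

/-! ### Drawings given by lists, and their states -/

/-- A drawing: the list `π` of the vertices in their circular order and a gap function. -/
structure Arr (adj : ℕ → ℕ → Bool) (W π : List ℕ) (g : ℕ × ℕ → ℕ × ℕ) : Prop where
  nodup : π.Nodup
  mem : ∀ x, x ∈ π ↔ x ∈ W
  ok : ∀ u ∈ W, ∀ v ∈ W, ∀ x ∈ W, ∀ y ∈ W, adj u v = true → adj x y = true →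
    Alt (π.idxOf u) (π.idxOf v) (π.idxOf x) (π.idxOf y) →
      g (ed u v) = ed x y ∨ g (ed x y) = ed u v

/-- The edges as pairs of positions. -/
def PE (adj : ℕ → ℕ → Bool) (W π : List ℕ) : Finset (ℕ × ℕ) :=
  ((W.toFinset ×ˢ W.toFinset).filter fun e => adj e.1 e.2 = true ∧
    π.idxOf e.1 < π.idxOf e.2).image fun e => (π.idxOf e.1, π.idxOf e.2)

/-- The vertices between `a` and `b`, in the order of `π`. -/
def btw (π : List ℕ) (a b : ℕ) : List ℕ :=
  π.filter fun x => decide (π.idxOf a < π.idxOf x) && decide (π.idxOf x < π.idxOf b)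

/-- The state of the chord `ab` in a drawing. -/
def can (adj : ℕ → ℕ → Bool) (W π : List ℕ) (g : ℕ × ℕ → ℕ × ℕ) (a b : ℕ) : St :=
  (((a, b), g (ed a b)), ((btw π a b).flatMap fun x =>
    (W.filter fun y => adj x y && (decide (π.idxOf y < π.idxOf a) ||
      decide (π.idxOf b < π.idxOf y))).map fun y => ((x, y), g (ed x y)),
    W.filter fun z => decide (π.idxOf a < π.idxOf z) && decide (π.idxOf z < π.idxOf b)))

/-! ### The algorithm -/

/-- Entry of a matrix. -/
def ent (M : List (List Bool)) (i j : ℕ) : Bool := (((M[i]?).getD [])[j]?).getD false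

/-- Membership test. -/
def memb (z : ℕ) (l : List ℕ) : Bool := l.any fun x => decide (x = z)

/-- Alternation test. -/
def altB (a b c d : ℕ) : Bool :=
  (((decide (a < c) && decide (c < b)) || (decide (b < c) && decide (c < a))) &&
    ((decide (d < a) && decide (d < b)) || (decide (a < d) && decide (b < d)))) ||
  (((decide (a < d) && decide (d < b)) || (decide (b < d) && decide (d < a))) &&
    ((decide (c < a) && decide (c < b)) || (decide (a < c) && decide (b < c))))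

/-- One step of the search in `S`, the edges in `bad` are not used. -/
def stepR (M : List (List Bool)) (bad : List Rec) (S T : List ℕ) : List ℕ :=
  S.filter fun z => T.any fun x => decide (x = z) ||
    (ent M x z && bad.all fun r => !decide (r.1 = (x, z)) && !decide (r.1 = (z, x)))

/-- The vertices of `S` that are reached from `T` in `S` in at most `k` steps. -/
def reachB (M : List (List Bool)) (bad : List Rec) (S T : List ℕ) (k : ℕ) : List ℕ :=
  (stepR M bad S)^[k] (S.filter fun z => memb z T)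

/-- The block of the edge `uv`. -/
def blockB (M : List (List Bool)) (n u v : ℕ) : List ℕ :=
  (List.range n).filter fun w => (List.range n).all fun c => decide (c = w) ||
    (reachB M [] ((List.range n).filter fun t => !decide (t = c)) [w] n).any fun z =>
      decide (z = u) || decide (z = v)

/-- Connectivity test. -/
def connB (M : List (List Bool)) (n : ℕ) : Bool :=
  (List.range n).all fun w => memb w (reachB M [] (List.range n) [0] n)

/-- All lists of length at most `k` with elements from `l`. -/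
def tup {α : Type} : ℕ → List α → List (List α)
  | 0, _ => [[]]
  | k + 1, l => [] :: l.flatMap fun x => (tup k l).map fun t => x :: t

/-- All pairs. -/
def prs (n : ℕ) : List (ℕ × ℕ) :=
  (List.range n).flatMap fun a => (List.range n).map fun b => (a, b)

/-- All records. -/
def recs (n : ℕ) : List Rec := (prs n).flatMap fun p => (prs n).map fun q => (p, q)

/-- The set of vertices given by the leaving edges `L` and the representatives `R`. -/
def areach (M : List (List Bool)) (W : List ℕ) (n a b : ℕ) (L : List Rec) (R : List ℕ) : List ℕ :=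
  reachB M L (W.filter fun z => !decide (z = a) && !decide (z = b)) (R ++ L.map fun r => r.1.1) n

/-- The candidates for the states. -/
def cands (M : List (List Bool)) (W : List ℕ) (n : ℕ) : List St :=
  (recs n).flatMap fun e => (tup 6 (recs n)).flatMap fun L => (tup 26 (List.range n)).map fun R =>
    (e, (L, areach M W n e.1.1 e.1.2 L R))

/-- Test for `MergeA`, sets. -/
def mg1 (s1 s2 s : St) : Bool :=
  (((decide (s1.1.1.1 = s.1.1.1) && decide (s2.1.1.1 = s1.1.1.2)) &&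
    (decide (s2.1.1.2 = s.1.1.2) && !decide (s.1.1.1 = s.1.1.2))) &&
  ((!memb s.1.1.1 s2.2.2 && !memb s.1.1.2 s1.2.2) &&
    (s1.2.2.all fun x => !memb x s2.2.2))) &&
  (((s.2.2.all fun x => memb x s1.2.2 || (decide (x = s1.1.1.2) || memb x s2.2.2)) &&
    memb s1.1.1.2 s.2.2) &&
  ((s1.2.2.all fun x => memb x s.2.2) && (s2.2.2.all fun x => memb x s.2.2)))

/-- Is the record in the list? -/
def rmem (r : Rec) (L : List Rec) : Bool := L.any fun r' => decide (r' = r)

/-- Test for `MergeA`, records. -/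
def mg2 (M : List (List Bool)) (W : List ℕ) (s1 s2 s : St) : Bool :=
  (((s1.2.1.all fun r => !memb r.1.2 s2.2.2 || rmem ((r.1.2, r.1.1), r.2) s2.2.1) &&
    (s2.2.1.all fun r => !memb r.1.2 s1.2.2 || rmem ((r.1.2, r.1.1), r.2) s1.2.1)) &&
  ((s.2.1.all fun r => rmem r s1.2.1 || (rmem r s2.2.1 ||
      (decide (r.1.1 = s1.1.1.2) && (ent M s1.1.1.2 r.1.2 && memb r.1.2 W)))) &&
    (s.2.1.all fun r => !memb r.1.2 s.2.2 &&
      (!decide (r.1.2 = s.1.1.1) && !decide (r.1.2 = s.1.1.2))))) &&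
  (((s1.2.1.all fun r => memb r.1.2 s.2.2 || (decide (r.1.2 = s.1.1.1) ||
      (decide (r.1.2 = s.1.1.2) || rmem r s.2.1))) &&
    (s2.2.1.all fun r => memb r.1.2 s.2.2 || (decide (r.1.2 = s.1.1.1) ||
      (decide (r.1.2 = s.1.1.2) || rmem r s.2.1)))) &&
  ((W.all fun y => !ent M s1.1.1.2 y || (memb y s.2.2 || (decide (y = s.1.1.1) ||
      (decide (y = s.1.1.2) || s.2.1.any fun r => decide (r.1 = (s1.1.1.2, y)))))) &&
    (s.2.1.all fun r => s.2.1.all fun r' => !decide (r.1 = r'.1) || decide (r = r'))))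

/-- Sortedness test. -/
def srtB (s1 s2 : St) (L : List Rec) : Bool :=
  (L.foldr (fun r (b : Bool × List Rec) => (b.1 && b.2.all fun r' =>
    decide (lc s1 s2 r.1.1 ≤ lc s1 s2 r'.1.1), r :: b.2)) (true, [])).1

/-- Test for `MergeC`. -/
def mg3 (M : List (List Bool)) (s1 s2 s : St) : Bool :=
  srtB s1 s2 s.2.1 &&
  (locs (ent M) s1 s2 s).all fun r => (locs (ent M) s1 s2 s).all fun r' =>
    !altB (lc s1 s2 r.1.1) (lc s1 s2 r.1.2) (lc s1 s2 r'.1.1) (lc s1 s2 r'.1.2) ||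
      (decide (r.2 = (min r'.1.1 r'.1.2, max r'.1.1 r'.1.2)) ||
        decide (r'.2 = (min r.1.1 r.1.2, max r.1.1 r.1.2)))

/-- Test for `MergeA` and `MergeC`. -/
def mergeB (M : List (List Bool)) (W : List ℕ) (s1 s2 s : St) : Bool :=
  mg1 s1 s2 s && (mg2 M W s1 s2 s && mg3 M s1 s2 s)

/-- States of the sides of the polygon. -/
def baseB (W : List ℕ) (s : St) : Bool :=
  (s.2.1.isEmpty && s.2.2.isEmpty) &&
    (!decide (s.1.1.1 = s.1.1.2) && (memb s.1.1.1 W && memb s.1.1.2 W))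

/-- States of complete drawings. -/
def finalB (W : List ℕ) (s : St) : Bool :=
  s.2.1.isEmpty && W.all fun w => decide (w = s.1.1.1) || (decide (w = s.1.1.2) || memb w s.2.2)

/-- One round of the dynamic programming. -/
def dpStep (M : List (List Bool)) (W : List ℕ) (cs T : List St) : List St :=
  cs.filter fun s => baseB W s || T.any fun s1 => T.any fun s2 => mergeB M W s1 s2 s

/-- The dynamic programming for the graph induced on `W`. -/
def dp (M : List (List Bool)) (W : List ℕ) (n : ℕ) : Bool :=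
  ((dpStep M W (cands M W n))^[n] []).any fun s => finalB W s

/-- Check that the first `n` rows are a symmetric matrix with zero diagonal and that the other row
is empty. -/
def chkM (M : List (List Bool)) (n : ℕ) : Bool :=
  ((M[n]?).getD [true]).isEmpty &&
  (List.range n).all fun i => decide (((M[i]?).getD []).length = n) && (!ent M i i &&
    (List.range n).all fun j => decide (ent M i j = ent M j i))

/-- The algorithm on matrices. -/
def algM (M : List (List Bool)) (n : ℕ) : Bool :=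
  (decide (0 < n) && chkM M n) && (connB M n && (List.range n).all fun u =>
    (List.range n).all fun v => !ent M u v || dp M (blockB M n u v) n)

/-- The algorithm on strings. -/
def alg (w : List (Option Bool)) : Bool := algM (seg w) ((seg w).length - 1)

end Pool.Agent.OGP
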