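import Pool.Agent.OGP.Stmts

/-!
# Assembly: correctness of the algorithm
-/

namespace Pool.Agent.OGP

open Pool.Agent.Bx81 (seg)

theorem blk_setEq {M : List (List Bool)} {n u v : ℕ} (hM : Stmt_MEMB) :
    {x | x ∈ blockB M n u v} = Blk (ent M) {x | x < n} u v := by
  ext x
  exact (hM M n u v).1 x

theorem block_iff (hTRI : Stmt_TRI) (hLOOPS : Stmt_LOOPS) (hLOOPC : Stmt_LOOPC)
    (hBLKC : Stmt_BLKC) (hNORM : Stmt_NORM) (hPEG : Stmt_PEG) (hCAND : Stmt_CAND)
    (hMEMB : Stmt_MEMB) {M : List (List Bool)} {n : ℕ} (hs : ∀ i j, ent M i j = ent M j i)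
    (hi : ∀ i, ent M i i = false) {u v : ℕ} (hu : u < n) (hv : v < n) (h : ent M u v = true) :
    dp M (blockB M n u v) n = true ↔ Good (ent M) {x | x ∈ blockB M n u v} := by
  constructor
  · intro hd
    exact hLOOPS M _ (cands M (blockB M n u v) n) n hs hd
  · intro hG
    obtain ⟨hmem, hnd, hlen, hlt⟩ := hMEMB M n u v
    set W := blockB M n u v with hW
    have huv : u ≠ v := by
      rintro rfl
      rw [hi] at h
      exact absurd h (by simp)
    obtain ⟨hub, hvb, hconn⟩ := hBLKC (ent M) {x | x < n} u v hs hu hv huv h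
    have huW : u ∈ W := (hmem u).2 hub
    have hvW : v ∈ W := (hmem v).2 hvb
    have hset : Blk (ent M) {x | x < n} u v = {x | x ∈ W} := (blk_setEq hMEMB).symm
    obtain ⟨π, g, hA, hg⟩ := hNORM (ent M) W n hnd hlt (by omega) hG
    obtain ⟨hgap, hrng⟩ := hPEG (ent M) W π g hA
    have hle : ∀ (l : List ℕ), u ∈ l → v ∈ l → 2 ≤ l.length := by
      intro l h1 h2
      match l, h1, h2 with
      | [], h1, _ => simp at h1
      | [a], h1, h2 =>
        rw [List.mem_singleton] at h1 h2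
        exact absurd (h1.trans h2.symm) huv
      | _ :: _ :: _, _, _ => simp
    have h2π : 2 ≤ π.length := hle π ((hA.mem u).2 huW) ((hA.mem v).2 hvW)
    have h2W : 2 ≤ W.length := hle W huW hvW
    have hRT := hTRI (PE (ent M) W π) π.length h2π hrng hgap
    have hconn' : ∀ c ∈ W, ConnOn (ent M) {t | t ∈ W ∧ t ≠ c} := by
      intro c hc
      have h1 := hconn c ((hmem c).1 hc)
      have h3 : {t | t ∈ Blk (ent M) {x | x < n} u v ∧ t ≠ c} = {t | t ∈ W ∧ t ≠ c} := by
        ext t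
        simp only [Set.mem_setOf_eq]
        rw [hmem t]
      rwa [h3] at h1
    exact hLOOPC M W π g n (cands M W n) hs hnd h2W hlen hA hRT
      (hCAND M W π g n hs hnd hlt hA hg hRT hconn')

theorem Good.mono {adj : ℕ → ℕ → Bool} {V W : Set ℕ} (h : Good adj V) (hWV : W ⊆ V) :
    Good adj W := by
  obtain ⟨pos, g, h1, h2⟩ := h
  exact ⟨pos, g, fun x hx y hy => h1 x (hWV hx) y (hWV hy),
    fun u hu v hv x hx y hy => h2 u (hWV hu) v (hWV hv) x (hWV hx) y (hWV hy)⟩

theorem alg_iff (hTRI : Stmt_TRI) (hLOOPS : Stmt_LOOPS) (hLOOPC : Stmt_LOOPC)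
    (hBLKC : Stmt_BLKC) (hNORM : Stmt_NORM) (hPEG : Stmt_PEG) (hCAND : Stmt_CAND)
    (hMEMB : Stmt_MEMB) (hBLKUP : Stmt_BLKUP) (hCONS : Stmt_CONS) (hGIFF : Stmt_GIFF)
    (hCIFF : Stmt_CIFF) (hDECO : Stmt_DECO) (w : List (Option Bool)) :
    w ∈ OuterOneGap ↔ alg w = true := by
  have key : ∀ (n : ℕ) (G : SimpleGraph (Fin n)), alg (encode G) = true ↔
      (G.Connected ∧ OuterGapPlanar 1 G) := by
    intro n G
    obtain ⟨h1, h2, h3⟩ := hDECO.1 n G
    set M := seg (encode G) with hM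
    have hs : ∀ i j, ent M i j = ent M j i := by
      intro i j
      rw [Bool.eq_iff_iff, h3, h3]
      constructor
      · rintro ⟨a, b, c⟩
        exact ⟨b, a, c.symm⟩
      · rintro ⟨a, b, c⟩
        exact ⟨b, a, c.symm⟩
    have hi : ∀ i, ent M i i = false := by
      intro i
      rw [← Bool.not_eq_true, h3]
      rintro ⟨a, b, c⟩
      exact G.loopless.irrefl _ c
    have e1 : alg (encode G) = algM M n := by
      show algM (seg (encode G)) ((seg (encode G)).length - 1) = _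
      rw [← hM, h1]
    rw [e1]
    unfold algM
    simp only [Bool.and_eq_true, decide_eq_true_eq, List.all_eq_true, List.mem_range,
      Bool.or_eq_true, Bool.not_eq_true']
    rw [hCIFF n G (ent M) h3, hGIFF n G (ent M) h3]
    constructor
    · rintro ⟨⟨hn, -⟩, hc, hb⟩
      have hc' := (hCONS M n hn hs).1 hc
      refine ⟨⟨hn, hc'⟩, hBLKUP (ent M) {x | x < n} (Set.finite_lt_nat n) hs hi hc' ?_⟩
      intro u hu v hv huv
      have h4 := (hb u hu v hv).resolve_left (by simp [huv])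
      have h5 := (block_iff hTRI hLOOPS hLOOPC hBLKC hNORM hPEG hCAND hMEMB hs hi hu hv huv).1 h4
      rwa [blk_setEq hMEMB] at h5
    · rintro ⟨⟨hn, hc⟩, hG⟩
      refine ⟨⟨hn, h2⟩, (hCONS M n hn hs).2 hc, ?_⟩
      intro u hu v hv
      rcases Bool.eq_false_or_eq_true (ent M u v) with h | h
      · right
        refine (block_iff hTRI hLOOPS hLOOPC hBLKC hNORM hPEG hCAND hMEMB hs hi hu hv h).2 ?_
        refine hG.mono ?_
        intro x hx
        exact (hMEMB M n u v).2.2.2 x hx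
      · left
        exact h
  constructor
  · rintro ⟨n, G, rfl, h1, h2⟩
    exact (key n G).2 ⟨h1, h2⟩
  · intro h
    have h1 : chkM (seg w) ((seg w).length - 1) = true := by
      unfold alg algM at h
      simp only [Bool.and_eq_true] at h
      exact h.1.2
    obtain ⟨n, G, rfl⟩ := hDECO.2 w h1
    obtain ⟨h2, h3⟩ := (key n G).1 h
    exact ⟨n, G, rfl, h2, h3⟩

end Pool.Agent.OGP
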