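import Pool.Agent.OGP.Stmts

/-!
# BASE: sides of the polygon, complete drawings
-/

namespace Pool.Agent.OGP

theorem base_proof : Stmt_BASE := by
  constructor
  · intro adj W s h1 h2 hab ha hb
    let p : ℕ → ℕ := fun z => if z = s.1.1.1 then 0 else if z = s.1.1.2 then 1 else 2
    have hp : ∀ z, p z ≤ 2 := by
      intro z
      show (if z = s.1.1.1 then 0 else if z = s.1.1.2 then 1 else 2) ≤ 2
      split_ifs <;> omega
    refine ⟨p, 1, fun _ => s.1.2, ?_, ?_⟩
    · refine ⟨?_, ha, hb, ?_, ?_, one_pos, ?_, ?_, ?_, fun _ => rfl, ?_, ?_⟩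
      · intro x hx; rw [h2] at hx; exact absurd hx List.not_mem_nil
      · exact if_pos rfl
      · show (if s.1.1.2 = s.1.1.1 then 0 else if s.1.1.2 = s.1.1.2 then 1 else 2) = 1
        rw [if_neg (fun h => hab h.symm), if_pos rfl]
      · intro x hx; rw [h2] at hx; exact absurd hx List.not_mem_nil
      · intro x _ hxa hxb
        show (if x = s.1.1.1 then 0 else if x = s.1.1.2 then 1 else 2) = 1 + 1
        rw [if_neg hxa, if_neg hxb]
      · intro x hx; rw [h2] at hx; exact absurd hx List.not_mem_nil
      · intro x y t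
        rw [h1, h2]
        simp
      · rw [h1]; exact List.Pairwise.nil
    · intro u _ v _ x _ y _ _ _ hA
      exfalso
      have h3 := hp u
      have h4 := hp v
      have h5 := hp x
      have h6 := hp y
      unfold Alt at hA
      omega
  · intro adj W s hR _ hW
    obtain ⟨p, N, g, hp, hok⟩ := hR
    have hpa := hp.pa
    have hpb := hp.pb
    have hN := hp.pos
    refine ⟨p, g, ?_, fun u hu v hv x hx y hy h1 h2 h3 => hok u hu v hv x hx y hy h1 h2 h3⟩
    intro x hx y hy hxy
    rcases hW x hx with h | h | h <;> rcases hW y hy with h' | h' | h'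
    · rw [h, h']
    · rw [h, h', hpa, hpb] at hxy; omega
    · have := hp.inA y h'
      rw [h, hpa] at hxy; omega
    · rw [h, h', hpa, hpb] at hxy; omega
    · rw [h, h']
    · have := hp.inA y h'
      rw [h, hpb] at hxy; omega
    · have := hp.inA x h
      rw [h', hpa] at hxy; omega
    · have := hp.inA x h
      rw [h', hpb] at hxy; omega
    · exact hp.inj x h y h' hxy

end Pool.Agent.OGP
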