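import Pool.Agent.OGP.Stmts

/-!
# Blocks have no cut vertices
-/

namespace Pool.Agent.OGP

namespace BLKCX

variable {adj : ℕ → ℕ → Bool}

theorem reach_symm (hs : ∀ i j, adj i j = adj j i) {S : Set ℕ} {x y : ℕ} (h : Reach adj S x y) :
    Reach adj S y x := by
  unfold Reach at *
  induction h with
  | refl => exact Relation.ReflTransGen.refl
  | tail _ h2 ih =>
    exact Relation.ReflTransGen.head ⟨(hs _ _).trans h2.1, h2.2.2, h2.2.1⟩ ih

theorem reach_trans {S : Set ℕ} {x y z : ℕ} (h : Reach adj S x y) (h' : Reach adj S y z) :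
    Reach adj S x z := Relation.ReflTransGen.trans h h'

/-- A walk of length `k`. -/
def Wk (adj : ℕ → ℕ → Bool) (S : Set ℕ) (x : ℕ → ℕ) (k : ℕ) : Prop :=
  (∀ i ≤ k, x i ∈ S) ∧ ∀ i < k, adj (x i) (x (i + 1)) = true

theorem exists_wk {S : Set ℕ} {w e : ℕ} (hw : w ∈ S) (h : Reach adj S w e) :
    ∃ (x : ℕ → ℕ) (k : ℕ), x 0 = w ∧ x k = e ∧ Wk adj S x k := by
  unfold Reach at h
  induction h with
  | refl => exact ⟨fun _ => w, 0, rfl, rfl, fun i _ => hw, fun i hi => absurd hi (by omega)⟩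
  | @tail b c _ h2 ih =>
    obtain ⟨x, k, h3, h4, h5, h6⟩ := ih
    refine ⟨fun i => if i ≤ k then x i else c, k + 1, by simp [h3], by simp, ?_, ?_⟩
    · intro i _
      show (if i ≤ k then x i else c) ∈ S
      split
      · exact h5 i ‹_›
      · exact h2.2.2
    · intro i hi
      show adj (if i ≤ k then x i else c) (if i + 1 ≤ k then x (i + 1) else c) = true
      rcases Nat.lt_or_ge i k with h7 | h7
      · rw [if_pos (by omega), if_pos (by omega)]
        exact h6 i h7
      · have : i = k := by omega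
        subst this
        rw [if_pos (le_refl _), if_neg (by omega), h4]
        exact h2.1

theorem wk_reach {S : Set ℕ} {x : ℕ → ℕ} {i j : ℕ} (hij : i ≤ j)
    (h1 : ∀ l, i ≤ l → l ≤ j → x l ∈ S) (h2 : ∀ l, i ≤ l → l < j → adj (x l) (x (l + 1)) = true) :
    Reach adj S (x i) (x j) := by
  induction j, hij using Nat.le_induction with
  | base => exact Relation.ReflTransGen.refl
  | succ j hj ih =>
    refine Relation.ReflTransGen.tail (ih (fun l a b => h1 l a (by omega))
      (fun l a b => h2 l a (by omega))) ?_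
    exact ⟨h2 j hj (by omega), h1 j hj (by omega), h1 (j + 1) (by omega) (le_refl _)⟩

/-- Remove a closed part of a walk. -/
theorem shortcut {S : Set ℕ} {x : ℕ → ℕ} {k l j : ℕ} (hx : Wk adj S x k) (hlj : l < j)
    (hj : j ≤ k) (he : x l = x j) :
    ∃ y : ℕ → ℕ, y 0 = x 0 ∧ y (k - (j - l)) = x k ∧ Wk adj S y (k - (j - l)) := by
  refine ⟨fun i => if i ≤ l then x i else x (i + (j - l)), by simp, ?_, ?_, ?_⟩
  · show (if k - (j - l) ≤ l then x (k - (j - l)) else x (k - (j - l) + (j - l))) = x k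
    split
    · have h1 : k - (j - l) = l := by omega
      have h2 : k = j := by omega
      rw [h1, he, h2]
    · congr 1
      omega
  · intro i hi
    show (if i ≤ l then x i else x (i + (j - l))) ∈ S
    split
    · exact hx.1 i (by omega)
    · exact hx.1 _ (by omega)
  · intro i hi
    show adj (if i ≤ l then x i else x (i + (j - l)))
      (if i + 1 ≤ l then x (i + 1) else x (i + 1 + (j - l))) = true
    rcases Nat.lt_or_ge i l with h1 | h1
    · rw [if_pos (by omega), if_pos (by omega)]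
      exact hx.2 i (by omega)
    · rcases Nat.eq_or_lt_of_le h1 with h2 | h2
      · subst h2
        rw [if_pos (le_refl _), if_neg (by omega), he]
        have h3 : l + 1 + (j - l) = j + 1 := by omega
        rw [h3]
        exact hx.2 j (by omega)
      · rw [if_neg (by omega), if_neg (by omega)]
        have h3 : i + 1 + (j - l) = (i + (j - l)) + 1 := by omega
        rw [h3]
        exact hx.2 _ (by omega)

theorem inside (hs : ∀ i j, adj i j = adj j i) {V : Set ℕ} {u v : ℕ} {c w : ℕ}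
    (hw : w ∈ Blk adj V u v) (hwc : w ≠ c) (hc : c ∈ V) :
    ∃ e, (e = u ∨ e = v) ∧ e ≠ c ∧ Reach adj {t | t ∈ Blk adj V u v ∧ t ≠ c} w e := by
  classical
  -- a shortest walk to the edge
  have hex : ∃ k, ∃ x : ℕ → ℕ, x 0 = w ∧ (x k = u ∨ x k = v) ∧ Wk adj {t | t ∈ V ∧ t ≠ c} x k := by
    obtain ⟨z, h1, h2, h3⟩ := hw.2 c hc (Ne.symm hwc)
    obtain ⟨x, k, h4, h5, h6⟩ := exists_wk (S := {t | t ∈ V ∧ t ≠ c}) ⟨hw.1, hwc⟩ h3
    exact ⟨k, x, h4, by rw [h5]; exact h1, h6⟩
  obtain ⟨x, h0, hend, hx⟩ := Nat.find_spec hex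
  set k := Nat.find hex with hk
  have hsimple : ∀ l j, l < j → j ≤ k → x l ≠ x j := by
    intro l j hlj hj he
    obtain ⟨y, h1, h2, h3⟩ := shortcut hx hlj hj he
    refine Nat.find_min hex (m := k - (j - l)) (by omega) ⟨y, by rw [h1, h0], ?_, h3⟩
    rw [h2]
    exact hend
  have hB : ∀ i ≤ k, x i ∈ Blk adj V u v := by
    intro i hi
    refine ⟨(hx.1 i hi).1, ?_⟩
    intro d hd hdi
    by_cases c1 : ∃ j, i < j ∧ j ≤ k ∧ x j = d
    · obtain ⟨j, hij, hjk, hj⟩ := c1
      have h1 : ∀ l ≤ i, x l ≠ d := by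
        intro l hl
        rw [← hj]
        exact hsimple l j (by omega) hjk
      have hwd : w ≠ d := by
        rw [← h0]
        exact h1 0 (by omega)
      have h2 : Reach adj {t | t ∈ V ∧ t ≠ d} (x 0) (x i) :=
        wk_reach (Nat.zero_le i) (fun l _ hl => ⟨(hx.1 l (by omega)).1, h1 l hl⟩)
          (fun l _ hl => hx.2 l (by omega))
      rw [h0] at h2
      obtain ⟨z, h3, h4, h5⟩ := hw.2 d hd (Ne.symm hwd)
      exact ⟨z, h3, h4, reach_trans (reach_symm hs h2) h5⟩
    · refine ⟨x k, hend, ?_, ?_⟩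
      · intro h
        rcases Nat.lt_or_ge i k with h2 | h2
        · exact c1 ⟨k, h2, le_refl _, h⟩
        · have : i = k := by omega
          subst this
          exact hdi h.symm
      · refine wk_reach hi (fun l hl hlk => ⟨(hx.1 l hlk).1, ?_⟩) (fun l _ hl => hx.2 l hl)
        intro h
        rcases Nat.eq_or_lt_of_le hl with h2 | h2
        · subst h2
          exact hdi h.symm
        · exact c1 ⟨l, h2, hlk, h⟩
  refine ⟨x k, hend, (hx.1 k (le_refl _)).2, ?_⟩
  have h1 : Reach adj {t | t ∈ Blk adj V u v ∧ t ≠ c} (x 0) (x k) :=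
    wk_reach (Nat.zero_le k) (fun l _ hl => ⟨hB l hl, (hx.1 l hl).2⟩) (fun l _ hl => hx.2 l hl)
  rwa [h0] at h1

end BLKCX

open BLKCX in
theorem blkc_proof : Stmt_BLKC := by
  intro adj V u v hs hu hv huv hadj
  have hub : u ∈ Blk adj V u v :=
    ⟨hu, fun c _ hcu => ⟨u, Or.inl rfl, Ne.symm hcu, Relation.ReflTransGen.refl⟩⟩
  have hvb : v ∈ Blk adj V u v :=
    ⟨hv, fun c _ hcv => ⟨v, Or.inr rfl, Ne.symm hcv, Relation.ReflTransGen.refl⟩⟩
  refine ⟨hub, hvb, ?_⟩
  intro c hc a ha b hb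
  obtain ⟨e, h1, h2, h3⟩ := inside hs ha.1 ha.2 hc.1
  obtain ⟨e', h4, h5, h6⟩ := inside hs hb.1 hb.2 hc.1
  have h7 : Reach adj {t | t ∈ Blk adj V u v ∧ t ≠ c} e e' := by
    rcases h1 with rfl | rfl <;> rcases h4 with rfl | rfl
    · exact Relation.ReflTransGen.refl
    · exact Relation.ReflTransGen.single ⟨hadj, ⟨hub, h2⟩, ⟨hvb, h5⟩⟩
    · exact Relation.ReflTransGen.single ⟨(hs _ _).trans hadj, ⟨hvb, h2⟩, ⟨hub, h5⟩⟩
    · exact Relation.ReflTransGen.refl
  exact reach_trans h3 (reach_trans h7 (reach_symm hs h6))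

end Pool.Agent.OGP
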