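import Pool.Agent.OGP.Stmts

/-!
# BLKUP: a connected graph is outer 1-gap planar if its blocks are
-/

namespace Pool.Agent.OGP

namespace BLKUPX

theorem good_mono {adj : ℕ → ℕ → Bool} {W W' : Set ℕ} (h : W' ⊆ W) (hg : Good adj W) :
    Good adj W' := by
  obtain ⟨pos, g, h1, h2⟩ := hg
  exact ⟨pos, g, fun x hx y hy => h1 x (h hx) y (h hy),
    fun u hu v hv x hx y hy => h2 u (h hu) v (h hv) x (h hx) y (h hy)⟩

theorem reach_mono {adj : ℕ → ℕ → Bool} {S S' : Set ℕ} (h : S ⊆ S') {x y : ℕ}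
    (hr : Reach adj S x y) : Reach adj S' x y := by
  induction hr with
  | refl => exact Relation.ReflTransGen.refl
  | tail _ h1 ih => exact Relation.ReflTransGen.tail ih ⟨h1.1, h h1.2.1, h h1.2.2⟩

theorem reach_symm {adj : ℕ → ℕ → Bool} (hs : ∀ i j, adj i j = adj j i) {S : Set ℕ} {x y : ℕ}
    (hr : Reach adj S x y) : Reach adj S y x := by
  induction hr with
  | refl => exact Relation.ReflTransGen.refl
  | tail _ h ih =>
    exact Relation.ReflTransGen.head ⟨by rw [hs]; exact h.1, h.2.2, h.2.1⟩ ih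

/-- a path to `c` stays in `S ∪ {c}` until it reaches `c` -/
theorem toC {adj : ℕ → ℕ → Bool} {V S : Set ℕ} {c : ℕ}
    (hS : ∀ a ∈ S, ∀ b ∈ V, b ≠ c → adj a b = true → b ∈ S) {w : ℕ} (hr : Reach adj V w c) :
    (w ∈ S ∨ w = c) → Reach adj {t | t ∈ S ∨ t = c} w c := by
  induction hr using Relation.ReflTransGen.head_induction_on with
  | refl => exact fun _ => Relation.ReflTransGen.refl
  | head h hpath ih =>
    rename_i a b
    intro ha
    by_cases hac : a = c
    · rw [hac]; exact Relation.ReflTransGen.refl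
    · have haS : a ∈ S := ha.resolve_right hac
      have hb : b ∈ S ∨ b = c := by
        by_cases hbc : b = c
        · exact Or.inr hbc
        · exact Or.inl (hS a haS b h.2.2 hbc h.1)
      exact Relation.ReflTransGen.head ⟨h.1, Or.inl haS, hb⟩ (ih hb)

theorem connOn_of {adj : ℕ → ℕ → Bool} (hs : ∀ i j, adj i j = adj j i) {V S : Set ℕ} {c : ℕ}
    (hc : c ∈ V) (hSV : S ⊆ V) (hV : ConnOn adj V)
    (hS : ∀ a ∈ S, ∀ b ∈ V, b ≠ c → adj a b = true → b ∈ S) :
    ConnOn adj {t | t ∈ S ∨ t = c} := by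
  have h : ∀ x ∈ {t | t ∈ S ∨ t = c}, Reach adj {t | t ∈ S ∨ t = c} x c := by
    intro x hx
    have hxV : x ∈ V := by
      rcases hx with hx | hx
      · exact hSV hx
      · rw [hx]; exact hc
    exact toC hS (hV x hxV c hc) hx
  intro x hx y hy
  exact Relation.ReflTransGen.trans (h x hx) (reach_symm hs (h y hy))

theorem blk_mono {adj : ℕ → ℕ → Bool} {V V1 : Set ℕ} (h1 : V1 ⊆ V) (hc : ConnOn adj V1)
    {u v : ℕ} (hu : u ∈ V1) : Blk adj V1 u v ⊆ Blk adj V u v := by
  intro w hw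
  refine ⟨h1 hw.1, fun d _ hdw => ?_⟩
  by_cases hd1 : d ∈ V1
  · obtain ⟨z, hz, hzd, hr⟩ := hw.2 d hd1 hdw
    refine ⟨z, hz, hzd, reach_mono (S := {t | t ∈ V1 ∧ t ≠ d}) ?_ hr⟩
    exact fun t ht => ⟨h1 ht.1, ht.2⟩
  · refine ⟨u, Or.inl rfl, fun h => hd1 (h ▸ hu), reach_mono (fun t ht => ?_) (hc w hw.1 u hu)⟩
    exact ⟨h1 ht, fun h => hd1 (h ▸ ht)⟩

end BLKUPX

open BLKUPX in
theorem blkup_proof (hG : Stmt_GLUE) : Stmt_BLKUP := by
  intro adj V hfin hs hirr hconn hblk
  induction hn : V.ncard using Nat.strong_induction_on generalizing V with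
  | _ n ih =>
    by_cases hcut : ∃ c ∈ V, ¬ ConnOn adj {t | t ∈ V ∧ t ≠ c}
    · obtain ⟨c, hc, hcc⟩ := hcut
      unfold ConnOn at hcc
      push Not at hcc
      obtain ⟨x0, hx0, y0, hy0, hxy⟩ := hcc
      set Rc : ℕ → Prop := fun w => Reach adj {t | t ∈ V ∧ t ≠ c} x0 w with hRc
      set U1 : Set ℕ := {w | (w ∈ V ∧ w ≠ c) ∧ Rc w} with hU1
      set U2 : Set ℕ := {w | (w ∈ V ∧ w ≠ c) ∧ ¬ Rc w} with hU2
      have hU1V : U1 ⊆ V := fun w hw => hw.1.1
      have hU2V : U2 ⊆ V := fun w hw => hw.1.1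
      have cl1 : ∀ a ∈ U1, ∀ b ∈ V, b ≠ c → adj a b = true → b ∈ U1 := by
        intro a ha b hb hbc hab
        exact ⟨⟨hb, hbc⟩, Relation.ReflTransGen.tail ha.2 ⟨hab, ha.1, ⟨hb, hbc⟩⟩⟩
      have cl2 : ∀ a ∈ U2, ∀ b ∈ V, b ≠ c → adj a b = true → b ∈ U2 := by
        intro a ha b hb hbc hab
        refine ⟨⟨hb, hbc⟩, fun hRb => ha.2 ?_⟩
        exact Relation.ReflTransGen.tail hRb ⟨by rw [hs]; exact hab, ⟨hb, hbc⟩, ha.1⟩
      have c1 := connOn_of hs hc hU1V hconn cl1
      have c2 := connOn_of hs hc hU2V hconn cl2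
      have s1 : {t | t ∈ U1 ∨ t = c} ⊆ V := by
        rintro t (ht | ht)
        · exact hU1V ht
        · rw [ht]; exact hc
      have s2 : {t | t ∈ U2 ∨ t = c} ⊆ V := by
        rintro t (ht | ht)
        · exact hU2V ht
        · rw [ht]; exact hc
      have n1 : {t | t ∈ U1 ∨ t = c}.ncard < n := by
        rw [← hn]
        refine Set.ncard_lt_ncard ⟨s1, fun h => ?_⟩ hfin
        rcases h hy0.1 with h' | h'
        · exact hxy h'.2
        · exact hy0.2 h'
      have n2 : {t | t ∈ U2 ∨ t = c}.ncard < n := by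
        rw [← hn]
        refine Set.ncard_lt_ncard ⟨s2, fun h => ?_⟩ hfin
        rcases h hx0.1 with h' | h'
        · exact h'.2 Relation.ReflTransGen.refl
        · exact hx0.2 h'
      have g1 := ih _ n1 _ (hfin.subset s1) c1
        (fun u hu v hv huv => good_mono (blk_mono s1 c1 hu) (hblk u (s1 hu) v (s1 hv) huv)) rfl
      have g2 := ih _ n2 _ (hfin.subset s2) c2
        (fun u hu v hv huv => good_mono (blk_mono s2 c2 hu) (hblk u (s2 hu) v (s2 hv) huv)) rfl
      have hg := hG adj _ _ c hs (hfin.subset s1) (hfin.subset s2) (Or.inr rfl) (Or.inr rfl)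
        (by
          rintro x (hx | hx) (hx' | hx')
          · exact absurd hx.2 hx'.2
          · exact hx'
          · exact hx
          · exact hx)
        (by
          intro x hx y hy hxc hyc
          have hx1 : x ∈ U1 := hx.resolve_right hxc
          have hy1 : y ∈ U2 := hy.resolve_right hyc
          by_contra hadj
          rw [Bool.not_eq_false] at hadj
          exact hy1.2 (cl1 x hx1 y hy1.1.1 hyc hadj).2)
        g1 g2
      refine good_mono ?_ hg
      intro w hw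
      by_cases hwc : w = c
      · exact Or.inl (Or.inr hwc)
      · by_cases hr : Rc w
        · exact Or.inl (Or.inl ⟨⟨hw, hwc⟩, hr⟩)
        · exact Or.inr (Or.inl ⟨⟨hw, hwc⟩, hr⟩)
    · push Not at hcut
      by_cases hedge : ∃ u ∈ V, ∃ v ∈ V, adj u v = true
      · obtain ⟨u, hu, v, hv, huv⟩ := hedge
        refine good_mono ?_ (hblk u hu v hv huv)
        intro w hw
        refine ⟨hw, fun d hd hdw => ?_⟩
        have huv' : u ≠ v := by
          intro h
          rw [h, hirr] at huv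
          exact Bool.false_ne_true huv
        by_cases hud : u = d
        · have hvd : v ≠ d := fun h => huv' (hud.trans h.symm)
          exact ⟨v, Or.inr rfl, hvd, hcut d hd w ⟨hw, fun h => hdw h.symm⟩ v ⟨hv, hvd⟩⟩
        · exact ⟨u, Or.inl rfl, hud, hcut d hd w ⟨hw, fun h => hdw h.symm⟩ u ⟨hu, hud⟩⟩
      · push Not at hedge
        refine ⟨id, id, fun x _ y _ h => h, fun u hu v hv x _ y _ h1 => ?_⟩
        exact absurd h1 (hedge u hu v hv)

end Pool.Agent.OGP
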