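import Pool.Agent.OGP.Stmts

/-!
# CAND: canonical states are candidates
-/

set_option linter.unusedVariables false

namespace Pool.Agent.OGP

namespace CANDX

theorem mem_tup {α : Type} (k : ℕ) (l : List α) (t : List α) :
    t.length ≤ k → (∀ x ∈ t, x ∈ l) → t ∈ tup k l := by
  induction k generalizing t with
  | zero =>
    intro h _
    have : t = [] := List.length_eq_zero_iff.1 (Nat.le_zero.1 h)
    rw [this]
    simp [tup]
  | succ k ih =>
    intro h hl
    cases t with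
    | nil => simp [tup]
    | cons a t =>
      have h1 : t ∈ tup k l := ih t (by simpa using h) (fun x hx => hl x (List.mem_cons_of_mem _ hx))
      have h2 : a ∈ l := hl a List.mem_cons_self
      simp only [tup, List.mem_cons, List.mem_flatMap, List.mem_map]
      exact Or.inr ⟨a, h2, t, h1, rfl⟩

theorem mem_prs {n : ℕ} (p : ℕ × ℕ) (h1 : p.1 < n) (h2 : p.2 < n) : p ∈ prs n := by
  simp only [prs, List.mem_flatMap, List.mem_map, List.mem_range]
  exact ⟨p.1, h1, p.2, h2, rfl⟩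

theorem mem_recs {n : ℕ} (r : Rec) (h1 : r.1.1 < n) (h2 : r.1.2 < n) (h3 : r.2.1 < n)
    (h4 : r.2.2 < n) : r ∈ recs n := by
  simp only [recs, List.mem_flatMap, List.mem_map]
  exact ⟨r.1, mem_prs r.1 h1 h2, r.2, mem_prs r.2 h3 h4, rfl⟩

/-- the records of the canonical state -/
theorem mem_L (adj : ℕ → ℕ → Bool) (W π : List ℕ) (g : ℕ × ℕ → ℕ × ℕ) (a b : ℕ) (r : Rec) :
    r ∈ (can adj W π g a b).2.1 ↔ r.1.1 ∈ π ∧ π.idxOf a < π.idxOf r.1.1 ∧
      π.idxOf r.1.1 < π.idxOf b ∧ r.1.2 ∈ W ∧ adj r.1.1 r.1.2 = true ∧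
      (π.idxOf r.1.2 < π.idxOf a ∨ π.idxOf b < π.idxOf r.1.2) ∧ r.2 = g (ed r.1.1 r.1.2) := by
  simp only [can, btw, List.mem_flatMap, List.mem_map, List.mem_filter, Bool.and_eq_true,
    Bool.or_eq_true, decide_eq_true_eq]
  constructor
  · rintro ⟨x, ⟨hx1, hx2, hx3⟩, y, ⟨hy1, hy2, hy3⟩, rfl⟩
    exact ⟨hx1, hx2, hx3, hy1, hy2, hy3, rfl⟩
  · rintro ⟨h1, h2, h3, h4, h5, h6, h7⟩
    refine ⟨r.1.1, ⟨h1, h2, h3⟩, r.1.2, ⟨h4, h5, h6⟩, ?_⟩
    rw [← h7]

end CANDX

open CANDX in
theorem cand_proof (hC : Stmt_CLEN) (hR : Stmt_REPS) (hS : Stmt_RSPEC) : Stmt_CAND := by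
  intro M W π g n hsym hW hWn hA hg hRT hcon a ha b hb hab hcard
  have hlen := (hC (ent M) W π g hsym hW hA a ha b hb hab).trans hcard
  obtain ⟨R, hR26, hR1, hR2⟩ := hR (ent M) W π hsym hA.nodup hA.mem hRT hcon a ha b hb hab
  set L : List Rec := (can (ent M) W π g a b).2.1 with hL
  have hmemL := mem_L (ent M) W π g a b
  rw [← hL] at hmemL
  have hidx : ∀ x ∈ W, ∀ y ∈ W, π.idxOf x = π.idxOf y → x = y := by
    intro x hx y hy h
    have hx' : x ∈ π := (hA.mem x).2 hx
    have hy' : y ∈ π := (hA.mem y).2 hy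
    exact (List.idxOf_inj hx').1 h
  have hWlen : W.length ≤ n := by
    have h1 : W.toFinset ⊆ Finset.range n := by
      intro x hx
      rw [List.mem_toFinset] at hx
      exact Finset.mem_range.2 (hWn x hx)
    have h2 := Finset.card_le_card h1
    rwa [List.toFinset_card_of_nodup hW, Finset.card_range] at h2
  -- the search
  set S : List ℕ := W.filter fun z => !decide (z = a) && !decide (z = b) with hSdef
  have hmemS : ∀ z, z ∈ S ↔ z ∈ W ∧ z ≠ a ∧ z ≠ b := by
    intro z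
    simp [hSdef, List.mem_filter]
  have hSn : S.Nodup := hW.filter _
  have hSl : S.length ≤ n := (List.length_filter_le _ _).trans hWlen
  obtain ⟨hS1, hS2⟩ := hS M L S (R ++ L.map fun r => r.1.1) n hSn hSl
  set X : List ℕ := reachB M L S (R ++ L.map fun r => r.1.1) n with hX
  have hbtwS : ∀ z ∈ W, π.idxOf a < π.idxOf z → π.idxOf z < π.idxOf b → z ∈ S := by
    intro z hz h1 h2
    rw [hmemS]
    refine ⟨hz, ?_, ?_⟩
    · rintro rfl; omega
    · rintro rfl; omega
  have hmemX : ∀ z, z ∈ X ↔ z ∈ W ∧ π.idxOf a < π.idxOf z ∧ π.idxOf z < π.idxOf b := by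
    intro z
    constructor
    · intro hz
      obtain ⟨hzS, x, hxT, hxS, hpath⟩ := (hS1 z).1 hz
      have hx : x ∈ W ∧ π.idxOf a < π.idxOf x ∧ π.idxOf x < π.idxOf b := by
        rw [List.mem_append, List.mem_map] at hxT
        rcases hxT with h | ⟨r, hr, rfl⟩
        · exact hR1 x h
        · obtain ⟨h1, h2, h3, _⟩ := (hmemL r).1 hr
          exact ⟨(hA.mem _).1 h1, h2, h3⟩
      clear hxT hzS hz
      induction hpath with
      | refl => exact hx
      | tail _ hstep ih =>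
        rename_i u v _
        obtain ⟨he, huS, hvS, hbad⟩ := hstep
        obtain ⟨hvW, hva, hvb⟩ := (hmemS v).1 hvS
        refine ⟨hvW, ?_⟩
        by_contra hcon2
        have hne1 : π.idxOf v ≠ π.idxOf a := fun h => hva (hidx v hvW a ha h)
        have hne2 : π.idxOf v ≠ π.idxOf b := fun h => hvb (hidx v hvW b hb h)
        have hout : π.idxOf v < π.idxOf a ∨ π.idxOf b < π.idxOf v := by omega
        have hr : (((u, v), g (ed u v)) : Rec) ∈ L :=
          (hmemL _).2 ⟨(hA.mem u).2 ih.1, ih.2.1, ih.2.2, hvW, he, hout, rfl⟩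
        exact (hbad _ hr).1 rfl
    · rintro ⟨hzW, hz1, hz2⟩
      obtain ⟨x, hx, hreach⟩ := hR2 z hzW hz1 hz2
      have hxin : x ∈ W ∧ π.idxOf a < π.idxOf x ∧ π.idxOf x < π.idxOf b := by
        rcases hx with h | h
        · exact hR1 x h
        · exact ⟨h.1, h.2.1, h.2.2.1⟩
      have hxT : x ∈ R ++ L.map fun r => r.1.1 := by
        rw [List.mem_append, List.mem_map]
        rcases hx with h | ⟨h1, h2, h3, y, hy, hxy, hout⟩
        · exact Or.inl h
        · exact Or.inr ⟨((x, y), g (ed x y)), (hmemL _).2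
            ⟨(hA.mem x).2 h1, h2, h3, hy, hxy, hout, rfl⟩, rfl⟩
      refine (hS1 z).2 ⟨hbtwS z hzW hz1 hz2, x, hxT, hbtwS x hxin.1 hxin.2.1 hxin.2.2, ?_⟩
      refine Relation.ReflTransGen.mono ?_ _ _ hreach
      rintro u v ⟨he, hu, hv⟩
      refine ⟨he, hbtwS u hu.1 hu.2.1 hu.2.2, hbtwS v hv.1 hv.2.1 hv.2.2, ?_⟩
      intro r hr
      obtain ⟨_, _, _, _, _, hout, _⟩ := (hmemL r).1 hr
      have hu' : π.idxOf a < π.idxOf u ∧ π.idxOf u < π.idxOf b := hu.2
      have hv' : π.idxOf a < π.idxOf v ∧ π.idxOf v < π.idxOf b := hv.2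
      constructor
      · intro h
        rw [h] at hout
        simp only at hout
        omega
      · intro h
        rw [h] at hout
        simp only at hout
        omega
  have hA' : areach M W n a b L R = (can (ent M) W π g a b).2.2 := by
    change X = W.filter fun z => decide (π.idxOf a < π.idxOf z) && decide (π.idxOf z < π.idxOf b)
    rw [hS2, hSdef, List.filter_filter]
    apply List.filter_congr
    intro z hz
    rw [Bool.eq_iff_iff]
    simp only [Bool.and_eq_true, Bool.not_eq_true', decide_eq_false_iff_not, decide_eq_true_eq,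
      memb, List.any_eq_true]
    constructor
    · rintro ⟨⟨x, hx, rfl⟩, _⟩
      exact ((hmemX x).1 hx).2
    · intro h
      have h1 : z ∈ X := (hmemX z).2 ⟨hz, h⟩
      have h2 := (hmemS z).1 ((hS1 z).1 h1).1
      exact ⟨⟨z, h1, rfl⟩, h2.2.1, h2.2.2⟩
  -- membership
  simp only [cands, List.mem_flatMap, List.mem_map]
  refine ⟨((a, b), g (ed a b)), mem_recs _ (hWn a ha) (hWn b hb) (hg _).1 (hg _).2, L,
    mem_tup 6 _ L hlen ?_, R, mem_tup 26 _ R hR26 ?_, ?_⟩
  · intro r hr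
    obtain ⟨h1, _, _, h4, _, _, h7⟩ := (hmemL r).1 hr
    refine mem_recs r (hWn _ ((hA.mem _).1 h1)) (hWn _ h4) ?_ ?_
    · rw [h7]; exact (hg _).1
    · rw [h7]; exact (hg _).2
  · intro x hx
    exact List.mem_range.2 (hWn x (hR1 x hx).1)
  · rw [hA']
    rfl

end Pool.Agent.OGP
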