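import Pool.Agent.OGP.Stmts

/-!
# Module CIFF: connectivity
-/

namespace Pool.Agent.OGP

namespace CIFFX

variable {n : ℕ} {G : SimpleGraph (Fin n)} {adj : ℕ → ℕ → Bool}

theorem fwd (h : ∀ i j, adj i j = true ↔ ∃ (hi : i < n) (hj : j < n), G.Adj ⟨i, hi⟩ ⟨j, hj⟩)
    {x y : Fin n} (hr : Relation.ReflTransGen G.Adj x y) : Reach adj {x | x < n} x y := by
  induction hr with
  | refl => exact Relation.ReflTransGen.refl
  | @tail b c _ hbc ih =>
    exact ih.tail ⟨(h b c).2 ⟨b.2, c.2, hbc⟩, b.2, c.2⟩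

theorem bwd (h : ∀ i j, adj i j = true ↔ ∃ (hi : i < n) (hj : j < n), G.Adj ⟨i, hi⟩ ⟨j, hj⟩)
    {x y : ℕ} (hx : x < n) (hr : Reach adj {x | x < n} x y) :
    ∃ hy : y < n, Relation.ReflTransGen G.Adj ⟨x, hx⟩ ⟨y, hy⟩ := by
  induction hr with
  | refl => exact ⟨hx, Relation.ReflTransGen.refl⟩
  | @tail b c _ hbc ih =>
    obtain ⟨hb, ih⟩ := ih
    obtain ⟨_, hc, hadj⟩ := (h b c).1 hbc.1
    exact ⟨hc, ih.tail hadj⟩

end CIFFX

theorem ciff_proof : Stmt_CIFF := by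
  intro n G adj h
  constructor
  · intro hc
    refine ⟨?_, fun x hx y hy => ?_⟩
    · obtain ⟨x⟩ := hc.nonempty
      exact lt_of_le_of_lt (Nat.zero_le _) x.2
    · have := hc.preconnected ⟨x, hx⟩ ⟨y, hy⟩
      rw [SimpleGraph.reachable_iff_reflTransGen] at this
      exact CIFFX.fwd h this
  · rintro ⟨hn, hc⟩
    have : Nonempty (Fin n) := ⟨⟨0, hn⟩⟩
    refine SimpleGraph.Connected.mk fun x y => ?_
    rw [SimpleGraph.reachable_iff_reflTransGen]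
    exact (CIFFX.bwd h x.2 (hc x x.2 y y.2)).2

end Pool.Agent.OGP
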