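import Pool.Agent.OGP.Stmts

/-!
# CLEN: the number of records
-/

namespace Pool.Agent.OGP

theorem clen_proof : Stmt_CLEN := by
  intro adj W π g hs hW harr a ha b hb hab
  have hinj : ∀ x ∈ W, ∀ y, π.idxOf x = π.idxOf y → x = y := fun x hx y h =>
    (List.idxOf_inj ((harr.mem x).2 hx)).1 h
  set L := (can adj W π g a b).2.1 with hL
  have hmem : ∀ r ∈ L, r.1.1 ∈ W ∧ r.1.2 ∈ W ∧ π.idxOf a < π.idxOf r.1.1 ∧
      π.idxOf r.1.1 < π.idxOf b ∧ adj r.1.1 r.1.2 = true ∧
      (π.idxOf r.1.2 < π.idxOf a ∨ π.idxOf b < π.idxOf r.1.2) ∧ r.2 = g (ed r.1.1 r.1.2) := by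
    intro r hr
    rw [hL] at hr
    simp only [can, btw] at hr
    rw [List.mem_flatMap] at hr
    obtain ⟨x, hx, hr⟩ := hr
    rw [List.mem_map] at hr
    obtain ⟨y, hy, rfl⟩ := hr
    rw [List.mem_filter, Bool.and_eq_true, decide_eq_true_eq, decide_eq_true_eq] at hx
    rw [List.mem_filter, Bool.and_eq_true, Bool.or_eq_true, decide_eq_true_eq,
      decide_eq_true_eq] at hy
    exact ⟨(harr.mem x).1 hx.1, hy.1, hx.2.1, hx.2.2, hy.2.1, hy.2.2, rfl⟩
  have hnd : L.Nodup := by
    rw [hL]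
    simp only [can]
    rw [List.nodup_flatMap]
    constructor
    · intro x _
      refine List.Nodup.map ?_ (hW.filter _)
      intro y y' h
      simp only [Prod.mk.injEq] at h
      exact h.1.2
    · have : (btw π a b).Nodup := harr.nodup.filter _
      refine List.Pairwise.imp ?_ this
      intro x x' hxx r hr hr'
      rw [List.mem_map] at hr hr'
      obtain ⟨y, -, rfl⟩ := hr
      obtain ⟨y', -, h⟩ := hr'
      simp only [Prod.mk.injEq] at h
      exact hxx h.1.1.symm
  rw [← List.toFinset_card_of_nodup hnd]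
  refine Finset.card_le_card_of_injOn (fun r => ed (π.idxOf r.1.1) (π.idxOf r.1.2)) ?_ ?_
  · intro r hr
    rw [Finset.mem_coe, List.mem_toFinset] at hr
    obtain ⟨h1, h2, h3, h4, h5, h6, -⟩ := hmem r hr
    rw [Finset.mem_coe, thru, Finset.mem_filter]
    constructor
    · rw [PE, Finset.mem_image]
      rcases h6 with h6 | h6
      · refine ⟨(r.1.2, r.1.1), ?_, ?_⟩
        · rw [Finset.mem_filter, Finset.mem_product, List.mem_toFinset, List.mem_toFinset]
          exact ⟨⟨h2, h1⟩, by rw [hs]; exact h5, by simp only; omega⟩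
        · simp only [ed]
          rw [min_eq_right (by omega), max_eq_left (by omega)]
      · refine ⟨(r.1.1, r.1.2), ?_, ?_⟩
        · rw [Finset.mem_filter, Finset.mem_product, List.mem_toFinset, List.mem_toFinset]
          exact ⟨⟨h1, h2⟩, h5, by simp only; omega⟩
        · simp only [ed]
          rw [min_eq_left (by omega), max_eq_right (by omega)]
    · simp only [Alt, ed]
      omega
  · intro r hr r' hr' h
    rw [Finset.mem_coe, List.mem_toFinset] at hr hr'
    obtain ⟨h1, h2, h3, h4, h5, h6, h7⟩ := hmem r hr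
    obtain ⟨k1, k2, k3, k4, k5, k6, k7⟩ := hmem r' hr'
    simp only [ed, Prod.mk.injEq] at h
    have e1 : π.idxOf r.1.1 = π.idxOf r'.1.1 := by omega
    have e2 : π.idxOf r.1.2 = π.idxOf r'.1.2 := by omega
    have f1 := hinj _ h1 _ e1
    have f2 := hinj _ h2 _ e2
    have f3 : r.1 = r'.1 := Prod.ext f1 f2
    refine Prod.ext f3 ?_
    rw [h7, k7, f3]

end Pool.Agent.OGP
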