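import Pool.Agent.OGP.Stmts

/-!
# The canonical states of a drawing merge: sets and records
-/

namespace Pool.Agent.OGP

namespace CMAX

lemma ed_comm (u v : ℕ) : ed u v = ed v u := by
  unfold ed
  rw [min_comm, max_comm]

/-- Membership in the set of a canonical state. -/
lemma mem_set (adj : ℕ → ℕ → Bool) (W π : List ℕ) (g : ℕ × ℕ → ℕ × ℕ) (a b z : ℕ) :
    z ∈ (can adj W π g a b).2.2 ↔ z ∈ W ∧ π.idxOf a < π.idxOf z ∧ π.idxOf z < π.idxOf b := by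
  simp [can]

/-- Membership in the list of records of a canonical state. -/
lemma mem_rec (adj : ℕ → ℕ → Bool) (W π : List ℕ) (g : ℕ × ℕ → ℕ × ℕ) (a b x y : ℕ)
    (t : ℕ × ℕ) :
    ((x, y), t) ∈ (can adj W π g a b).2.1 ↔ (x ∈ π ∧ π.idxOf a < π.idxOf x ∧
      π.idxOf x < π.idxOf b) ∧ y ∈ W ∧ adj x y = true ∧
      (π.idxOf y < π.idxOf a ∨ π.idxOf b < π.idxOf y) ∧ t = g (ed x y) := by
  unfold can btw
  simp only [List.mem_flatMap, List.mem_filter, List.mem_map, Bool.and_eq_true, Bool.or_eq_true,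
    decide_eq_true_eq, Prod.mk.injEq]
  constructor
  · rintro ⟨x', ⟨h1, h2, h3⟩, y', ⟨h4, h5, h6⟩, ⟨h7, h8⟩, h9⟩
    subst h7 h8 h9
    exact ⟨⟨h1, h2, h3⟩, h4, h5, h6, rfl⟩
  · rintro ⟨⟨h1, h2, h3⟩, h4, h5, h6, h7⟩
    exact ⟨x, ⟨h1, h2, h3⟩, y, ⟨h4, h5, h6⟩, ⟨rfl, rfl⟩, h7.symm⟩

/-- Positions are injective. -/
lemma idx_inj {adj : ℕ → ℕ → Bool} {W π : List ℕ} {g : ℕ × ℕ → ℕ × ℕ} (h : Arr adj W π g)
    {x y : ℕ} (hx : x ∈ W) (he : π.idxOf x = π.idxOf y) : x = y :=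
  (List.idxOf_inj ((h.mem x).2 hx)).1 he

end CMAX

open CMAX

theorem cma_proof : Stmt_CMA := by
  intro adj W π g hsym hA a ha v hv b hb hav hvb
  have hπ : ∀ x, x ∈ π ↔ x ∈ W := hA.mem
  refine ⟨rfl, rfl, rfl, ?_, ?_, ?_, ?_, ?_, ?_, ?_, ?_, ?_, ?_, ?_, ?_, ?_, ?_, ?_, ?_⟩
  · intro h
    have h' : a = b := h
    rw [h'] at hav
    omega
  · intro h
    have h' := (mem_set adj W π g v b a).1 h
    omega
  · intro h
    have h' := (mem_set adj W π g a v b).1 h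
    omega
  · intro x hx hx'
    rw [mem_set] at hx hx'
    omega
  · intro x hx
    rw [mem_set] at hx
    rcases Nat.lt_trichotomy (π.idxOf x) (π.idxOf v) with h | h | h
    · left
      rw [mem_set]
      exact ⟨hx.1, hx.2.1, h⟩
    · right; left
      exact idx_inj hA hx.1 h
    · right; right
      rw [mem_set]
      exact ⟨hx.1, h, hx.2.2⟩
  · rw [mem_set]
    exact ⟨hv, hav, hvb⟩
  · intro x hx
    rw [mem_set] at hx ⊢
    exact ⟨hx.1, hx.2.1, by omega⟩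
  · intro x hx
    rw [mem_set] at hx ⊢
    exact ⟨hx.1, by omega, hx.2.2⟩
  · -- con12
    rintro ⟨⟨x, y⟩, t⟩ hr hy
    rw [mem_rec] at hr
    simp only at hy ⊢
    rw [mem_set] at hy
    rw [mem_rec]
    obtain ⟨⟨h1, h2, h3⟩, h4, h5, h6, h7⟩ := hr
    refine ⟨⟨(hπ y).2 h4, hy.2.1, hy.2.2⟩, (hπ x).1 h1, ?_, ?_, ?_⟩
    · rw [hsym]; exact h5
    · left; exact h3
    · rw [ed_comm]; exact h7
  · -- con21
    rintro ⟨⟨x, y⟩, t⟩ hr hy
    rw [mem_rec] at hr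
    simp only at hy ⊢
    rw [mem_set] at hy
    rw [mem_rec]
    obtain ⟨⟨h1, h2, h3⟩, h4, h5, h6, h7⟩ := hr
    refine ⟨⟨(hπ y).2 h4, hy.2.1, hy.2.2⟩, (hπ x).1 h1, ?_, ?_, ?_⟩
    · rw [hsym]; exact h5
    · right; exact h2
    · rw [ed_comm]; exact h7
  · -- fwd
    rintro ⟨⟨x, y⟩, t⟩ hr
    rw [mem_rec] at hr
    obtain ⟨⟨h1, h2, h3⟩, h4, h5, h6, h7⟩ := hr
    rcases Nat.lt_trichotomy (π.idxOf x) (π.idxOf v) with h | h | h
    · left
      rw [mem_rec]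
      exact ⟨⟨h1, h2, h⟩, h4, h5, by omega, h7⟩
    · right; right
      have hxv : x = v := idx_inj hA ((hπ x).1 h1) h
      subst hxv
      exact ⟨rfl, h5, h4⟩
    · right; left
      rw [mem_rec]
      exact ⟨⟨h1, h, h3⟩, h4, h5, by omega, h7⟩
  · -- out
    rintro ⟨⟨x, y⟩, t⟩ hr
    rw [mem_rec] at hr
    obtain ⟨⟨h1, h2, h3⟩, h4, h5, h6, h7⟩ := hr
    refine ⟨?_, ?_, ?_⟩
    · intro h
      rw [mem_set] at h
      simp only at h
      omega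
    · intro h
      have h' : y = a := h
      rw [h'] at h6
      omega
    · intro h
      have h' : y = b := h
      rw [h'] at h6
      omega
  · -- bwd1
    rintro ⟨⟨x, y⟩, t⟩ hr hy hya hyb
    rw [mem_rec] at hr
    rw [mem_set] at hy
    obtain ⟨⟨h1, h2, h3⟩, h4, h5, h6, h7⟩ := hr
    rw [mem_rec]
    refine ⟨⟨h1, h2, by omega⟩, h4, h5, ?_, h7⟩
    have e1 : π.idxOf y ≠ π.idxOf a := fun h => hya (idx_inj hA h4 h)
    have e2 : π.idxOf y ≠ π.idxOf b := fun h => hyb (idx_inj hA h4 h)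
    by_contra hc
    exact hy ⟨h4, by simp only; omega, by simp only; omega⟩
  · -- bwd2
    rintro ⟨⟨x, y⟩, t⟩ hr hy hya hyb
    rw [mem_rec] at hr
    rw [mem_set] at hy
    obtain ⟨⟨h1, h2, h3⟩, h4, h5, h6, h7⟩ := hr
    rw [mem_rec]
    refine ⟨⟨h1, by omega, h3⟩, h4, h5, ?_, h7⟩
    have e1 : π.idxOf y ≠ π.idxOf a := fun h => hya (idx_inj hA h4 h)
    have e2 : π.idxOf y ≠ π.idxOf b := fun h => hyb (idx_inj hA h4 h)
    by_contra hc
    exact hy ⟨h4, by simp only; omega, by simp only; omega⟩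
  · -- bwdv
    intro y hyW hadj hy hya hyb
    rw [mem_set] at hy
    have e1 : π.idxOf y ≠ π.idxOf a := fun h => hya (idx_inj hA hyW h)
    have e2 : π.idxOf y ≠ π.idxOf b := fun h => hyb (idx_inj hA hyW h)
    refine ⟨((v, y), g (ed v y)), ?_, rfl⟩
    rw [mem_rec]
    refine ⟨⟨(hπ v).2 hv, hav, hvb⟩, hyW, hadj, ?_, rfl⟩
    by_contra hc
    exact hy ⟨hyW, by omega, by omega⟩
  · -- func
    rintro ⟨⟨x, y⟩, t⟩ hr ⟨⟨x', y'⟩, t'⟩ hr' he
    rw [mem_rec] at hr hr'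
    simp only [Prod.mk.injEq] at he
    obtain ⟨he1, he2⟩ := he
    subst he1 he2
    rw [hr.2.2.2.2, hr'.2.2.2.2]

end Pool.Agent.OGP
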