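import Pool.Agent.OGP.CMA

/-!
# The canonical states of a drawing merge: order and crossings
-/

namespace Pool.Agent.OGP

namespace CMCX

open CMAX

/-- Positions relative to the chord from `A` to `B`. -/
def P (A B z : ℕ) : ℕ := if A ≤ z ∧ z ≤ B then z - A else B - A + 1

lemma alt_of_P {A B u v x y : ℕ} (hAB : A < B)
    (h : Alt (P A B u) (P A B v) (P A B x) (P A B y)) : Alt u v x y := by
  unfold P Alt at h
  unfold Alt
  split_ifs at h <;> omega

lemma alt_mono {a b c d a' b' c' d' : ℕ}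
    (hac : a < c → a' < c') (had : a < d → a' < d') (hca : c < a → c' < a') (hda : d < a → d' < a')
    (hbc : b < c → b' < c') (hbd : b < d → b' < d') (hcb : c < b → c' < b') (hdb : d < b → d' < b')
    (h : Alt a b c d) : Alt a' b' c' d' := by
  unfold Alt at h ⊢
  omega

/-- The list of records is sorted. -/
lemma sorted_rec (adj : ℕ → ℕ → Bool) (W π : List ℕ) (g : ℕ × ℕ → ℕ × ℕ) (a b : ℕ)
    (hπ : π.Nodup) :
    (can adj W π g a b).2.1.Pairwise (fun r r' => π.idxOf r.1.1 ≤ π.idxOf r'.1.1) := by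
  have hs : (btw π a b).Pairwise (fun x x' => π.idxOf x ≤ π.idxOf x') := by
    unfold btw
    apply List.Pairwise.filter
    rw [List.pairwise_iff_getElem]
    intro i j hi hj hij
    rw [List.Nodup.idxOf_getElem hπ i hi, List.Nodup.idxOf_getElem hπ j hj]
    exact hij.le
  have key : ∀ l : List ℕ, l.Pairwise (fun x x' => π.idxOf x ≤ π.idxOf x') →
      (l.flatMap fun x => (W.filter fun y => adj x y && (decide (π.idxOf y < π.idxOf a) ||
        decide (π.idxOf b < π.idxOf y))).map fun y => ((x, y), g (ed x y))).Pairwise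
        (fun r r' : Rec => π.idxOf r.1.1 ≤ π.idxOf r'.1.1) := by
    intro l
    induction l with
    | nil => intro _; simp
    | cons x l ih =>
      intro hl
      rw [List.pairwise_cons] at hl
      rw [List.flatMap_cons, List.pairwise_append]
      refine ⟨?_, ih hl.2, ?_⟩
      · rw [List.pairwise_map]
        apply List.pairwise_of_forall
        intro y y'
        exact le_refl _
      · intro r hr r' hr'
        rw [List.mem_map] at hr
        obtain ⟨y, hy, rfl⟩ := hr
        rw [List.mem_flatMap] at hr'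
        obtain ⟨x', hx', hr''⟩ := hr'
        rw [List.mem_map] at hr''
        obtain ⟨y', hy', rfl⟩ := hr''
        exact hl.1 x' hx'
  exact key _ hs

end CMCX

open CMAX CMCX

theorem cmc_proof (hLOC : Stmt_LOC) : Stmt_CMC := by
  intro adj W π g hsym hA a ha v hv b hb hav hvb
  have hπ : ∀ x, x ∈ π ↔ x ∈ W := hA.mem
  set A := π.idxOf a with hAd
  set B := π.idxOf b with hBd
  set V := π.idxOf v with hVd
  set s1 := can adj W π g a v with hs1
  set s2 := can adj W π g v b with hs2
  set s := can adj W π g a b with hs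
  set p : ℕ → ℕ := fun z => P A B (π.idxOf z) with hp
  have hAB : A < B := by omega
  have hpa : p a = 0 := by
    simp only [hp, P]
    rw [if_pos ⟨le_refl _, by omega⟩]; omega
  have hpv : p v = V - A := by
    simp only [hp, P]
    rw [if_pos ⟨by omega, by omega⟩]
  have hpb : p b = B - A := by
    simp only [hp, P]
    rw [if_pos ⟨by omega, by omega⟩]
  have hpin : ∀ z, A ≤ π.idxOf z → π.idxOf z ≤ B → p z = π.idxOf z - A := by
    intro z h1 h2
    simp only [hp, P]
    rw [if_pos ⟨h1, h2⟩]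
  have hpout : ∀ z, (π.idxOf z < A ∨ B < π.idxOf z) → p z = B - A + 1 := by
    intro z h1
    simp only [hp, P]
    rw [if_neg]
    omega
  have hple : ∀ z, p z ≤ B - A + 1 := by
    intro z
    simp only [hp, P]
    split_ifs <;> omega
  have hinj : ∀ z ∈ W, ∀ z' ∈ W, p z = p z' → p z ≤ B - A → z = z' := by
    intro z hz z' hz' he hle
    apply idx_inj hA hz
    have h1 : A ≤ π.idxOf z ∧ π.idxOf z ≤ B := by
      by_contra hc
      rw [hpout z (by omega)] at hle
      omega
    have h2 : A ≤ π.idxOf z' ∧ π.idxOf z' ≤ B := by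
      by_contra hc
      rw [hpout z' (by omega)] at he
      omega
    rw [hpin z h1.1 h1.2, hpin z' h2.1 h2.2] at he
    omega
  have hL := hLOC s1.2.1 s2.2.1 a v b p (V - A) (B - A) hpa hpv hpb (by omega) (by omega) hple
    (by
      rintro ⟨⟨x, y⟩, t⟩ hr
      rw [hs1, mem_rec] at hr
      obtain ⟨⟨h1, h2, h3⟩, h4, h5, h6, h7⟩ := hr
      simp only
      rw [hpin x (by omega) (by omega)]
      omega)
    (by
      rintro ⟨⟨x, y⟩, t⟩ hr
      rw [hs2, mem_rec] at hr
      obtain ⟨⟨h1, h2, h3⟩, h4, h5, h6, h7⟩ := hr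
      simp only
      rw [hpin x (by omega) (by omega)]
      omega)
    (by
      have h1 := sorted_rec adj W π g a v hA.nodup
      apply h1.imp_of_mem
      rintro ⟨⟨x, y⟩, t⟩ ⟨⟨x', y'⟩, t'⟩ hr hr' hle
      rw [mem_rec] at hr hr'
      obtain ⟨⟨h1, h2, h3⟩, h4, h5, h6, h7⟩ := hr
      obtain ⟨⟨h1', h2', h3'⟩, h4', h5', h6', h7'⟩ := hr'
      simp only at hle ⊢
      rw [hpin x (by omega) (by omega), hpin x' (by omega) (by omega)]
      omega)
    (by
      have h1 := sorted_rec adj W π g v b hA.nodup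
      apply h1.imp_of_mem
      rintro ⟨⟨x, y⟩, t⟩ ⟨⟨x', y'⟩, t'⟩ hr hr' hle
      rw [mem_rec] at hr hr'
      obtain ⟨⟨h1, h2, h3⟩, h4, h5, h6, h7⟩ := hr
      obtain ⟨⟨h1', h2', h3'⟩, h4', h5', h6', h7'⟩ := hr'
      simp only at hle ⊢
      rw [hpin x (by omega) (by omega), hpin x' (by omega) (by omega)]
      omega)
  -- local points
  have hlc : ∀ z, lc s1 s2 z = loc s1.2.1 s2.2.1 a v b z := fun z => rfl
  have hinn : ∀ (L : List Rec) (x : ℕ), inn L x = true ↔ ∃ r ∈ L, r.1.1 = x := by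
    intro L x
    unfold inn
    rw [List.any_eq_true]
    simp only [decide_eq_true_eq]
  -- a point with a neighbour that is not in the same open part is local
  have hlcl : ∀ x ∈ W, ∀ y ∈ W, adj x y = true →
      (A < π.idxOf x → π.idxOf x < V → (π.idxOf y < A ∨ V < π.idxOf y)) →
      (V < π.idxOf x → π.idxOf x < B → (π.idxOf y < V ∨ B < π.idxOf y)) →
      Lcl s1.2.1 s2.2.1 a v b p (B - A) x := by
    intro x hx y hy hxy h1 h2
    unfold Lcl
    by_cases e1 : π.idxOf x = A
    · left; exact idx_inj hA hx e1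
    by_cases e2 : π.idxOf x = V
    · right; left; exact idx_inj hA hx e2
    by_cases e3 : π.idxOf x = B
    · right; right; left; exact idx_inj hA hx e3
    by_cases e4 : A < π.idxOf x ∧ π.idxOf x < V
    · right; right; right; left
      rw [hinn]
      refine ⟨((x, y), g (ed x y)), ?_, rfl⟩
      rw [hs1, mem_rec]
      exact ⟨⟨(hπ x).2 hx, e4.1, e4.2⟩, hy, hxy, h1 e4.1 e4.2, rfl⟩
    by_cases e5 : V < π.idxOf x ∧ π.idxOf x < B
    · right; right; right; right; left
      rw [hinn]
      refine ⟨((x, y), g (ed x y)), ?_, rfl⟩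
      rw [hs2, mem_rec]
      exact ⟨⟨(hπ x).2 hx, e5.1, e5.2⟩, hy, hxy, h2 e5.1 e5.2, rfl⟩
    · right; right; right; right; right
      rw [hpout x (by omega)]
      omega
  have hmono : ∀ z ∈ W, ∀ z' ∈ W, Lcl s1.2.1 s2.2.1 a v b p (B - A) z →
      Lcl s1.2.1 s2.2.1 a v b p (B - A) z' → lc s1 s2 z < lc s1 s2 z' → p z < p z' := by
    intro z hz z' hz' h1 h2 hlt
    rw [hlc, hlc] at hlt
    by_contra hc
    rcases Nat.lt_or_ge (p z') (p z) with h | h
    · have := (hL z' z h2 h1).1 h
      omega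
    · have he : p z = p z' := by omega
      rcases Nat.lt_or_ge (B - A) (p z) with h3 | h3
      · have := (hL z z' h1 h2).2 h3 (by omega)
        omega
      · have := hinj z hz z' hz' he h3
        rw [this] at hlt
        omega
  constructor
  · -- srt
    have h1 := sorted_rec adj W π g a b hA.nodup
    apply h1.imp_of_mem
    rintro ⟨⟨x, y⟩, t⟩ ⟨⟨x', y'⟩, t'⟩ hr hr' hle
    rw [mem_rec] at hr hr'
    obtain ⟨⟨h1, h2, h3⟩, h4, h5, h6, h7⟩ := hr
    obtain ⟨⟨h1', h2', h3'⟩, h4', h5', h6', h7'⟩ := hr'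
    simp only at hle ⊢
    have hx : x ∈ W := (hπ x).1 h1
    have hx' : x' ∈ W := (hπ x').1 h1'
    have l1 := hlcl x hx y h4 h5 (by omega) (by omega)
    have l2 := hlcl x' hx' y' h4' h5' (by omega) (by omega)
    by_contra hc
    have h8 := hmono x' hx' x hx l2 l1 (by omega)
    rw [hpin x (by omega) (by omega), hpin x' (by omega) (by omega)] at h8
    omega
  · -- crs
    have hloc : ∀ r ∈ locs adj s1 s2 s, r.1.1 ∈ W ∧ r.1.2 ∈ W ∧ adj r.1.1 r.1.2 = true ∧
        r.2 = g (ed r.1.1 r.1.2) ∧ Lcl s1.2.1 s2.2.1 a v b p (B - A) r.1.1 ∧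
        Lcl s1.2.1 s2.2.1 a v b p (B - A) r.1.2 := by
      -- one edge
      have one : ∀ x y t, x ∈ W → y ∈ W → adj x y = true → t = g (ed x y) →
          ¬ (A < π.idxOf x ∧ π.idxOf x < V ∧ A ≤ π.idxOf y ∧ π.idxOf y ≤ V) →
          ¬ (V < π.idxOf x ∧ π.idxOf x < B ∧ V ≤ π.idxOf y ∧ π.idxOf y ≤ B) →
          ¬ (A < π.idxOf y ∧ π.idxOf y < V ∧ A ≤ π.idxOf x ∧ π.idxOf x ≤ V) →
          ¬ (V < π.idxOf y ∧ π.idxOf y < B ∧ V ≤ π.idxOf x ∧ π.idxOf x ≤ B) →
          x ∈ W ∧ y ∈ W ∧ adj x y = true ∧ t = g (ed x y) ∧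
          Lcl s1.2.1 s2.2.1 a v b p (B - A) x ∧ Lcl s1.2.1 s2.2.1 a v b p (B - A) y := by
        intro x y t hx hy hxy ht c1 c2 c3 c4
        refine ⟨hx, hy, hxy, ht, hlcl x hx y hy hxy (by omega) (by omega),
          hlcl y hy x hx (by rw [hsym]; exact hxy) (by omega) (by omega)⟩
      rintro ⟨⟨x, y⟩, t⟩ hr
      unfold locs at hr
      rw [List.mem_append, List.mem_append, List.mem_append, List.mem_append, List.mem_append,
        List.mem_filter] at hr
      rcases hr with hr | hr | ⟨hr, hrv⟩ | hr | hr | hr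
      · rw [hs1, mem_rec] at hr
        obtain ⟨⟨h1, h2, h3⟩, h4, h5, h6, h7⟩ := hr
        apply one x y t ((hπ x).1 h1) h4 h5 h7 <;> omega
      · rw [hs2, mem_rec] at hr
        obtain ⟨⟨h1, h2, h3⟩, h4, h5, h6, h7⟩ := hr
        apply one x y t ((hπ x).1 h1) h4 h5 h7 <;> omega
      · rw [hs, mem_rec] at hr
        obtain ⟨⟨h1, h2, h3⟩, h4, h5, h6, h7⟩ := hr
        have hxv : x = v := of_decide_eq_true hrv
        subst hxv
        apply one x y t ((hπ x).1 h1) h4 h5 h7 <;> omega
      · have hr' : ((x, y), t) ∈ (if adj a v = true then [((a, v), g (ed a v))] else []) := hr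
        split_ifs at hr' with hadj
        · rw [List.mem_singleton] at hr'
          simp only [Prod.mk.injEq] at hr'
          obtain ⟨⟨e1, e2⟩, e3⟩ := hr'
          subst e1 e2
          apply one x y t ha hv hadj e3 <;> omega
        · simp at hr'
      · have hr' : ((x, y), t) ∈ (if adj v b = true then [((v, b), g (ed v b))] else []) := hr
        split_ifs at hr' with hadj
        · rw [List.mem_singleton] at hr'
          simp only [Prod.mk.injEq] at hr'
          obtain ⟨⟨e1, e2⟩, e3⟩ := hr'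
          subst e1 e2
          apply one x y t hv hb hadj e3 <;> omega
        · simp at hr'
      · have hr' : ((x, y), t) ∈ (if adj a b = true then [((a, b), g (ed a b))] else []) := hr
        split_ifs at hr' with hadj
        · rw [List.mem_singleton] at hr'
          simp only [Prod.mk.injEq] at hr'
          obtain ⟨⟨e1, e2⟩, e3⟩ := hr'
          subst e1 e2
          apply one x y t ha hb hadj e3 <;> omega
        · simp at hr'
    intro r hr r' hr' halt
    obtain ⟨w1, w2, w3, w4, w5, w6⟩ := hloc r hr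
    obtain ⟨w1', w2', w3', w4', w5', w6'⟩ := hloc r' hr'
    rw [w4, w4']
    apply hA.ok _ w1 _ w2 _ w1' _ w2' w3 w3'
    apply alt_of_P hAB
    apply alt_mono _ _ _ _ _ _ _ _ halt
    · exact hmono _ w1 _ w1' w5 w5'
    · exact hmono _ w1 _ w2' w5 w6'
    · exact hmono _ w1' _ w1 w5' w5
    · exact hmono _ w2' _ w1 w6' w5
    · exact hmono _ w2 _ w1' w6 w5'
    · exact hmono _ w2 _ w2' w6 w6'
    · exact hmono _ w1' _ w2 w5' w6
    · exact hmono _ w2' _ w2 w6' w6

end Pool.Agent.OGP
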