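import Pool.Agent.OGP.Stmts

/-!
# CON: the crossing graph of a face is connected
-/

namespace Pool.Agent.OGP

namespace CONX

theorem alt_iff {a b c d : ℕ} (h1 : a < b) (h2 : c < d) :
    Alt a b c d ↔ (a < c ∧ c < b ∧ b < d) ∨ (c < a ∧ a < d ∧ d < b) := by
  simp only [Alt]
  omega

theorem ends1 {R p q x : ℕ} (hR : 5 ≤ R) (hp : p / 2 = 0) (hq : (q + 1) / 2 = R - 1)
    (hx : ¬ (p < x ∧ x < q)) (hpx : p % 2 = 1 → x ≠ p) (hqx : q % 2 = 1 → x ≠ q) :
    x = 0 ∨ 2 * R - 2 ≤ x := by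
  omega

theorem ends2 {p q x : ℕ} (hp : p / 2 ≤ 1) (hx : ¬ (p < x ∧ x < q)) (hpx : p % 2 = 1 → x ≠ p)
    (hx2 : x < q) : x ≤ 2 := by
  omega

end CONX

open CONX in
theorem con_proof : Stmt_CON := by
  intro R H hR hF hdeg C0 hC0 hne0 hcl0
  classical
  by_contra hneq0
  have hex : ∃ m : ℕ, ∃ C ⊆ H, C.Nonempty ∧
      (∀ f ∈ C, ∀ h ∈ H, Alt f.1 f.2 h.1 h.2 → h ∈ C) ∧ C ≠ H ∧
      ∃ p : ℕ, ∀ h ∈ C, p ≤ h.1 ∧ h.2 ≤ p + m :=
    ⟨2 * R, C0, hC0, hne0, hcl0, hneq0, 0, fun h hh =>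
      ⟨Nat.zero_le _, by have := (hF.rng h (hC0 hh)).2; omega⟩⟩
  obtain ⟨C, hC, hne, hcl, hneq, p, hp⟩ := Nat.find_spec hex
  have hmin : ∀ (m : ℕ) (D : Finset (ℕ × ℕ)), D ⊆ H → D.Nonempty →
      (∀ f ∈ D, ∀ h ∈ H, Alt f.1 f.2 h.1 h.2 → h ∈ D) → D ≠ H →
      ∀ p : ℕ, (∀ h ∈ D, p ≤ h.1 ∧ h.2 ≤ p + m) → Nat.find hex ≤ m := by
    intro m D h1 h2 h3 h4 p h5
    exact Nat.find_min' hex ⟨D, h1, h2, h3, h4, p, h5⟩
  generalize Nat.find hex = m at hp hmin
  -- ranges
  have hlt : ∀ h ∈ H, h.1 < h.2 := fun h hh => (hF.rng h hh).1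
  have hR2 : ∀ h ∈ H, h.2 < 2 * R := fun h hh => (hF.rng h hh).2
  have hnt : ∀ h ∈ H, NT R h := hF.nt
  -- p and q = p + m are attained
  have hpa : ∃ h ∈ C, h.1 = p := by
    by_contra hno
    push Not at hno
    obtain ⟨h0, hh0⟩ := hne
    have e0 := hp h0 hh0
    have e1 := hlt h0 (hC hh0)
    have := hmin (m - 1) C hC ⟨h0, hh0⟩ hcl hneq (p + 1) (fun h hh => by
      have e2 := hp h hh
      have e3 := hno h hh
      omega)
    omega
  have hqa : ∃ h ∈ C, h.2 = p + m := by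
    by_contra hno
    push Not at hno
    obtain ⟨h0, hh0⟩ := hne
    have e0 := hp h0 hh0
    have e1 := hlt h0 (hC hh0)
    have := hmin (m - 1) C hC ⟨h0, hh0⟩ hcl hneq p (fun h hh => by
      have e2 := hp h hh
      have e3 := hno h hh
      omega)
    omega
  obtain ⟨ha, haC, hap⟩ := hpa
  obtain ⟨hb, hbC, hbq⟩ := hqa
  have hnotC : ∀ g ∈ H, g ∉ C → ∀ h ∈ C, ¬ Alt h.1 h.2 g.1 g.2 := fun g hg hgC h hh hA =>
    hgC (hcl h hh g hg hA)
  -- (1) cover
  have hcover : ∀ z, p < z → z < p + m → ∃ h ∈ C, h.1 < z ∧ z < h.2 := by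
    intro z hz1 hz2
    by_contra hno
    push Not at hno
    have h1 := hmin (z - p) (C.filter fun h => h.2 ≤ z)
      ((Finset.filter_subset _ _).trans hC)
      ⟨ha, by
        rw [Finset.mem_filter]
        exact ⟨haC, hno ha haC (by omega)⟩⟩
      (by
        intro f hf h hh hA
        rw [Finset.mem_filter] at hf ⊢
        have hhC := hcl f hf.1 h hh hA
        refine ⟨hhC, hno h hhC ?_⟩
        rw [alt_iff (hlt f (hC hf.1)) (hlt h hh)] at hA
        omega)
      (by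
        intro heq
        apply hneq
        refine Finset.Subset.antisymm hC ?_
        rw [← heq]
        exact Finset.filter_subset _ _)
      p (by
        intro h hh
        rw [Finset.mem_filter] at hh
        have := hp h hh.1
        omega)
    omega
  -- (2) no end of an edge outside C strictly between
  have hout : ∀ g ∈ H, g ∉ C → ∀ z, (g.1 = z ∨ g.2 = z) → ¬ (p < z ∧ z < p + m) := by
    intro g hg hgC z hgz ⟨hz1, hz2⟩
    obtain ⟨h, hh, hh1, hh2⟩ := hcover z hz1 hz2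
    have hin : ∀ k ∈ H, k ∉ C → ((h.1 < k.1 ∧ k.1 < h.2) ∨ (h.1 < k.2 ∧ k.2 < h.2)) →
        h.1 ≤ k.1 ∧ k.2 ≤ h.2 := by
      intro k hk hkC hor
      have hA := hnotC k hk hkC h hh
      rw [alt_iff (hlt h (hC hh)) (hlt k hk)] at hA
      have := hlt k hk
      omega
    have h1 := hmin (h.2 - h.1) ((H \ C).filter fun k => h.1 ≤ k.1 ∧ k.2 ≤ h.2)
      ((Finset.filter_subset _ _).trans Finset.sdiff_subset)
      ⟨g, by
        rw [Finset.mem_filter, Finset.mem_sdiff]
        exact ⟨⟨hg, hgC⟩, hin g hg hgC (by omega)⟩⟩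
      (by
        intro f hf k hk hA
        rw [Finset.mem_filter, Finset.mem_sdiff] at hf ⊢
        have hfH := hf.1.1
        have hkC : k ∉ C := by
          intro hkC
          refine hnotC f hfH hf.1.2 k hkC ?_
          rw [alt_iff (hlt f hfH) (hlt k hk)] at hA
          rw [alt_iff (hlt k hk) (hlt f hfH)]
          omega
        refine ⟨⟨hk, hkC⟩, hin k hk hkC ?_⟩
        rw [alt_iff (hlt f hfH) (hlt k hk)] at hA
        omega)
      (by
        intro heq
        have : h ∈ (H \ C).filter fun k => h.1 ≤ k.1 ∧ k.2 ≤ h.2 := by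
          rw [heq]; exact hC hh
        rw [Finset.mem_filter, Finset.mem_sdiff] at this
        exact this.1.2 hh)
      h.1 (by
        intro k hk
        rw [Finset.mem_filter] at hk
        omega)
    have h2 := hp h hh
    have hcard := hdeg h (hC hh)
    obtain ⟨k, hk⟩ : (thru H h.1 h.2).Nonempty := by
      rw [← Finset.card_pos, hcard]; norm_num
    rw [thru, Finset.mem_filter] at hk
    have hkC := hcl h hh k hk.1 hk.2
    have h3 := hp k hkC
    have hA := hk.2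
    rw [alt_iff (hlt h (hC hh)) (hlt k hk.1)] at hA
    omega
  -- (3) odd ends
  have hodd1 : ∀ g ∈ H, g ∉ C → p % 2 = 1 → g.1 ≠ p ∧ g.2 ≠ p := by
    intro g hg hgC hpo
    refine ⟨fun h => hgC ?_, fun h => hgC ?_⟩
    · rw [hF.odd g hg ha (hC haC) p hpo (Or.inl h) (Or.inl hap)]; exact haC
    · rw [hF.odd g hg ha (hC haC) p hpo (Or.inr h) (Or.inl hap)]; exact haC
  have hodd2 : ∀ g ∈ H, g ∉ C → (p + m) % 2 = 1 → g.1 ≠ p + m ∧ g.2 ≠ p + m := by
    intro g hg hgC hpo
    refine ⟨fun h => hgC ?_, fun h => hgC ?_⟩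
    · rw [hF.odd g hg hb (hC hbC) (p + m) hpo (Or.inl h) (Or.inr hbq)]; exact hbC
    · rw [hF.odd g hg hb (hC hbC) (p + m) hpo (Or.inr h) (Or.inr hbq)]; exact hbC
  -- an edge outside C
  obtain ⟨g, hg, hgC⟩ : ∃ g ∈ H, g ∉ C := by
    by_contra hno
    push Not at hno
    exact hneq (Finset.Subset.antisymm hC hno)
  have hgo1 := hout g hg hgC g.1 (Or.inl rfl)
  have hgo2 := hout g hg hgC g.2 (Or.inr rfl)
  have hgp := hodd1 g hg hgC
  have hgq := hodd2 g hg hgC
  have hgl := hlt g hg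
  have hgR := hR2 g hg
  have hgn := hnt g hg
  have han := hnt ha (hC haC)
  have hal := hlt ha (hC haC)
  have har := hR2 hb (hC hbC)
  have hap2 := hp ha haC
  have hcross : ∀ (a b : ℕ), a < b → ∀ k ∈ thru H (2 * a) (2 * b),
      (k ∈ H ∧ ((2 * a < k.1 ∧ k.1 < 2 * b ∧ 2 * b < k.2) ∨
        (k.1 < 2 * a ∧ 2 * a < k.2 ∧ k.2 < 2 * b))) := by
    intro a b hab k hk
    rw [thru, Finset.mem_filter] at hk
    refine ⟨hk.1, ?_⟩
    have hA := hk.2
    rwa [alt_iff (by omega) (hlt k hk.1)] at hA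
  have hempty : ∀ (a b : ℕ), a + 2 ≤ b → b < R → ¬ (a = 0 ∧ b = R - 1) →
      (∀ k ∈ H, ¬ ((2 * a < k.1 ∧ k.1 < 2 * b ∧ 2 * b < k.2) ∨
        (k.1 < 2 * a ∧ 2 * a < k.2 ∧ k.2 < 2 * b))) → False := by
    intro a b h1 h2 h3 h4
    have h5 := hF.two a b h1 h2 h3
    obtain ⟨k, hk⟩ : (thru H (2 * a) (2 * b)).Nonempty := by
      rw [← Finset.card_pos]; omega
    have h6 := hcross a b (by omega) k hk
    exact h4 k h6.1 h6.2
  unfold NT at hgn han
  by_cases hq : p + m ≤ 2 * R - 2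
  · by_cases c1 : p / 2 + 2 ≤ (p + m + 1) / 2
    · by_cases c2 : p / 2 = 0 ∧ (p + m + 1) / 2 = R - 1
      · have f1 := ends1 hR c2.1 c2.2 hgo1 (fun h => (hgp h).1) (fun h => (hgq h).1)
        have f2 := ends1 hR c2.1 c2.2 hgo2 (fun h => (hgp h).2) (fun h => (hgq h).2)
        clear hgo1 hgo2 hgp hgq han hap2 har
        omega
      · refine hempty (p / 2) ((p + m + 1) / 2) c1 (by omega) c2 (fun k hk hA => ?_)
        by_cases hkC : k ∈ C
        · have := hp k hkC
          omega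
        · have e1 := hout k hk hkC k.1 (Or.inl rfl)
          have e2 := hout k hk hkC k.2 (Or.inr rfl)
          have e3 := hodd1 k hk hkC
          have e4 := hodd2 k hk hkC
          have e5 := hlt k hk
          omega
    · omega
  · by_cases c1 : 2 ≤ p / 2
    · by_cases c2 : p / 2 = R - 1
      · omega
      · refine hempty 0 (p / 2) (by omega) (by omega) (by omega) (fun k hk hA => ?_)
        by_cases hkC : k ∈ C
        · have := hp k hkC
          omega
        · have e1 := hout k hk hkC k.1 (Or.inl rfl)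
          have e2 := hout k hk hkC k.2 (Or.inr rfl)
          have e3 := hodd1 k hk hkC
          have e4 := hodd2 k hk hkC
          have e5 := hlt k hk
          have e6 := hR2 k hk
          omega
    · have g2 : g.2 < p + m := by
        have := (hgq (by omega)).2
        omega
      have f1 := ends2 (by omega) hgo1 (fun h => (hgp h).1) (by omega)
      have f2 := ends2 (by omega) hgo2 (fun h => (hgp h).2) g2
      clear hgo1 hgo2 hgp hgq han hap2 har
      omega

end Pool.Agent.OGP
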