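import Pool.Agent.OGP.Stmts

/-!
# CONS: the connectivity test
-/

set_option autoImplicit false

namespace Pool.Agent.OGP

open Relation in
theorem cons_proof (hR : Stmt_RSPEC) : Stmt_CONS := by
  classical
  intro M n hn hsym
  have hspec := (hR M [] (List.range n) [0] n List.nodup_range
    (by rw [List.length_range])).1
  have hrel : (fun a b => ent M a b = true ∧ a ∈ List.range n ∧ b ∈ List.range n ∧
      ∀ r ∈ ([] : List Rec), r.1 ≠ (a, b) ∧ r.1 ≠ (b, a)) =
      fun a b => ent M a b = true ∧ a ∈ {x : ℕ | x < n} ∧ b ∈ {x : ℕ | x < n} := by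
    funext a b
    rw [List.mem_range, List.mem_range]
    simp
  rw [hrel] at hspec
  have hsymm : ∀ x y, Reach (ent M) {x : ℕ | x < n} x y → Reach (ent M) {x : ℕ | x < n} y x := by
    intro x y h
    unfold Reach at h ⊢
    induction h with
    | refl => exact ReflTransGen.refl
    | tail _ hbc ih => exact ReflTransGen.head ⟨by rw [hsym]; exact hbc.1, hbc.2.2, hbc.2.1⟩ ih
  have hmem : connB M n = true ↔ ∀ w, w < n → Reach (ent M) {x : ℕ | x < n} 0 w := by
    unfold connB memb
    rw [List.all_eq_true]
    simp only [List.mem_range, List.any_eq_true, decide_eq_true_eq, exists_eq_right]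
    refine forall_congr' fun w => forall_congr' fun hw => ?_
    rw [hspec w]
    constructor
    · rintro ⟨-, x, hx, -, h3⟩
      rw [List.mem_singleton] at hx
      rw [hx] at h3
      exact h3
    · intro h
      exact ⟨List.mem_range.2 hw, 0, List.mem_singleton.2 rfl, List.mem_range.2 hn, h⟩
  rw [hmem]
  constructor
  · intro h x hx y hy
    exact (hsymm _ _ (h x hx)).trans (h y hy)
  · intro h w hw
    exact h 0 hn w hw

end Pool.Agent.OGP
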