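import Pool.Agent.OGP.Stmts

/-!
DECO: coding and decoding.
-/

set_option linter.unusedVariables false

namespace Pool.Agent.OGP

open Pool.Agent.Bx81 (seg unseg rowsOf seg_unseg exists_unseg rowsOf_length)

namespace DECOX

theorem encode_eq {n : ℕ} (G : SimpleGraph (Fin n)) : encode G = unseg (rowsOf G) [] := by
  classical
  unfold encode unseg rowsOf
  rw [List.map_nil, List.append_nil, List.flatMap_map]
  congr 1
  funext i
  rw [List.map_map]
  rfl

theorem seg_encode {n : ℕ} (G : SimpleGraph (Fin n)) : seg (encode G) = rowsOf G ++ [[]] := by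
  rw [encode_eq, seg_unseg]

open Classical in
theorem row_get {n : ℕ} (G : SimpleGraph (Fin n)) (i : ℕ) (hi : i < n) :
    ((rowsOf G ++ [[]])[i]?).getD [] = (List.finRange n).map fun j => decide (G.Adj ⟨i, hi⟩ j) := by
  rw [List.getElem?_append_left (by rw [rowsOf_length]; exact hi),
    List.getElem?_eq_getElem (by rw [rowsOf_length]; exact hi)]
  simp only [rowsOf, List.getElem_map, List.getElem_finRange, Option.getD_some]
  rfl

theorem row_get' {n : ℕ} (G : SimpleGraph (Fin n)) (i : ℕ) (hi : n ≤ i) :
    ((rowsOf G ++ [[]])[i]?).getD [] = [] := by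
  rw [List.getElem?_append_right (by rw [rowsOf_length]; exact hi), rowsOf_length]
  rcases Nat.eq_zero_or_pos (i - n) with h | h
  · rw [h]; rfl
  · rw [List.getElem?_eq_none (by simp only [List.length_singleton]; omega)]
    rfl

theorem ent_iff {n : ℕ} (G : SimpleGraph (Fin n)) (i j : ℕ) :
    ent (rowsOf G ++ [[]]) i j = true ↔ ∃ (hi : i < n) (hj : j < n), G.Adj ⟨i, hi⟩ ⟨j, hj⟩ := by
  classical
  unfold ent
  by_cases hi : i < n
  · rw [row_get G i hi]
    by_cases hj : j < n
    · rw [List.getElem?_eq_getElem (by simpa using hj)]
      simp only [List.getElem_map, List.getElem_finRange, Option.getD_some, decide_eq_true_eq]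
      constructor
      · intro h
        exact ⟨hi, hj, h⟩
      · rintro ⟨_, _, h⟩
        exact h
    · rw [List.getElem?_eq_none (by simpa using hj)]
      simp [hj]
  · rw [row_get' G i (by omega)]
    simp [hi]

theorem ent_symm {n : ℕ} (G : SimpleGraph (Fin n)) (i j : ℕ) :
    ent (rowsOf G ++ [[]]) i j = ent (rowsOf G ++ [[]]) j i := by
  have h : ent (rowsOf G ++ [[]]) i j = true ↔ ent (rowsOf G ++ [[]]) j i = true := by
    rw [ent_iff, ent_iff]
    constructor
    · rintro ⟨h1, h2, h3⟩
      exact ⟨h2, h1, h3.symm⟩
    · rintro ⟨h1, h2, h3⟩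
      exact ⟨h2, h1, h3.symm⟩
  cases h1 : ent (rowsOf G ++ [[]]) i j <;> cases h2 : ent (rowsOf G ++ [[]]) j i <;>
    simp_all

theorem ent_self {n : ℕ} (G : SimpleGraph (Fin n)) (i : ℕ) :
    ent (rowsOf G ++ [[]]) i i = false := by
  rw [← Bool.not_eq_true, ent_iff]
  rintro ⟨h1, h2, h3⟩
  exact G.loopless.irrefl _ h3

end DECOX

open DECOX

theorem deco_proof : Stmt_DECO := by
  classical
  constructor
  · intro n G
    rw [seg_encode]
    refine ⟨by simp [rowsOf_length], ?_, fun i j => ent_iff G i j⟩
    unfold chkM
    simp only [Bool.and_eq_true, Bool.not_eq_true', List.all_eq_true, List.mem_range,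
      decide_eq_true_eq]
    constructor
    · rw [List.getElem?_append_right (by rw [rowsOf_length]), rowsOf_length]
      simp
    · intro i hi
      refine ⟨?_, ent_self G i, fun j hj => ent_symm G i j⟩
      rw [row_get G i hi]
      simp
  · intro w hw
    obtain ⟨rows, bits, rfl⟩ := exists_unseg w
    set n := rows.length with hn
    set s := seg (unseg rows bits) with hs
    have hs' : s = rows ++ [bits] := seg_unseg rows bits
    have hsl : s.length - 1 = n := by rw [hs']; simp [hn]
    rw [hsl] at hw
    unfold chkM at hw
    simp only [Bool.and_eq_true, Bool.not_eq_true', List.all_eq_true, List.mem_range,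
      decide_eq_true_eq] at hw
    obtain ⟨c0, c1⟩ := hw
    have hbits : bits = [] := by
      have : (s[n]?).getD [true] = bits := by rw [hs', hn]; simp
      rw [this] at c0
      exact List.isEmpty_iff.1 c0
    let G : SimpleGraph (Fin n) :=
      { Adj := fun i j => ent s i j = true
        symm := ⟨fun i j h => by rw [(c1 j j.isLt).2.2 i i.isLt]; exact h⟩
        loopless := ⟨fun i h => by rw [(c1 i i.isLt).2.1] at h; exact absurd h (by simp)⟩ }
    have hrows : rowsOf G = rows := by
      apply List.ext_getElem
      · rw [rowsOf_length]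
      · intro i h1 h2
        have hi : i < n := h2
        have e1 : (s[i]?).getD [] = rows[i] := by
          rw [hs', List.getElem?_append_left h2, List.getElem?_eq_getElem h2]
          rfl
        have e2 : rows[i].length = n := by rw [← e1]; exact (c1 i hi).1
        apply List.ext_getElem
        · simp [rowsOf, e2]
        · intro j h3 h4
          have hj : j < n := by omega
          simp only [rowsOf, List.getElem_map, List.getElem_finRange]
          have e3 : ent s i j = rows[i][j] := by
            unfold ent
            rw [e1, List.getElem?_eq_getElem h4]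
            rfl
          rw [← e3]
          show decide (ent s i j = true) = ent s i j
          cases ent s i j <;> rfl
    refine ⟨n, G, ?_⟩
    rw [encode_eq, hrows, hbits]

end Pool.Agent.OGP
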