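import Pool.Agent.OGP.Stmts
import Mathlib.Algebra.Order.BigOperators.Group.Finset
import Mathlib.Data.Finset.Sigma

/-!
# Every edge of a face crosses exactly two others
-/

namespace Pool.Agent.OGP

namespace DEGX

theorem sub_of {H : Finset (ℕ × ℕ)} {x y a b : ℕ}
    (h : ∀ e ∈ H, Alt a b e.1 e.2 → Alt x y e.1 e.2) : thru H a b ⊆ thru H x y := by
  intro e he
  unfold thru at he ⊢
  rw [Finset.mem_filter] at he ⊢
  exact ⟨he.1, h e he.1 he.2⟩

theorem lower {R : ℕ} {H : Finset (ℕ × ℕ)} (hR : 5 ≤ R) (hF : Face R H) {f : ℕ × ℕ} (hf : f ∈ H) :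
    2 ≤ (thru H f.1 f.2).card := by
  obtain ⟨r1, r2⟩ := hF.rng f hf
  have hnt := hF.nt f hf
  unfold NT at hnt
  obtain ⟨n1, n2, n3, n4⟩ := hnt
  have hodd : ∀ e ∈ H, (f.1 % 2 = 1 → (e.1 = f.1 ∨ e.2 = f.1) → e = f) ∧
      (f.2 % 2 = 1 → (e.1 = f.2 ∨ e.2 = f.2) → e = f) := fun e he =>
    ⟨fun h1 h2 => hF.odd e he f hf f.1 h1 h2 (Or.inl rfl),
     fun h1 h2 => hF.odd e he f hf f.2 h1 h2 (Or.inr rfl)⟩
  have hodd' : ∀ e ∈ H, (f.1 % 2 = 1 → (e.1 = f.1 ∨ e.2 = f.1) → e.1 = f.1 ∧ e.2 = f.2) ∧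
      (f.2 % 2 = 1 → (e.1 = f.2 ∨ e.2 = f.2) → e.1 = f.1 ∧ e.2 = f.2) := fun e he =>
    ⟨fun h1 h2 => by rw [(hodd e he).1 h1 h2]; exact ⟨rfl, rfl⟩,
     fun h1 h2 => by rw [(hodd e he).2 h1 h2]; exact ⟨rfl, rfl⟩⟩
  by_cases c1 : (f.1 + 1) / 2 + 2 ≤ f.2 / 2
  · have h2 := hF.two ((f.1 + 1) / 2) (f.2 / 2) c1 (by omega) (by omega)
    refine h2.trans (Finset.card_le_card (sub_of ?_))
    intro e he hA
    have ho := hodd' e he
    have hr := hF.rng e he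
    unfold Alt at hA ⊢
    omega
  · by_cases c2 : f.2 ≤ 2 * R - 2
    · have h2 := hF.two (f.1 / 2) ((f.2 + 1) / 2) (by omega) (by omega) (by omega)
      refine h2.trans (Finset.card_le_card (sub_of ?_))
      intro e he hA
      have ho := hodd' e he
      have hr := hF.rng e he
      unfold Alt at hA ⊢
      omega
    · have h2 := hF.two 0 (f.1 / 2) (by omega) (by omega) (by omega)
      refine h2.trans (Finset.card_le_card (sub_of ?_))
      intro e he hA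
      have ho := hodd' e he
      have hr := hF.rng e he
      unfold Alt at hA ⊢
      omega

theorem upper {H : Finset (ℕ × ℕ)} (hG : Gapped H) :
    ∑ f ∈ H, (thru H f.1 f.2).card ≤ ∑ _f ∈ H, 2 := by
  obtain ⟨g, hg⟩ := hG
  rw [← Finset.card_sigma H (fun f => thru H f.1 f.2)]
  have hsub : (H.sigma fun f => thru H f.1 f.2) ⊆
      (H.image fun e => (⟨e, g e⟩ : Σ _ : ℕ × ℕ, ℕ × ℕ)) ∪ (H.image fun e => ⟨g e, e⟩) := by
    rintro ⟨e, f⟩ hp
    rw [Finset.mem_sigma] at hp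
    obtain ⟨he, hf⟩ := hp
    unfold thru at hf
    rw [Finset.mem_filter] at hf
    rw [Finset.mem_union, Finset.mem_image, Finset.mem_image]
    rcases hg e he f hf.1 hf.2 with h | h
    · left; exact ⟨e, he, by rw [h]⟩
    · right; exact ⟨f, hf.1, by rw [h]⟩
  refine (Finset.card_le_card hsub).trans ((Finset.card_union_le _ _).trans ?_)
  have h1 := Finset.card_image_le (s := H) (f := fun e => (⟨e, g e⟩ : Σ _ : ℕ × ℕ, ℕ × ℕ))
  have h2 := Finset.card_image_le (s := H) (f := fun e => (⟨g e, e⟩ : Σ _ : ℕ × ℕ, ℕ × ℕ))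
  rw [Finset.sum_const, smul_eq_mul]
  omega

end DEGX

theorem deg_proof : Stmt_DEG := by
  intro R H hR hF f hf
  by_contra hne
  have h1 := DEGX.lower hR hF hf
  have h2 := DEGX.upper hF.gap
  have h3 : ∑ _f ∈ H, 2 < ∑ f ∈ H, (thru H f.1 f.2).card :=
    Finset.sum_lt_sum (fun i hi => DEGX.lower hR hF hi) ⟨f, hf, by omega⟩
  omega

end Pool.Agent.OGP
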