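import Mathlib.Computability.TuringMachine.Computable
import Mathlib.Combinatorics.SimpleGraph.Connectivity.Connected
import Mathlib.Data.List.FinRange
import Mathlib.Data.Set.Card

/-!
# Outer `k`-gap planar graphs and the recognition problem

In a drawing (in the sense of the problem: adjacent edges do not cross, two edges cross at most
once) of a connected graph with all vertices on the outer face, the vertices have a circular order
along the outer face, and two edges cross if and only if their ends alternate in this order;
conversely every circular order comes from such a drawing (put the vertices on a circle and draw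
the edges as chords). Drawings are therefore represented by circular orders. The positions of the
vertices along the circle are natural numbers, read cyclically.
-/

namespace Pool.Agent.OGP

open Turing

/-- The pairs of positions `{a, b}` and `{c, d}` alternate: exactly one of `c, d` is strictly
between `a` and `b` and the other one is strictly outside. -/
def Alt (a b c d : ℕ) : Prop :=
  (min a b < c ∧ c < max a b ∧ (d < min a b ∨ max a b < d)) ∨
  (min a b < d ∧ d < max a b ∧ (c < min a b ∨ max a b < c))

instance (a b c d : ℕ) : Decidable (Alt a b c d) := by unfold Alt; infer_instance

/-- The edges `e` and `f` cross when the vertices are at the positions `pos` on the circle. -/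
def Crosses {V : Type} (pos : V → ℕ) (e f : Sym2 V) : Prop :=
  ∃ a b c d : V, e = s(a, b) ∧ f = s(c, d) ∧ Alt (pos a) (pos b) (pos c) (pos d)

/-- A cased drawing of `G` with all vertices on the outer face: the circular order of the vertices
(distinct positions on the circle) and, for every crossing, the choice of the lower one of the two
edges. -/
structure CasedOuterDrawing {V : Type} (G : SimpleGraph V) where
  /-- the positions of the vertices on the circle -/
  pos : V → ℕ
  /-- different vertices have different positions -/
  pos_injective : Function.Injective pos
  /-- `below e f`: at the crossing of `e` and `f` the edge `e` is the lower one -/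
  below : Sym2 V → Sym2 V → Prop
  /-- exactly one of two crossing edges is the lower one -/
  casing : ∀ e ∈ G.edgeSet, ∀ f ∈ G.edgeSet, Crosses pos e f → (below e f ↔ ¬ below f e)

/-- The gaps of the edge `e`: the edges that cross `e` and for which `e` is the lower edge. -/
def CasedOuterDrawing.gaps {V : Type} {G : SimpleGraph V} (D : CasedOuterDrawing G) (e : Sym2 V) :
    Set (Sym2 V) :=
  {f | f ∈ G.edgeSet ∧ Crosses D.pos e f ∧ D.below e f}

/-- `G` is outer `k`-gap planar: it has a cased drawing with all vertices on the outer face in which
every edge has at most `k` gaps. -/
def OuterGapPlanar {V : Type} (k : ℕ) (G : SimpleGraph V) : Prop :=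
  ∃ D : CasedOuterDrawing G, ∀ e ∈ G.edgeSet, (D.gaps e).encard ≤ k

open Classical in
/-- A graph as a string: the rows of the adjacency matrix, each followed by the separator
`none`. -/
noncomputable def encode {n : ℕ} (G : SimpleGraph (Fin n)) : List (Option Bool) :=
  (List.finRange n).flatMap fun i =>
    (List.finRange n).map (fun j => some (decide (G.Adj i j))) ++ [none]

/-- The recognition problem: the (codes of) connected outer 1-gap planar graphs. -/
def OuterOneGap : Set (List (Option Bool)) :=
  {w | ∃ (n : ℕ) (G : SimpleGraph (Fin n)), w = encode G ∧ G.Connected ∧ OuterGapPlanar 1 G}

/-- The class `P`: the language `L` is decided by a Turing machine in polynomial time. -/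
def InP {Γ : Type} (L : Set (List Γ)) : Prop :=
  ∃ f : List Γ → Bool,
    Nonempty (TM2ComputableInPolyTime (fun x : List Γ => x) (fun b : Bool => [b]) f) ∧
    ∀ x : List Γ, x ∈ L ↔ f x = true

end Pool.Agent.OGP
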