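import Pool.Agent.OGP.Stmts

/-!
# The diagonals at the vertex `0` of a face are crossed at most six times
-/

namespace Pool.Agent.OGP

namespace FACEX

/-- A set of pairwise crossing edges, each of which crosses exactly two edges, has at most three
elements. -/
lemma card_clique (H S : Finset (ℕ × ℕ)) (hS : S ⊆ H)
    (hdeg : ∀ f ∈ H, (thru H f.1 f.2).card = 2)
    (hcl : ∀ f ∈ S, ∀ h ∈ S, h ≠ f → Alt f.1 f.2 h.1 h.2) : S.card ≤ 3 := by
  classical
  rcases S.eq_empty_or_nonempty with h0 | ⟨f, hf⟩
  · simp [h0]
  · have h1 : S.erase f ⊆ thru H f.1 f.2 := by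
      intro h hh
      rw [Finset.mem_erase] at hh
      unfold thru
      rw [Finset.mem_filter]
      exact ⟨hS hh.2, hcl f hf h hh.2 hh.1⟩
    have h2 := Finset.card_le_card h1
    rw [hdeg f (hS hf), Finset.card_erase_of_mem hf] at h2
    omega

end FACEX

open FACEX

theorem face_proof (hDEG : Stmt_DEG) (hCON : Stmt_CON) (hSIDE : Stmt_SIDE) : Stmt_FACE := by
  classical
  intro R H hR hF b hb hbR
  have hth : ∀ h ∈ thru H 0 (2 * b), h ∈ H ∧ 0 < h.1 ∧ h.1 < 2 * b ∧ 2 * b < h.2 ∧
      h.2 < 2 * R := by
    intro h hh
    unfold thru at hh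
    rw [Finset.mem_filter] at hh
    obtain ⟨h1, h2⟩ := hh
    have h3 := hF.rng h h1
    unfold Alt at h2
    refine ⟨h1, ?_⟩
    omega
  rcases Nat.lt_or_ge R 5 with hR5 | hR5
  · -- the quadrangle
    have hR4 : R = 4 := by omega
    subst hR4
    have hb2 : b = 2 := by omega
    subst hb2
    have hcard : (thru H 0 (2 * 2)).card ≤ (({1, 3, 5, 7, 2} : Finset ℕ)).card := by
      apply Finset.card_le_card_of_injOn
        (fun h => if h.1 % 2 = 1 then h.1 else if h.2 % 2 = 1 then h.2 else 2)
      · intro h hh
        obtain ⟨h1, h2, h3, h4, h5⟩ := hth h hh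
        simp only [Finset.coe_insert, Finset.coe_singleton, Set.mem_insert_iff,
          Set.mem_singleton_iff]
        split_ifs <;> omega
      · intro h hh h' hh' he
        obtain ⟨h1, h2, h3, h4, h5⟩ := hth h hh
        obtain ⟨h1', h2', h3', h4', h5'⟩ := hth h' hh'
        have hnt := hF.nt h h1
        have hnt' := hF.nt h' h1'
        unfold NT at hnt hnt'
        simp only at he
        by_cases c1 : h.1 % 2 = 1
        · rw [if_pos c1] at he
          by_cases c1' : h'.1 % 2 = 1
          · rw [if_pos c1'] at he
            exact hF.odd h h1 h' h1' h.1 c1 (Or.inl rfl) (Or.inl he.symm)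
          · rw [if_neg c1'] at he
            by_cases c2' : h'.2 % 2 = 1
            · rw [if_pos c2'] at he
              exact hF.odd h h1 h' h1' h.1 c1 (Or.inl rfl) (Or.inr he.symm)
            · rw [if_neg c2'] at he
              omega
        · rw [if_neg c1] at he
          by_cases c2 : h.2 % 2 = 1
          · rw [if_pos c2] at he
            by_cases c1' : h'.1 % 2 = 1
            · rw [if_pos c1'] at he
              exact hF.odd h h1 h' h1' h.2 c2 (Or.inr rfl) (Or.inl he.symm)
            · rw [if_neg c1'] at he
              by_cases c2' : h'.2 % 2 = 1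
              · rw [if_pos c2'] at he
                exact hF.odd h h1 h' h1' h.2 c2 (Or.inr rfl) (Or.inr he.symm)
              · rw [if_neg c2'] at he
                omega
          · rw [if_neg c2] at he
            by_cases c1' : h'.1 % 2 = 1
            · rw [if_pos c1'] at he
              omega
            · rw [if_neg c1'] at he
              by_cases c2' : h'.2 % 2 = 1
              · rw [if_pos c2'] at he
                omega
              · apply Prod.ext <;> omega
    have h5 : (({1, 3, 5, 7, 2} : Finset ℕ)).card = 5 := by decide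
    omega
  · have hdeg := hDEG R H hR5 hF
    have hcon := hCON R H hR5 hF hdeg
    have hside := hSIDE H (fun h hh => (hF.rng h hh).1) hdeg hcon
    -- the two cliques
    set A := (thru H 0 (2 * b)).filter fun f =>
      ∀ h ∈ H, h ≠ f → ¬ Alt f.1 f.2 h.1 h.2 → f.1 ≤ h.1 ∧ h.2 ≤ f.2 with hA
    set B := (thru H 0 (2 * b)).filter fun f =>
      ¬ ∀ h ∈ H, h ≠ f → ¬ Alt f.1 f.2 h.1 h.2 → f.1 ≤ h.1 ∧ h.2 ≤ f.2 with hB
    have hAB : A.card + B.card = (thru H 0 (2 * b)).card :=
      Finset.card_filter_add_card_filter_not _
    have hA3 : A.card ≤ 3 := by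
      apply card_clique H A _ hdeg
      · intro f hf h hh hne
        rw [hA, Finset.mem_filter] at hf hh
        obtain ⟨h1, h2, h3, h4, h5⟩ := hth h hh.1
        obtain ⟨f1, f2, f3, f4, f5⟩ := hth f hf.1
        by_contra hna
        have e1 := hf.2 h h1 hne hna
        have hna' : ¬ Alt h.1 h.2 f.1 f.2 := by
          intro h6
          apply hna
          unfold Alt at h6 ⊢
          omega
        have e2 := hh.2 f f1 (Ne.symm hne) hna'
        apply hne
        apply Prod.ext <;> omega
      · intro f hf
        rw [hA, Finset.mem_filter] at hf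
        exact (hth f hf.1).1
    have hB3 : B.card ≤ 3 := by
      apply card_clique H B _ hdeg
      · intro f hf h hh hne
        rw [hB, Finset.mem_filter] at hf hh
        obtain ⟨h1, h2, h3, h4, h5⟩ := hth h hh.1
        obtain ⟨f1, f2, f3, f4, f5⟩ := hth f hf.1
        by_contra hna
        have hna' : ¬ Alt h.1 h.2 f.1 f.2 := by
          intro h6
          apply hna
          unfold Alt at h6 ⊢
          omega
        have e1 := ((hside f f1).resolve_right hf.2) h h1 hne hna
        have e2 := ((hside h h1).resolve_right hh.2) f f1 (Ne.symm hne) hna'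
        unfold Alt at hna
        omega
      · intro f hf
        rw [hB, Finset.mem_filter] at hf
        exact (hth f hf.1).1
    omega

end Pool.Agent.OGP
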