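import Pool.Agent.OGP.Stmts
import Mathlib.Data.Prod.Lex

/-!
# Module GIFF: cased drawings and gap functions
-/

namespace Pool.Agent.OGP

namespace GIFFX

theorem ed_comm (u v : ℕ) : ed u v = ed v u := by
  simp only [ed, min_comm, max_comm]

/-- An unordered pair of vertices as an ordered pair of numbers. -/
def toP {n : ℕ} : Sym2 (Fin n) → ℕ × ℕ :=
  Sym2.lift ⟨fun x y => ed x.1 y.1, fun x y => ed_comm x.1 y.1⟩

theorem toP_mk {n : ℕ} (x y : Fin n) : toP s(x, y) = ed x.1 y.1 := rfl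

theorem ed_inj {a b c d : ℕ} (h : ed a b = ed c d) : (a = c ∧ b = d) ∨ (a = d ∧ b = c) := by
  simp only [ed, Prod.mk.injEq] at h
  omega

theorem toP_inj {n : ℕ} {e f : Sym2 (Fin n)} (h : toP e = toP f) : e = f := by
  induction e using Sym2.ind with
  | _ a b =>
    induction f using Sym2.ind with
    | _ c d =>
      rw [toP_mk, toP_mk] at h
      rw [Sym2.eq_iff]
      rcases ed_inj h with ⟨h1, h2⟩ | ⟨h1, h2⟩
      · exact Or.inl ⟨Fin.ext h1, Fin.ext h2⟩
      · exact Or.inr ⟨Fin.ext h1, Fin.ext h2⟩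

theorem alt_symm {a b c d : ℕ} (h : Alt a b c d) : Alt c d a b := by
  unfold Alt at *; omega

theorem crosses_symm {V : Type} {pos : V → ℕ} {e f : Sym2 V} (h : Crosses pos e f) :
    Crosses pos f e := by
  obtain ⟨a, b, c, d, h1, h2, h3⟩ := h
  exact ⟨c, d, a, b, h2, h1, alt_symm h3⟩

theorem not_crosses_self {V : Type} {pos : V → ℕ} {e : Sym2 V} (h : Crosses pos e e) : False := by
  obtain ⟨a, b, c, d, h1, h2, h3⟩ := h
  rw [h1, Sym2.eq_iff] at h2
  unfold Alt at h3
  rcases h2 with ⟨rfl, rfl⟩ | ⟨rfl, rfl⟩ <;> omega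

theorem alt_of_crosses {V : Type} {pos : V → ℕ} {a b c d : V}
    (h : Crosses pos s(a, b) s(c, d)) : Alt (pos a) (pos b) (pos c) (pos d) := by
  obtain ⟨a', b', c', d', h1, h2, h3⟩ := h
  rw [Sym2.eq_iff] at h1 h2
  unfold Alt at *
  rcases h1 with ⟨rfl, rfl⟩ | ⟨rfl, rfl⟩ <;> rcases h2 with ⟨rfl, rfl⟩ | ⟨rfl, rfl⟩ <;> omega

open Classical in
/-- The gap function of a cased drawing. -/
noncomputable def gf {n : ℕ} {G : SimpleGraph (Fin n)} (D : CasedOuterDrawing G)
    (e : ℕ × ℕ) : ℕ × ℕ :=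
  if h : ∃ f e' : Sym2 (Fin n), toP e' = e ∧ f ∈ D.gaps e' then toP h.choose else (0, 0)

theorem gf_spec {n : ℕ} {G : SimpleGraph (Fin n)} (D : CasedOuterDrawing G)
    (hD : ∀ e ∈ G.edgeSet, (D.gaps e).encard ≤ 1) {e f : Sym2 (Fin n)} (he : e ∈ G.edgeSet)
    (hf : f ∈ D.gaps e) : gf D (toP e) = toP f := by
  classical
  have h : ∃ f e' : Sym2 (Fin n), toP e' = toP e ∧ f ∈ D.gaps e' := ⟨f, e, rfl, hf⟩
  unfold gf
  rw [dif_pos h]
  obtain ⟨e', h1, h2⟩ := h.choose_spec
  have := toP_inj h1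
  subst this
  have h3 := hD e' he
  rw [Set.encard_le_one_iff] at h3
  rw [h3 _ _ h2 hf]

end GIFFX

open GIFFX in
theorem giff_proof : Stmt_GIFF := by
  intro n G adj hadj
  constructor
  · rintro ⟨D, hD⟩
    refine ⟨fun x => if h : x < n then D.pos ⟨x, h⟩ else 0, gf D, ?_, ?_⟩
    · intro x hx y hy h
      have hx' : x < n := hx
      have hy' : y < n := hy
      simp only [hx', hy', dif_pos] at h
      have := D.pos_injective h
      simpa using this
    · intro u hu v hv x hx y hy h1 h2 hA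
      have hu' : u < n := hu
      have hv' : v < n := hv
      have hx' : x < n := hx
      have hy' : y < n := hy
      simp only [hu', hv', hx', hy', dif_pos] at hA
      obtain ⟨_, _, h1'⟩ := (hadj u v).1 h1
      obtain ⟨_, _, h2'⟩ := (hadj x y).1 h2
      have he : s((⟨u, hu'⟩ : Fin n), ⟨v, hv'⟩) ∈ G.edgeSet := h1'
      have hf : s((⟨x, hx'⟩ : Fin n), ⟨y, hy'⟩) ∈ G.edgeSet := h2'
      have hc : Crosses D.pos s((⟨u, hu'⟩ : Fin n), ⟨v, hv'⟩) s((⟨x, hx'⟩ : Fin n), ⟨y, hy'⟩) :=
        ⟨_, _, _, _, rfl, rfl, hA⟩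
      have hcase := D.casing _ he _ hf hc
      by_cases hb : D.below s((⟨u, hu'⟩ : Fin n), ⟨v, hv'⟩) s((⟨x, hx'⟩ : Fin n), ⟨y, hy'⟩)
      · left
        have := gf_spec D hD he (f := s((⟨x, hx'⟩ : Fin n), ⟨y, hy'⟩)) ⟨hf, hc, hb⟩
        exact this
      · right
        have hb' : D.below s((⟨x, hx'⟩ : Fin n), ⟨y, hy'⟩) s((⟨u, hu'⟩ : Fin n), ⟨v, hv'⟩) := by
          by_contra h
          exact hb (hcase.2 h)
        have := gf_spec D hD hf (f := s((⟨u, hu'⟩ : Fin n), ⟨v, hv'⟩)) ⟨he, crosses_symm hc, hb'⟩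
        exact this
  · rintro ⟨pos, g, hinj, hg⟩
    have key : ∀ e ∈ G.edgeSet, ∀ f ∈ G.edgeSet, Crosses (fun x : Fin n => pos x.1) e f →
        g (toP e) = toP f ∨ g (toP f) = toP e := by
      intro e he f hf hc
      induction e using Sym2.ind with
      | _ a b =>
        induction f using Sym2.ind with
        | _ c d =>
          have h := alt_of_crosses hc
          have h1 : adj a.1 b.1 = true := (hadj _ _).2 ⟨a.2, b.2, he⟩
          have h2 : adj c.1 d.1 = true := (hadj _ _).2 ⟨c.2, d.2, hf⟩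
          exact hg a.1 a.2 b.1 b.2 c.1 c.2 d.1 d.2 h1 h2 h
    refine ⟨⟨fun x => pos x.1, ?_, fun e f => g (toP e) = toP f ∧
      (g (toP f) = toP e → toLex (toP e) < toLex (toP f)), ?_⟩, ?_⟩
    · intro x y h
      exact Fin.ext (hinj x.1 x.2 y.1 y.2 h)
    · intro e he f hf hc
      have hne : toP e ≠ toP f := by
        intro h
        have := toP_inj h
        subst this
        exact not_crosses_self hc
      have hk := key e he f hf hc
      by_cases hP : g (toP e) = toP f
      · by_cases hQ : g (toP f) = toP e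
        · simp only [hP, hQ, true_and, true_implies, not_lt]
          constructor
          · intro h; exact h.le
          · intro h
            exact lt_of_le_of_ne h fun h' => hne (toLex.injective h')
        · simp only [hP, hQ, true_and, false_implies, false_and, not_false_eq_true]
      · have hQ : g (toP f) = toP e := hk.resolve_left hP
        simp only [hP, hQ, false_and, false_implies, true_and, not_true_eq_false]
    · intro e he
      rw [show ((1 : ℕ) : ℕ∞) = 1 from rfl, Set.encard_le_one_iff]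
      intro f f' hf hf'
      have h1 : g (toP e) = toP f := hf.2.2.1
      have h2 : g (toP e) = toP f' := hf'.2.2.1
      exact toP_inj (h1.symm.trans h2)

end Pool.Agent.OGP
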