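import Pool.Agent.OGP.Stmts
import Mathlib.Data.Set.Finite.Basic
import Mathlib.Order.Bounds.Basic
import Mathlib.Order.Interval.Finset.Nat
import Mathlib.Data.Set.Finite.Lattice

/-!
# OGP module GLUE: gluing at a common vertex
-/

set_option linter.unusedVariables false

namespace Pool.Agent.OGP

namespace GLUEX

lemma ed_mem (S : Set ℕ) (x y : ℕ) :
    ((ed x y).1 ∈ S ∧ (ed x y).2 ∈ S) ↔ (x ∈ S ∧ y ∈ S) := by
  unfold ed
  rcases le_total x y with h | h
  · simp only [min_eq_left h, max_eq_right h]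
  · simp only [min_eq_right h, max_eq_left h]
    tauto

lemma exists_bound (pos : ℕ → ℕ) (V : Set ℕ) (hV : V.Finite) : ∃ M, ∀ x ∈ V, pos x ≤ M := by
  refine ⟨hV.toFinset.sup pos, fun x hx => ?_⟩
  exact Finset.le_sup (f := pos) (hV.mem_toFinset.mpr hx)

end GLUEX

open GLUEX in
open Classical in
/-- module GLUE -/
theorem glue_proof (hR : Stmt_ROT) : Stmt_GLUE := by
  intro adj V₁ V₂ c hsym hf1 hf2 hc1 hc2 hcap hno h1 h2
  obtain ⟨q1, g1, hq1, hg1⟩ := h1
  obtain ⟨q2, g2, hq2, hg2⟩ := h2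
  obtain ⟨p1, p1c, p1pos, p1inj, p1alt⟩ := hR q1 V₁ c hf1 hc1 hq1
  obtain ⟨p2, p2c, p2pos, p2inj, p2alt⟩ := hR q2 V₂ c hf2 hc2 hq2
  obtain ⟨M, hM⟩ := exists_bound p1 V₁ hf1
  set pos : ℕ → ℕ := fun x => if x ∈ V₁ then p1 x else M + 1 + p2 x with hpos
  have hP1 : ∀ z ∈ V₁, pos z = p1 z ∧ pos z ≤ M := by
    intro z hz
    have : pos z = p1 z := by simp only [hpos, if_pos hz]
    exact ⟨this, this ▸ hM z hz⟩
  have hP2 : ∀ z ∈ V₂, (z = c ∧ pos z = 0 ∧ p2 z = 0) ∨
      (z ≠ c ∧ pos z = M + 1 + p2 z ∧ 0 < p2 z) := by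
    intro z hz
    by_cases hzc : z = c
    · left
      refine ⟨hzc, ?_, by rw [hzc]; exact p2c⟩
      rw [hzc]
      simp only [hpos, if_pos hc1]
      exact p1c
    · right
      have hz1 : z ∉ V₁ := fun h => hzc (hcap z h hz)
      exact ⟨hzc, by simp only [hpos, if_neg hz1], p2pos z hz hzc⟩
  have hedge : ∀ u ∈ V₁ ∪ V₂, ∀ v ∈ V₁ ∪ V₂, adj u v = true → ¬ (u ∈ V₁ ∧ v ∈ V₁) →
      u ∈ V₂ ∧ v ∈ V₂ := by
    intro u hu v hv huv hn
    by_cases hu1 : u ∈ V₁
    · have hv1 : v ∉ V₁ := fun h => hn ⟨hu1, h⟩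
      have hv2 : v ∈ V₂ := hv.resolve_left hv1
      have hvc : v ≠ c := fun h => hv1 (h ▸ hc1)
      by_cases huc : u = c
      · exact ⟨huc ▸ hc2, hv2⟩
      · exact absurd huv (by rw [hno u hu1 v hv2 huc hvc]; exact Bool.false_ne_true)
    · have hu2 : u ∈ V₂ := hu.resolve_left hu1
      have huc : u ≠ c := fun h => hu1 (h ▸ hc1)
      by_cases hv1 : v ∈ V₁
      · by_cases hvc : v = c
        · exact ⟨hu2, hvc ▸ hc2⟩
        · have := hno v hv1 u hu2 hvc huc
          rw [hsym] at this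
          exact absurd huv (by rw [this]; exact Bool.false_ne_true)
      · exact ⟨hu2, hv.resolve_left hv1⟩
  refine ⟨pos, fun e => if e.1 ∈ V₁ ∧ e.2 ∈ V₁ then g1 e else g2 e, ?_, ?_⟩
  · intro x hx y hy hxy
    by_cases hx1 : x ∈ V₁ <;> by_cases hy1 : y ∈ V₁
    · rw [(hP1 x hx1).1, (hP1 y hy1).1] at hxy
      exact p1inj x hx1 y hy1 hxy
    · have hy2 : y ∈ V₂ := hy.resolve_left hy1
      have h3 := (hP1 x hx1).2
      rcases hP2 y hy2 with h | h
      · exact absurd (h.1 ▸ hc1) hy1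
      · omega
    · have hx2 : x ∈ V₂ := hx.resolve_left hx1
      have h3 := (hP1 y hy1).2
      rcases hP2 x hx2 with h | h
      · exact absurd (h.1 ▸ hc1) hx1
      · omega
    · have hx2 : x ∈ V₂ := hx.resolve_left hx1
      have hy2 : y ∈ V₂ := hy.resolve_left hy1
      refine p2inj x hx2 y hy2 ?_
      rcases hP2 x hx2 with h | h
      · exact absurd (h.1 ▸ hc1) hx1
      · rcases hP2 y hy2 with h' | h'
        · exact absurd (h'.1 ▸ hc1) hy1
        · omega
  · intro u hu v hv x hx y hy huv hxy halt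
    simp only
    by_cases h1 : u ∈ V₁ ∧ v ∈ V₁
    · by_cases h2 : x ∈ V₁ ∧ y ∈ V₁
      · rw [if_pos ((ed_mem V₁ u v).mpr h1), if_pos ((ed_mem V₁ x y).mpr h2)]
        rw [(hP1 u h1.1).1, (hP1 v h1.2).1, (hP1 x h2.1).1, (hP1 y h2.2).1] at halt
        exact hg1 u h1.1 v h1.2 x h2.1 y h2.2 huv hxy
          (p1alt u h1.1 v h1.2 x h2.1 y h2.2 halt)
      · exfalso
        obtain ⟨hx2, hy2⟩ := hedge x hx y hy hxy h2
        have a1 := (hP1 u h1.1).2
        have a2 := (hP1 v h1.2).2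
        have a3 := hP2 x hx2
        have a4 := hP2 y hy2
        simp only [Alt] at halt
        omega
    · obtain ⟨hu2, hv2⟩ := hedge u hu v hv huv h1
      by_cases h2 : x ∈ V₁ ∧ y ∈ V₁
      · exfalso
        have a1 := (hP1 x h2.1).2
        have a2 := (hP1 y h2.2).2
        have a3 := hP2 u hu2
        have a4 := hP2 v hv2
        simp only [Alt] at halt
        omega
      · obtain ⟨hx2, hy2⟩ := hedge x hx y hy hxy h2
        rw [if_neg (fun h => h1 ((ed_mem V₁ u v).mp h)),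
          if_neg (fun h => h2 ((ed_mem V₁ x y).mp h))]
        have halt2 : Alt (p2 u) (p2 v) (p2 x) (p2 y) := by
          have a1 := hP2 u hu2
          have a2 := hP2 v hv2
          have a3 := hP2 x hx2
          have a4 := hP2 y hy2
          simp only [Alt] at halt ⊢
          omega
        exact hg2 u hu2 v hv2 x hx2 y hy2 huv hxy (p2alt u hu2 v hv2 x hx2 y hy2 halt2)

end Pool.Agent.OGP
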