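import Pool.Agent.OGP.Stmts

/-!
# Squad OGP, module KB: the number of components of a block without two of its vertices
-/

set_option linter.unusedVariables false

namespace Pool.Agent.OGP

namespace KBX

theorem exists_cross {r : ℕ → ℕ → Prop} {z x : ℕ} (h : Relation.ReflTransGen r z x)
    (Q : ℕ → Prop) (hz : Q z) (hx : ¬ Q x) :
    ∃ s t, Relation.ReflTransGen r z s ∧ r s t ∧ Q s ∧ ¬ Q t := by
  induction h with
  | refl => exact absurd hz hx
  | @tail y x h1 h2 ih =>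
    by_cases hy : Q y
    · exact ⟨y, x, h1, h2, hy, hx⟩
    · exact ih hy

theorem cross {adj : ℕ → ℕ → Bool} {S : Set ℕ} {z x c : ℕ} (h : Reach adj S z x)
    (hxc : adj x c = true) (Q : ℕ → Prop) (hz : Q z) (hc : ¬ Q c) :
    ∃ s t, Reach adj S z s ∧ (Reach adj S z t ∨ t = c) ∧ adj s t = true ∧ Q s ∧ ¬ Q t := by
  by_cases hx : Q x
  · exact ⟨x, c, h, Or.inr rfl, hxc, hx, hc⟩
  · obtain ⟨s, t, h1, h2, h3, h4⟩ := exists_cross h Q hz hx
    exact ⟨s, t, h1, Or.inl (h1.tail h2), h2.1, h3, h4⟩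

theorem mem_of_reach {adj : ℕ → ℕ → Bool} {S : Set ℕ} {z x : ℕ} (h : Reach adj S z x)
    (hz : z ∈ S) : x ∈ S := by
  induction h with
  | refl => exact hz
  | tail _ h2 _ => exact h2.2.2

theorem reach_symm {adj : ℕ → ℕ → Bool} (hs : ∀ i j, adj i j = adj j i) {S : Set ℕ} {z x : ℕ}
    (h : Reach adj S z x) : Reach adj S x z := by
  induction h with
  | refl => exact Relation.ReflTransGen.refl
  | tail _ h2 ih => exact Relation.ReflTransGen.head ⟨by rw [hs]; exact h2.1, h2.2.2, h2.2.1⟩ ih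

theorem nbr {adj : ℕ → ℕ → Bool} {W : List ℕ} {a b z : ℕ} (hz : z ∈ W ∧ z ≠ a ∧ z ≠ b)
    (h : Reach adj {t | t ∈ W ∧ t ≠ b} z a) :
    ∃ x, Reach adj {t | t ∈ W ∧ t ≠ a ∧ t ≠ b} z x ∧ adj x a = true := by
  have key : ∀ t, Reach adj {t | t ∈ W ∧ t ≠ b} z t →
      (∃ x, Reach adj {t | t ∈ W ∧ t ≠ a ∧ t ≠ b} z x ∧ adj x a = true) ∨
        Reach adj {t | t ∈ W ∧ t ≠ a ∧ t ≠ b} z t := by
    intro t ht
    induction ht with
    | refl => exact Or.inr Relation.ReflTransGen.refl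
    | @tail y t h1 h2 ih =>
      rcases ih with ih | ih
      · exact Or.inl ih
      · by_cases hta : t = a
        · left
          refine ⟨y, ih, ?_⟩
          rw [← hta]
          exact h2.1
        · right
          have hy := mem_of_reach ih hz
          exact Relation.ReflTransGen.tail ih ⟨h2.1, hy, ⟨h2.2.2.1, hta, h2.2.2.2⟩⟩
  rcases key a h with h1 | h1
  · exact h1
  · exact absurd rfl (mem_of_reach h1 hz).2.1

theorem nbr' {adj : ℕ → ℕ → Bool} {W : List ℕ} {a b z : ℕ} (hz : z ∈ W ∧ z ≠ a ∧ z ≠ b)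
    (h : Reach adj {t | t ∈ W ∧ t ≠ a} z b) :
    ∃ x, Reach adj {t | t ∈ W ∧ t ≠ a ∧ t ≠ b} z x ∧ adj x b = true := by
  have h1 := nbr (adj := adj) (W := W) (a := b) (b := a) ⟨hz.1, hz.2.2, hz.2.1⟩ h
  have h2 : {t | t ∈ W ∧ t ≠ b ∧ t ≠ a} = {t | t ∈ W ∧ t ≠ a ∧ t ≠ b} := by
    ext t
    simp only [Set.mem_ofPred_eq]
    tauto
  rwa [h2] at h1

theorem count {R : Finset ℕ} {T : Finset (ℕ × ℕ)} {K : Finset ℕ} (A : ℕ → ℕ × ℕ → Prop)
    (B : ℕ → ℕ → Prop)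
    (hA : ∀ z ∈ R, ∀ z' ∈ R, ∀ e, A z e → A z' e → z = z')
    (hB : ∀ z ∈ R, ∀ z' ∈ R, ∀ k, B z k → B z' k → z = z')
    (h : ∀ z ∈ R, (∃ k ∈ K, B z k) ∨ ∃ e ∈ T, A z e) : R.card ≤ K.card + T.card := by
  classical
  have h1 : ∀ z : ℕ, ∃ q : ℕ ⊕ (ℕ × ℕ), z ∈ R → (q ∈ K.disjSum T ∧
      (∀ k, q = Sum.inl k → B z k) ∧ ∀ e, q = Sum.inr e → A z e) := by
    intro z
    by_cases hz : z ∈ R
    · rcases h z hz with ⟨k, hk, hb⟩ | ⟨e, he, ha⟩
      · refine ⟨Sum.inl k, fun _ => ⟨Finset.inl_mem_disjSum.2 hk, ?_, ?_⟩⟩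
        · intro k' hk'
          cases hk'
          exact hb
        · intro e he
          cases he
      · refine ⟨Sum.inr e, fun _ => ⟨Finset.inr_mem_disjSum.2 he, ?_, ?_⟩⟩
        · intro k hk
          cases hk
        · intro e' he'
          cases he'
          exact ha
    · exact ⟨Sum.inl 0, fun h' => absurd h' hz⟩
  choose f hf using h1
  rw [← Finset.card_disjSum]
  apply Finset.card_le_card_of_injOn f
  · intro z hz
    exact (hf z hz).1
  · intro z hz z' hz' heq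
    have hz1 : z ∈ R := hz
    have hz2 : z' ∈ R := hz'
    obtain ⟨-, h2, h3⟩ := hf z hz1
    obtain ⟨-, h4, h5⟩ := hf z' hz2
    rcases hq : f z with k | e
    · exact hB z hz1 z' hz2 k (h2 k hq) (h4 k (heq ▸ hq))
    · exact hA z hz1 z' hz2 e (h3 e hq) (h5 e (heq ▸ hq))

/-- The property of the edges found. -/
def PP (adj : ℕ → ℕ → Bool) (W π : List ℕ) (a b z : ℕ) (e : ℕ × ℕ) : Prop :=
  ∃ s t, (s ∈ W ∧ t ∈ W) ∧ (Reach adj {t | t ∈ W ∧ t ≠ a ∧ t ≠ b} z s ∨ s = a ∨ s = b) ∧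
    (Reach adj {t | t ∈ W ∧ t ≠ a ∧ t ≠ b} z t ∨ t = a ∨ t = b) ∧
    (Reach adj {t | t ∈ W ∧ t ≠ a ∧ t ≠ b} z s ∨ Reach adj {t | t ∈ W ∧ t ≠ a ∧ t ≠ b} z t) ∧
    e = (π.idxOf s, π.idxOf t)

theorem mem_PE {adj : ℕ → ℕ → Bool} {W π : List ℕ} {s t : ℕ} (hs : s ∈ W) (ht : t ∈ W)
    (h : adj s t = true) (hlt : π.idxOf s < π.idxOf t) :
    (π.idxOf s, π.idxOf t) ∈ PE adj W π := by
  unfold PE
  rw [Finset.mem_image]
  refine ⟨(s, t), ?_, rfl⟩
  rw [Finset.mem_filter]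
  refine ⟨?_, h, hlt⟩
  rw [Finset.mem_product]
  exact ⟨List.mem_toFinset.2 hs, List.mem_toFinset.2 ht⟩

theorem key {adj : ℕ → ℕ → Bool} {W π : List ℕ} (hs : ∀ i j, adj i j = adj j i)
    {a b z c u w : ℕ} (ha : a ∈ W) (hb : b ∈ W) (hz : z ∈ W ∧ z ≠ a ∧ z ≠ b)
    (hcon : ∀ c ∈ W, ConnOn adj {t | t ∈ W ∧ t ≠ c}) (hab : a ≠ b) (hc : c = a ∨ c = b)
    (hu : ∀ t, Reach adj {t | t ∈ W ∧ t ≠ a ∧ t ≠ b} z t → π.idxOf t ≠ u)
    (hw : ∀ t, Reach adj {t | t ∈ W ∧ t ≠ a ∧ t ≠ b} z t → π.idxOf t ≠ w)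
    (hzc : ((u < π.idxOf z ∧ π.idxOf z < w) ∧ (π.idxOf c < u ∨ w < π.idxOf c)) ∨
      ((π.idxOf z < u ∨ w < π.idxOf z) ∧ (u < π.idxOf c ∧ π.idxOf c < w))) :
    ∃ e ∈ thru (PE adj W π) u w, PP adj W π a b z e := by
  have hcW : c ∈ W := by
    rcases hc with rfl | rfl
    · exact ha
    · exact hb
  have hx : ∃ x, Reach adj {t | t ∈ W ∧ t ≠ a ∧ t ≠ b} z x ∧ adj x c = true := by
    rcases hc with rfl | rfl
    · exact nbr hz (hcon b hb z ⟨hz.1, hz.2.2⟩ c ⟨ha, hab⟩)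
    · exact nbr' hz (hcon a ha z ⟨hz.1, hz.2.1⟩ c ⟨hb, fun h => hab h.symm⟩)
  obtain ⟨x, hx1, hx2⟩ := hx
  have main : ∃ s t, Reach adj {t | t ∈ W ∧ t ≠ a ∧ t ≠ b} z s ∧
      (Reach adj {t | t ∈ W ∧ t ≠ a ∧ t ≠ b} z t ∨ t = c) ∧ adj s t = true ∧
      (((u < π.idxOf s ∧ π.idxOf s < w) ∧ (π.idxOf t < u ∨ w < π.idxOf t)) ∨
      ((π.idxOf s < u ∨ w < π.idxOf s) ∧ (u < π.idxOf t ∧ π.idxOf t < w))) := by
    rcases hzc with ⟨h1, h2⟩ | ⟨h1, h2⟩
    · obtain ⟨s, t, g1, g2, g3, g4, g5⟩ := cross hx1 hx2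
        (fun t => u < π.idxOf t ∧ π.idxOf t < w) h1 (by omega)
      refine ⟨s, t, g1, g2, g3, Or.inl ⟨g4, ?_⟩⟩
      have g6 : π.idxOf t ≠ u ∧ π.idxOf t ≠ w := by
        rcases g2 with g2 | g2
        · exact ⟨hu t g2, hw t g2⟩
        · rw [g2]
          omega
      omega
    · obtain ⟨s, t, g1, g2, g3, g4, g5⟩ := cross hx1 hx2
        (fun t => π.idxOf t < u ∨ w < π.idxOf t) h1 (by omega)
      refine ⟨s, t, g1, g2, g3, Or.inr ⟨g4, ?_⟩⟩
      have g6 : π.idxOf t ≠ u ∧ π.idxOf t ≠ w := by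
        rcases g2 with g2 | g2
        · exact ⟨hu t g2, hw t g2⟩
        · rw [g2]
          omega
      omega
  obtain ⟨s, t, g1, g2, g3, g4⟩ := main
  have hsW : s ∈ W := (mem_of_reach g1 hz).1
  have htW : t ∈ W := by
    rcases g2 with g2 | g2
    · exact (mem_of_reach g2 hz).1
    · rw [g2]
      exact hcW
  have g2' : Reach adj {t | t ∈ W ∧ t ≠ a ∧ t ≠ b} z t ∨ t = a ∨ t = b := by
    rcases g2 with g2 | g2
    · exact Or.inl g2
    · right
      rw [g2]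
      exact hc
  rcases lt_or_gt_of_ne (show π.idxOf s ≠ π.idxOf t by omega) with hlt | hlt
  · refine ⟨(π.idxOf s, π.idxOf t), ?_, s, t, ⟨hsW, htW⟩, Or.inl g1, g2', Or.inl g1, rfl⟩
    unfold thru
    rw [Finset.mem_filter]
    refine ⟨mem_PE hsW htW g3 hlt, ?_⟩
    simp only [Alt]
    omega
  · refine ⟨(π.idxOf t, π.idxOf s), ?_, t, s, ⟨htW, hsW⟩, g2', Or.inl g1, Or.inr g1, rfl⟩
    unfold thru
    rw [Finset.mem_filter]
    refine ⟨mem_PE htW hsW (by rw [hs]; exact g3) hlt, ?_⟩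
    simp only [Alt]
    omega

theorem PP_unique {adj : ℕ → ℕ → Bool} {W π : List ℕ} (hs : ∀ i j, adj i j = adj j i)
    (hπ : ∀ x, x ∈ π ↔ x ∈ W) {a b z z' : ℕ}
    (hz : z ∈ W ∧ z ≠ a ∧ z ≠ b) (hz' : z' ∈ W ∧ z' ≠ a ∧ z' ≠ b) {e : ℕ × ℕ}
    (h : PP adj W π a b z e) (h' : PP adj W π a b z' e) :
    Reach adj {t | t ∈ W ∧ t ≠ a ∧ t ≠ b} z z' := by
  obtain ⟨s, t, ⟨hsW, htW⟩, h1, h2, h3, h4⟩ := h
  obtain ⟨s', t', ⟨hsW', htW'⟩, h1', h2', h3', h4'⟩ := h'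
  rw [h4] at h4'
  have e1 : π.idxOf s = π.idxOf s' := congrArg Prod.fst h4'
  have e2 : π.idxOf t = π.idxOf t' := congrArg Prod.snd h4'
  have e3 : s = s' := (List.idxOf_inj ((hπ s).2 hsW)).1 e1
  have e4 : t = t' := (List.idxOf_inj ((hπ t).2 htW)).1 e2
  subst e3 e4
  rcases h3 with h3 | h3
  · have hm := mem_of_reach h3 hz
    rcases h1' with h5 | h5 | h5
    · exact h3.trans (reach_symm hs h5)
    · exact absurd h5 hm.2.1
    · exact absurd h5 hm.2.2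
  · have hm := mem_of_reach h3 hz
    rcases h2' with h5 | h5 | h5
    · exact h3.trans (reach_symm hs h5)
    · exact absurd h5 hm.2.1
    · exact absurd h5 hm.2.2

theorem main (hSEP : Stmt_SEP) (adj : ℕ → ℕ → Bool) (W π : List ℕ)
    (hs : ∀ i j, adj i j = adj j i) (hnd : π.Nodup) (hπ : ∀ x, x ∈ π ↔ x ∈ W)
    (hRT : RT (PE adj W π) 6 0 (π.length - 1))
    (hcon : ∀ c ∈ W, ConnOn adj {t | t ∈ W ∧ t ≠ c}) (a : ℕ) (ha : a ∈ W) (b : ℕ) (hb : b ∈ W)
    (hlt : π.idxOf a < π.idxOf b) (R : Finset ℕ)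
    (hR : ∀ z ∈ R, z ∈ W ∧ z ≠ a ∧ z ≠ b)
    (hRR : ∀ z ∈ R, ∀ z' ∈ R, z ≠ z' → ¬ Reach adj {t | t ∈ W ∧ t ≠ a ∧ t ≠ b} z z') :
    R.card ≤ 26 := by
  classical
  have hab : a ≠ b := by
    rintro rfl
    exact absurd hlt (lt_irrefl _)
  have hlen : ∀ x ∈ W, π.idxOf x < π.length := fun x hx => List.idxOf_lt_length_iff.2 ((hπ x).2 hx)
  have hinj : ∀ x ∈ W, ∀ y ∈ W, π.idxOf x = π.idxOf y → x = y := fun x hx y hy h =>
    (List.idxOf_inj ((hπ x).2 hx)).1 h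
  have hDa : ∀ z ∈ R, ∀ t, Reach adj {t | t ∈ W ∧ t ≠ a ∧ t ≠ b} z t →
      π.idxOf t ≠ π.idxOf a := by
    intro z hz t ht h
    have hm := mem_of_reach ht (hR z hz)
    exact hm.2.1 (hinj t hm.1 a ha h)
  have hDb : ∀ z ∈ R, ∀ t, Reach adj {t | t ∈ W ∧ t ≠ a ∧ t ≠ b} z t →
      π.idxOf t ≠ π.idxOf b := by
    intro z hz t ht h
    have hm := mem_of_reach ht (hR z hz)
    exact hm.2.2 (hinj t hm.1 b hb h)
  have hcount : ∀ (K : Finset ℕ) (T : Finset (ℕ × ℕ)),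
      (∀ z ∈ R, (∀ k ∈ K, ∀ t, Reach adj {t | t ∈ W ∧ t ≠ a ∧ t ≠ b} z t → π.idxOf t ≠ k) →
        ∃ e ∈ T, PP adj W π a b z e) → R.card ≤ K.card + T.card := by
    intro K T hKT
    refine count (PP adj W π a b)
      (fun z k => ∃ t, Reach adj {t | t ∈ W ∧ t ≠ a ∧ t ≠ b} z t ∧ π.idxOf t = k) ?_ ?_ ?_
    · intro z hz z' hz' e h1 h2
      by_contra hne
      exact hRR z hz z' hz' hne (PP_unique hs hπ (hR z hz) (hR z' hz') h1 h2)
    · rintro z hz z' hz' k ⟨t, ht, htk⟩ ⟨t', ht', htk'⟩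
      by_contra hne
      have hm := mem_of_reach ht (hR z hz)
      have hm' := mem_of_reach ht' (hR z' hz')
      have heq : t = t' := hinj t hm.1 t' hm'.1 (by rw [htk, htk'])
      subst heq
      exact hRR z hz z' hz' hne (ht.trans (reach_symm hs ht'))
    · intro z hz
      by_cases h : ∀ k ∈ K, ∀ t, Reach adj {t | t ∈ W ∧ t ≠ a ∧ t ≠ b} z t → π.idxOf t ≠ k
      · exact Or.inr (hKT z hz h)
      · left
        push Not at h
        obtain ⟨k, hk, t, ht, htk⟩ := h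
        exact ⟨k, hk, t, ht, htk⟩
  have hbl := hlen b hb
  rcases hSEP (PE adj W π) 0 (π.length - 1) hRT (π.idxOf a) (π.idxOf b) (Nat.zero_le _) hlt
    (by omega) with ⟨u, w, huw, hcard, hsep⟩ | ⟨h1, h2⟩
  · have h3 := hcount {u, w} (thru (PE adj W π) u w) (by
      intro z hz hK
      have hu := hK u (by simp)
      have hw := hK w (by simp)
      have hzu := hu z Relation.ReflTransGen.refl
      have hzw := hw z Relation.ReflTransGen.refl
      have hzin : (u < π.idxOf z ∧ π.idxOf z < w) ∨ (π.idxOf z < u ∨ w < π.idxOf z) := by omega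
      rcases hsep with hsep | hsep
      · rcases hzin with hzin | hzin
        · exact key hs ha hb (hR z hz) hcon hab (Or.inr rfl) hu hw (by omega)
        · exact key hs ha hb (hR z hz) hcon hab (Or.inl rfl) hu hw (by omega)
      · rcases hzin with hzin | hzin
        · exact key hs ha hb (hR z hz) hcon hab (Or.inl rfl) hu hw (by omega)
        · exact key hs ha hb (hR z hz) hcon hab (Or.inr rfl) hu hw (by omega))
    have h4 : ({u, w} : Finset ℕ).card ≤ 2 := Finset.card_le_two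
    omega
  · -- the inner side
    have hin : ∃ (k : ℕ) (T : Finset (ℕ × ℕ)), T.card ≤ 12 ∧ ∀ z ∈ R,
        π.idxOf a < π.idxOf z → π.idxOf z < π.idxOf b →
        (∀ t, Reach adj {t | t ∈ W ∧ t ≠ a ∧ t ≠ b} z t → π.idxOf t ≠ k) →
        ∃ e ∈ T, PP adj W π a b z e := by
      rcases h1 with h1 | ⟨k, hk1, hk2, hk3, hk4⟩
      · refine ⟨0, ∅, by simp, ?_⟩
        intro z hz h3 h4
        omega
      · refine ⟨k, thru (PE adj W π) (π.idxOf a) k ∪ thru (PE adj W π) k (π.idxOf b), ?_, ?_⟩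
        · exact (Finset.card_union_le _ _).trans (by omega)
        · intro z hz h3 h4 hk
          have hzk := hk z Relation.ReflTransGen.refl
          rcases lt_or_gt_of_ne hzk with h5 | h5
          · obtain ⟨e, he, hP⟩ := key (c := b) (u := π.idxOf a) (w := k) hs ha hb (hR z hz) hcon hab
              (Or.inr rfl) (hDa z hz) hk (by omega)
            exact ⟨e, Finset.mem_union_left _ he, hP⟩
          · obtain ⟨e, he, hP⟩ := key (c := a) (u := k) (w := π.idxOf b) hs ha hb (hR z hz) hcon hab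
              (Or.inl rfl) hk (hDb z hz) (by omega)
            exact ⟨e, Finset.mem_union_right _ he, hP⟩
    have hout : ∃ (k : ℕ) (T : Finset (ℕ × ℕ)), T.card ≤ 12 ∧ ∀ z ∈ R,
        (π.idxOf z < π.idxOf a ∨ π.idxOf b < π.idxOf z) →
        (∀ t, Reach adj {t | t ∈ W ∧ t ≠ a ∧ t ≠ b} z t → π.idxOf t ≠ k) →
        ∃ e ∈ T, PP adj W π a b z e := by
      rcases h2 with ⟨h2, h2'⟩ | ⟨k, hk1, hk2, hk3⟩ | ⟨k, hk1, hk2, hk3⟩
      · refine ⟨0, ∅, by simp, ?_⟩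
        intro z hz h3
        have := hlen z (hR z hz).1
        omega
      · refine ⟨k, thru (PE adj W π) k (π.idxOf a) ∪ thru (PE adj W π) k (π.idxOf b), ?_, ?_⟩
        · exact (Finset.card_union_le _ _).trans (by omega)
        · intro z hz h3 hk
          have hzk := hk z Relation.ReflTransGen.refl
          by_cases h5 : k < π.idxOf z ∧ π.idxOf z < π.idxOf a
          · obtain ⟨e, he, hP⟩ := key (c := b) (u := k) (w := π.idxOf a) hs ha hb (hR z hz) hcon hab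
              (Or.inr rfl) hk (hDa z hz) (by omega)
            exact ⟨e, Finset.mem_union_left _ he, hP⟩
          · obtain ⟨e, he, hP⟩ := key (c := a) (u := k) (w := π.idxOf b) hs ha hb (hR z hz) hcon hab
              (Or.inl rfl) hk (hDb z hz) (by omega)
            exact ⟨e, Finset.mem_union_right _ he, hP⟩
      · refine ⟨k, thru (PE adj W π) (π.idxOf b) k ∪ thru (PE adj W π) (π.idxOf a) k, ?_, ?_⟩
        · exact (Finset.card_union_le _ _).trans (by omega)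
        · intro z hz h3 hk
          have hzk := hk z Relation.ReflTransGen.refl
          by_cases h5 : π.idxOf b < π.idxOf z ∧ π.idxOf z < k
          · obtain ⟨e, he, hP⟩ := key (c := a) (u := π.idxOf b) (w := k) hs ha hb (hR z hz) hcon hab
              (Or.inl rfl) (hDb z hz) hk (by omega)
            exact ⟨e, Finset.mem_union_left _ he, hP⟩
          · obtain ⟨e, he, hP⟩ := key (c := b) (u := π.idxOf a) (w := k) hs ha hb (hR z hz) hcon hab
              (Or.inr rfl) (hDa z hz) hk (by omega)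
            exact ⟨e, Finset.mem_union_right _ he, hP⟩
    obtain ⟨k, T, hT, hin⟩ := hin
    obtain ⟨k', T', hT', hout⟩ := hout
    have h3 := hcount {k, k'} (T ∪ T') (by
      intro z hz hK
      have hk := hK k (by simp)
      have hk' := hK k' (by simp)
      have hza := hDa z hz z Relation.ReflTransGen.refl
      have hzb := hDb z hz z Relation.ReflTransGen.refl
      by_cases h5 : π.idxOf a < π.idxOf z ∧ π.idxOf z < π.idxOf b
      · obtain ⟨e, he, hP⟩ := hin z hz h5.1 h5.2 hk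
        exact ⟨e, Finset.mem_union_left _ he, hP⟩
      · obtain ⟨e, he, hP⟩ := hout z hz (by omega) hk'
        exact ⟨e, Finset.mem_union_right _ he, hP⟩)
    have h4 : ({k, k'} : Finset ℕ).card ≤ 2 := Finset.card_le_two
    have h5 := Finset.card_union_le T T'
    omega

end KBX

theorem kb_proof (hSEP : Stmt_SEP) : Stmt_KB := by
  intro adj W π hs hnd hπ hRT hcon a ha b hb hab R hR hRR
  rcases lt_trichotomy (π.idxOf a) (π.idxOf b) with h | h | h
  · exact KBX.main hSEP adj W π hs hnd hπ hRT hcon a ha b hb h R hR hRR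
  · exact absurd ((List.idxOf_inj ((hπ a).2 ha)).1 h) hab
  · have hset : {t | t ∈ W ∧ t ≠ b ∧ t ≠ a} = {t | t ∈ W ∧ t ≠ a ∧ t ≠ b} := by
      ext t
      simp only [Set.mem_ofPred_eq]
      tauto
    refine KBX.main hSEP adj W π hs hnd hπ hRT hcon b hb a ha h R
      (fun z hz => ⟨(hR z hz).1, (hR z hz).2.2, (hR z hz).2.1⟩) ?_
    rw [hset]
    exact hRR

end Pool.Agent.OGP
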