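import Pool.Agent.OGP.Stmts

/-!
# Local positions are in the right order
-/

namespace Pool.Agent.OGP

namespace LOCX

theorem fidx_cons (r : Rec) (L : List Rec) (z : ℕ) :
    fidx (r :: L) z = if decide (r.1.1 = z) then 0 else fidx L z + 1 := rfl

theorem inn_iff (L : List Rec) (z : ℕ) : inn L z = true ↔ ∃ r ∈ L, r.1.1 = z := by
  unfold inn
  rw [List.any_eq_true]
  simp

theorem fidx_lt (L : List Rec) (z : ℕ) : inn L z = true → fidx L z < L.length := by
  induction L with
  | nil => intro h; simp [inn] at h
  | cons r L ih =>
    intro h
    rw [fidx_cons, List.length_cons]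
    by_cases c : r.1.1 = z
    · simp [c]
    · simp only [c, decide_false, Bool.false_eq_true, if_false]
      have : inn L z = true := by
        rw [inn_iff] at h ⊢
        obtain ⟨r', h1, h2⟩ := h
        rcases List.mem_cons.1 h1 with rfl | h3
        · exact absurd h2 c
        · exact ⟨r', h3, h2⟩
      have := ih this
      omega

theorem fidx_mono (p : ℕ → ℕ) (L : List Rec) (z z' : ℕ) (hz : inn L z = true)
    (hz' : inn L z' = true) (hs : L.Pairwise fun r r' => p r.1.1 ≤ p r'.1.1) (h : p z < p z') :
    fidx L z < fidx L z' := by
  induction L with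
  | nil => simp [inn] at hz
  | cons r L ih =>
    rw [fidx_cons, fidx_cons]
    rw [List.pairwise_cons] at hs
    by_cases c : r.1.1 = z
    · have c' : r.1.1 ≠ z' := by
        rintro h1
        rw [c] at h1
        rw [h1] at h
        exact lt_irrefl _ h
      simp [c]
      rw [c] at c'
      simp [c']
    · have hz1 : inn L z = true := by
        rw [inn_iff] at hz ⊢
        obtain ⟨r', h1, h2⟩ := hz
        rcases List.mem_cons.1 h1 with rfl | h3
        · exact absurd h2 c
        · exact ⟨r', h3, h2⟩
      by_cases c' : r.1.1 = z'
      · exfalso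
        rw [inn_iff] at hz1
        obtain ⟨r', h1, h2⟩ := hz1
        have h3 := hs.1 r' h1
        rw [c', h2] at h3
        omega
      · have hz2 : inn L z' = true := by
          rw [inn_iff] at hz' ⊢
          obtain ⟨r', h1, h2⟩ := hz'
          rcases List.mem_cons.1 h1 with rfl | h3
          · exact absurd h2 c'
          · exact ⟨r', h3, h2⟩
        simp only [c, c', decide_false, Bool.false_eq_true, if_false]
        have := ih hz1 hz2 hs.2
        omega

end LOCX

open LOCX in
theorem loc_proof : Stmt_LOC := by
  intro L1 L2 a v b p N1 N ha hv hb h0 h1 hN hL1 hL2 hs1 hs2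
  have i1 : ∀ z, inn L1 z = true → 0 < p z ∧ p z < N1 := by
    intro z hz
    rw [inn_iff] at hz
    obtain ⟨r, h2, rfl⟩ := hz
    exact hL1 r h2
  have i2 : ∀ z, inn L2 z = true → N1 < p z ∧ p z < N := by
    intro z hz
    rw [inn_iff] at hz
    obtain ⟨r, h2, rfl⟩ := hz
    exact hL2 r h2
  have key : ∀ z, Lcl L1 L2 a v b p N z →
      (p z = 0 ∧ loc L1 L2 a v b z = 0) ∨
      (inn L1 z = true ∧ 0 < p z ∧ p z < N1 ∧ loc L1 L2 a v b z = fidx L1 z + 1 ∧
        fidx L1 z < L1.length) ∨
      (p z = N1 ∧ loc L1 L2 a v b z = L1.length + 1) ∨
      (inn L2 z = true ∧ N1 < p z ∧ p z < N ∧ loc L1 L2 a v b z = L1.length + 2 + fidx L2 z ∧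
        fidx L2 z < L2.length) ∨
      (p z = N ∧ loc L1 L2 a v b z = L1.length + L2.length + 2) ∨
      (p z = N + 1 ∧ loc L1 L2 a v b z = L1.length + L2.length + 3) := by
    intro z hz
    by_cases z1 : z = a
    · left
      subst z1
      exact ⟨ha, by simp [loc]⟩
    · by_cases z2 : inn L1 z = true
      · right; left
        exact ⟨z2, (i1 z z2).1, (i1 z z2).2, by simp [loc, z1, z2], fidx_lt L1 z z2⟩
      · by_cases z3 : z = v
        · right; right; left
          subst z3
          exact ⟨hv, by simp [loc, z1, z2]⟩
        · by_cases z4 : inn L2 z = true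
          · right; right; right; left
            exact ⟨z4, (i2 z z4).1, (i2 z z4).2, by simp [loc, z1, z2, z3, z4], fidx_lt L2 z z4⟩
          · by_cases z5 : z = b
            · right; right; right; right; left
              subst z5
              exact ⟨hb, by simp [loc, z1, z2, z3, z4]⟩
            · right; right; right; right; right
              have h2 : N < p z := by
                rcases hz with h | h | h | h | h | h
                · exact absurd h z1
                · exact absurd h z3
                · exact absurd h z5
                · exact absurd h z2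
                · exact absurd h z4
                · exact h
              have := hN z
              exact ⟨by omega, by simp [loc, z1, z2, z3, z4, z5]⟩
  intro z z' hz hz'
  have m1 : inn L1 z = true → inn L1 z' = true → p z < p z' → fidx L1 z < fidx L1 z' :=
    fun h2 h3 h4 => fidx_mono p L1 z z' h2 h3 hs1 h4
  have m2 : inn L2 z = true → inn L2 z' = true → p z < p z' → fidx L2 z < fidx L2 z' :=
    fun h2 h3 h4 => fidx_mono p L2 z z' h2 h3 hs2 h4
  have k1 := key z hz
  have k2 := key z' hz'
  constructor
  · intro hlt
    rcases k1 with k1 | k1 | k1 | k1 | k1 | k1 <;> rcases k2 with k2 | k2 | k2 | k2 | k2 | k2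
    all_goals first
      | omega
      | (have := m1 k1.1 k2.1 hlt; omega)
      | (have := m2 k1.1 k2.1 hlt; omega)
  · intro h2 h3
    omega

end Pool.Agent.OGP
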