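import Pool.Agent.OGP.Stmts

/-!
# LOOPC: completeness of the dynamic programming
-/

namespace Pool.Agent.OGP

namespace LOOPCX

theorem mem_dpStep {M : List (List Bool)} {W : List ℕ} {cs T : List St} {s : St} :
    s ∈ dpStep M W cs T ↔ s ∈ cs ∧ (baseB W s = true ∨
      ∃ s1 ∈ T, ∃ s2 ∈ T, mergeB M W s1 s2 s = true) := by
  unfold dpStep
  rw [List.mem_filter, Bool.or_eq_true, List.any_eq_true]
  simp only [List.any_eq_true]

theorem dpStep_mono {M : List (List Bool)} {W : List ℕ} {cs T T' : List St} (h : T ⊆ T') :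
    dpStep M W cs T ⊆ dpStep M W cs T' := by
  intro s hs
  rw [mem_dpStep] at hs ⊢
  refine ⟨hs.1, hs.2.imp id ?_⟩
  rintro ⟨s1, h1, s2, h2, h3⟩
  exact ⟨s1, h h1, s2, h h2, h3⟩

theorem iter_mono (M : List (List Bool)) (W : List ℕ) (cs : List St) (k : ℕ) :
    (dpStep M W cs)^[k] [] ⊆ (dpStep M W cs)^[k + 1] [] := by
  induction k with
  | zero => simp
  | succ k ih =>
    rw [Function.iterate_succ_apply', Function.iterate_succ_apply' _ (k + 1)]
    exact dpStep_mono ih

theorem iter_mono_le (M : List (List Bool)) (W : List ℕ) (cs : List St) {k l : ℕ} (h : k ≤ l) :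
    (dpStep M W cs)^[k] [] ⊆ (dpStep M W cs)^[l] [] := by
  induction h with
  | refl => exact fun _ h => h
  | step _ ih => exact fun s hs => iter_mono M W cs _ (ih hs)

theorem memb_iff {z : ℕ} {l : List ℕ} : memb z l = true ↔ z ∈ l := by
  simp [memb]

theorem thru_succ (E : Finset (ℕ × ℕ)) (i : ℕ) : (thru E i (i + 1)).card ≤ 6 := by
  have : thru E i (i + 1) = ∅ := by
    rw [thru, Finset.filter_eq_empty_iff]
    intro e _ hA
    simp only [Alt] at hA
    omega
  rw [this]
  simp

end LOOPCX

open LOOPCX in
theorem loopc_proof (hA : Stmt_CMA) (hC : Stmt_CMC) (hB : Stmt_MB) : Stmt_LOOPC := by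
  intro M W π g n cs hs hW h2 hWn harr hRT hcs
  have hperm : π.Perm W := (List.perm_ext_iff_of_nodup harr.nodup hW).2 harr.mem
  have hlen : π.length = W.length := hperm.length_eq
  have hidx : ∀ x ∈ W, π.idxOf x < π.length := fun x hx =>
    List.idxOf_lt_length_of_mem ((harr.mem x).2 hx)
  have hinj : ∀ x ∈ W, ∀ y ∈ W, π.idxOf x = π.idxOf y → x = y := fun x hx y _ h =>
    (List.idxOf_inj ((harr.mem x).2 hx)).1 h
  -- the states of the polygons are found
  have main : ∀ i j, RT (PE (ent M) W π) 6 i j → ∀ a ∈ W, ∀ b ∈ W, π.idxOf a = i → π.idxOf b = j →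
      i < j ∧ can (ent M) W π g a b ∈ (dpStep M W cs)^[j - i] [] := by
    intro i j hij
    induction hij with
    | base i =>
      intro a ha b hb hai hbi
      refine ⟨Nat.lt_succ_self i, ?_⟩
      rw [Nat.add_sub_cancel_left, Function.iterate_one, mem_dpStep]
      have hc := thru_succ (PE (ent M) W π) i
      rw [← hai] at hc hbi
      refine ⟨hcs a ha b hb (by omega) (by rw [hbi]; exact hc), Or.inl ?_⟩
      have hb1 : btw π a b = [] := by
        rw [btw, List.filter_eq_nil_iff]
        intro x _
        rw [Bool.and_eq_true, decide_eq_true_eq, decide_eq_true_eq]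
        omega
      have hb2 : (W.filter fun z => decide (π.idxOf a < π.idxOf z) &&
          decide (π.idxOf z < π.idxOf b)) = [] := by
        rw [List.filter_eq_nil_iff]
        intro x _
        rw [Bool.and_eq_true, decide_eq_true_eq, decide_eq_true_eq]
        omega
      have hab : a ≠ b := by
        intro h
        rw [h] at hbi
        omega
      simp only [baseB, can, hb1, hb2, List.flatMap_nil, List.isEmpty_nil, Bool.and_self,
        Bool.true_and, Bool.and_eq_true, Bool.not_eq_true', decide_eq_false_iff_not, memb_iff]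
      exact ⟨hab, ha, hb⟩
    | @step i k j h1 h2 h3 h4 h5 ih1 ih2 =>
      intro a ha b hb hai hbj
      refine ⟨by omega, ?_⟩
      have hk : k < π.length := by
        have := hidx b hb
        omega
      have hv : π[k] ∈ W := (harr.mem _).1 (List.getElem_mem hk)
      have hvk : π.idxOf π[k] = k := harr.nodup.idxOf_getElem k hk
      obtain ⟨-, m1⟩ := ih1 a ha _ hv hai hvk
      obtain ⟨-, m2⟩ := ih2 _ hv b hb hvk hbj
      have hmerge : mergeB M W (can (ent M) W π g a π[k]) (can (ent M) W π g π[k] b)
          (can (ent M) W π g a b) = true := by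
        rw [hB]
        exact ⟨hA (ent M) W π g hs harr a ha _ hv b hb (by omega) (by omega),
          hC (ent M) W π g hs harr a ha _ hv b hb (by omega) (by omega)⟩
      obtain ⟨l, hl⟩ : ∃ l, j - i = l + 1 := ⟨j - i - 1, by omega⟩
      rw [hl, Function.iterate_succ_apply', mem_dpStep]
      refine ⟨hcs a ha b hb (by omega) (by rw [hai, hbj]; exact h5), Or.inr ?_⟩
      exact ⟨_, iter_mono_le M W cs (by omega) m1, _, iter_mono_le M W cs (by omega) m2, hmerge⟩
  have hpos : 2 ≤ π.length := by omega
  have ha : π[0] ∈ W := (harr.mem _).1 (List.getElem_mem (by omega))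
  have hb : π[π.length - 1] ∈ W := (harr.mem _).1 (List.getElem_mem (by omega))
  have hai : π.idxOf π[0] = 0 := harr.nodup.idxOf_getElem 0 (by omega)
  have hbi : π.idxOf π[π.length - 1] = π.length - 1 :=
    harr.nodup.idxOf_getElem (π.length - 1) (by omega)
  obtain ⟨-, hm⟩ := main 0 (π.length - 1) hRT _ ha _ hb hai hbi
  rw [List.any_eq_true]
  refine ⟨_, iter_mono_le M W cs (by omega) hm, ?_⟩
  unfold finalB
  rw [Bool.and_eq_true]
  constructor
  · rw [List.isEmpty_iff]
    simp only [can]
    rw [List.flatMap_eq_nil_iff]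
    intro x _
    rw [List.map_eq_nil_iff, List.filter_eq_nil_iff]
    intro y hy
    have := hidx y hy
    rw [hai, hbi, Bool.and_eq_true, Bool.or_eq_true, decide_eq_true_eq, decide_eq_true_eq]
    omega
  · rw [List.all_eq_true]
    intro w hw
    simp only [can, Bool.or_eq_true, decide_eq_true_eq, memb_iff, List.mem_filter,
      Bool.and_eq_true]
    by_cases h1 : π.idxOf w = 0
    · first
        | exact Or.inl (hinj w hw _ ha (by rw [h1, hai]))
        | exact Or.inl (decide_eq_true (hinj w hw _ ha (by rw [h1, hai])))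
    · by_cases h3 : π.idxOf w = π.length - 1
      · first
          | exact Or.inr (Or.inl (hinj w hw _ hb (by rw [h3, hbi])))
          | exact Or.inr (Or.inl (decide_eq_true (hinj w hw _ hb (by rw [h3, hbi]))))
      · have := hidx w hw
        exact Or.inr (Or.inr ⟨hw, by rw [hai]; omega, by rw [hbi]; omega⟩)

end Pool.Agent.OGP
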