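import Pool.Agent.OGP.Stmts

/-!
# Module LOOPS of squad OGP: soundness of the loop
-/

set_option autoImplicit false

namespace Pool.Agent.OGP

namespace LOOPSX

theorem memb_iff (z : ℕ) (l : List ℕ) : memb z l = true ↔ z ∈ l := by
  unfold memb
  rw [List.any_eq_true]
  constructor
  · rintro ⟨x, hx, hxz⟩
    rw [decide_eq_true_eq] at hxz
    rwa [← hxz]
  · intro h
    exact ⟨z, h, by simp⟩

theorem baseB_iff (W : List ℕ) (s : St) : baseB W s = true ↔
    (s.2.1 = [] ∧ s.2.2 = []) ∧ s.1.1.1 ≠ s.1.1.2 ∧ s.1.1.1 ∈ W ∧ s.1.1.2 ∈ W := by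
  unfold baseB
  rw [Bool.and_eq_true, Bool.and_eq_true, Bool.and_eq_true, Bool.and_eq_true, memb_iff, memb_iff,
    List.isEmpty_iff, List.isEmpty_iff, Bool.not_eq_true', decide_eq_false_iff_not]

theorem finalB_iff (W : List ℕ) (s : St) : finalB W s = true ↔
    s.2.1 = [] ∧ ∀ w ∈ W, w = s.1.1.1 ∨ w = s.1.1.2 ∨ w ∈ s.2.2 := by
  unfold finalB
  rw [Bool.and_eq_true, List.isEmpty_iff, List.all_eq_true]
  refine and_congr Iff.rfl (forall_congr' fun w => forall_congr' fun _ => ?_)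
  rw [Bool.or_eq_true, Bool.or_eq_true, memb_iff, decide_eq_true_eq, decide_eq_true_eq]

end LOOPSX

open LOOPSX

theorem loops_proof (hA : Stmt_SNDA) (hB : Stmt_SNDB) (hBase : Stmt_BASE) (hM : Stmt_MB) :
    Stmt_LOOPS := by
  intro M W cs k hsymm hany
  have hreal : ∀ k, ∀ s ∈ (dpStep M W cs)^[k] [], Real (ent M) W s := by
    intro k
    induction k with
    | zero => intro s hs; simp at hs
    | succ k ih =>
      intro s hs
      rw [Function.iterate_succ_apply'] at hs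
      generalize (dpStep M W cs)^[k] [] = T at ih hs
      unfold dpStep at hs
      rw [List.mem_filter, Bool.or_eq_true, baseB_iff] at hs
      rcases hs.2 with h | h
      · exact hBase.1 (ent M) W s h.1.1 h.1.2 h.2.1 h.2.2.1 h.2.2.2
      · rw [List.any_eq_true] at h
        obtain ⟨s1, hs1, h⟩ := h
        rw [List.any_eq_true] at h
        obtain ⟨s2, hs2, h⟩ := h
        rw [hM] at h
        obtain ⟨p1, N1, g1, hp1, ho1⟩ := ih s1 hs1
        obtain ⟨p2, N2, g2, hp2, ho2⟩ := ih s2 hs2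
        exact ⟨_, _, _, hA (ent M) W s1 s2 s p1 p2 N1 N2 g1 g2 hsymm h.1 h.2 hp1 hp2,
          hB (ent M) W s1 s2 s p1 p2 N1 N2 g1 g2 hsymm h.1 h.2 hp1 hp2 ho1 ho2⟩
  rw [List.any_eq_true] at hany
  obtain ⟨s, hs, hf⟩ := hany
  rw [finalB_iff] at hf
  exact hBase.2 (ent M) W s (hreal k s hs) hf.1 hf.2

end Pool.Agent.OGP
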