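import Pool.Agent.OGP.Stmts

/-!
# Correctness of the test for merges
-/

namespace Pool.Agent.OGP

namespace MBX

theorem memb_iff (z : ℕ) (l : List ℕ) : memb z l = true ↔ z ∈ l := by
  unfold memb
  rw [List.any_eq_true]
  simp

theorem memb_not (z : ℕ) (l : List ℕ) : memb z l = false ↔ z ∉ l := by
  rw [← memb_iff, Bool.not_eq_true]

theorem rmem_iff (r : Rec) (L : List Rec) : rmem r L = true ↔ r ∈ L := by
  unfold rmem
  rw [List.any_eq_true]
  simp

theorem altB_iff (a b c d : ℕ) : altB a b c d = true ↔ Alt a b c d := by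
  unfold altB Alt
  simp only [Bool.or_eq_true, Bool.and_eq_true, decide_eq_true_eq]
  omega

theorem altB_not (a b c d : ℕ) : altB a b c d = false ↔ ¬ Alt a b c d := by
  rw [← altB_iff, Bool.not_eq_true]

theorem srtB_aux (s1 s2 : St) (L : List Rec) :
    (L.foldr (fun r (b : Bool × List Rec) => (b.1 && b.2.all fun r' =>
      decide (lc s1 s2 r.1.1 ≤ lc s1 s2 r'.1.1), r :: b.2)) (true, [])).2 = L ∧
    ((L.foldr (fun r (b : Bool × List Rec) => (b.1 && b.2.all fun r' =>
      decide (lc s1 s2 r.1.1 ≤ lc s1 s2 r'.1.1), r :: b.2)) (true, [])).1 = true ↔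
      L.Pairwise fun r r' => lc s1 s2 r.1.1 ≤ lc s1 s2 r'.1.1) := by
  induction L with
  | nil => simp
  | cons r L ih =>
    obtain ⟨ih1, ih2⟩ := ih
    refine ⟨?_, ?_⟩
    · rw [List.foldr_cons]
      simp only
      rw [ih1]
    · rw [List.foldr_cons]
      simp only
      rw [ih1, Bool.and_eq_true, ih2, List.pairwise_cons, List.all_eq_true]
      simp only [decide_eq_true_eq]
      exact and_comm

theorem srtB_iff (s1 s2 : St) (L : List Rec) : srtB s1 s2 L = true ↔
    L.Pairwise fun r r' => lc s1 s2 r.1.1 ≤ lc s1 s2 r'.1.1 := (srtB_aux s1 s2 L).2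

theorem mgA_iff (M : List (List Bool)) (W : List ℕ) (s1 s2 s : St) :
    (mg1 s1 s2 s = true ∧ mg2 M W s1 s2 s = true) ↔ MergeA (ent M) W s1 s2 s := by
  unfold mg1 mg2
  simp only [Bool.and_eq_true, Bool.or_eq_true, Bool.not_eq_true', List.all_eq_true,
    List.any_eq_true, decide_eq_true_eq, decide_eq_false_iff_not, memb_iff, memb_not, rmem_iff]
  constructor
  · rintro ⟨⟨⟨⟨⟨a1, a2⟩, a3, a4⟩, ⟨a5, a6⟩, a7⟩, ⟨a8, a9⟩, a10, a11⟩,
      ⟨⟨b1, b2⟩, b3, b4⟩, ⟨b5, b6⟩, b7, b8⟩
    refine ⟨a1, a2, a3, a4, a5, a6, a7, a8, a9, a10, a11, ?_, ?_, b3, ?_, ?_, ?_, ?_, ?_⟩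
    · intro r hr h
      exact (b1 r hr).resolve_left fun h' => h' h
    · intro r hr h
      exact (b2 r hr).resolve_left fun h' => h' h
    · intro r hr
      exact b4 r hr
    · intro r hr h1 h2 h3
      rcases b5 r hr with h | h | h | h
      · exact absurd h h1
      · exact absurd h h2
      · exact absurd h h3
      · exact h
    · intro r hr h1 h2 h3
      rcases b6 r hr with h | h | h | h
      · exact absurd h h1
      · exact absurd h h2
      · exact absurd h h3
      · exact h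
    · intro y hy h0 h1 h2 h3
      rcases b7 y hy with h | h | h | h | h
      · rw [h0] at h
        exact absurd h (by simp)
      · exact absurd h h1
      · exact absurd h h2
      · exact absurd h h3
      · exact h
    · intro r hr r' hr' h
      exact (b8 r hr r' hr').resolve_left fun h' => h' h
  · intro h
    refine ⟨⟨⟨⟨⟨h.ha, h.hv⟩, h.hb, h.ab⟩, ⟨h.ha2, h.hb1⟩, h.disj⟩, ⟨h.sub, h.supv⟩, h.sup1,
      h.sup2⟩, ⟨⟨?_, ?_⟩, h.fwd, h.out⟩, ⟨?_, ?_⟩, ?_, ?_⟩
    · intro r hr
      by_cases c : r.1.2 ∈ s2.2.2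
      · exact Or.inr (h.con12 r hr c)
      · exact Or.inl c
    · intro r hr
      by_cases c : r.1.2 ∈ s1.2.2
      · exact Or.inr (h.con21 r hr c)
      · exact Or.inl c
    · intro r hr
      by_cases c1 : r.1.2 ∈ s.2.2
      · exact Or.inl c1
      · by_cases c2 : r.1.2 = s.1.1.1
        · exact Or.inr (Or.inl c2)
        · by_cases c3 : r.1.2 = s.1.1.2
          · exact Or.inr (Or.inr (Or.inl c3))
          · exact Or.inr (Or.inr (Or.inr (h.bwd1 r hr c1 c2 c3)))
    · intro r hr
      by_cases c1 : r.1.2 ∈ s.2.2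
      · exact Or.inl c1
      · by_cases c2 : r.1.2 = s.1.1.1
        · exact Or.inr (Or.inl c2)
        · by_cases c3 : r.1.2 = s.1.1.2
          · exact Or.inr (Or.inr (Or.inl c3))
          · exact Or.inr (Or.inr (Or.inr (h.bwd2 r hr c1 c2 c3)))
    · intro y hy
      rcases Bool.eq_false_or_eq_true (ent M s1.1.1.2 y) with c0 | c0
      · right
        by_cases c1 : y ∈ s.2.2
        · exact Or.inl c1
        · by_cases c2 : y = s.1.1.1
          · exact Or.inr (Or.inl c2)
          · by_cases c3 : y = s.1.1.2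
            · exact Or.inr (Or.inr (Or.inl c3))
            · exact Or.inr (Or.inr (Or.inr (h.bwdv y hy c0 c1 c2 c3)))
      · exact Or.inl c0
    · intro r hr r' hr'
      by_cases c : r.1 = r'.1
      · exact Or.inr (h.func r hr r' hr' c)
      · exact Or.inl c

theorem mgC_iff (M : List (List Bool)) (s1 s2 s : St) :
    mg3 M s1 s2 s = true ↔ MergeC (ent M) s1 s2 s := by
  unfold mg3
  rw [Bool.and_eq_true, srtB_iff, List.all_eq_true]
  constructor
  · rintro ⟨h1, h2⟩
    refine ⟨h1, ?_⟩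
    intro r hr r' hr' hA
    have h3 := h2 r hr
    rw [List.all_eq_true] at h3
    have h4 := h3 r' hr'
    rw [Bool.or_eq_true, Bool.not_eq_true', altB_not, Bool.or_eq_true, decide_eq_true_eq,
      decide_eq_true_eq] at h4
    exact h4.resolve_left fun h => h hA
  · intro h
    refine ⟨h.srt, ?_⟩
    intro r hr
    rw [List.all_eq_true]
    intro r' hr'
    rw [Bool.or_eq_true, Bool.not_eq_true', altB_not, Bool.or_eq_true, decide_eq_true_eq,
      decide_eq_true_eq]
    by_cases c : Alt (lc s1 s2 r.1.1) (lc s1 s2 r.1.2) (lc s1 s2 r'.1.1) (lc s1 s2 r'.1.2)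
    · exact Or.inr (h.crs r hr r' hr' c)
    · exact Or.inl c

end MBX

theorem mb_proof : Stmt_MB := by
  intro M W s1 s2 s
  unfold mergeB
  rw [Bool.and_eq_true, Bool.and_eq_true, ← and_assoc, MBX.mgA_iff, MBX.mgC_iff]

end Pool.Agent.OGP
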