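import Pool.Agent.OGP.Stmts

/-!
# MEMB: the computed block
-/

set_option autoImplicit false

namespace Pool.Agent.OGP

open Relation in
theorem memb_proof (hR : Stmt_RSPEC) : Stmt_MEMB := by
  classical
  intro M n u v
  have hmem : ∀ w, w ∈ blockB M n u v ↔ w < n ∧ ∀ c, c < n → c = w ∨
      ∃ z ∈ reachB M [] ((List.range n).filter fun t => !decide (t = c)) [w] n,
        z = u ∨ z = v := by
    intro w
    unfold blockB
    rw [List.mem_filter, List.mem_range, List.all_eq_true]
    simp only [List.mem_range, Bool.or_eq_true, decide_eq_true_eq, List.any_eq_true]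
  refine ⟨fun w => ?_, ?_, ?_, fun w hw => ((hmem w).1 hw).1⟩
  · rw [hmem]
    change _ ↔ (w ∈ {x | x < n} ∧ ∀ c ∈ {x : ℕ | x < n}, c ≠ w → ∃ z, (z = u ∨ z = v) ∧ z ≠ c ∧
      Reach (ent M) {t | t ∈ {x : ℕ | x < n} ∧ t ≠ c} w z)
    refine and_congr_right fun hwn => forall_congr' fun c => forall_congr' fun hc => ?_
    have hS : ∀ t, t ∈ ((List.range n).filter fun t => !decide (t = c)) ↔ t < n ∧ t ≠ c := by
      intro t
      simp [List.mem_filter]
    have hspec := (hR M [] ((List.range n).filter fun t => !decide (t = c)) [w] n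
      (List.nodup_range.filter _)
      ((List.length_filter_le _ _).trans (by rw [List.length_range]))).1
    have hrel : (fun a b => ent M a b = true ∧ a ∈ ((List.range n).filter fun t =>
        !decide (t = c)) ∧ b ∈ ((List.range n).filter fun t => !decide (t = c)) ∧
        ∀ r ∈ ([] : List Rec), r.1 ≠ (a, b) ∧ r.1 ≠ (b, a)) =
        fun a b => ent M a b = true ∧ a ∈ {t | t ∈ {x : ℕ | x < n} ∧ t ≠ c} ∧
          b ∈ {t | t ∈ {x : ℕ | x < n} ∧ t ≠ c} := by
      funext a b
      rw [hS, hS]
      simp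
    rw [hrel] at hspec
    constructor
    · intro h hcw
      rcases h with h | ⟨z, hz, hzuv⟩
      · exact absurd h hcw
      · obtain ⟨h1, x, hx, -, h3⟩ := (hspec z).1 hz
        rw [List.mem_singleton] at hx
        rw [hx] at h3
        exact ⟨z, hzuv, ((hS z).1 h1).2, h3⟩
    · intro h
      by_cases hcw : c = w
      · exact Or.inl hcw
      · obtain ⟨z, hzuv, hzc, hz⟩ := h hcw
        have hwS : w < n ∧ w ≠ c := ⟨hwn, fun h => hcw h.symm⟩
        refine Or.inr ⟨z, (hspec z).2 ⟨(hS z).2 ?_, w, List.mem_singleton.2 rfl,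
          (hS w).2 hwS, hz⟩, hzuv⟩
        rcases ReflTransGen.cases_tail hz with h1 | ⟨b, -, h2⟩
        · rw [h1]; exact hwS
        · exact h2.2.2
  · unfold blockB
    exact List.nodup_range.filter _
  · unfold blockB
    exact (List.length_filter_le _ _).trans (by rw [List.length_range])

end Pool.Agent.OGP
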