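import Pool.Agent.OGP.Stmts

/-!
# MINS: a minimal subdivision
-/

set_option autoImplicit false

namespace Pool.Agent.OGP

namespace MINSX

/-- A subdivision by chords crossed at most once. -/
def Sub (E : Finset (ℕ × ℕ)) (i j r : ℕ) : Prop :=
  ∃ s : ℕ → ℕ, 2 ≤ r ∧ s 0 = i ∧ s r = j ∧ (∀ a b, a < b → b ≤ r → s a < s b) ∧
    (∀ a, a < r → (thru E (s a) (s (a + 1))).card ≤ 1)

theorem thru_succ (E : Finset (ℕ × ℕ)) (t : ℕ) : thru E t (t + 1) = ∅ := by
  unfold thru
  rw [Finset.filter_eq_empty_iff]
  intro e _
  unfold Alt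
  omega

theorem exists_sub (E : Finset (ℕ × ℕ)) (i j : ℕ) (h : i + 2 ≤ j) : ∃ r, Sub E i j r := by
  refine ⟨j - i, fun a => i + a, by omega, rfl, by change i + (j - i) = j; omega,
    fun a b hab _ => by change i + a < i + b; omega, fun a _ => ?_⟩
  change (thru E (i + a) (i + (a + 1))).card ≤ 1
  rw [show i + (a + 1) = i + a + 1 by ring, thru_succ]
  simp

end MINSX

open MINSX in
theorem mins_proof : Stmt_MINS := by
  classical
  intro E i j hij
  have hex := exists_sub E i j hij
  obtain ⟨s, hr, h0, hR, hmono, hcons⟩ := Nat.find_spec hex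
  refine ⟨Nat.find hex, s, hr, h0, hR, hmono, hcons, ?_⟩
  intro a b hab hbr hne
  by_contra hlt
  have hle : (thru E (s a) (s b)).card ≤ 1 := by omega
  set r := Nat.find hex with hrdef
  have hr' : r - (b - a - 1) < r := by omega
  refine Nat.find_min hex hr' ⟨fun c => if c ≤ a then s c else s (c + (b - a - 1)), ?_, ?_, ?_, ?_, ?_⟩
  · omega
  · simp [h0]
  · change (if r - (b - a - 1) ≤ a then _ else _) = j
    rw [if_neg (by omega), show r - (b - a - 1) + (b - a - 1) = r by omega, hR]
  · intro c d hcd hd
    change (if c ≤ a then s c else s (c + (b - a - 1))) <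
      (if d ≤ a then s d else s (d + (b - a - 1)))
    by_cases hc : c ≤ a
    · by_cases hda : d ≤ a
      · rw [if_pos hc, if_pos hda]
        exact hmono _ _ hcd (by omega)
      · rw [if_pos hc, if_neg hda]
        exact hmono _ _ (by omega) (by omega)
    · rw [if_neg hc, if_neg (by omega)]
      exact hmono _ _ (by omega) (by omega)
  · intro c hc
    change (thru E (if c ≤ a then s c else s (c + (b - a - 1)))
      (if c + 1 ≤ a then s (c + 1) else s (c + 1 + (b - a - 1)))).card ≤ 1
    by_cases h1 : c + 1 ≤ a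
    · rw [if_pos (by omega), if_pos h1]
      exact hcons c (by omega)
    · by_cases h2 : c = a
      · subst h2
        rw [if_pos le_rfl, if_neg h1, show c + 1 + (b - c - 1) = b by omega]
        exact hle
      · rw [if_neg (by omega), if_neg h1,
          show c + 1 + (b - a - 1) = c + (b - a - 1) + 1 by ring]
        exact hcons _ (by omega)

end Pool.Agent.OGP
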