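import Pool.Agent.OGP.Stmts
import Mathlib.Data.List.Sort

/-!
# Module NORM: lists instead of positions
-/

namespace Pool.Agent.OGP

namespace NORMX

/-- Alternation is invariant under order preserving maps. -/
theorem alt_of_lt {a b c d a' b' c' d' : ℕ}
    (h1 : a < b → a' < b') (h2 : b < a → b' < a') (h3 : a < c → a' < c') (h4 : c < a → c' < a')
    (h5 : a < d → a' < d') (h6 : d < a → d' < a') (h7 : b < c → b' < c') (h8 : c < b → c' < b')
    (h9 : b < d → b' < d') (h10 : d < b → d' < b') (h : Alt a b c d) : Alt a' b' c' d' := by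
  unfold Alt at *
  omega

theorem idx_lt {pos : ℕ → ℕ} {π : List ℕ} (hs : π.Pairwise fun a b => pos a ≤ pos b)
    (hinj : ∀ x ∈ π, ∀ y ∈ π, pos x = pos y → x = y) {x y : ℕ} (hx : x ∈ π) (hy : y ∈ π)
    (h : π.idxOf x < π.idxOf y) : pos x < pos y := by
  have hlx := List.idxOf_lt_length_of_mem hx
  have hly := List.idxOf_lt_length_of_mem hy
  have h1 := List.pairwise_iff_getElem.1 hs (π.idxOf x) (π.idxOf y) hlx hly h
  rw [List.getElem_idxOf, List.getElem_idxOf] at h1
  refine lt_of_le_of_ne h1 fun he => ?_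
  have := hinj x hx y hy he
  subst this
  exact lt_irrefl _ h

end NORMX

theorem norm_proof : Stmt_NORM := by
  intro adj W n hW hn h0 hG
  obtain ⟨pos, g, hinj, hg⟩ := hG
  let r : ℕ → ℕ → Prop := fun a b => pos a ≤ pos b
  haveI : Std.Total r := ⟨fun a b => le_total (pos a) (pos b)⟩
  haveI : IsTrans ℕ r := ⟨fun a b c h1 h2 => le_trans (show pos a ≤ pos b from h1) h2⟩
  let π := W.insertionSort r
  have hperm : π.Perm W := List.perm_insertionSort r W
  have hmem : ∀ x, x ∈ π ↔ x ∈ W := fun x => hperm.mem_iff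
  have hs : π.Pairwise fun a b => pos a ≤ pos b := List.pairwise_insertionSort r W
  have hinj' : ∀ x ∈ π, ∀ y ∈ π, pos x = pos y → x = y := fun x hx y hy =>
    hinj x ((hmem x).1 hx) y ((hmem y).1 hy)
  have hlt : ∀ x ∈ W, ∀ y ∈ W, π.idxOf x < π.idxOf y → pos x < pos y := fun x hx y hy h =>
    NORMX.idx_lt hs hinj' ((hmem x).2 hx) ((hmem y).2 hy) h
  refine ⟨π, fun e => if (g e).1 < n ∧ (g e).2 < n then g e else (0, 0), ⟨?_, hmem, ?_⟩, ?_⟩
  · exact hperm.nodup_iff.2 hW
  · intro u hu v hv x hx y hy h1 h2 hA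
    have hA' : Alt (pos u) (pos v) (pos x) (pos y) :=
      NORMX.alt_of_lt (hlt u hu v hv) (hlt v hv u hu) (hlt u hu x hx) (hlt x hx u hu)
        (hlt u hu y hy) (hlt y hy u hu) (hlt v hv x hx) (hlt x hx v hv)
        (hlt v hv y hy) (hlt y hy v hv) hA
    have hed : ∀ s ∈ W, ∀ t ∈ W, (ed s t).1 < n ∧ (ed s t).2 < n := by
      intro s hs t ht
      have := hn s hs
      have := hn t ht
      simp only [ed]
      omega
    rcases hg u hu v hv x hx y hy h1 h2 hA' with h | h
    · left
      show (if (g (ed u v)).1 < n ∧ (g (ed u v)).2 < n then g (ed u v) else (0, 0)) = ed x y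
      rw [h, if_pos (hed x hx y hy)]
    · right
      show (if (g (ed x y)).1 < n ∧ (g (ed x y)).2 < n then g (ed x y) else (0, 0)) = ed u v
      rw [h, if_pos (hed u hu v hv)]
  · intro e
    show (if (g e).1 < n ∧ (g e).2 < n then g e else (0, 0)).1 < n ∧
      (if (g e).1 < n ∧ (g e).2 < n then g e else (0, 0)).2 < n
    split_ifs with h
    · exact h
    · exact ⟨h0, h0⟩

end Pool.Agent.OGP
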