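import Pool.Agent.OGP.StmtsP

/-!
# OGP module PALG: the algorithm runs in polynomial time
-/

set_option linter.unusedSectionVars false
set_option linter.unusedVariables false

namespace Pool.Agent.OGP

open Pool.Agent.PT81 Pool.Agent.IsoImp Pool.Agent.Bx81 Turing Polynomial

namespace PALGX

theorem poly_ent' {E : Env} {γ : Type} [Enc E γ] {s : γ → List (List Bool)} {i j : γ → ℕ}
    (hs : Poly E s) (hi : Poly E i) (hj : Poly E j) :
    Poly E (fun c => OGP.ent (s c) (i c) (j c)) :=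
  poly_nthD false (poly_nthD [] hs hi) hj

theorem poly_algM (hD : Stmt_PDP) (hB : Stmt_PBLK) {E : Env} {γ : Type} [Enc E γ]
    {M : γ → List (List Bool)} {n : γ → ℕ} (hM : Poly E M) (hn : Poly E n) :
    Poly E (fun c => algM (M c) (n c)) := by
  have h0 := hB E γ M n (fun _ => 0) (fun _ => 0) hM hn (Poly.const 0) (Poly.const 0)
  refine Poly.and (Poly.and (Poly.lt (Poly.const 0) hn) h0.2.2) (Poly.and h0.2.1 ?_)
  refine Poly.all (g := fun p : γ × ℕ => (List.range (n p.1)).all fun v =>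
    !OGP.ent (M p.1) p.2 v || dp (M p.1) (blockB (M p.1) (n p.1) p.2 v) (n p.1)) hn.range ?_
  refine Poly.all (g := fun q : (γ × ℕ) × ℕ =>
    !OGP.ent (M q.1.1) q.1.2 q.2 || dp (M q.1.1) (blockB (M q.1.1) (n q.1.1) q.1.2 q.2) (n q.1.1))
    (hn.comp Poly.fst).range ?_
  have h1 : Poly E (fun q : (γ × ℕ) × ℕ => q.1.1) := Poly.fst.comp Poly.fst
  have h2 : Poly E (fun q : (γ × ℕ) × ℕ => q.1.2) := Poly.snd.comp Poly.fst
  have hM1 := hM.comp h1
  have hn1 := hn.comp h1
  refine Poly.or (Poly.not (poly_ent' hM1 h2 Poly.snd)) ?_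
  exact hD E ((γ × ℕ) × ℕ) _ _ _ hM1 (hB E ((γ × ℕ) × ℕ) _ _ _ _ hM1 hn1 h2 Poly.snd).1 hn1

theorem poly_alg (hD : Stmt_PDP) (hB : Stmt_PBLK) {E : Env} [inst : Enc E (Option Bool)] :
    Poly E (fun w : List (Option Bool) => alg w) := by
  have hs : Poly E (fun w : List (Option Bool) => seg w) := poly_seg Poly.id
  have hn : Poly E (fun w : List (Option Bool) => (seg w).length - 1) :=
    Poly.sub (Poly.length hs) (Poly.const 1)
  exact poly_algM hD hB hs hn

end PALGX

open PALGX in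
/-- module PALG -/
theorem palg_proof (hD : Stmt_PDP) (hB : Stmt_PBLK) : Stmt_PALG := by
  let _ : Enc (io (Option Bool) Bool) (Option Bool) := finEnc _ _
  have h := poly_alg hD hB (E := io (Option Bool) Bool)
  exact poly_toTM2 (F := fun w => [alg w]) (Poly.cons h (Poly.const [])) _ _ _ fun I => rfl

end Pool.Agent.OGP
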