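import Pool.Agent.OGP.StmtsP

/-!
# Squad OGP, module PBLK: blocks, connectivity and the check of the matrix in polynomial time
-/

set_option linter.unusedVariables false

namespace Pool.Agent.OGP

open Pool.Agent.PT81 Pool.Agent.IsoImp Turing Polynomial

namespace PBLKX

variable {E : Env} {γ α : Type} [Enc E γ] [Enc E α]

theorem poly_memb {z : γ → ℕ} {l : γ → List ℕ} (hz : Poly E z) (hl : Poly E l) :
    Poly E (fun c => memb (z c) (l c)) :=
  Poly.any (g := fun p : γ × ℕ => decide (p.2 = z p.1)) hl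
    (Poly.eq Poly.snd (hz.comp Poly.fst))

theorem poly_nthD {f : γ → List α} {i : γ → ℕ} (a : α) (hf : Poly E f) (hi : Poly E i) :
    Poly E (fun c => ((f c)[i c]?).getD a) := by
  refine (Poly.optCases (Poly.nth hf hi) (Poly.const a) Poly.snd).congr fun c => ?_
  cases (f c)[i c]? <;> rfl

theorem poly_ent {s : γ → List (List Bool)} {i j : γ → ℕ} (hs : Poly E s) (hi : Poly E i)
    (hj : Poly E j) : Poly E (fun c => ent (s c) (i c) (j c)) :=
  poly_nthD false (poly_nthD [] hs hi) hj

end PBLKX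

theorem pblk_proof (hR : Stmt_PREACH) : Stmt_PBLK := by
  intro E γ _ M n u v hM hn hu hv
  refine ⟨?_, ?_, ?_⟩
  · refine Poly.filter (g := fun p : γ × ℕ => (List.range (n p.1)).all fun c => decide (c = p.2) ||
      (reachB (M p.1) [] ((List.range (n p.1)).filter fun t => !decide (t = c)) [p.2] (n p.1)).any
        fun z => decide (z = u p.1) || decide (z = v p.1)) hn.range ?_
    refine Poly.all (g := fun q : (γ × ℕ) × ℕ => decide (q.2 = q.1.2) ||
      (reachB (M q.1.1) [] ((List.range (n q.1.1)).filter fun t => !decide (t = q.2)) [q.1.2]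
        (n q.1.1)).any fun z => decide (z = u q.1.1) || decide (z = v q.1.1))
      (hn.comp Poly.fst).range ?_
    have e1 : Poly E (fun q : (γ × ℕ) × ℕ => q.1.1) := Poly.fst.comp Poly.fst
    have e2 : Poly E (fun q : (γ × ℕ) × ℕ => q.1.2) := Poly.snd.comp Poly.fst
    have e3 : Poly E (fun q : (γ × ℕ) × ℕ => q.2) := Poly.snd
    refine Poly.or (Poly.eq e3 e2) ?_
    refine Poly.any (g := fun r : ((γ × ℕ) × ℕ) × ℕ => decide (r.2 = u r.1.1.1) ||
      decide (r.2 = v r.1.1.1)) ?_ ?_
    · refine hR E _ (fun q : (γ × ℕ) × ℕ => M q.1.1) (fun _ => []) (fun q : (γ × ℕ) × ℕ =>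
        (List.range (n q.1.1)).filter fun t => !decide (t = q.2)) (fun q => [q.1.2])
        (fun q => n q.1.1) (hM.comp e1) (Poly.const []) ?_ (Poly.cons e2 (Poly.const []))
        (hn.comp e1)
      exact Poly.filter (g := fun r : ((γ × ℕ) × ℕ) × ℕ => !decide (r.2 = r.1.2))
        (hn.comp e1).range (Poly.not (Poly.eq Poly.snd (Poly.snd.comp Poly.fst)))
    · exact Poly.or (Poly.eq Poly.snd (hu.comp (e1.comp Poly.fst)))
        (Poly.eq Poly.snd (hv.comp (e1.comp Poly.fst)))
  · have h1 : Poly E (fun c => reachB (M c) [] (List.range (n c)) [0] (n c)) :=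
      hR E γ M (fun _ => []) (fun c => List.range (n c)) (fun _ => [0]) n hM (Poly.const [])
        hn.range (Poly.const [0]) hn
    exact Poly.all (g := fun p : γ × ℕ => memb p.2
      (reachB (M p.1) [] (List.range (n p.1)) [0] (n p.1))) hn.range
      (PBLKX.poly_memb Poly.snd (h1.comp Poly.fst))
  · refine Poly.and (Poly.isEmpty (PBLKX.poly_nthD [true] hM hn)) ?_
    refine Poly.all (g := fun p : γ × ℕ => decide ((((M p.1)[p.2]?).getD []).length = n p.1) &&
      (!ent (M p.1) p.2 p.2 && (List.range (n p.1)).all fun j =>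
        decide (ent (M p.1) p.2 j = ent (M p.1) j p.2))) hn.range ?_
    have hM' := hM.comp (Poly.fst (E := E) (α := γ) (β := ℕ))
    have hn' := hn.comp (Poly.fst (E := E) (α := γ) (β := ℕ))
    refine Poly.and (Poly.eq (Poly.length (PBLKX.poly_nthD [] hM' Poly.snd)) hn') (Poly.and
      (Poly.not (PBLKX.poly_ent hM' Poly.snd Poly.snd)) ?_)
    refine Poly.all (g := fun q : (γ × ℕ) × ℕ =>
      decide (ent (M q.1.1) q.1.2 q.2 = ent (M q.1.1) q.2 q.1.2)) hn'.range ?_
    exact Poly.eq (PBLKX.poly_ent (hM'.comp Poly.fst) (Poly.snd.comp Poly.fst) Poly.snd)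
      (PBLKX.poly_ent (hM'.comp Poly.fst) Poly.snd (Poly.snd.comp Poly.fst))

end Pool.Agent.OGP
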