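import Pool.Agent.OGP.StmtsP

/-!
# Module PCAND of squad OGP: the candidates are computed in polynomial time
-/

set_option autoImplicit false

namespace Pool.Agent.OGP

open Pool.Agent.PT81 Pool.Agent.IsoImp Turing Polynomial

namespace PCANDX

theorem poly_prs {E : Env} {δ : Type} [Enc E δ] {m : δ → ℕ} (hm : Poly E m) :
    Poly E (fun c => prs (m c)) := by
  refine Poly.flatMap (g := fun x : δ × ℕ => (List.range (m x.1)).map fun b => (x.2, b))
    hm.range ?_
  exact Poly.map (g := fun y : (δ × ℕ) × ℕ => (y.1.2, y.2)) (hm.comp Poly.fst).range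
    (Poly.pair (Poly.snd.comp Poly.fst) Poly.snd)

theorem poly_recs {E : Env} {δ : Type} [Enc E δ] {m : δ → ℕ} (hm : Poly E m) :
    Poly E (fun c => recs (m c)) := by
  refine Poly.flatMap (g := fun x : δ × (ℕ × ℕ) => (prs (m x.1)).map fun q => (x.2, q))
    (poly_prs hm) ?_
  exact Poly.map (g := fun y : (δ × (ℕ × ℕ)) × (ℕ × ℕ) => (y.1.2, y.2))
    (poly_prs (hm.comp Poly.fst)) (Poly.pair (Poly.snd.comp Poly.fst) Poly.snd)

theorem poly_areach (hR : Stmt_PREACH) {E : Env} {δ : Type} [Enc E δ]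
    {M : δ → List (List Bool)} {W : δ → List ℕ} {n a b : δ → ℕ} {L : δ → List Rec}
    {R : δ → List ℕ} (hM : Poly E M) (hW : Poly E W) (hn : Poly E n) (ha : Poly E a)
    (hb : Poly E b) (hL : Poly E L) (hRR : Poly E R) :
    Poly E (fun c => areach (M c) (W c) (n c) (a c) (b c) (L c) (R c)) := by
  refine hR E δ M L (fun c => (W c).filter fun z => !decide (z = a c) && !decide (z = b c))
    (fun c => R c ++ (L c).map fun r => r.1.1) n hM hL ?_ ?_ hn
  · exact Poly.filter (g := fun x : δ × ℕ => !decide (x.2 = a x.1) && !decide (x.2 = b x.1)) hW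
      (Poly.and (Poly.not (Poly.eq Poly.snd (ha.comp Poly.fst)))
        (Poly.not (Poly.eq Poly.snd (hb.comp Poly.fst))))
  · exact Poly.append hRR (Poly.map (g := fun x : δ × Rec => x.2.1.1) hL
      (Poly.fst.comp (Poly.fst.comp Poly.snd)))

end PCANDX

open PCANDX

theorem pcand_proof (hT : Stmt_PTUP) (hR : Stmt_PREACH) : Stmt_PCAND := by
  intro E γ _ M W n hM hW hn
  refine Poly.flatMap (g := fun x : γ × Rec => (tup 6 (recs (n x.1))).flatMap fun L =>
    (tup 26 (List.range (n x.1))).map fun R =>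
      (x.2, (L, areach (M x.1) (W x.1) (n x.1) x.2.1.1 x.2.1.2 L R))) (poly_recs hn) ?_
  refine Poly.flatMap (g := fun y : (γ × Rec) × List Rec =>
    (tup 26 (List.range (n y.1.1))).map fun R =>
      (y.1.2, (y.2, areach (M y.1.1) (W y.1.1) (n y.1.1) y.1.2.1.1 y.1.2.1.2 y.2 R)))
    (hT E (γ × Rec) Rec 6 (fun x => recs (n x.1)) (poly_recs (hn.comp Poly.fst))) ?_
  have h11 : Poly E (fun y : (γ × Rec) × List Rec => y.1.1) := Poly.fst.comp Poly.fst
  refine Poly.map (g := fun z : ((γ × Rec) × List Rec) × List ℕ =>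
    (z.1.1.2, (z.1.2, areach (M z.1.1.1) (W z.1.1.1) (n z.1.1.1) z.1.1.2.1.1 z.1.1.2.1.2
      z.1.2 z.2)))
    (hT E ((γ × Rec) × List Rec) ℕ 26 (fun y => List.range (n y.1.1)) (hn.comp h11).range) ?_
  have h111 : Poly E (fun z : ((γ × Rec) × List Rec) × List ℕ => z.1.1.1) := h11.comp Poly.fst
  have he : Poly E (fun z : ((γ × Rec) × List Rec) × List ℕ => z.1.1.2) :=
    Poly.snd.comp (Poly.fst.comp Poly.fst)
  have hL : Poly E (fun z : ((γ × Rec) × List Rec) × List ℕ => z.1.2) := Poly.snd.comp Poly.fst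
  exact Poly.pair he (Poly.pair hL (poly_areach hR (hM.comp h111) (hW.comp h111) (hn.comp h111)
    (Poly.fst.comp (Poly.fst.comp he)) (Poly.snd.comp (Poly.fst.comp he)) hL Poly.snd))

end Pool.Agent.OGP
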