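import Pool.Agent.OGP.StmtsP

/-!
# Squad OGP, module PDP: the dynamic programming runs in polynomial time
-/

set_option linter.unusedVariables false

namespace Pool.Agent.OGP

open Pool.Agent.PT81 Pool.Agent.IsoImp Turing Polynomial

namespace PDPX

variable {E : Env} {γ α : Type} [Enc E γ] [Enc E α]

theorem poly_memb {z : γ → ℕ} {l : γ → List ℕ} (hz : Poly E z) (hl : Poly E l) :
    Poly E (fun c => memb (z c) (l c)) :=
  Poly.any (g := fun p : γ × ℕ => decide (p.2 = z p.1)) hl
    (Poly.eq Poly.snd (hz.comp Poly.fst))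

theorem poly_baseB {W : γ → List ℕ} {s : γ → St} (hW : Poly E W) (hs : Poly E s) :
    Poly E (fun c => baseB (W c) (s c)) := by
  have h1 : Poly E (fun c => (s c).1.1.1) := Poly.fst.comp (Poly.fst.comp (Poly.fst.comp hs))
  have h2 : Poly E (fun c => (s c).1.1.2) := Poly.snd.comp (Poly.fst.comp (Poly.fst.comp hs))
  have h3 : Poly E (fun c => (s c).2.1) := Poly.fst.comp (Poly.snd.comp hs)
  have h4 : Poly E (fun c => (s c).2.2) := Poly.snd.comp (Poly.snd.comp hs)
  exact Poly.and (Poly.and (Poly.isEmpty h3) (Poly.isEmpty h4))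
    (Poly.and (Poly.not (Poly.eq h1 h2)) (Poly.and (poly_memb h1 hW) (poly_memb h2 hW)))

theorem poly_finalB {W : γ → List ℕ} {s : γ → St} (hW : Poly E W) (hs : Poly E s) :
    Poly E (fun c => finalB (W c) (s c)) := by
  have h1 : Poly E (fun c => (s c).1.1.1) := Poly.fst.comp (Poly.fst.comp (Poly.fst.comp hs))
  have h2 : Poly E (fun c => (s c).1.1.2) := Poly.snd.comp (Poly.fst.comp (Poly.fst.comp hs))
  have h3 : Poly E (fun c => (s c).2.1) := Poly.fst.comp (Poly.snd.comp hs)
  have h4 : Poly E (fun c => (s c).2.2) := Poly.snd.comp (Poly.snd.comp hs)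
  refine Poly.and (Poly.isEmpty h3) ?_
  refine Poly.all (g := fun p : γ × ℕ => decide (p.2 = (s p.1).1.1.1) ||
    (decide (p.2 = (s p.1).1.1.2) || memb p.2 (s p.1).2.2)) hW ?_
  exact Poly.or (Poly.eq Poly.snd (h1.comp Poly.fst)) (Poly.or (Poly.eq Poly.snd (h2.comp Poly.fst))
    (poly_memb Poly.snd (h4.comp Poly.fst)))

theorem esz_sublist_le {l m : List α} (h : l.Sublist m) : esz E l ≤ esz E m := by
  induction h with
  | slnil => exact le_rfl
  | cons a _ ih => simp only [esz_cons]; omega
  | cons_cons a _ ih => simp only [esz_cons]; omega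

end PDPX

theorem pdp_proof (hC : Stmt_PCAND) (hA : Stmt_PMGA) (hB : Stmt_PMGB) (hD : Stmt_PMGC) :
    Stmt_PDP := by
  intro E γ _ M W n hM hW hn
  have hcs : Poly E (fun c => cands (M c) (W c) (n c)) := hC E γ M W n hM hW hn
  have hmerge : Poly E (fun q : (((γ × List St) × St) × St) × St =>
      mergeB (M q.1.1.1.1) (W q.1.1.1.1) q.1.2 q.2 q.1.1.2) := by
    have e1 : Poly E (fun q : (((γ × List St) × St) × St) × St => q.1.1.1.1) :=
      Poly.fst.comp (Poly.fst.comp (Poly.fst.comp Poly.fst))
    have e2 : Poly E (fun q : (((γ × List St) × St) × St) × St => q.1.2) :=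
      Poly.snd.comp Poly.fst
    have e3 : Poly E (fun q : (((γ × List St) × St) × St) × St => q.2) := Poly.snd
    have e4 : Poly E (fun q : (((γ × List St) × St) × St) × St => q.1.1.2) :=
      Poly.snd.comp (Poly.fst.comp Poly.fst)
    have eM := hM.comp e1
    have eW := hW.comp e1
    exact Poly.and (hA E _ _ _ _ e2 e3 e4) (Poly.and (hB E _ _ _ _ _ _ eM eW e2 e3 e4)
      (hD E _ _ _ _ _ eM e2 e3 e4))
  have hstep : Poly E (fun p : γ × List St => dpStep (M p.1) (W p.1)
      (cands (M p.1) (W p.1) (n p.1)) p.2) := by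
    refine Poly.filter (g := fun q : (γ × List St) × St => baseB (W q.1.1) q.2 ||
      q.1.2.any fun s1 => q.1.2.any fun s2 => mergeB (M q.1.1) (W q.1.1) s1 s2 q.2)
      (hcs.comp Poly.fst) ?_
    refine Poly.or (PDPX.poly_baseB (hW.comp (Poly.fst.comp Poly.fst)) Poly.snd) ?_
    refine Poly.any (g := fun q : ((γ × List St) × St) × St => q.1.1.2.any fun s2 =>
      mergeB (M q.1.1.1) (W q.1.1.1) q.2 s2 q.1.2) (Poly.snd.comp Poly.fst) ?_
    exact Poly.any (g := fun q : (((γ × List St) × St) × St) × St =>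
      mergeB (M q.1.1.1.1) (W q.1.1.1.1) q.1.2 q.2 q.1.1.2)
      (Poly.snd.comp (Poly.fst.comp Poly.fst)) hmerge
  obtain ⟨pc, hpc⟩ := hcs.bound
  have hiter := Poly.natIter (f := n) (b := fun _ => ([] : List St))
    (g := fun p : γ × List St => dpStep (M p.1) (W p.1) (cands (M p.1) (W p.1) (n p.1)) p.2)
    hn (Poly.const []) hstep (1 + pc) (by
      intro c k hk
      cases k with
      | zero =>
        simp only [Function.iterate_zero, id_eq, esz_nil, eval_add, eval_one]
        omega
      | succ k =>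
        rw [Function.iterate_succ_apply']
        have h1 := hpc c
        have h2 := PDPX.esz_sublist_le (E := E) (List.filter_sublist (l := cands (M c) (W c) (n c))
          (p := fun s => baseB (W c) s || ((fun b => dpStep (M c) (W c)
            (cands (M c) (W c) (n c)) b)^[k] []).any fun s1 => ((fun b => dpStep (M c) (W c)
            (cands (M c) (W c) (n c)) b)^[k] []).any fun s2 => mergeB (M c) (W c) s1 s2 s))
        simp only [eval_add, eval_one]
        exact (h2.trans h1).trans (Nat.le_add_left _ _))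
  exact Poly.any (g := fun p : γ × St => finalB (W p.1) p.2) hiter
    (PDPX.poly_finalB (hW.comp Poly.fst) Poly.snd)

end Pool.Agent.OGP
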