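import Pool.Agent.OGP.Stmts

/-! Transport of the gap function of a drawing to pairs of positions. -/

namespace Pool.Agent.OGP

namespace PEGX

theorem getD_idxOf {π : List ℕ} {x : ℕ} (hx : x ∈ π) : π.getD (π.idxOf x) 0 = x := by
  have h := List.idxOf_lt_length_of_mem hx
  rw [List.getD_eq_getElem _ _ h]
  exact List.getElem_idxOf h

theorem key {π : List ℕ} {x y : ℕ} (h : π.idxOf x < π.idxOf y) :
    (min (π.idxOf (ed x y).1) (π.idxOf (ed x y).2),
      max (π.idxOf (ed x y).1) (π.idxOf (ed x y).2)) = (π.idxOf x, π.idxOf y) := by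
  unfold ed
  rcases le_total x y with hxy | hxy
  · simp only [min_eq_left hxy, max_eq_right hxy, min_eq_left h.le, max_eq_right h.le]
  · simp only [min_eq_right hxy, max_eq_left hxy, min_eq_right h.le, max_eq_left h.le]

theorem mem_PE {adj : ℕ → ℕ → Bool} {W π : List ℕ} {e : ℕ × ℕ} (he : e ∈ PE adj W π) :
    ∃ u v, u ∈ W ∧ v ∈ W ∧ adj u v = true ∧ π.idxOf u < π.idxOf v ∧
      e = (π.idxOf u, π.idxOf v) := by
  unfold PE at he
  simp only [Finset.mem_image, Finset.mem_filter, Finset.mem_product, List.mem_toFinset,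
    Prod.exists] at he
  obtain ⟨u, v, ⟨⟨hu, hv⟩, ha, hlt⟩, rfl⟩ := he
  exact ⟨u, v, hu, hv, ha, hlt, rfl⟩

end PEGX

open PEGX in
theorem peg_proof : Stmt_PEG := by
  intro adj W π g hA
  refine ⟨⟨fun e => (min (π.idxOf (g (ed (π.getD e.1 0) (π.getD e.2 0))).1)
      (π.idxOf (g (ed (π.getD e.1 0) (π.getD e.2 0))).2),
      max (π.idxOf (g (ed (π.getD e.1 0) (π.getD e.2 0))).1)
      (π.idxOf (g (ed (π.getD e.1 0) (π.getD e.2 0))).2)), ?_⟩, ?_⟩
  · intro e he f hf halt
    obtain ⟨u, v, hu, hv, ha, hlt, rfl⟩ := mem_PE he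
    obtain ⟨x, y, hx, hy, hb, hlt', rfl⟩ := mem_PE hf
    have hu' := (hA.mem u).2 hu
    have hv' := (hA.mem v).2 hv
    have hx' := (hA.mem x).2 hx
    have hy' := (hA.mem y).2 hy
    rcases hA.ok u hu v hv x hx y hy ha hb halt with h | h
    · left
      simp only [getD_idxOf hu', getD_idxOf hv', h]
      exact key hlt'
    · right
      simp only [getD_idxOf hx', getD_idxOf hy', h]
      exact key hlt
  · intro e he
    obtain ⟨u, v, hu, hv, ha, hlt, rfl⟩ := mem_PE he
    exact ⟨hlt, List.idxOf_lt_length_of_mem ((hA.mem v).2 hv)⟩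

end Pool.Agent.OGP
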