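import Pool.Agent.OGP.StmtsP

/-! # Module PLOC: local positions in polynomial time -/

set_option linter.unusedVariables false
set_option linter.unusedSectionVars false

namespace Pool.Agent.OGP.PLOCX

open Pool.Agent.PT81 Pool.Agent.IsoImp Turing Polynomial

variable {E : Env} {γ : Type} [Enc E γ]

theorem poly_inn {L : γ → List Rec} {z : γ → ℕ} (hL : Poly E L) (hz : Poly E z) :
    Poly E (fun c => inn (L c) (z c)) := by
  refine Poly.any (g := fun p : γ × Rec => decide (p.2.1.1 = z p.1)) hL ?_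
  exact Poly.eq (Poly.fst.comp (Poly.fst.comp Poly.snd)) (hz.comp Poly.fst)

theorem poly_fidx {L : γ → List Rec} {z : γ → ℕ} (hL : Poly E L) (hz : Poly E z) :
    Poly E (fun c => fidx (L c) (z c)) := by
  have h := Poly.foldrAdd (b := fun _ => (0 : ℕ))
    (g := fun x : γ × (Rec × ℕ) => if decide (x.2.1.1.1 = z x.1) then 0 else x.2.2 + 1) hL
    (Poly.const 0)
    (Poly.ite (Poly.eq (Poly.fst.comp (Poly.fst.comp (Poly.fst.comp Poly.snd)))
      (hz.comp Poly.fst)) (Poly.const 0) (Poly.succ (Poly.snd.comp Poly.snd))) 2 (by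
      intro c a ha b
      simp only [esz_nat, eval_ofNat]
      split <;> omega)
  exact h

theorem poly_loc {L1 L2 : γ → List Rec} {a v b z : γ → ℕ} (h1 : Poly E L1) (h2 : Poly E L2)
    (ha : Poly E a) (hv : Poly E v) (hb : Poly E b) (hz : Poly E z) :
    Poly E (fun c => loc (L1 c) (L2 c) (a c) (v c) (b c) (z c)) := by
  unfold loc
  exact Poly.ite (Poly.eq hz ha) (Poly.const 0) (Poly.ite (poly_inn h1 hz)
    (Poly.add (poly_fidx h1 hz) (Poly.const 1)) (Poly.ite (Poly.eq hz hv)
    (Poly.add (Poly.length h1) (Poly.const 1)) (Poly.ite (poly_inn h2 hz)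
    (Poly.add (Poly.add (Poly.length h1) (Poly.const 2)) (poly_fidx h2 hz))
    (Poly.ite (Poly.eq hz hb)
      (Poly.add (Poly.add (Poly.length h1) (Poly.length h2)) (Poly.const 2))
      (Poly.add (Poly.add (Poly.length h1) (Poly.length h2)) (Poly.const 3))))))

end Pool.Agent.OGP.PLOCX

namespace Pool.Agent.OGP

open Pool.Agent.PT81 Pool.Agent.IsoImp Turing Polynomial

theorem ploc_proof : Stmt_PLOC := by
  intro E γ _ s1 s2 z h1 h2 hz
  unfold lc
  exact PLOCX.poly_loc (Poly.fst.comp (Poly.snd.comp h1)) (Poly.fst.comp (Poly.snd.comp h2))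
    (Poly.fst.comp (Poly.fst.comp (Poly.fst.comp h1)))
    (Poly.snd.comp (Poly.fst.comp (Poly.fst.comp h1)))
    (Poly.snd.comp (Poly.fst.comp (Poly.fst.comp h2))) hz

end Pool.Agent.OGP
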