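import Pool.Agent.OGP.StmtsP

/-!
# PMGB: the second test for merges runs in polynomial time
-/

set_option linter.unusedVariables false

namespace Pool.Agent.OGP

open Pool.Agent.PT81 Pool.Agent.IsoImp Turing Polynomial

namespace PMGBX

variable {E : Env} {γ : Type} [Enc E γ]

theorem p_memb {z : γ → ℕ} {l : γ → List ℕ} (hz : Poly E z) (hl : Poly E l) :
    Poly E (fun c => memb (z c) (l c)) :=
  Poly.any (g := fun p : γ × ℕ => decide (p.2 = z p.1)) hl
    (Poly.eq Poly.snd (hz.comp Poly.fst))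

theorem p_rmem {r : γ → Rec} {L : γ → List Rec} (hr : Poly E r) (hL : Poly E L) :
    Poly E (fun c => rmem (r c) (L c)) :=
  Poly.any (g := fun p : γ × Rec => decide (p.2 = r p.1)) hL
    (Poly.eq Poly.snd (hr.comp Poly.fst))

theorem p_ent {M : γ → List (List Bool)} {i j : γ → ℕ} (hM : Poly E M) (hi : Poly E i)
    (hj : Poly E j) : Poly E (fun c => ent (M c) (i c) (j c)) :=
  Pool.Agent.Bx81.poly_nthD false (Pool.Agent.Bx81.poly_nthD [] hM hi) hj

/-- first component of the pair of a record -/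
theorem r1 {r : γ → Rec} (hr : Poly E r) : Poly E (fun c => (r c).1.1) :=
  Poly.fst.comp (Poly.fst.comp hr)

theorem r2 {r : γ → Rec} (hr : Poly E r) : Poly E (fun c => (r c).1.2) :=
  Poly.snd.comp (Poly.fst.comp hr)

theorem r3 {r : γ → Rec} (hr : Poly E r) : Poly E (fun c => (r c).2) :=
  Poly.snd.comp hr

theorem sr {s : γ → St} (hs : Poly E s) : Poly E (fun c => (s c).1) := Poly.fst.comp hs

theorem sL {s : γ → St} (hs : Poly E s) : Poly E (fun c => (s c).2.1) :=
  Poly.fst.comp (Poly.snd.comp hs)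

theorem sA {s : γ → St} (hs : Poly E s) : Poly E (fun c => (s c).2.2) :=
  Poly.snd.comp (Poly.snd.comp hs)

/-- consistency of the edges between the two parts -/
theorem p_con {L L' : γ → List Rec} {A : γ → List ℕ} (hL : Poly E L) (hL' : Poly E L')
    (hA : Poly E A) :
    Poly E (fun c => (L c).all fun r => !memb r.1.2 (A c) || rmem ((r.1.2, r.1.1), r.2) (L' c)) := by
  refine Poly.all (g := fun p : γ × Rec => !memb p.2.1.2 (A p.1) ||
    rmem ((p.2.1.2, p.2.1.1), p.2.2) (L' p.1)) hL ?_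
  have h2 : Poly E (fun p : γ × Rec => p.2) := Poly.snd
  have h1 : Poly E (fun p : γ × Rec => p.1) := Poly.fst
  exact Poly.or (Poly.not (p_memb (r2 h2) (hA.comp h1)))
    (p_rmem (r := fun p : γ × Rec => ((p.2.1.2, p.2.1.1), p.2.2))
      (Poly.pair (Poly.pair (r2 h2) (r1 h2)) (r3 h2)) (hL'.comp h1))

theorem p_fwd {M : γ → List (List Bool)} {W : γ → List ℕ} {L L1 L2 : γ → List Rec} {v : γ → ℕ}
    (hM : Poly E M) (hW : Poly E W) (hL : Poly E L) (hL1 : Poly E L1) (hL2 : Poly E L2)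
    (hv : Poly E v) :
    Poly E (fun c => (L c).all fun r => rmem r (L1 c) || (rmem r (L2 c) ||
      (decide (r.1.1 = v c) && (ent (M c) (v c) r.1.2 && memb r.1.2 (W c))))) := by
  refine Poly.all (g := fun p : γ × Rec => rmem p.2 (L1 p.1) || (rmem p.2 (L2 p.1) ||
      (decide (p.2.1.1 = v p.1) && (ent (M p.1) (v p.1) p.2.1.2 && memb p.2.1.2 (W p.1))))) hL ?_
  have h2 : Poly E (fun p : γ × Rec => p.2) := Poly.snd
  have h1 : Poly E (fun p : γ × Rec => p.1) := Poly.fst
  exact Poly.or (p_rmem h2 (hL1.comp h1)) (Poly.or (p_rmem h2 (hL2.comp h1))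
    (Poly.and (Poly.eq (r1 h2) (hv.comp h1)) (Poly.and (p_ent (hM.comp h1) (hv.comp h1) (r2 h2))
      (p_memb (r2 h2) (hW.comp h1)))))

theorem p_out {L : γ → List Rec} {A : γ → List ℕ} {a b : γ → ℕ} (hL : Poly E L) (hA : Poly E A)
    (ha : Poly E a) (hb : Poly E b) :
    Poly E (fun c => (L c).all fun r => !memb r.1.2 (A c) &&
      (!decide (r.1.2 = a c) && !decide (r.1.2 = b c))) := by
  refine Poly.all (g := fun p : γ × Rec => !memb p.2.1.2 (A p.1) &&
      (!decide (p.2.1.2 = a p.1) && !decide (p.2.1.2 = b p.1))) hL ?_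
  have h2 : Poly E (fun p : γ × Rec => p.2) := Poly.snd
  have h1 : Poly E (fun p : γ × Rec => p.1) := Poly.fst
  exact Poly.and (Poly.not (p_memb (r2 h2) (hA.comp h1)))
    (Poly.and (Poly.not (Poly.eq (r2 h2) (ha.comp h1))) (Poly.not (Poly.eq (r2 h2) (hb.comp h1))))

theorem p_bwd {L L' : γ → List Rec} {A : γ → List ℕ} {a b : γ → ℕ} (hL : Poly E L)
    (hL' : Poly E L') (hA : Poly E A) (ha : Poly E a) (hb : Poly E b) :
    Poly E (fun c => (L c).all fun r => memb r.1.2 (A c) || (decide (r.1.2 = a c) ||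
      (decide (r.1.2 = b c) || rmem r (L' c)))) := by
  refine Poly.all (g := fun p : γ × Rec => memb p.2.1.2 (A p.1) || (decide (p.2.1.2 = a p.1) ||
      (decide (p.2.1.2 = b p.1) || rmem p.2 (L' p.1)))) hL ?_
  have h2 : Poly E (fun p : γ × Rec => p.2) := Poly.snd
  have h1 : Poly E (fun p : γ × Rec => p.1) := Poly.fst
  exact Poly.or (p_memb (r2 h2) (hA.comp h1)) (Poly.or (Poly.eq (r2 h2) (ha.comp h1))
    (Poly.or (Poly.eq (r2 h2) (hb.comp h1)) (p_rmem h2 (hL'.comp h1))))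

theorem p_bwdv {M : γ → List (List Bool)} {W A : γ → List ℕ} {L : γ → List Rec} {a b v : γ → ℕ}
    (hM : Poly E M) (hW : Poly E W) (hA : Poly E A) (hL : Poly E L) (ha : Poly E a)
    (hb : Poly E b) (hv : Poly E v) :
    Poly E (fun c => (W c).all fun y => !ent (M c) (v c) y || (memb y (A c) ||
      (decide (y = a c) || (decide (y = b c) || (L c).any fun r => decide (r.1 = (v c, y)))))) := by
  refine Poly.all (g := fun p : γ × ℕ => !ent (M p.1) (v p.1) p.2 || (memb p.2 (A p.1) ||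
      (decide (p.2 = a p.1) || (decide (p.2 = b p.1) ||
        (L p.1).any fun r => decide (r.1 = (v p.1, p.2)))))) hW ?_
  have h2 : Poly E (fun p : γ × ℕ => p.2) := Poly.snd
  have h1 : Poly E (fun p : γ × ℕ => p.1) := Poly.fst
  refine Poly.or (Poly.not (p_ent (hM.comp h1) (hv.comp h1) h2)) (Poly.or (p_memb h2 (hA.comp h1))
    (Poly.or (Poly.eq h2 (ha.comp h1)) (Poly.or (Poly.eq h2 (hb.comp h1)) ?_)))
  refine Poly.any (g := fun q : (γ × ℕ) × Rec => decide (q.2.1 = (v q.1.1, q.1.2)))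
    (hL.comp h1) ?_
  exact Poly.eq (Poly.fst.comp Poly.snd) (Poly.pair ((hv.comp h1).comp Poly.fst)
    (Poly.snd.comp Poly.fst))

theorem p_func {L : γ → List Rec} (hL : Poly E L) :
    Poly E (fun c => (L c).all fun r => (L c).all fun r' => !decide (r.1 = r'.1) ||
      decide (r = r')) := by
  refine Poly.all (g := fun p : γ × Rec => (L p.1).all fun r' => !decide (p.2.1 = r'.1) ||
      decide (p.2 = r')) hL ?_
  have h1 : Poly E (fun p : γ × Rec => p.1) := Poly.fst
  refine Poly.all (g := fun q : (γ × Rec) × Rec => !decide (q.1.2.1 = q.2.1) ||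
      decide (q.1.2 = q.2)) (hL.comp h1) ?_
  have h3 : Poly E (fun q : (γ × Rec) × Rec => q.1.2) := Poly.snd.comp Poly.fst
  exact Poly.or (Poly.not (Poly.eq (Poly.fst.comp h3) (Poly.fst.comp Poly.snd)))
    (Poly.eq h3 Poly.snd)

end PMGBX

open PMGBX in
theorem pmgb_proof : Stmt_PMGB := by
  intro E γ _ M W s1 s2 s hM hW h1 h2 hs
  exact Poly.and
    (Poly.and (Poly.and (p_con (sL h1) (sL h2) (sA h2)) (p_con (sL h2) (sL h1) (sA h1)))
      (Poly.and (p_fwd hM hW (sL hs) (sL h1) (sL h2) (r2 (sr h1)))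
        (p_out (sL hs) (sA hs) (r1 (sr hs)) (r2 (sr hs)))))
    (Poly.and (Poly.and (p_bwd (sL h1) (sL hs) (sA hs) (r1 (sr hs)) (r2 (sr hs)))
        (p_bwd (sL h2) (sL hs) (sA hs) (r1 (sr hs)) (r2 (sr hs))))
      (Poly.and (p_bwdv hM hW (sA hs) (sL hs) (r1 (sr hs)) (r2 (sr hs)) (r2 (sr h1)))
        (p_func (sL hs))))

end Pool.Agent.OGP
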