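import Pool.Agent.OGP.StmtsP

/-!
# Module PMGC: the third test runs in polynomial time
-/

set_option linter.unusedSectionVars false
set_option linter.unusedVariables false

namespace Pool.Agent.OGP

open Pool.Agent.PT81 Pool.Agent.IsoImp Turing Polynomial

namespace PMGCX

variable {E : Env} {γ α : Type} [Enc E γ] [Enc E α]

theorem poly_ent {s : γ → List (List Bool)} {i j : γ → ℕ} (hs : Poly E s) (hi : Poly E i)
    (hj : Poly E j) : Poly E (fun c => ent (s c) (i c) (j c)) :=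
  Pool.Agent.Bx81.poly_nthD false (Pool.Agent.Bx81.poly_nthD [] hs hi) hj

theorem poly_min {a b : γ → ℕ} (ha : Poly E a) (hb : Poly E b) :
    Poly E (fun c => min (a c) (b c)) := by
  refine (Poly.ite (Poly.le ha hb) ha hb).congr fun c => ?_
  by_cases h : a c ≤ b c
  · simp [h]
  · simp [h]; omega

theorem poly_max {a b : γ → ℕ} (ha : Poly E a) (hb : Poly E b) :
    Poly E (fun c => max (a c) (b c)) := by
  refine (Poly.ite (Poly.le ha hb) hb ha).congr fun c => ?_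
  by_cases h : a c ≤ b c
  · simp [h]
  · simp [h]; omega

theorem poly_altB {a b c d : γ → ℕ} (ha : Poly E a) (hb : Poly E b) (hc : Poly E c)
    (hd : Poly E d) : Poly E (fun x => altB (a x) (b x) (c x) (d x)) := by
  unfold altB
  exact Poly.or
    (Poly.and
      (Poly.or (Poly.and (Poly.lt ha hc) (Poly.lt hc hb)) (Poly.and (Poly.lt hb hc) (Poly.lt hc ha)))
      (Poly.or (Poly.and (Poly.lt hd ha) (Poly.lt hd hb)) (Poly.and (Poly.lt ha hd) (Poly.lt hb hd))))
    (Poly.and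
      (Poly.or (Poly.and (Poly.lt ha hd) (Poly.lt hd hb)) (Poly.and (Poly.lt hb hd) (Poly.lt hd ha)))
      (Poly.or (Poly.and (Poly.lt hc ha) (Poly.lt hc hb)) (Poly.and (Poly.lt ha hc) (Poly.lt hb hc))))

theorem poly_one {k : γ → Bool} {r : γ → Rec} (hk : Poly E k) (hr : Poly E r) :
    Poly E (fun c => if k c then [r c] else []) :=
  Poly.ite hk (Poly.cons hr (Poly.const [])) (Poly.const [])

theorem poly_locs {M : γ → List (List Bool)} {s1 s2 s : γ → St} (hM : Poly E M)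
    (h1 : Poly E s1) (h2 : Poly E s2) (hs : Poly E s) :
    Poly E (fun c => locs (ent (M c)) (s1 c) (s2 c) (s c)) := by
  unfold locs
  have e1 : Poly E (fun c => (s1 c).1) := Poly.fst.comp h1
  have e2 : Poly E (fun c => (s2 c).1) := Poly.fst.comp h2
  have e3 : Poly E (fun c => (s c).1) := Poly.fst.comp hs
  have L1 : Poly E (fun c => (s1 c).2.1) := Poly.fst.comp (Poly.snd.comp h1)
  have L2 : Poly E (fun c => (s2 c).2.1) := Poly.fst.comp (Poly.snd.comp h2)
  have L3 : Poly E (fun c => (s c).2.1) := Poly.fst.comp (Poly.snd.comp hs)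
  have ent1 : ∀ {t : γ → Rec}, Poly E t → Poly E (fun c => ent (M c) (t c).1.1 (t c).1.2) :=
    fun ht => poly_ent hM (Poly.fst.comp (Poly.fst.comp ht)) (Poly.snd.comp (Poly.fst.comp ht))
  refine Poly.append L1 (Poly.append L2 (Poly.append ?_ (Poly.append (poly_one (ent1 e1) e1)
    (Poly.append (poly_one (ent1 e2) e2) (poly_one (ent1 e3) e3)))))
  exact Poly.filter (g := fun p : γ × Rec => decide (p.2.1.1 = (s1 p.1).1.1.2)) L3
    (Poly.eq (Poly.fst.comp (Poly.fst.comp Poly.snd))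
      ((Poly.snd.comp (Poly.fst.comp e1)).comp Poly.fst))

theorem poly_srtB (hL : Stmt_PLOC) {s1 s2 : γ → St} {L : γ → List Rec}
    (h1 : Poly E s1) (h2 : Poly E s2) (hl : Poly E L) :
    Poly E (fun c => srtB (s1 c) (s2 c) (L c)) := by
  obtain ⟨pf, hpf⟩ := hl.bound
  unfold srtB
  refine Poly.fst.comp ?_
  refine Poly.foldrAdd (b := fun _ => ((true, []) : Bool × List Rec))
    (g := fun x : γ × (Rec × (Bool × List Rec)) => (x.2.2.1 && x.2.2.2.all fun r' =>
      decide (lc (s1 x.1) (s2 x.1) x.2.1.1.1 ≤ lc (s1 x.1) (s2 x.1) r'.1.1), x.2.1 :: x.2.2.2))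
    hl (Poly.const _) ?_ (4 + pf) ?_
  · refine Poly.pair (Poly.and (Poly.fst.comp (Poly.snd.comp Poly.snd)) ?_)
      (Poly.cons (Poly.fst.comp Poly.snd) (Poly.snd.comp (Poly.snd.comp Poly.snd)))
    refine Poly.all (g := fun q : (γ × (Rec × (Bool × List Rec))) × Rec =>
      decide (lc (s1 q.1.1) (s2 q.1.1) q.1.2.1.1.1 ≤ lc (s1 q.1.1) (s2 q.1.1) q.2.1.1))
      (Poly.snd.comp (Poly.snd.comp Poly.snd)) ?_
    have hc : Poly E (fun q : (γ × (Rec × (Bool × List Rec))) × Rec => q.1.1) :=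
      Poly.fst.comp Poly.fst
    have hr : Poly E (fun q : (γ × (Rec × (Bool × List Rec))) × Rec => q.1.2.1) :=
      Poly.fst.comp (Poly.snd.comp Poly.fst)
    exact Poly.le
      (hL E _ _ _ _ (h1.comp hc) (h2.comp hc) (Poly.fst.comp (Poly.fst.comp hr)))
      (hL E _ _ _ _ (h1.comp hc) (h2.comp hc) (Poly.fst.comp (Poly.fst.comp Poly.snd)))
  · intro c a ha b
    have e1 := mem_esz_le (E := E) _ a ha
    have e2 := hpf c
    have e3 := esz_bool (E := E) (b.1 && b.2.all fun r' =>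
      decide (lc (s1 c) (s2 c) a.1.1 ≤ lc (s1 c) (s2 c) r'.1.1))
    have e4 : esz E b = 1 + esz E b.1 + esz E b.2 := esz_prod b.1 b.2
    have e5 : 0 < esz E b.1 := esz_pos _
    simp only [esz_prod, esz_cons, eval_add, eval_ofNat] at *
    omega

end PMGCX

open PMGCX in
theorem pmgc_proof (hL : Stmt_PLOC) : Stmt_PMGC := by
  intro E γ _ M s1 s2 s hM h1 h2 hs
  unfold mg3
  refine Poly.and (poly_srtB hL h1 h2 (Poly.fst.comp (Poly.snd.comp hs))) ?_
  have hlocs := poly_locs hM h1 h2 hs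
  refine Poly.all (g := fun p : γ × Rec => (locs (ent (M p.1)) (s1 p.1) (s2 p.1) (s p.1)).all
    fun r' => !altB (lc (s1 p.1) (s2 p.1) p.2.1.1) (lc (s1 p.1) (s2 p.1) p.2.1.2)
        (lc (s1 p.1) (s2 p.1) r'.1.1) (lc (s1 p.1) (s2 p.1) r'.1.2) ||
      (decide (p.2.2 = (min r'.1.1 r'.1.2, max r'.1.1 r'.1.2)) ||
        decide (r'.2 = (min p.2.1.1 p.2.1.2, max p.2.1.1 p.2.1.2)))) hlocs ?_
  refine Poly.all (g := fun q : (γ × Rec) × Rec =>
      !altB (lc (s1 q.1.1) (s2 q.1.1) q.1.2.1.1) (lc (s1 q.1.1) (s2 q.1.1) q.1.2.1.2)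
        (lc (s1 q.1.1) (s2 q.1.1) q.2.1.1) (lc (s1 q.1.1) (s2 q.1.1) q.2.1.2) ||
      (decide (q.1.2.2 = (min q.2.1.1 q.2.1.2, max q.2.1.1 q.2.1.2)) ||
        decide (q.2.2 = (min q.1.2.1.1 q.1.2.1.2, max q.1.2.1.1 q.1.2.1.2))))
      (hlocs.comp Poly.fst) ?_
  have hc : Poly E (fun q : (γ × Rec) × Rec => q.1.1) := Poly.fst.comp Poly.fst
  have hr : Poly E (fun q : (γ × Rec) × Rec => q.1.2) := Poly.snd.comp Poly.fst
  have hr' : Poly E (fun q : (γ × Rec) × Rec => q.2) := Poly.snd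
  have k1 := h1.comp hc
  have k2 := h2.comp hc
  have a1 : Poly E (fun q : (γ × Rec) × Rec => q.1.2.1.1) := Poly.fst.comp (Poly.fst.comp hr)
  have a2 : Poly E (fun q : (γ × Rec) × Rec => q.1.2.1.2) := Poly.snd.comp (Poly.fst.comp hr)
  have b1 : Poly E (fun q : (γ × Rec) × Rec => q.2.1.1) := Poly.fst.comp (Poly.fst.comp hr')
  have b2 : Poly E (fun q : (γ × Rec) × Rec => q.2.1.2) := Poly.snd.comp (Poly.fst.comp hr')
  exact Poly.or (Poly.not (poly_altB (hL E _ _ _ _ k1 k2 a1) (hL E _ _ _ _ k1 k2 a2)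
      (hL E _ _ _ _ k1 k2 b1) (hL E _ _ _ _ k1 k2 b2)))
    (Poly.or (Poly.eq (Poly.snd.comp hr) (Poly.pair (poly_min b1 b2) (poly_max b1 b2)))
      (Poly.eq (Poly.snd.comp hr') (Poly.pair (poly_min a1 a2) (poly_max a1 a2))))

end Pool.Agent.OGP
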