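import Pool.Agent.OGP.StmtsP

/-!
# PREACH: the search runs in polynomial time
-/

set_option linter.unusedSectionVars false

namespace Pool.Agent.OGP

open Pool.Agent.PT81 Pool.Agent.IsoImp Turing Polynomial

namespace PREACHX

variable {E : Env} {γ α : Type} [Enc E γ] [Enc E α]

theorem esz_filter_le (p : α → Bool) (l : List α) : esz E (l.filter p) ≤ esz E l := by
  induction l with
  | nil => exact le_rfl
  | cons a l ih =>
    rw [List.filter_cons]
    split
    · rw [esz_cons, esz_cons]; omega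
    · rw [esz_cons]; omega

theorem poly_entO {s : γ → List (List Bool)} {i j : γ → ℕ} (hs : Poly E s) (hi : Poly E i)
    (hj : Poly E j) : Poly E (fun c => ent (s c) (i c) (j c)) :=
  Pool.Agent.Bx81.poly_nthD false (Pool.Agent.Bx81.poly_nthD [] hs hi) hj

theorem poly_memb {z : γ → ℕ} {l : γ → List ℕ} (hz : Poly E z) (hl : Poly E l) :
    Poly E (fun c => memb (z c) (l c)) :=
  Poly.any (g := fun p : γ × ℕ => decide (p.2 = z p.1)) hl (Poly.eq Poly.snd (hz.comp Poly.fst))

theorem poly_stepR {M : γ → List (List Bool)} {bad : γ → List Rec} {S T : γ → List ℕ}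
    (hM : Poly E M) (hb : Poly E bad) (hS : Poly E S) (hT : Poly E T) :
    Poly E (fun c => stepR (M c) (bad c) (S c) (T c)) := by
  refine Poly.filter (g := fun p : γ × ℕ => (T p.1).any fun x => decide (x = p.2) ||
    (ent (M p.1) x p.2 && (bad p.1).all fun r =>
      !decide (r.1 = (x, p.2)) && !decide (r.1 = (p.2, x)))) hS ?_
  refine Poly.any (g := fun q : (γ × ℕ) × ℕ => decide (q.2 = q.1.2) ||
    (ent (M q.1.1) q.2 q.1.2 && (bad q.1.1).all fun r =>
      !decide (r.1 = (q.2, q.1.2)) && !decide (r.1 = (q.1.2, q.2)))) (hT.comp Poly.fst) ?_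
  have h1 : Poly E (fun q : (γ × ℕ) × ℕ => q.1.1) := Poly.fst.comp Poly.fst
  have hz : Poly E (fun q : (γ × ℕ) × ℕ => q.1.2) := Poly.snd.comp Poly.fst
  have hx : Poly E (fun q : (γ × ℕ) × ℕ => q.2) := Poly.snd
  refine Poly.or (Poly.eq hx hz) (Poly.and (poly_entO (hM.comp h1) hx hz) ?_)
  refine Poly.all (g := fun r : ((γ × ℕ) × ℕ) × Rec =>
      !decide (r.2.1 = (r.1.2, r.1.1.2)) && !decide (r.2.1 = (r.1.1.2, r.1.2))) (hb.comp h1) ?_
  have hr : Poly E (fun r : ((γ × ℕ) × ℕ) × Rec => r.2.1) := Poly.fst.comp Poly.snd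
  have h2 : Poly E (fun r : ((γ × ℕ) × ℕ) × Rec => r.1.2) := hx.comp Poly.fst
  have h3 : Poly E (fun r : ((γ × ℕ) × ℕ) × Rec => r.1.1.2) := hz.comp Poly.fst
  exact Poly.and (Poly.not (Poly.eq hr (h2.pair h3))) (Poly.not (Poly.eq hr (h3.pair h2)))

end PREACHX

open PREACHX in
theorem preach_proof : Stmt_PREACH := by
  intro E γ _ M bad S T k hM hb hS hT hk
  obtain ⟨pS, hpS⟩ := hS.bound
  refine Poly.natIter (f := k) (b := fun c => (S c).filter fun z => memb z (T c))
    (g := fun p : γ × List ℕ => stepR (M p.1) (bad p.1) (S p.1) p.2) hk ?_ ?_ pS ?_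
  · exact Poly.filter (g := fun p : γ × ℕ => memb p.2 (T p.1)) hS
      (poly_memb Poly.snd (hT.comp Poly.fst))
  · exact poly_stepR (hM.comp Poly.fst) (hb.comp Poly.fst) (hS.comp Poly.fst) Poly.snd
  · intro c l _
    cases l with
    | zero => exact (esz_filter_le _ _).trans (hpS c)
    | succ l =>
      rw [Function.iterate_succ_apply']
      exact (esz_filter_le _ _).trans (hpS c)

end Pool.Agent.OGP
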