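import Pool.Agent.OGP.Stmts

/-!
# OGP module PROJ: a minimal subdivision is a face
-/

namespace Pool.Agent.OGP

namespace PROJX

open Finset

/-- number of vertices `s i ≤ x` -/
def cle (s : ℕ → ℕ) (r x : ℕ) : ℕ := ((range (r + 1)).filter fun i => s i ≤ x).card

/-- number of vertices `s i < x` -/
def clt (s : ℕ → ℕ) (r x : ℕ) : ℕ := ((range (r + 1)).filter fun i => s i < x).card

lemma lt_cle {s : ℕ → ℕ} {r : ℕ} (hs : ∀ a b, a < b → b ≤ r → s a < s b) {x a : ℕ}
    (ha : a ≤ r) : a < cle s r x ↔ s a ≤ x := by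
  constructor
  · intro h
    by_contra hx
    push Not at hx
    have h1 : (range (r + 1)).filter (fun i => s i ≤ x) ⊆ range a := by
      intro i hi
      rw [mem_filter, mem_range] at hi
      rw [mem_range]
      by_contra hia
      rcases Nat.lt_or_ge a i with h2 | h2
      · have := hs a i h2 (by omega)
        omega
      · have : i = a := by omega
        subst this
        omega
    have h2 := card_le_card h1
    rw [card_range] at h2
    unfold cle at h
    omega
  · intro h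
    have h1 : range (a + 1) ⊆ (range (r + 1)).filter (fun i => s i ≤ x) := by
      intro i hi
      rw [mem_range] at hi
      rw [mem_filter, mem_range]
      refine ⟨by omega, ?_⟩
      rcases Nat.lt_or_ge i a with h2 | h2
      · have := hs i a h2 ha
        omega
      · have : i = a := by omega
        subst this
        omega
    have h2 := card_le_card h1
    rw [card_range] at h2
    unfold cle
    omega

lemma lt_clt {s : ℕ → ℕ} {r : ℕ} (hs : ∀ a b, a < b → b ≤ r → s a < s b) {x a : ℕ}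
    (ha : a ≤ r) : a < clt s r x ↔ s a < x := by
  constructor
  · intro h
    by_contra hx
    push Not at hx
    have h1 : (range (r + 1)).filter (fun i => s i < x) ⊆ range a := by
      intro i hi
      rw [mem_filter, mem_range] at hi
      rw [mem_range]
      by_contra hia
      rcases Nat.lt_or_ge a i with h2 | h2
      · have := hs a i h2 (by omega)
        omega
      · have : i = a := by omega
        subst this
        omega
    have h2 := card_le_card h1
    rw [card_range] at h2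
    unfold clt at h
    omega
  · intro h
    have h1 : range (a + 1) ⊆ (range (r + 1)).filter (fun i => s i < x) := by
      intro i hi
      rw [mem_range] at hi
      rw [mem_filter, mem_range]
      refine ⟨by omega, ?_⟩
      rcases Nat.lt_or_ge i a with h2 | h2
      · have := hs i a h2 ha
        omega
      · have : i = a := by omega
        subst this
        omega
    have h2 := card_le_card h1
    rw [card_range] at h2
    unfold clt
    omega

lemma cle_le (s : ℕ → ℕ) (r x : ℕ) : cle s r x ≤ r + 1 := by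
  have := card_filter_le (range (r + 1)) (fun i => s i ≤ x)
  rw [card_range] at this
  exact this

lemma clt_le_cle (s : ℕ → ℕ) (r x : ℕ) : clt s r x ≤ cle s r x := by
  refine card_le_card (fun i hi => ?_)
  rw [mem_filter] at hi ⊢
  exact ⟨hi.1, hi.2.le⟩

lemma cle_le_clt {s : ℕ → ℕ} {r : ℕ} (hs : ∀ a b, a < b → b ≤ r → s a < s b) (x : ℕ) :
    cle s r x ≤ clt s r x + 1 := by
  by_contra h
  push Not at h
  have h1 := cle_le s r x
  have h2 : s (clt s r x + 1) ≤ x := (lt_cle hs (by omega)).mp h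
  have h3 := hs (clt s r x) (clt s r x + 1) (by omega) (by omega)
  have h4 := (lt_clt hs (x := x) (a := clt s r x) (by omega)).mpr (by omega)
  omega

lemma cle_mono (s : ℕ → ℕ) (r : ℕ) {x y : ℕ} (h : x ≤ y) : cle s r x ≤ cle s r y := by
  refine card_le_card (fun i hi => ?_)
  rw [mem_filter] at hi ⊢
  exact ⟨hi.1, hi.2.trans h⟩

lemma clt_mono (s : ℕ → ℕ) (r : ℕ) {x y : ℕ} (h : x ≤ y) : clt s r x ≤ clt s r y := by
  refine card_le_card (fun i hi => ?_)
  rw [mem_filter] at hi ⊢
  exact ⟨hi.1, lt_of_lt_of_le hi.2 h⟩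

/-- the projection -/
def pj (s : ℕ → ℕ) (r x : ℕ) : ℕ :=
  if x < s 0 then 2 * r + 1 else cle s r x + clt s r x - 1

section

variable {s : ℕ → ℕ} {r : ℕ} (hs : ∀ a b, a < b → b ≤ r → s a < s b)

include hs

lemma pj_lt {x a : ℕ} (ha : a ≤ r) (h0 : s 0 ≤ x) (h : x < s a) : pj s r x < 2 * a := by
  have h1 : ¬ (a < cle s r x) := fun h2 => by
    have := (lt_cle hs ha).mp h2
    omega
  have h2 := clt_le_cle s r x
  have h3 : 0 < cle s r x := (lt_cle hs (Nat.zero_le r)).mpr h0
  unfold pj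
  rw [if_neg (by omega)]
  omega

lemma pj_eq {x a : ℕ} (ha : a ≤ r) (h : x = s a) : pj s r x = 2 * a := by
  have h0 : s 0 ≤ x := by
    rcases Nat.eq_zero_or_pos a with h1 | h1
    · subst h1; omega
    · have := hs 0 a h1 ha
      omega
  have h1 : a < cle s r x := (lt_cle hs ha).mpr (by omega)
  have h2 : ¬ (a < clt s r x) := fun h3 => by
    have := (lt_clt hs ha).mp h3
    omega
  have h3 := cle_le_clt hs x
  unfold pj
  rw [if_neg (by omega)]
  omega

lemma pj_gt {x a : ℕ} (ha : a ≤ r) (h0 : s 0 ≤ x) (h : s a < x) : 2 * a < pj s r x := by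
  have h1 : a < clt s r x := (lt_clt hs ha).mpr h
  have h2 := clt_le_cle s r x
  unfold pj
  rw [if_neg (by omega)]
  omega

lemma s_le {a : ℕ} (ha : a ≤ r) : s 0 ≤ s a ∧ s a ≤ s r := by
  constructor
  · rcases Nat.eq_zero_or_pos a with h1 | h1
    · subst h1; omega
    · exact (hs 0 a h1 ha).le
  · rcases Nat.lt_or_ge a r with h1 | h1
    · exact (hs a r h1 le_rfl).le
    · have : a = r := by omega
      subst this
      omega

lemma pj_out {x : ℕ} (h : x < s 0 ∨ s r < x) : pj s r x = 2 * r + 1 := by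
  rcases h with h | h
  · unfold pj
    rw [if_pos h]
  · have h0 := (s_le hs (a := r) le_rfl).1
    have h1 := pj_gt hs (le_refl r) (by omega) h
    have h2 := cle_le s r x
    have h3 := clt_le_cle s r x
    unfold pj at h1 ⊢
    rw [if_neg (by omega)] at h1 ⊢
    omega

lemma pj_in {x : ℕ} (h0 : s 0 ≤ x) (h1 : x ≤ s r) : pj s r x ≤ 2 * r := by
  rcases Nat.lt_or_ge x (s r) with h | h
  · exact (pj_lt hs le_rfl h0 h).le
  · rw [pj_eq hs (le_refl r) (by omega)]

lemma pj_mono {x y : ℕ} (h0 : s 0 ≤ x) (h : x ≤ y) : pj s r x ≤ pj s r y := by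
  have h1 := cle_mono s r h
  have h2 := clt_mono s r h
  unfold pj
  rw [if_neg (by omega), if_neg (by omega)]
  omega

lemma pj_cases (x : ℕ) : ((x < s 0 ∨ s r < x) ∧ pj s r x = 2 * r + 1) ∨
    (s 0 ≤ x ∧ x ≤ s r ∧ pj s r x ≤ 2 * r) := by
  by_cases h : x < s 0 ∨ s r < x
  · exact Or.inl ⟨h, pj_out hs h⟩
  · push Not at h
    exact Or.inr ⟨h.1, h.2, pj_in hs h.1 h.2⟩

/-- position relative to the vertex `s a` -/
lemma pj_tri {a : ℕ} (ha : a ≤ r) (x : ℕ) : (x < s 0 ∨ s r < x) ∨
    (x < s a ∧ pj s r x < 2 * a) ∨ (x = s a ∧ pj s r x = 2 * a) ∨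
    (s a < x ∧ 2 * a < pj s r x) := by
  by_cases h : x < s 0 ∨ s r < x
  · exact Or.inl h
  · push Not at h
    rcases Nat.lt_trichotomy x (s a) with h1 | h1 | h1
    · exact Or.inr (Or.inl ⟨h1, pj_lt hs ha h.1 h1⟩)
    · exact Or.inr (Or.inr (Or.inl ⟨h1, pj_eq hs ha h1⟩))
    · exact Or.inr (Or.inr (Or.inr ⟨h1, pj_gt hs ha h.1 h1⟩))

end

/-- sorted projection of an edge -/
def pr (s : ℕ → ℕ) (r : ℕ) (e : ℕ × ℕ) : ℕ × ℕ :=
  (min (pj s r e.1) (pj s r e.2), max (pj s r e.1) (pj s r e.2))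

section

variable {s : ℕ → ℕ} {r : ℕ} (hs : ∀ a b, a < b → b ≤ r → s a < s b)

include hs

lemma alt_of_pr {e f : ℕ × ℕ} (he : e.1 < e.2) (hf : f.1 < f.2)
    (h : Alt (pr s r e).1 (pr s r e).2 (pr s r f).1 (pr s r f).2) :
    Alt e.1 e.2 f.1 f.2 := by
  obtain ⟨x1, x2⟩ := e
  obtain ⟨y1, y2⟩ := f
  simp only at he hf
  have c1 := pj_cases hs x1
  have c2 := pj_cases hs x2
  have c3 := pj_cases hs y1
  have c4 := pj_cases hs y2
  have m12 : s 0 ≤ x1 → x1 ≤ x2 → _ := pj_mono hs
  have m13 : s 0 ≤ x1 → x1 ≤ y1 → _ := pj_mono hs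
  have m14 : s 0 ≤ x1 → x1 ≤ y2 → _ := pj_mono hs
  have m23 : s 0 ≤ x2 → x2 ≤ y1 → _ := pj_mono hs
  have m24 : s 0 ≤ x2 → x2 ≤ y2 → _ := pj_mono hs
  have m31 : s 0 ≤ y1 → y1 ≤ x1 → _ := pj_mono hs
  have m32 : s 0 ≤ y1 → y1 ≤ x2 → _ := pj_mono hs
  have m34 : s 0 ≤ y1 → y1 ≤ y2 → _ := pj_mono hs
  have m41 : s 0 ≤ y2 → y2 ≤ x1 → _ := pj_mono hs
  have m42 : s 0 ≤ y2 → y2 ≤ x2 → _ := pj_mono hs
  simp only [pr, Alt] at h ⊢
  generalize pj s r x1 = A1 at *
  generalize pj s r x2 = A2 at *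
  generalize pj s r y1 = B1 at *
  generalize pj s r y2 = B2 at *
  generalize s 0 = s0 at *
  generalize s r = sr at *
  rw [min_eq_left he.le, max_eq_right he.le]
  rcases le_total A1 A2 with h1 | h1 <;> rcases le_total B1 B2 with h2 | h2 <;>
    simp only [min_eq_left, min_eq_right, max_eq_left, max_eq_right, h1, h2] at h <;>
    omega


/-- an edge with an end in the odd point `2 a + 1` crosses the side -/
lemma thru_side {E : Finset (ℕ × ℕ)} {e : ℕ × ℕ} (heE : e ∈ E) (he : e.1 < e.2)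
    (hnt : NT (r + 1) (pr s r e)) {a : ℕ} (ha : a < r)
    (h : (pr s r e).1 = 2 * a + 1 ∨ (pr s r e).2 = 2 * a + 1) :
    e ∈ thru E (s a) (s (a + 1)) := by
  rw [thru, mem_filter]
  refine ⟨heE, ?_⟩
  obtain ⟨x1, x2⟩ := e
  simp only at he
  have c1 := pj_cases hs x1
  have c2 := pj_cases hs x2
  have t1 := pj_tri hs (a := a) (by omega) x1
  have t2 := pj_tri hs (a := a) (by omega) x2
  have u1 := pj_tri hs (a := a + 1) (by omega) x1
  have u2 := pj_tri hs (a := a + 1) (by omega) x2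
  have v1 := s_le hs (a := a) (by omega)
  have v2 := s_le hs (a := a + 1) (by omega)
  have v3 := hs a (a + 1) (by omega) (by omega)
  simp only [pr, NT, Alt] at h hnt ⊢
  generalize pj s r x1 = A1 at *
  generalize pj s r x2 = A2 at *
  generalize s 0 = s0 at *
  generalize s r = sr at *
  generalize s a = sa at *
  generalize s (a + 1) = sb at *
  rw [min_eq_left v3.le, max_eq_right v3.le]
  rcases le_total A1 A2 with h1 | h1 <;>
    simp only [min_eq_left, min_eq_right, max_eq_left, max_eq_right, h1] at h hnt <;>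
    omega

/-- an edge with an end in the outer point crosses the outer chord -/
lemma thru_outer {E : Finset (ℕ × ℕ)} {e : ℕ × ℕ} (heE : e ∈ E) (he : e.1 < e.2)
    (hr : 0 < r) (hnt : NT (r + 1) (pr s r e))
    (h : (pr s r e).1 = 2 * r + 1 ∨ (pr s r e).2 = 2 * r + 1) :
    e ∈ thru E (s 0) (s r) := by
  rw [thru, mem_filter]
  refine ⟨heE, ?_⟩
  obtain ⟨x1, x2⟩ := e
  simp only at he
  have c1 := pj_cases hs x1
  have c2 := pj_cases hs x2
  have t1 := pj_tri hs (a := 0) (by omega) x1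
  have t2 := pj_tri hs (a := 0) (by omega) x2
  have u1 := pj_tri hs (a := r) (by omega) x1
  have u2 := pj_tri hs (a := r) (by omega) x2
  have v3 := hs 0 r hr le_rfl
  simp only [pr, NT, Alt] at h hnt ⊢
  generalize pj s r x1 = A1 at *
  generalize pj s r x2 = A2 at *
  generalize s 0 = s0 at *
  generalize s r = sr at *
  rw [min_eq_left v3.le, max_eq_right v3.le]
  rcases le_total A1 A2 with h1 | h1 <;>
    simp only [min_eq_left, min_eq_right, max_eq_left, max_eq_right, h1] at h hnt <;>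
    omega

/-- an edge crossing an inner diagonal is nontrivial and crosses the projected diagonal -/
lemma cross_diag {E : Finset (ℕ × ℕ)} {e : ℕ × ℕ} (he : e.1 < e.2)
    {a b : ℕ} (hab : a + 2 ≤ b) (hb : b ≤ r) (hne : ¬ (a = 0 ∧ b = r))
    (h : e ∈ thru E (s a) (s b)) :
    NT (r + 1) (pr s r e) ∧ Alt (2 * a) (2 * b) (pr s r e).1 (pr s r e).2 := by
  rw [thru, mem_filter] at h
  obtain ⟨-, h⟩ := h
  obtain ⟨x1, x2⟩ := e
  simp only at he h
  have c1 := pj_cases hs x1
  have c2 := pj_cases hs x2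
  have t1 := pj_tri hs (a := a) (by omega) x1
  have t2 := pj_tri hs (a := a) (by omega) x2
  have u1 := pj_tri hs (a := b) (by omega) x1
  have u2 := pj_tri hs (a := b) (by omega) x2
  have v1 := s_le hs (a := a) (by omega)
  have v2 := s_le hs (a := b) (by omega)
  have v3 := hs a b (by omega) (by omega)
  simp only [pr, NT, Alt] at h ⊢
  generalize pj s r x1 = A1 at *
  generalize pj s r x2 = A2 at *
  generalize s 0 = s0 at *
  generalize s r = sr at *
  generalize s a = sa at *
  generalize s b = sb at *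
  rw [min_eq_left v3.le, max_eq_right v3.le] at h
  rw [min_eq_left (show 2 * a ≤ 2 * b by omega), max_eq_right (show 2 * a ≤ 2 * b by omega)]
  rcases le_total A1 A2 with h1 | h1 <;>
    simp only [min_eq_left, min_eq_right, max_eq_left, max_eq_right, h1] <;>
    omega

/-- a nontrivial edge with even projections is determined -/
lemma even_det {e : ℕ × ℕ} (he : e.1 < e.2) (h1 : (pr s r e).1 % 2 = 0)
    (h2 : (pr s r e).2 % 2 = 0) :
    e = (s ((pr s r e).1 / 2), s ((pr s r e).2 / 2)) := by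
  obtain ⟨x1, x2⟩ := e
  simp only at he
  have c1 := pj_cases hs x1
  have c2 := pj_cases hs x2
  have hne1 : pj s r x1 ≠ 2 * r + 1 := by
    intro h
    simp only [pr, h] at h1 h2
    rcases le_total (2 * r + 1) (pj s r x2) with h3 | h3 <;>
      simp only [min_eq_left, min_eq_right, max_eq_left, max_eq_right, h3] at h1 h2 <;> omega
  have hne2 : pj s r x2 ≠ 2 * r + 1 := by
    intro h
    simp only [pr, h] at h1 h2
    rcases le_total (pj s r x1) (2 * r + 1) with h3 | h3 <;>
      simp only [min_eq_left, min_eq_right, max_eq_left, max_eq_right, h3] at h1 h2 <;> omega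
  have d1 : s 0 ≤ x1 ∧ x1 ≤ s r ∧ pj s r x1 ≤ 2 * r := by
    rcases c1 with c1 | c1
    · exact absurd c1.2 hne1
    · exact c1
  have d2 : s 0 ≤ x2 ∧ x2 ≤ s r ∧ pj s r x2 ≤ 2 * r := by
    rcases c2 with c2 | c2
    · exact absurd c2.2 hne2
    · exact c2
  have hm := pj_mono hs d1.1 he.le
  simp only [pr, min_eq_left hm, max_eq_right hm] at h1 h2 ⊢
  have t1 := pj_tri hs (a := pj s r x1 / 2) (by omega) x1
  have t2 := pj_tri hs (a := pj s r x2 / 2) (by omega) x2
  have e1 : x1 = s (pj s r x1 / 2) := by omega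
  have e2 : x2 = s (pj s r x2 / 2) := by omega
  rw [Prod.mk.injEq]
  exact ⟨e1, e2⟩

lemma pr_rng (e : ℕ × ℕ) : (pr s r e).1 ≤ 2 * r + 1 ∧ (pr s r e).2 ≤ 2 * r + 1 := by
  have c1 := pj_cases hs e.1
  have c2 := pj_cases hs e.2
  simp only [pr]
  constructor <;> omega

/-- edges with a common odd projected end are equal -/
lemma odd_det {E : Finset (ℕ × ℕ)} (hE : ∀ e ∈ E, e.1 < e.2) (hr : 0 < r)
    (hout : (thru E (s 0) (s r)).card ≤ 1)
    (hside : ∀ a, a < r → (thru E (s a) (s (a + 1))).card ≤ 1) {e f : ℕ × ℕ} (he : e ∈ E)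
    (hf : f ∈ E) (hne : NT (r + 1) (pr s r e)) (hnf : NT (r + 1) (pr s r f)) {z : ℕ}
    (hz : z % 2 = 1) (h1 : (pr s r e).1 = z ∨ (pr s r e).2 = z)
    (h2 : (pr s r f).1 = z ∨ (pr s r f).2 = z) : e = f := by
  have hzr : z ≤ 2 * r + 1 := by
    have := pr_rng hs e
    omega
  rcases Nat.lt_or_ge z (2 * r + 1) with h | h
  · have ha : z / 2 < r := by omega
    have hz2 : z = 2 * (z / 2) + 1 := by omega
    rw [hz2] at h1 h2
    exact card_le_one.mp (hside (z / 2) ha) e (thru_side hs he (hE e he) hne ha h1) f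
      (thru_side hs hf (hE f hf) hnf ha h2)
  · have hz2 : z = 2 * r + 1 := by omega
    rw [hz2] at h1 h2
    exact card_le_one.mp hout e (thru_outer hs he (hE e he) hr hne h1) f
      (thru_outer hs hf (hE f hf) hr hnf h2)

lemma pr_inj {E : Finset (ℕ × ℕ)} (hE : ∀ e ∈ E, e.1 < e.2) (hr : 0 < r)
    (hout : (thru E (s 0) (s r)).card ≤ 1)
    (hside : ∀ a, a < r → (thru E (s a) (s (a + 1))).card ≤ 1) {e f : ℕ × ℕ} (he : e ∈ E)
    (hf : f ∈ E) (hne : NT (r + 1) (pr s r e)) (h : pr s r e = pr s r f) : e = f := by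
  have hnf : NT (r + 1) (pr s r f) := by rw [← h]; exact hne
  by_cases h1 : (pr s r e).1 % 2 = 1
  · exact odd_det hs hE hr hout hside he hf hne hnf h1 (Or.inl rfl) (Or.inl (by rw [h]))
  by_cases h2 : (pr s r e).2 % 2 = 1
  · exact odd_det hs hE hr hout hside he hf hne hnf h2 (Or.inr rfl) (Or.inr (by rw [h]))
  rw [even_det hs (hE e he) (by omega) (by omega),
    even_det hs (hE f hf) (by rw [← h]; omega) (by rw [← h]; omega), h]

end

end PROJX

open PROJX Finset in
/-- module PROJ -/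
theorem proj_proof : Stmt_PROJ := by
  classical
  intro E r s hr hE hgap hs hout hside htwo
  have hr0 : 0 < r := by omega
  set H : Finset (ℕ × ℕ) := (E.filter fun e => NT (r + 1) (pr s r e)).image (pr s r) with hH
  have hmem : ∀ h ∈ H, ∃ e ∈ E, NT (r + 1) (pr s r e) ∧ pr s r e = h := by
    intro h hh
    rw [hH, mem_image] at hh
    obtain ⟨e, he, heq⟩ := hh
    rw [mem_filter] at he
    exact ⟨e, he.1, he.2, heq⟩
  have hcard : ∀ a b, a + 2 ≤ b → b ≤ r → ¬ (a = 0 ∧ b = r) →
      (thru E (s a) (s b)).card ≤ (thru H (2 * a) (2 * b)).card := by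
    intro a b hab hb hne
    refine card_le_card_of_injOn (pr s r) ?_ ?_
    · intro e he
      have heE : e ∈ E := (mem_filter.mp he).1
      obtain ⟨h1, h2⟩ := cross_diag hs (hE e heE) hab hb hne he
      rw [mem_coe, thru, mem_filter]
      refine ⟨?_, h2⟩
      rw [hH, mem_image]
      exact ⟨e, mem_filter.mpr ⟨heE, h1⟩, rfl⟩
    · intro e he f hf hef
      have heE : e ∈ E := (mem_filter.mp (mem_coe.mp he)).1
      have hfE : f ∈ E := (mem_filter.mp (mem_coe.mp hf)).1
      exact pr_inj hs hE hr0 hout hside heE hfE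
        (cross_diag hs (hE e heE) hab hb hne (mem_coe.mp he)).1 hef
  refine ⟨H, ⟨?_, ?_, ?_, ?_, ?_⟩, ?_⟩
  · intro h hh
    obtain ⟨e, he, hnt, rfl⟩ := hmem h hh
    have h1 := pr_rng hs e
    have h2 := hnt.1
    constructor <;> omega
  · intro h hh
    obtain ⟨e, he, hnt, rfl⟩ := hmem h hh
    exact hnt
  · intro h hh h' hh' z hz h1 h2
    obtain ⟨e, he, hnt, rfl⟩ := hmem h hh
    obtain ⟨f, hf, hnf, rfl⟩ := hmem h' hh'
    rw [odd_det hs hE hr0 hout hside he hf hnt hnf hz h1 h2]
  · obtain ⟨g, hg⟩ := hgap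
    have hch : ∀ h : ℕ × ℕ, ∃ e : ℕ × ℕ, h ∈ H → e ∈ E ∧ NT (r + 1) (pr s r e) ∧ pr s r e = h := by
      intro h
      by_cases hh : h ∈ H
      · obtain ⟨e, he⟩ := hmem h hh
        exact ⟨e, fun _ => he⟩
      · exact ⟨h, fun h1 => absurd h1 hh⟩
    choose c hc using hch
    refine ⟨fun h => pr s r (g (c h)), ?_⟩
    intro h hh h' hh' halt
    obtain ⟨he, hnt, heq⟩ := hc h hh
    obtain ⟨hf, hnf, hfeq⟩ := hc h' hh'
    have h1 : Alt (c h).1 (c h).2 (c h').1 (c h').2 := by
      refine alt_of_pr hs (hE _ he) (hE _ hf) ?_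
      rw [heq, hfeq]
      exact halt
    rcases hg _ he _ hf h1 with h2 | h2
    · left
      show pr s r (g (c h)) = h'
      rw [h2, hfeq]
    · right
      show pr s r (g (c h')) = h
      rw [h2, heq]
  · intro a b hab hb hne
    have h1 : ¬ (a = 0 ∧ b = r) := by
      intro h2
      apply hne
      omega
    exact (htwo a b hab (by omega) h1).trans (hcard a b hab (by omega) h1)
  · intro b hb1 hb2
    have h1 := hcard 0 b (by omega) (by omega) (by omega)
    rw [mul_zero] at h1
    exact h1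

end Pool.Agent.OGP
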