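import Pool.Agent.OGP.StmtsP

/-!
# PTUP: lists of bounded length
-/

set_option autoImplicit false
set_option linter.unusedVariables false

namespace Pool.Agent.OGP

open Pool.Agent.PT81

theorem ptup_proof : Stmt_PTUP := by
  intro E γ α hγ hα k
  induction k generalizing γ with
  | zero =>
    intro l hl
    exact (Poly.const ([[]] : List (List α))).congr fun c => rfl
  | succ k ih =>
    intro l hl
    have h1 : Poly E (fun z : γ × α => (tup k (l z.1)).map fun t => z.2 :: t) := by
      have h2 : Poly E (fun z : γ × α => tup k (l z.1)) := ih (γ × α) _ (hl.comp Poly.fst)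
      exact Poly.map (f := fun z : γ × α => tup k (l z.1))
        (g := fun y : (γ × α) × List α => y.1.2 :: y.2) h2
        (Poly.cons (Poly.snd.comp Poly.fst) Poly.snd)
    have h3 : Poly E (fun c : γ => (l c).flatMap fun x => (tup k (l c)).map fun t => x :: t) :=
      Poly.flatMap (f := l) (g := fun z : γ × α => (tup k (l z.1)).map fun t => z.2 :: t) hl h1
    exact Poly.cons (Poly.const ([] : List α)) h3

end Pool.Agent.OGP
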