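import Pool.Agent.OGP.Stmts

/-!
# Squad OGP, module REPS: representatives for the set of the vertices between `a` and `b`
-/

set_option linter.unusedVariables false

namespace Pool.Agent.OGP

namespace REPSX

theorem mem_of_reach {adj : ℕ → ℕ → Bool} {S : Set ℕ} {z x : ℕ} (h : Reach adj S z x)
    (hz : z ∈ S) : x ∈ S := by
  induction h with
  | refl => exact hz
  | tail _ h2 _ => exact h2.2.2

theorem reach_symm {adj : ℕ → ℕ → Bool} (hs : ∀ i j, adj i j = adj j i) {S : Set ℕ} {z x : ℕ}
    (h : Reach adj S z x) : Reach adj S x z := by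
  induction h with
  | refl => exact Relation.ReflTransGen.refl
  | tail _ h2 ih => exact Relation.ReflTransGen.head ⟨by rw [hs]; exact h2.1, h2.2.2, h2.2.1⟩ ih

theorem reach_mono {adj : ℕ → ℕ → Bool} {S S' : Set ℕ} (hS : ∀ x ∈ S, x ∈ S') {z x : ℕ}
    (h : Reach adj S z x) : Reach adj S' z x := by
  induction h with
  | refl => exact Relation.ReflTransGen.refl
  | tail _ h2 ih => exact Relation.ReflTransGen.tail ih ⟨h2.1, hS _ h2.2.1, hS _ h2.2.2⟩

theorem leave {adj : ℕ → ℕ → Bool} {S0 In : Set ℕ} {z t : ℕ} (hz : z ∈ In)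
    (h : Reach adj S0 z t) : Reach adj In z t ∨
      ∃ s t', Reach adj In z s ∧ s ∈ In ∧ adj s t' = true ∧ t' ∈ S0 ∧ t' ∉ In := by
  induction h with
  | refl => exact Or.inl Relation.ReflTransGen.refl
  | @tail y t h1 h2 ih =>
    rcases ih with ih | ih
    · have hy := mem_of_reach ih hz
      by_cases ht : t ∈ In
      · exact Or.inl (Relation.ReflTransGen.tail ih ⟨h2.1, hy, ht⟩)
      · exact Or.inr ⟨y, t, ih, hy, h2.1, h2.2.2, ht⟩
    · exact Or.inr ih

end REPSX

theorem reps_proof (hKB : Stmt_KB) : Stmt_REPS := by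
  classical
  intro adj W π hs hnd hπ hRT hcon a ha b hb hlt
  have hab : a ≠ b := by
    rintro rfl
    exact absurd hlt (lt_irrefl _)
  have hinj : ∀ x ∈ W, ∀ y ∈ W, π.idxOf x = π.idxOf y → x = y := fun x hx y hy h =>
    (List.idxOf_inj ((hπ x).2 hx)).1 h
  set In : Set ℕ := {t | t ∈ W ∧ π.idxOf a < π.idxOf t ∧ π.idxOf t < π.idxOf b} with hIn
  set S0 : Set ℕ := {t | t ∈ W ∧ t ≠ a ∧ t ≠ b} with hS0
  have hsub : ∀ x ∈ In, x ∈ S0 := by
    rintro x ⟨h1, h2, h3⟩
    refine ⟨h1, ?_, ?_⟩
    · rintro rfl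
      exact absurd h2 (lt_irrefl _)
    · rintro rfl
      exact absurd h3 (lt_irrefl _)
  let P : Finset ℕ → Prop := fun R => (∀ z ∈ R, z ∈ In ∧ ∀ t, Reach adj S0 z t → t ∈ In) ∧
    ∀ z ∈ R, ∀ z' ∈ R, z ≠ z' → ¬ Reach adj S0 z z'
  have hne : (W.toFinset.powerset.filter P).Nonempty := by
    refine ⟨∅, ?_⟩
    rw [Finset.mem_filter]
    refine ⟨Finset.empty_mem_powerset _, ?_, ?_⟩
    · intro z hz
      simp at hz
    · intro z hz
      simp at hz
  obtain ⟨R, hR, hmax⟩ := Finset.exists_max_image _ Finset.card hne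
  rw [Finset.mem_filter] at hR
  obtain ⟨hRW, hR1, hR2⟩ := hR
  refine ⟨R.toList, ?_, ?_, ?_⟩
  · rw [Finset.length_toList]
    exact hKB adj W π hs hnd hπ hRT hcon a ha b hb hab R (fun z hz => hsub z (hR1 z hz).1) hR2
  · intro x hx
    exact (hR1 x (Finset.mem_toList.1 hx)).1
  · intro z hz hz1 hz2
    have hzIn : z ∈ In := ⟨hz, hz1, hz2⟩
    by_cases hcl : ∀ t, Reach adj S0 z t → t ∈ In
    · by_cases hex : ∃ x ∈ R, Reach adj S0 x z
      · obtain ⟨x, hx, hxz⟩ := hex
        refine ⟨x, Or.inl (Finset.mem_toList.2 hx), ?_⟩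
        rcases REPSX.leave (hR1 x hx).1 hxz with h | ⟨s, t, h1, h2, h3, h4, h5⟩
        · exact h
        · exact absurd ((hR1 x hx).2 t (Relation.ReflTransGen.tail
            (REPSX.reach_mono hsub h1) ⟨h3, hsub s h2, h4⟩)) h5
      · exfalso
        push Not at hex
        have hzR : z ∉ R := fun h => hex z h Relation.ReflTransGen.refl
        have hins : insert z R ∈ W.toFinset.powerset.filter P := by
          rw [Finset.mem_filter]
          refine ⟨?_, ?_, ?_⟩
          · rw [Finset.mem_powerset] at hRW ⊢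
            intro y hy
            rcases Finset.mem_insert.1 hy with rfl | hy
            · exact List.mem_toFinset.2 hz
            · exact hRW hy
          · intro y hy
            rcases Finset.mem_insert.1 hy with rfl | hy
            · exact ⟨hzIn, hcl⟩
            · exact hR1 y hy
          · intro y hy y' hy' hyy'
            rcases Finset.mem_insert.1 hy with h1 | h1
            · rcases Finset.mem_insert.1 hy' with h2 | h2
              · exact absurd (h1.trans h2.symm) hyy'
              · intro h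
                rw [h1] at h
                exact hex y' h2 (REPSX.reach_symm hs h)
            · rcases Finset.mem_insert.1 hy' with h2 | h2
              · rw [h2]
                exact hex y h1
              · exact hR2 y h1 y' h2 hyy'
        have h1 := hmax _ hins
        rw [Finset.card_insert_of_notMem hzR] at h1
        omega
    · push Not at hcl
      obtain ⟨t, ht, htI⟩ := hcl
      rcases REPSX.leave hzIn ht with h | ⟨s, t', h1, h2, h3, h4, h5⟩
      · exact absurd (REPSX.mem_of_reach h hzIn) htI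
      · refine ⟨s, Or.inr ⟨h2.1, h2.2.1, h2.2.2, t', h4.1, h3, ?_⟩, REPSX.reach_symm hs h1⟩
        have e1 : π.idxOf t' ≠ π.idxOf a := fun h => h4.2.1 (hinj t' h4.1 a ha h)
        have e2 : π.idxOf t' ≠ π.idxOf b := fun h => h4.2.2 (hinj t' h4.1 b hb h)
        have e3 : ¬ (π.idxOf a < π.idxOf t' ∧ π.idxOf t' < π.idxOf b) := fun h =>
          h5 ⟨h4.1, h.1, h.2⟩
        omega

end Pool.Agent.OGP
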