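import Pool.Agent.OGP.Stmts

/-!
# RSPEC: the search is correct
-/

set_option autoImplicit false

namespace Pool.Agent.OGP

namespace RSPECX

theorem memb_iff (z : ℕ) (l : List ℕ) : memb z l = true ↔ z ∈ l := by
  unfold memb
  simp [List.any_eq_true]

theorem mem_stepR (M : List (List Bool)) (bad : List Rec) (S T : List ℕ) (z : ℕ) :
    z ∈ stepR M bad S T ↔ z ∈ S ∧ ∃ x ∈ T, x = z ∨
      (ent M x z = true ∧ ∀ r ∈ bad, r.1 ≠ (x, z) ∧ r.1 ≠ (z, x)) := by
  unfold stepR
  rw [List.mem_filter, List.any_eq_true]
  simp only [Bool.or_eq_true, Bool.and_eq_true, List.all_eq_true, decide_eq_true_eq,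
    Bool.not_eq_true', decide_eq_false_iff_not, ne_eq]

theorem filter_self (S : List ℕ) (P : ℕ → Bool) :
    S.filter P = S.filter fun z => memb z (S.filter P) := by
  refine List.filter_congr fun z hz => ?_
  by_cases h : P z = true
  · rw [h]
    exact ((memb_iff _ _).2 (List.mem_filter.2 ⟨hz, h⟩)).symm
  · have h1 : ¬ memb z (S.filter P) = true := fun hm =>
      h (List.mem_filter.1 ((memb_iff _ _).1 hm)).2
    rw [Bool.not_eq_true] at h h1
    rw [h, h1]

end RSPECX

open RSPECX in
theorem rspec_proof : Stmt_RSPEC := by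
  classical
  intro M bad S T n hS hn
  set rel : ℕ → ℕ → Prop := fun u v => ent M u v = true ∧ u ∈ S ∧ v ∈ S ∧
      ∀ r ∈ bad, r.1 ≠ (u, v) ∧ r.1 ≠ (v, u) with hrel
  set Tk : ℕ → List ℕ := fun k => reachB M bad S T k with hTk
  have h0 : Tk 0 = S.filter fun z => memb z T := rfl
  have hsucc : ∀ k, Tk (k + 1) = stepR M bad S (Tk k) := fun k => by
    simp only [hTk, reachB, Function.iterate_succ_apply']
  have hfil : ∀ k, ∃ P : ℕ → Bool, Tk k = S.filter P := by
    intro k
    cases k with
    | zero => exact ⟨_, h0⟩
    | succ k => exact ⟨_, hsucc k⟩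
  have hself : ∀ k, Tk k = S.filter fun z => memb z (Tk k) := by
    intro k
    obtain ⟨P, hP⟩ := hfil k
    conv_lhs => rw [hP, filter_self S P, ← hP]
  have hsub : ∀ k, ∀ z ∈ Tk k, z ∈ S := by
    intro k z hz
    rw [hself k] at hz
    exact (List.mem_filter.1 hz).1
  have hnodup : ∀ k, (Tk k).Nodup := by
    intro k
    obtain ⟨P, hP⟩ := hfil k
    rw [hP]
    exact hS.filter _
  have hmono : ∀ k, ∀ z ∈ Tk k, z ∈ Tk (k + 1) := by
    intro k z hz
    rw [hsucc, mem_stepR]
    exact ⟨hsub k z hz, z, hz, Or.inl rfl⟩
  have hmono' : ∀ k l, k ≤ l → ∀ z ∈ Tk k, z ∈ Tk l := by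
    intro k l hkl
    induction l, hkl using Nat.le_induction with
    | base => exact fun z hz => hz
    | succ l _ ih => exact fun z hz => hmono l z (ih z hz)
  -- two lists with the same elements are equal
  have hext : ∀ k l, (∀ z, z ∈ Tk k ↔ z ∈ Tk l) → Tk k = Tk l := by
    intro k l h
    rw [hself k, hself l]
    refine List.filter_congr fun z _ => ?_
    rw [Bool.eq_iff_iff, memb_iff, memb_iff]
    exact h z
  -- stability
  have hstab : ∃ j, j ≤ n ∧ Tk (j + 1) = Tk j := by
    by_contra hcon
    push Not at hcon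
    have hlen : ∀ j, j ≤ n + 1 → j ≤ (Tk j).length := by
      intro j
      induction j with
      | zero => intro _; exact Nat.zero_le _
      | succ j ih =>
        intro hj
        have h1 := ih (by omega)
        have h2 := hcon j (by omega)
        have h3 : (Tk j).length < (Tk (j + 1)).length := by
          have hss : (Tk j).toFinset ⊂ (Tk (j + 1)).toFinset := by
            rw [Finset.ssubset_iff_subset_ne]
            constructor
            · intro z hz
              rw [List.mem_toFinset] at hz ⊢
              exact hmono j z hz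
            · intro he
              apply h2
              apply hext
              intro z
              have := congrArg (fun s => z ∈ s) he
              simp only [List.mem_toFinset, eq_iff_iff] at this
              exact this.symm
          have := Finset.card_lt_card hss
          rwa [List.toFinset_card_of_nodup (hnodup _), List.toFinset_card_of_nodup (hnodup _)]
            at this
        omega
    have h1 := hlen (n + 1) le_rfl
    have h2 : (Tk (n + 1)).length ≤ S.length := by
      obtain ⟨P, hP⟩ := hfil (n + 1)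
      rw [hP]
      exact List.length_filter_le _ _
    omega
  have hn1 : Tk (n + 1) = Tk n := by
    obtain ⟨j, hj, hjj⟩ := hstab
    have : ∀ m, j ≤ m → Tk (m + 1) = Tk m := by
      intro m hm
      induction m, hm using Nat.le_induction with
      | base => exact hjj
      | succ m _ ih =>
        have h1 := hsucc (m + 1)
        rw [ih, ← hsucc m, ih] at h1
        rw [h1, ih]
    exact this n hj
  refine ⟨fun z => ⟨fun hz => ?_, fun hz => ?_⟩, hself n⟩
  · have key : ∀ k, ∀ z ∈ Tk k, ∃ x ∈ T, x ∈ S ∧ Relation.ReflTransGen rel x z := by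
      intro k
      induction k with
      | zero =>
        intro z hz
        rw [h0, List.mem_filter, memb_iff] at hz
        exact ⟨z, hz.2, hz.1, Relation.ReflTransGen.refl⟩
      | succ k ih =>
        intro z hz
        have hz' := hz
        rw [hsucc, mem_stepR] at hz
        obtain ⟨hzS, x, hx, h⟩ := hz
        obtain ⟨y, hyT, hyS, hy⟩ := ih x hx
        rcases h with h | h
        · rw [← h]; exact ⟨y, hyT, hyS, hy⟩
        · exact ⟨y, hyT, hyS, hy.tail ⟨h.1, hsub k x hx, hzS, h.2⟩⟩
    exact ⟨hsub n z hz, key n z hz⟩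
  · obtain ⟨hzS, x, hxT, hxS, hxz⟩ := hz
    have hx : x ∈ Tk n := hmono' 0 n (Nat.zero_le _) x (by
      rw [h0, List.mem_filter, memb_iff]; exact ⟨hxS, hxT⟩)
    clear hzS
    change z ∈ Tk n
    induction hxz with
    | refl => exact hx
    | @tail b c _ hbc ih =>
      have h1 : c ∈ Tk (n + 1) := by
        rw [hsucc, mem_stepR]
        exact ⟨hbc.2.2.1, b, ih, Or.inr ⟨hbc.1, hbc.2.2.2⟩⟩
      rw [hn1] at h1
      exact h1

end Pool.Agent.OGP
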