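import Pool.Agent.OGP.Stmts

/-!
# Module SEP: triangulations and separation
-/

namespace Pool.Agent.OGP

namespace SEPX

theorem card_le {E : Finset (ℕ × ℕ)} {c I J : ℕ} (h : RT E c I J) :
    (thru E I J).card ≤ c := by
  cases h with
  | base =>
    have : thru E I (I + 1) = ∅ := by
      unfold thru
      rw [Finset.filter_eq_empty_iff]
      intro e _ he
      unfold Alt at he
      omega
    rw [this]
    simp
  | step _ _ _ _ h5 => exact h5

theorem lt_of {E : Finset (ℕ × ℕ)} {c I J : ℕ} (h : RT E c I J) : I < J := by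
  cases h with
  | base => omega
  | step h1 h2 _ _ _ => omega

end SEPX

theorem sep_proof : Stmt_SEP := by
  intro E I J h
  induction h with
  | base i =>
    intro α β h1 h2 h3
    right
    refine ⟨Or.inl (by omega), Or.inl ⟨by omega, by omega⟩⟩
  | @step i k j h1 h2 h3 h4 h5 ih3 ih4 =>
    intro α β hα hαβ hβ
    have c3 := SEPX.card_le h3
    have c4 := SEPX.card_le h4
    by_cases hkα : k ≤ α
    · rcases ih4 α β hkα hαβ hβ with hA | ⟨hB1, hB2⟩
      · exact Or.inl hA
      · right
        refine ⟨hB1, ?_⟩
        rcases hB2 with ⟨e1, e2⟩ | hB2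
        · subst e1; subst e2
          exact Or.inr (Or.inl ⟨i, h1, c3, h5⟩)
        · exact Or.inr hB2
    · by_cases hkβ : β ≤ k
      · rcases ih3 α β hα hαβ hkβ with hA | ⟨hB1, hB2⟩
        · exact Or.inl hA
        · right
          refine ⟨hB1, ?_⟩
          rcases hB2 with ⟨e1, e2⟩ | hB2
          · subst e1; subst e2
            exact Or.inr (Or.inr ⟨j, h2, c4, h5⟩)
          · exact Or.inr hB2
      · by_cases hiα : i < α
        · left
          exact ⟨i, k, h1, c3, Or.inl ⟨hiα, by omega, by omega⟩⟩
        · by_cases hβj : β < j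
          · left
            exact ⟨k, j, h2, c4, Or.inr ⟨by omega, by omega, hβj⟩⟩
          · have e1 : i = α := by omega
            have e2 : β = j := by omega
            subst e1; subst e2
            right
            exact ⟨Or.inr ⟨k, h1, h2, c3, c4⟩, Or.inl ⟨rfl, rfl⟩⟩

end Pool.Agent.OGP
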