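import Pool.Agent.OGP.Stmts
import Mathlib.Combinatorics.Enumerative.DoubleCounting
import Mathlib.Algebra.BigOperators.Group.Finset.Basic
import Mathlib.Data.ZMod.Basic

/-!
# One side of an edge
-/

namespace Pool.Agent.OGP

namespace SIDEX

theorem alt_symm {a b c d : ℕ} (h : Alt a b c d) : Alt c d a b := by
  unfold Alt at *
  omega

/-- The crossing relation. -/
def Rl (e f : ℕ × ℕ) : Prop := Alt e.1 e.2 f.1 f.2

instance : DecidableRel Rl := fun _ _ => by unfold Rl; infer_instance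

theorem even_pairs (I : Finset (ℕ × ℕ)) :
    Even (∑ h ∈ I, (I.filter fun k => Rl h k).card) := by
  have h0 : ∑ h ∈ I, (I.filter fun k => Rl h k).card =
      ((I ×ˢ I).filter fun p => Rl p.1 p.2).card := by
    rw [Finset.card_filter, Finset.sum_product]
    refine Finset.sum_congr rfl fun h _ => ?_
    rw [Finset.card_filter]
  rw [h0]
  have h1 : ∑ _p ∈ (I ×ˢ I).filter (fun p => Rl p.1 p.2), (1 : ZMod 2) = 0 := by
    refine Finset.sum_involution (fun p _ => (p.2, p.1)) ?_ ?_ ?_ ?_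
    · intro p _
      decide
    · rintro ⟨a, b⟩ hp _ heq
      rw [Finset.mem_filter] at hp
      have h2 : Rl a b := hp.2
      have h3 : b = a := congrArg Prod.fst heq
      subst h3
      unfold Rl Alt at h2
      omega
    · rintro ⟨a, b⟩ hp
      rw [Finset.mem_filter, Finset.mem_product] at hp ⊢
      exact ⟨⟨hp.1.2, hp.1.1⟩, alt_symm hp.2⟩
    · rintro ⟨a, b⟩ hp
      rfl
  rw [Finset.sum_const, nsmul_eq_mul, mul_one] at h1
  exact (ZMod.natCast_eq_zero_iff_even).1 h1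

theorem two_le {H I N : Finset (ℕ × ℕ)} (hIH : I ⊆ H) (hdeg : ∀ f ∈ H, (thru H f.1 f.2).card = 2)
    (hconn : ∀ C ⊆ H, C.Nonempty → (∀ f ∈ C, ∀ h ∈ H, Alt f.1 f.2 h.1 h.2 → h ∈ C) → C = H)
    (hNH : N ⊆ H) (hd : Disjoint I N) (hne : I.Nonempty) (hIH' : I ≠ H)
    (hcl : ∀ h ∈ I, ∀ k ∈ H, Rl h k → k ∈ I ∨ k ∈ N) :
    2 ≤ ∑ h ∈ I, (N.filter fun k => Rl h k).card := by
  have h1 : ∑ h ∈ I, (thru H h.1 h.2).card = ∑ h ∈ I, (I.filter fun k => Rl h k).card +
      ∑ h ∈ I, (N.filter fun k => Rl h k).card := by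
    rw [← Finset.sum_add_distrib]
    refine Finset.sum_congr rfl fun h hh => ?_
    have h2 : thru H h.1 h.2 = (I.filter fun k => Rl h k) ∪ (N.filter fun k => Rl h k) := by
      ext k
      unfold thru
      rw [Finset.mem_filter, Finset.mem_union, Finset.mem_filter, Finset.mem_filter]
      constructor
      · rintro ⟨hk, hA⟩
        rcases hcl h hh k hk hA with h3 | h3
        · exact Or.inl ⟨h3, hA⟩
        · exact Or.inr ⟨h3, hA⟩
      · rintro (⟨hk, hA⟩ | ⟨hk, hA⟩)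
        · exact ⟨hIH hk, hA⟩
        · exact ⟨hNH hk, hA⟩
    rw [h2, Finset.card_union_of_disjoint]
    exact Finset.disjoint_filter_filter hd
  have h2 : ∑ h ∈ I, (thru H h.1 h.2).card = 2 * I.card := by
    rw [Finset.sum_congr rfl fun h hh => hdeg h (hIH hh), Finset.sum_const, smul_eq_mul, mul_comm]
  have h3 := even_pairs I
  have h4 : Even (∑ h ∈ I, (N.filter fun k => Rl h k).card) := by
    rw [h2] at h1
    obtain ⟨c, hc⟩ := h3
    exact ⟨I.card - c, by omega⟩
  have h5 : ∑ h ∈ I, (N.filter fun k => Rl h k).card ≠ 0 := by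
    intro h0
    apply hIH'
    refine hconn I hIH hne ?_
    intro h hh k hk hA
    rcases hcl h hh k hk hA with h6 | h6
    · exact h6
    · exfalso
      rw [Finset.sum_eq_zero_iff] at h0
      have h7 := h0 h hh
      rw [Finset.card_eq_zero] at h7
      have h8 : k ∈ N.filter fun k => Rl h k := Finset.mem_filter.2 ⟨h6, hA⟩
      rw [h7] at h8
      simp at h8
  obtain ⟨c, hc⟩ := h4
  omega

end SIDEX

open SIDEX in
theorem side_proof : Stmt_SIDE := by
  intro H hlt hdeg hconn f hf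
  by_contra hcon
  rw [not_or] at hcon
  obtain ⟨hc1, hc2⟩ := hcon
  push Not at hc1 hc2
  obtain ⟨h1, h1H, h1f, h1A, h1a, h1b⟩ := hc1
  obtain ⟨h2, h2H, h2f, h2A, h2a⟩ := hc2
  set N := thru H f.1 f.2 with hN
  set I := H.filter (fun h => h ≠ f ∧ ¬ Alt f.1 f.2 h.1 h.2 ∧ f.1 ≤ h.1 ∧ h.2 ≤ f.2) with hI
  set O := H.filter (fun h => h ≠ f ∧ ¬ Alt f.1 f.2 h.1 h.2 ∧ ¬ (f.1 ≤ h.1 ∧ h.2 ≤ f.2)) with hO
  have memI : ∀ k, k ∈ I ↔ k ∈ H ∧ k ≠ f ∧ ¬ Alt f.1 f.2 k.1 k.2 ∧ f.1 ≤ k.1 ∧ k.2 ≤ f.2 := by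
    intro k; rw [hI, Finset.mem_filter]
  have memO : ∀ k, k ∈ O ↔ k ∈ H ∧ k ≠ f ∧ ¬ Alt f.1 f.2 k.1 k.2 ∧
      ¬ (f.1 ≤ k.1 ∧ k.2 ≤ f.2) := by
    intro k; rw [hO, Finset.mem_filter]
  have memN : ∀ k, k ∈ N ↔ k ∈ H ∧ Alt f.1 f.2 k.1 k.2 := by
    intro k; rw [hN]; unfold thru; rw [Finset.mem_filter]
  have hfI : f ∉ I := fun h => ((memI f).1 h).2.1 rfl
  have hfO : f ∉ O := fun h => ((memO f).1 h).2.1 rfl
  have hcross : ∀ h ∈ I, ∀ k ∈ O, ¬ Alt h.1 h.2 k.1 k.2 := by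
    intro h hh k hk
    obtain ⟨a1, a2, a3, a4, a5⟩ := (memI h).1 hh
    obtain ⟨b1, b2, b3, b4⟩ := (memO k).1 hk
    have l1 := hlt h a1
    have l2 := hlt k b1
    have l3 := hlt f hf
    unfold Alt at *
    omega
  have hIN : Disjoint I N := by
    rw [Finset.disjoint_left]
    intro k hk hk'
    exact ((memI k).1 hk).2.2.1 ((memN k).1 hk').2
  have hON : Disjoint O N := by
    rw [Finset.disjoint_left]
    intro k hk hk'
    exact ((memO k).1 hk).2.2.1 ((memN k).1 hk').2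
  have hNH : N ⊆ H := fun k hk => ((memN k).1 hk).1
  have e1 : 2 ≤ ∑ h ∈ I, (N.filter fun k => Rl h k).card := by
    refine two_le (H := H) (fun k hk => ((memI k).1 hk).1) hdeg hconn hNH hIN
      ⟨h1, (memI h1).2 ⟨h1H, h1f, h1A, h1a, h1b⟩⟩ (fun h => hfI (h ▸ hf)) ?_
    intro h hh k hk hA
    by_cases c : Alt f.1 f.2 k.1 k.2
    · right; exact (memN k).2 ⟨hk, c⟩
    · left
      refine (memI k).2 ⟨hk, ?_, c, ?_⟩
      · rintro rfl
        exact ((memI h).1 hh).2.2.1 (alt_symm hA)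
      · by_contra hc
        refine hcross h hh k ((memO k).2 ⟨hk, ?_, c, hc⟩) hA
        rintro rfl
        exact ((memI h).1 hh).2.2.1 (alt_symm hA)
  have e2 : 2 ≤ ∑ h ∈ O, (N.filter fun k => Rl h k).card := by
    refine two_le (H := H) (fun k hk => ((memO k).1 hk).1) hdeg hconn hNH hON
      ⟨h2, (memO h2).2 ⟨h2H, h2f, h2A, fun hh => absurd hh.2 (not_le.2 (h2a hh.1))⟩⟩
      (fun h => hfO (h ▸ hf)) ?_
    intro h hh k hk hA
    by_cases c : Alt f.1 f.2 k.1 k.2
    · right; exact (memN k).2 ⟨hk, c⟩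
    · left
      refine (memO k).2 ⟨hk, ?_, c, ?_⟩
      · rintro rfl
        exact ((memO h).1 hh).2.2.1 (alt_symm hA)
      · intro hc
        refine hcross k ((memI k).2 ⟨hk, ?_, c, hc.1, hc.2⟩) h hh (alt_symm hA)
        rintro rfl
        exact ((memO h).1 hh).2.2.1 (alt_symm hA)
  have hIO : Disjoint I O := by
    rw [Finset.disjoint_left]
    intro k hk hk'
    exact ((memO k).1 hk').2.2.2 ((memI k).1 hk).2.2.2
  have e3 : ∑ h ∈ I ∪ O, (N.filter fun k => Rl h k).card ≤ 2 := by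
    have h3 := Finset.sum_card_bipartiteAbove_eq_sum_card_bipartiteBelow (s := I ∪ O) (t := N) Rl
    unfold Finset.bipartiteAbove Finset.bipartiteBelow at h3
    rw [h3]
    have h4 : ∑ n ∈ N, ((I ∪ O).filter fun a => Rl a n).card ≤ ∑ _n ∈ N, 1 := by
      refine Finset.sum_le_sum fun n hn => ?_
      obtain ⟨hnH, hnA⟩ := (memN n).1 hn
      have h5 : ((I ∪ O).filter fun a => Rl a n) ⊆ (thru H n.1 n.2).erase f := by
        intro k hk
        rw [Finset.mem_filter, Finset.mem_union] at hk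
        rw [Finset.mem_erase]
        unfold thru
        rw [Finset.mem_filter]
        refine ⟨?_, ?_, alt_symm hk.2⟩
        · rintro rfl
          rcases hk.1 with h | h
          · exact hfI h
          · exact hfO h
        · rcases hk.1 with h | h
          · exact ((memI k).1 h).1
          · exact ((memO k).1 h).1
      have h6 : f ∈ thru H n.1 n.2 := by
        unfold thru
        rw [Finset.mem_filter]
        exact ⟨hf, alt_symm hnA⟩
      have h7 := Finset.card_erase_of_mem h6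
      rw [hdeg n hnH] at h7
      exact (Finset.card_le_card h5).trans (by rw [h7])
    refine h4.trans ?_
    rw [Finset.sum_const, smul_eq_mul, mul_one]
    exact le_of_eq (hdeg f hf)
  rw [Finset.sum_union hIO] at e3
  omega

end Pool.Agent.OGP
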