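import Pool.Agent.OGP.Stmts

/-!
# OGP module SNDA: soundness of a merge, first half
-/

set_option linter.unusedVariables false

namespace Pool.Agent.OGP

namespace SNDAX

lemma ed_mem (S : List ℕ) (x y : ℕ) :
    ((ed x y).1 ∈ S ∨ (ed x y).2 ∈ S) ↔ (x ∈ S ∨ y ∈ S) := by
  unfold ed
  rcases le_total x y with h | h
  · simp only [min_eq_left h, max_eq_right h]
  · simp only [min_eq_right h, max_eq_left h]
    tauto

lemma ed_eq (x y u w : ℕ) : ed x y = ed u w ↔ (x = u ∧ y = w) ∨ (x = w ∧ y = u) := by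
  unfold ed
  rw [Prod.mk.injEq]
  omega

end SNDAX

open SNDAX in
/-- module SNDA -/
theorem snda_proof (hL : Stmt_LOC) : Stmt_SNDA := by
  intro adj W s1 s2 s p1 p2 N1 N2 g1 g2 hsym A C P1 P2
  obtain ⟨⟨⟨a, v⟩, t1⟩, ⟨L1, A1⟩⟩ := s1
  obtain ⟨⟨⟨v', b⟩, t2⟩, ⟨L2, A2⟩⟩ := s2
  obtain ⟨⟨⟨a', b'⟩, t0⟩, ⟨L, B⟩⟩ := s
  obtain rfl : a = a' := A.ha
  obtain rfl : v' = v := A.hv
  obtain rfl : b = b' := A.hb
  have hab : a ≠ b := A.ab
  have haA2 : a ∉ A2 := A.ha2
  have hbA1 : b ∉ A1 := A.hb1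
  have hdisj : ∀ x ∈ A1, x ∉ A2 := A.disj
  have hsub : ∀ x ∈ B, x ∈ A1 ∨ x = v' ∨ x ∈ A2 := A.sub
  have hvB : v' ∈ B := A.supv
  have hA1B : ∀ x ∈ A1, x ∈ B := A.sup1
  have hA2B : ∀ x ∈ A2, x ∈ B := A.sup2
  have hfwd : ∀ r ∈ L, r ∈ L1 ∨ r ∈ L2 ∨ (r.1.1 = v' ∧ adj v' r.1.2 = true ∧ r.1.2 ∈ W) := A.fwd
  have hout : ∀ r ∈ L, r.1.2 ∉ B ∧ r.1.2 ≠ a ∧ r.1.2 ≠ b := A.out
  have hb1 : ∀ r ∈ L1, r.1.2 ∉ B → r.1.2 ≠ a → r.1.2 ≠ b → r ∈ L := A.bwd1
  have hb2 : ∀ r ∈ L2, r.1.2 ∉ B → r.1.2 ≠ a → r.1.2 ≠ b → r ∈ L := A.bwd2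
  have hbv : ∀ y ∈ W, adj v' y = true → y ∉ B → y ≠ a → y ≠ b → ∃ r ∈ L, r.1 = (v', y) := A.bwdv
  have hfunc : ∀ r ∈ L, ∀ r' ∈ L, r.1 = r'.1 → r = r' := A.func
  have p1a : p1 a = 0 := P1.pa
  have p1v : p1 v' = N1 := P1.pb
  have p2v : p2 v' = 0 := P2.pa
  have p2b : p2 b = N2 := P2.pb
  have hN1 : 0 < N1 := P1.pos
  have hN2 : 0 < N2 := P2.pos
  have hin1 : ∀ x ∈ A1, 0 < p1 x ∧ p1 x < N1 := P1.inA
  have hin2 : ∀ x ∈ A2, 0 < p2 x ∧ p2 x < N2 := P2.inA
  have hr1 : ∀ x y t, ((x, y), t) ∈ L1 ↔ x ∈ A1 ∧ y ∈ W ∧ y ∉ A1 ∧ y ≠ a ∧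
    y ≠ v' ∧ adj x y = true ∧ t = g1 (ed x y) := P1.rcd
  have hr2 : ∀ x y t, ((x, y), t) ∈ L2 ↔ x ∈ A2 ∧ y ∈ W ∧ y ∉ A2 ∧ y ≠ v' ∧
    y ≠ b ∧ adj x y = true ∧ t = g2 (ed x y) := P2.rcd
  have haA1 : a ∉ A1 := fun h => by have := hin1 a h; omega
  have hvA1 : v' ∉ A1 := fun h => by have := hin1 v' h; omega
  have hvA2 : v' ∉ A2 := fun h => by have := hin2 v' h; omega
  have hbA2 : b ∉ A2 := fun h => by have := hin2 b h; omega
  have hav : a ≠ v' := fun h => by rw [← h] at p1v; omega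
  have hvb : v' ≠ b := fun h => by rw [← h] at p2b; omega
  -- positions
  have hc1 : ∀ z, (z ∈ A1 ∨ z = a ∨ z = v') →
      cp (((a, v'), t1), (L1, A1)) (((v', b), t2), (L2, A2)) p1 p2 N1 N2 z = p1 z := by
    intro z hz
    unfold cp
    exact if_pos hz
  have hc2 : ∀ z, ¬ (z ∈ A1 ∨ z = a ∨ z = v') → (z ∈ A2 ∨ z = b) →
      cp (((a, v'), t1), (L1, A1)) (((v', b), t2), (L2, A2)) p1 p2 N1 N2 z = N1 + p2 z := by
    intro z hz hz'
    unfold cp
    exact (if_neg hz).trans (if_pos hz')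
  have hc3 : ∀ z, ¬ (z ∈ A1 ∨ z = a ∨ z = v') → ¬ (z ∈ A2 ∨ z = b) →
      cp (((a, v'), t1), (L1, A1)) (((v', b), t2), (L2, A2)) p1 p2 N1 N2 z = N1 + N2 + 1 := by
    intro z hz hz'
    unfold cp
    exact (if_neg hz).trans (if_neg hz')
  have hn2 : ∀ x ∈ A2, ¬ (x ∈ A1 ∨ x = a ∨ x = v') := by
    rintro x hx (h | h | h)
    · exact hdisj x h hx
    · exact haA2 (h ▸ hx)
    · exact hvA2 (h ▸ hx)
  -- gap function
  have hG1 : ∀ x y, (x ∈ A1 ∨ y ∈ A1 ∨ ed x y = ed a v') →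
      cg (((a, v'), t1), (L1, A1)) (((v', b), t2), (L2, A2)) (((a, b), t0), (L, B)) g1 g2 (ed x y)
        = g1 (ed x y) := by
    intro x y h
    unfold cg
    have h' : (ed x y).1 ∈ A1 ∨ (ed x y).2 ∈ A1 ∨ ed x y = ed a v' := by
      have := ed_mem A1 x y
      tauto
    exact if_pos h'
  have hG2 : ∀ x y, ¬ (x ∈ A1 ∨ y ∈ A1 ∨ ed x y = ed a v') →
      (x ∈ A2 ∨ y ∈ A2 ∨ ed x y = ed v' b) →
      cg (((a, v'), t1), (L1, A1)) (((v', b), t2), (L2, A2)) (((a, b), t0), (L, B)) g1 g2 (ed x y)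
        = g2 (ed x y) := by
    intro x y h h2
    unfold cg
    have h' : ¬ ((ed x y).1 ∈ A1 ∨ (ed x y).2 ∈ A1 ∨ ed x y = ed a v') := by
      have := ed_mem A1 x y
      tauto
    have h2' : (ed x y).1 ∈ A2 ∨ (ed x y).2 ∈ A2 ∨ ed x y = ed v' b := by
      have := ed_mem A2 x y
      tauto
    exact (if_neg h').trans (if_pos h2')
  have hG3 : ∀ x y, ¬ (x ∈ A1 ∨ y ∈ A1 ∨ ed x y = ed a v') →
      ¬ (x ∈ A2 ∨ y ∈ A2 ∨ ed x y = ed v' b) → ed x y = ed a b →
      cg (((a, v'), t1), (L1, A1)) (((v', b), t2), (L2, A2)) (((a, b), t0), (L, B)) g1 g2 (ed x y)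
        = t0 := by
    intro x y h h2 h3
    unfold cg
    have h' : ¬ ((ed x y).1 ∈ A1 ∨ (ed x y).2 ∈ A1 ∨ ed x y = ed a v') := by
      have := ed_mem A1 x y
      tauto
    have h2' : ¬ ((ed x y).1 ∈ A2 ∨ (ed x y).2 ∈ A2 ∨ ed x y = ed v' b) := by
      have := ed_mem A2 x y
      tauto
    exact (if_neg h').trans ((if_neg h2').trans (if_pos h3))
  have hG4 : ∀ y t, ((v', y), t) ∈ L →
      cg (((a, v'), t1), (L1, A1)) (((v', b), t2), (L2, A2)) (((a, b), t0), (L, B)) g1 g2 (ed v' y)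
        = t := by
    intro y t hyt
    obtain ⟨hyB, hya, hyb⟩ := hout _ hyt
    simp only at hyB hya hyb
    have h' : ¬ ((ed v' y).1 ∈ A1 ∨ (ed v' y).2 ∈ A1 ∨ ed v' y = ed a v') := by
      have e1 := ed_mem A1 v' y
      have e2 := ed_eq v' y a v'
      have e3 : y ∉ A1 := fun h => hyB (hA1B y h)
      rintro (h | h | h)
      · exact (e1.mp (Or.inl h)).elim hvA1 e3
      · exact (e1.mp (Or.inr h)).elim hvA1 e3
      · rcases e2.mp h with ⟨h1, h2⟩ | ⟨h1, h2⟩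
        · exact hav h1.symm
        · exact hya h2
    have h2' : ¬ ((ed v' y).1 ∈ A2 ∨ (ed v' y).2 ∈ A2 ∨ ed v' y = ed v' b) := by
      have e1 := ed_mem A2 v' y
      have e2 := ed_eq v' y v' b
      have e3 : y ∉ A2 := fun h => hyB (hA2B y h)
      rintro (h | h | h)
      · exact (e1.mp (Or.inl h)).elim hvA2 e3
      · exact (e1.mp (Or.inr h)).elim hvA2 e3
      · rcases e2.mp h with ⟨h1, h2⟩ | ⟨h1, h2⟩
        · exact hyb h2
        · exact hvb h1
    have h3' : ¬ (ed v' y = ed a b) := by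
      intro h
      rcases (ed_eq v' y a b).mp h with ⟨h1, h2⟩ | ⟨h1, h2⟩
      · exact hav h1.symm
      · exact hvb h1
    unfold cg
    refine (if_neg h').trans ((if_neg h2').trans ((if_neg h3').trans ?_))
    simp only
    cases hf : L.find? (fun r => decide (ed r.1.1 r.1.2 = ed v' y)) with
    | none =>
      exfalso
      have := List.find?_eq_none.mp hf _ hyt
      simp at this
    | some r' =>
      simp only
      have hr'L : r' ∈ L := List.mem_of_find?_eq_some hf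
      have hr'e : ed r'.1.1 r'.1.2 = ed v' y := by
        have := List.find?_some hf
        simpa using this
      have h1 : r'.1 = (v', y) := by
        rcases (ed_eq r'.1.1 r'.1.2 v' y).mp hr'e with ⟨h1, h2⟩ | ⟨h1, h2⟩
        · exact Prod.ext h1 h2
        · exact absurd (h2 ▸ hvB) (hout r' hr'L).1
      have h2 := hfunc r' hr'L _ hyt h1
      rw [h2]
  have hrcd1 : ∀ x y, x ∈ A1 → cg (((a, v'), t1), (L1, A1)) (((v', b), t2), (L2, A2))
      (((a, b), t0), (L, B)) g1 g2 (ed x y) = g1 (ed x y) := fun x y hx => hG1 x y (Or.inl hx)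
  have hrcd2 : ∀ x y, x ∈ A2 → y ∉ B → cg (((a, v'), t1), (L1, A1)) (((v', b), t2), (L2, A2))
      (((a, b), t0), (L, B)) g1 g2 (ed x y) = g2 (ed x y) := by
    intro x y hx hy
    refine hG2 x y ?_ (Or.inl hx)
    rintro (h | h | h)
    · exact hdisj x h hx
    · exact hy (hA1B y h)
    · rcases (ed_eq x y a v').mp h with ⟨h1, h2⟩ | ⟨h1, h2⟩
      · exact haA2 (h1 ▸ hx)
      · exact hvA2 (h1 ▸ hx)
  -- inner ends of the records
  have hL1in : ∀ r ∈ L1, r.1.1 ∈ A1 := by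
    rintro ⟨⟨x, y⟩, t⟩ hr
    exact ((hr1 x y t).mp hr).1
  have hL2in : ∀ r ∈ L2, r.1.1 ∈ A2 := by
    rintro ⟨⟨x, y⟩, t⟩ hr
    exact ((hr2 x y t).mp hr).1
  refine ⟨?_, ?_, ?_, ?_, ?_, ?_, ?_, ?_, ?_, ?_, ?_, ?_⟩
  · -- wA
    intro x hx
    rcases hsub x hx with h | h | h
    · exact P1.wA x h
    · rw [h]; exact P1.wb
    · exact P2.wA x h
  · exact P1.wa
  · exact P2.wb
  · rw [hc1 a (Or.inr (Or.inl rfl))]; exact p1a
  · have : ¬ (b ∈ A1 ∨ b = a ∨ b = v') := by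
      rintro (h | h | h)
      · exact hbA1 h
      · exact hab h.symm
      · exact hvb h.symm
    rw [hc2 b this (Or.inr rfl), p2b]
  · omega
  · -- inA
    intro x hx
    rcases hsub x hx with h | h | h
    · rw [hc1 x (Or.inl h)]
      have := hin1 x h
      omega
    · rw [hc1 x (Or.inr (Or.inr h)), h, p1v]
      omega
    · rw [hc2 x (hn2 x h) (Or.inl h)]
      have := hin2 x h
      omega
  · -- outA
    intro x hx hxa hxb
    have h1 : ¬ (x ∈ A1 ∨ x = a ∨ x = v') := by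
      rintro (h | h | h)
      · exact hx (hA1B x h)
      · exact hxa h
      · exact hx (h ▸ hvB)
    have h2 : ¬ (x ∈ A2 ∨ x = b) := by
      rintro (h | h)
      · exact hx (hA2B x h)
      · exact hxb h
    exact hc3 x h1 h2
  · -- inj
    intro x hx y hy hxy
    rcases hsub x hx with h | h | h <;> rcases hsub y hy with h' | h' | h'
    · rw [hc1 x (Or.inl h), hc1 y (Or.inl h')] at hxy
      exact P1.inj x h y h' hxy
    · rw [hc1 x (Or.inl h), hc1 y (Or.inr (Or.inr h')), h', p1v] at hxy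
      have := hin1 x h
      omega
    · rw [hc1 x (Or.inl h), hc2 y (hn2 y h') (Or.inl h')] at hxy
      have := hin1 x h
      omega
    · rw [hc1 x (Or.inr (Or.inr h)), hc1 y (Or.inl h'), h, p1v] at hxy
      have := hin1 y h'
      omega
    · rw [h, h']
    · rw [hc1 x (Or.inr (Or.inr h)), hc2 y (hn2 y h') (Or.inl h'), h, p1v] at hxy
      have := hin2 y h'
      omega
    · rw [hc1 y (Or.inl h'), hc2 x (hn2 x h) (Or.inl h)] at hxy
      have := hin1 y h'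
      omega
    · rw [hc1 y (Or.inr (Or.inr h')), hc2 x (hn2 x h) (Or.inl h), h', p1v] at hxy
      have := hin2 x h
      omega
    · rw [hc2 x (hn2 x h) (Or.inl h), hc2 y (hn2 y h') (Or.inl h')] at hxy
      exact P2.inj x h y h' (by omega)
  · -- lab
    intro _
    refine (hG3 a b ?_ ?_ rfl).symm
    · rintro (h | h | h)
      · exact haA1 h
      · exact hbA1 h
      · rcases (ed_eq a b a v').mp h with ⟨h1, h2⟩ | ⟨h1, h2⟩
        · exact hvb h2.symm
        · exact hav h1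
    · rintro (h | h | h)
      · exact haA2 h
      · exact hbA2 h
      · rcases (ed_eq a b v' b).mp h with ⟨h1, h2⟩ | ⟨h1, h2⟩
        · exact hav h1
        · exact hab h1
  · -- rcd
    intro x y t
    constructor
    · intro hr
      have hr' : ((x, y), t) ∈ L := hr
      obtain ⟨hyB, hya, hyb⟩ := hout _ hr'
      simp only at hyB hya hyb
      rcases hfwd _ hr' with h | h | ⟨h1, h2, h3⟩
      · obtain ⟨hx, hyW, -, -, -, hadj, ht⟩ := (hr1 x y t).mp h
        exact ⟨hA1B x hx, hyW, hyB, hya, hyb, hadj, by rw [ht, hrcd1 x y hx]⟩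
      · obtain ⟨hx, hyW, -, -, -, hadj, ht⟩ := (hr2 x y t).mp h
        exact ⟨hA2B x hx, hyW, hyB, hya, hyb, hadj, by rw [ht, hrcd2 x y hx hyB]⟩
      · simp only at h1 h2 h3
        subst h1
        exact ⟨hvB, h3, hyB, hya, hyb, h2, (hG4 y t hr').symm⟩
    · rintro ⟨hx, hyW, hyB, hya, hyb, hadj, ht⟩
      have hyB' : y ∉ B := hyB
      have hya' : y ≠ a := hya
      have hyb' : y ≠ b := hyb
      have hyA1 : y ∉ A1 := fun h => hyB' (hA1B y h)
      have hyA2 : y ∉ A2 := fun h => hyB' (hA2B y h)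
      have hyv : y ≠ v' := fun h => hyB' (h ▸ hvB)
      change ((x, y), t) ∈ L
      rcases hsub x hx with h | h | h
      · rw [ht, hrcd1 x y h]
        exact hb1 _ ((hr1 x y _).mpr ⟨h, hyW, hyA1, hya', hyv, hadj, rfl⟩) hyB' hya' hyb'
      · subst h
        obtain ⟨⟨⟨x', y'⟩, t'⟩, hr, he⟩ := hbv y hyW hadj hyB' hya' hyb'
        simp only [Prod.mk.injEq] at he
        obtain ⟨rfl, rfl⟩ := he
        rw [ht, hG4 _ t' hr]
        exact hr
      · rw [ht, hrcd2 x y h hyB']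
        exact hb2 _ ((hr2 x y _).mpr ⟨h, hyW, hyA2, hyv, hyb', hadj, rfl⟩) hyB' hya' hyb'
  · -- srt
    have hloc := hL L1 L2 a v' b
      (cp (((a, v'), t1), (L1, A1)) (((v', b), t2), (L2, A2)) p1 p2 N1 N2) N1 (N1 + N2)
      (by rw [hc1 a (Or.inr (Or.inl rfl))]; exact p1a)
      (by rw [hc1 v' (Or.inr (Or.inr rfl))]; exact p1v)
      (by
        have : ¬ (b ∈ A1 ∨ b = a ∨ b = v') := by
          rintro (h | h | h)
          · exact hbA1 h
          · exact hab h.symm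
          · exact hvb h.symm
        rw [hc2 b this (Or.inr rfl), p2b])
      hN1 (by omega)
      (by
        intro z
        by_cases h1 : z ∈ A1 ∨ z = a ∨ z = v'
        · rw [hc1 z h1]
          rcases h1 with h | h | h
          · have := hin1 z h; omega
          · rw [h, p1a]; omega
          · rw [h, p1v]; omega
        · by_cases h2 : z ∈ A2 ∨ z = b
          · rw [hc2 z h1 h2]
            rcases h2 with h | h
            · have := hin2 z h; omega
            · rw [h, p2b]; omega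
          · rw [hc3 z h1 h2])
      (by
        intro r hr
        have h := hL1in r hr
        rw [hc1 _ (Or.inl h)]
        exact hin1 _ h)
      (by
        intro r hr
        have h := hL2in r hr
        rw [hc2 _ (hn2 _ h) (Or.inl h)]
        have := hin2 _ h
        omega)
      (by
        have h1 : L1.Pairwise fun r r' => p1 r.1.1 ≤ p1 r'.1.1 := P1.srt
        refine List.Pairwise.imp_of_mem ?_ h1
        intro r r' hr hr' h
        rw [hc1 _ (Or.inl (hL1in r hr)), hc1 _ (Or.inl (hL1in r' hr'))]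
        exact h)
      (by
        have h1 : L2.Pairwise fun r r' => p2 r.1.1 ≤ p2 r'.1.1 := P2.srt
        refine List.Pairwise.imp_of_mem ?_ h1
        intro r r' hr hr' h
        rw [hc2 _ (hn2 _ (hL2in r hr)) (Or.inl (hL2in r hr)),
          hc2 _ (hn2 _ (hL2in r' hr')) (Or.inl (hL2in r' hr'))]
        omega)
    have hlcl : ∀ r ∈ L, Lcl L1 L2 a v' b
        (cp (((a, v'), t1), (L1, A1)) (((v', b), t2), (L2, A2)) p1 p2 N1 N2) (N1 + N2) r.1.1 := by
      intro r hr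
      rcases hfwd r hr with h | h | ⟨h, -, -⟩
      · refine Or.inr (Or.inr (Or.inr (Or.inl ?_)))
        unfold inn
        rw [List.any_eq_true]
        exact ⟨r, h, by simp⟩
      · refine Or.inr (Or.inr (Or.inr (Or.inr (Or.inl ?_))))
        unfold inn
        rw [List.any_eq_true]
        exact ⟨r, h, by simp⟩
      · exact Or.inr (Or.inl h)
    have hsrt : L.Pairwise fun r r' => lc (((a, v'), t1), (L1, A1)) (((v', b), t2), (L2, A2)) r.1.1
        ≤ lc (((a, v'), t1), (L1, A1)) (((v', b), t2), (L2, A2)) r'.1.1 := C.srt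
    change L.Pairwise _
    refine List.Pairwise.imp_of_mem ?_ hsrt
    intro r r' hr hr' h
    by_contra hlt
    push Not at hlt
    have h1 := (hloc r'.1.1 r.1.1 (hlcl r' hr') (hlcl r hr)).1 hlt
    have h2 : loc L1 L2 a v' b r.1.1 ≤ loc L1 L2 a v' b r'.1.1 := h
    omega

end Pool.Agent.OGP
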