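import Pool.Agent.OGP.Stmts

set_option linter.unusedVariables false

namespace Pool.Agent.OGP.SNDBX

open Pool.Agent.OGP

theorem ed_comm (u v : ℕ) : ed u v = ed v u := by
  unfold ed
  rw [min_comm, max_comm]

theorem ed_inj {u v x y : ℕ} (h : ed u v = ed x y) : (u = x ∧ v = y) ∨ (u = y ∧ v = x) := by
  unfold ed at h
  rw [Prod.mk.injEq] at h
  omega

theorem ed_fst {u v : ℕ} : ((ed u v).1 = u ∧ (ed u v).2 = v) ∨ ((ed u v).1 = v ∧ (ed u v).2 = u) := by
  unfold ed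
  simp only
  omega

section

variable {adj : ℕ → ℕ → Bool} {W : List ℕ} {s1 s2 s : St} {p1 p2 : ℕ → ℕ}
  {N1 N2 : ℕ} {g1 g2 : ℕ × ℕ → ℕ × ℕ}

/-- the six classes of points -/
theorem vals (hA : MergeA adj W s1 s2 s) (h1 : Pre adj W s1 p1 N1 g1)
    (h2 : Pre adj W s2 p2 N2 g2) (z : ℕ) :
    (z ∈ s1.2.2 ∧ 0 < cp s1 s2 p1 p2 N1 N2 z ∧ cp s1 s2 p1 p2 N1 N2 z < N1 ∧
      p1 z = cp s1 s2 p1 p2 N1 N2 z ∧ p2 z = N2 + 1) ∨
    (z = s1.1.1.1 ∧ cp s1 s2 p1 p2 N1 N2 z = 0 ∧ p1 z = 0 ∧ p2 z = N2 + 1) ∨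
    (z = s1.1.1.2 ∧ cp s1 s2 p1 p2 N1 N2 z = N1 ∧ p1 z = N1 ∧ p2 z = 0) ∨
    (z ∈ s2.2.2 ∧ N1 < cp s1 s2 p1 p2 N1 N2 z ∧ cp s1 s2 p1 p2 N1 N2 z < N1 + N2 ∧
      p1 z = N1 + 1 ∧ p2 z + N1 = cp s1 s2 p1 p2 N1 N2 z) ∨
    (z = s2.1.1.2 ∧ cp s1 s2 p1 p2 N1 N2 z = N1 + N2 ∧ p1 z = N1 + 1 ∧ p2 z = N2) ∨
    (z ∉ s1.2.2 ∧ z ∉ s2.2.2 ∧ z ≠ s1.1.1.1 ∧ z ≠ s1.1.1.2 ∧ z ≠ s2.1.1.2 ∧
      cp s1 s2 p1 p2 N1 N2 z = N1 + N2 + 1 ∧ p1 z = N1 + 1 ∧ p2 z = N2 + 1) := by
  have ha := hA.ha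
  have hv := hA.hv
  have hb := hA.hb
  have hab := hA.ab
  have ha2 := hA.ha2
  have hb1 := hA.hb1
  have p1a := h1.pa
  have p1v := h1.pb
  have p2v := h2.pa
  have p2b := h2.pb
  have n1 := h1.pos
  have n2 := h2.pos
  rw [hv] at p2v
  rw [← ha] at ha2 hab
  rw [← hb] at hb1 hab
  have hav : s1.1.1.1 ≠ s1.1.1.2 := by
    intro h
    rw [h, p1v] at p1a
    omega
  have hbv : s2.1.1.2 ≠ s1.1.1.2 := by
    intro h
    rw [h, p2v] at p2b
    omega
  by_cases c1 : z ∈ s1.2.2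
  · left
    have e : cp s1 s2 p1 p2 N1 N2 z = p1 z := by
      unfold cp
      rw [if_pos (Or.inl c1)]
    have i1 := h1.inA z c1
    have hzv : z ≠ s2.1.1.1 := by
      rw [hv]
      intro h
      rw [h, p1v] at i1
      omega
    have hzb : z ≠ s2.1.1.2 := by
      intro h
      exact hb1 (h ▸ c1)
    exact ⟨c1, by omega, by omega, e.symm, h2.outA z (hA.disj z c1) hzv hzb⟩
  by_cases c2 : z = s1.1.1.1
  · right; left
    have e : cp s1 s2 p1 p2 N1 N2 z = p1 z := by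
      unfold cp
      rw [if_pos (Or.inr (Or.inl c2))]
    have e2 : p1 z = 0 := by rw [c2, p1a]
    refine ⟨c2, by rw [e, e2], e2, ?_⟩
    rw [c2]
    exact h2.outA _ ha2 (by rw [hv]; exact hav) hab
  by_cases c3 : z = s1.1.1.2
  · right; right; left
    have e : cp s1 s2 p1 p2 N1 N2 z = p1 z := by
      unfold cp
      rw [if_pos (Or.inr (Or.inr c3))]
    have e2 : p1 z = N1 := by rw [c3, p1v]
    exact ⟨c3, by rw [e, e2], e2, by rw [c3, p2v]⟩
  have hn : ¬ (z ∈ s1.2.2 ∨ z = s1.1.1.1 ∨ z = s1.1.1.2) := by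
    rintro (h | h | h)
    · exact c1 h
    · exact c2 h
    · exact c3 h
  have e1 : p1 z = N1 + 1 := h1.outA z c1 c2 c3
  by_cases c4 : z ∈ s2.2.2
  · right; right; right; left
    have e : cp s1 s2 p1 p2 N1 N2 z = N1 + p2 z := by
      unfold cp
      rw [if_neg hn, if_pos (Or.inl c4)]
    have i2 := h2.inA z c4
    exact ⟨c4, by omega, by omega, e1, by omega⟩
  by_cases c5 : z = s2.1.1.2
  · right; right; right; right; left
    have e : cp s1 s2 p1 p2 N1 N2 z = N1 + p2 z := by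
      unfold cp
      rw [if_neg hn, if_pos (Or.inr c5)]
    have e2 : p2 z = N2 := by rw [c5, p2b]
    exact ⟨c5, by rw [e, e2], e1, e2⟩
  · right; right; right; right; right
    have hn2 : ¬ (z ∈ s2.2.2 ∨ z = s2.1.1.2) := by
      rintro (h | h)
      · exact c4 h
      · exact c5 h
    have e : cp s1 s2 p1 p2 N1 N2 z = N1 + N2 + 1 := by
      unfold cp
      rw [if_neg hn, if_neg hn2]
    exact ⟨c1, c4, c2, c3, c5, e, e1, h2.outA z c4 (by rw [hv]; exact c3) c5⟩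

/-- the classes are determined by the values -/
theorem cls (hA : MergeA adj W s1 s2 s) (h1 : Pre adj W s1 p1 N1 g1)
    (h2 : Pre adj W s2 p2 N2 g2) (z : ℕ) :
    (0 < cp s1 s2 p1 p2 N1 N2 z → cp s1 s2 p1 p2 N1 N2 z < N1 → z ∈ s1.2.2) ∧
    (cp s1 s2 p1 p2 N1 N2 z = 0 → z = s1.1.1.1) ∧
    (cp s1 s2 p1 p2 N1 N2 z = N1 → z = s1.1.1.2) ∧
    (N1 < cp s1 s2 p1 p2 N1 N2 z → cp s1 s2 p1 p2 N1 N2 z < N1 + N2 → z ∈ s2.2.2) ∧
    (cp s1 s2 p1 p2 N1 N2 z = N1 + N2 → z = s2.1.1.2) ∧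
    (cp s1 s2 p1 p2 N1 N2 z = N1 + N2 + 1 → z ∉ s1.2.2 ∧ z ∉ s2.2.2 ∧ z ≠ s1.1.1.1 ∧
      z ≠ s1.1.1.2 ∧ z ≠ s2.1.1.2) ∧
    cp s1 s2 p1 p2 N1 N2 z ≤ N1 + N2 + 1 := by
  have n1 := h1.pos
  have n2 := h2.pos
  rcases vals hA h1 h2 z with h | h | h | h | h | h
  · refine ⟨fun _ _ => h.1, ?_, ?_, ?_, ?_, ?_, ?_⟩ <;> omega
  · refine ⟨?_, fun _ => h.1, ?_, ?_, ?_, ?_, ?_⟩ <;> omega
  · refine ⟨?_, ?_, fun _ => h.1, ?_, ?_, ?_, ?_⟩ <;> omega
  · refine ⟨?_, ?_, ?_, fun _ _ => h.1, ?_, ?_, ?_⟩ <;> omega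
  · refine ⟨?_, ?_, ?_, ?_, fun _ => h.1, ?_, ?_⟩ <;> omega
  · refine ⟨?_, ?_, ?_, ?_, ?_, fun _ => ⟨h.1, h.2.1, h.2.2.1, h.2.2.2.1, h.2.2.2.2.1⟩, ?_⟩ <;>
      omega

/-- the values on the classes -/
theorem rev (hA : MergeA adj W s1 s2 s) (h1 : Pre adj W s1 p1 N1 g1)
    (h2 : Pre adj W s2 p2 N2 g2) (z : ℕ) :
    (z ∈ s1.2.2 → 0 < cp s1 s2 p1 p2 N1 N2 z ∧ cp s1 s2 p1 p2 N1 N2 z < N1) ∧
    (z = s1.1.1.1 → cp s1 s2 p1 p2 N1 N2 z = 0) ∧
    (z = s1.1.1.2 → cp s1 s2 p1 p2 N1 N2 z = N1) ∧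
    (z ∈ s2.2.2 → N1 < cp s1 s2 p1 p2 N1 N2 z ∧ cp s1 s2 p1 p2 N1 N2 z < N1 + N2) ∧
    (z = s2.1.1.2 → cp s1 s2 p1 p2 N1 N2 z = N1 + N2) := by
  have ha := hA.ha
  have hv := hA.hv
  have hb := hA.hb
  have hab := hA.ab
  have ha2 := hA.ha2
  have hb1 := hA.hb1
  have p1a := h1.pa
  have p1v := h1.pb
  have p2v := h2.pa
  have p2b := h2.pb
  have n1 := h1.pos
  have n2 := h2.pos
  rw [hv] at p2v
  rw [← ha] at ha2 hab
  rw [← hb] at hb1 hab
  have hdis := hA.disj z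
  have i1 := h1.inA z
  have i2 := h2.inA z
  refine ⟨fun h => ?_, fun h => ?_, fun h => ?_, fun h => ?_, fun h => ?_⟩
  · rcases vals hA h1 h2 z with h' | h' | h' | h' | h' | h'
    · exact ⟨h'.2.1, h'.2.2.1⟩
    · have := i1 h
      omega
    · have := i1 h
      omega
    · exact absurd h'.1 (hdis h)
    · exact absurd (h'.1 ▸ h) hb1
    · exact absurd h h'.1
  · rcases vals hA h1 h2 z with h' | h' | h' | h' | h' | h'
    · have := i1 h'.1
      rw [h, p1a] at this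
      omega
    · exact h'.2.1
    · rw [h, p1a] at h'
      omega
    · exact absurd (h ▸ h'.1) ha2
    · exact absurd (h ▸ h'.1) hab
    · exact absurd h h'.2.2.1
  · rcases vals hA h1 h2 z with h' | h' | h' | h' | h' | h'
    · have := i1 h'.1
      rw [h, p1v] at this
      omega
    · rw [h, p1v] at h'
      omega
    · exact h'.2.1
    · have := i2 h'.1
      rw [h, p2v] at this
      omega
    · rw [h, p2v] at h'
      omega
    · exact absurd h h'.2.2.2.1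
  · rcases vals hA h1 h2 z with h' | h' | h' | h' | h' | h'
    · exact absurd h (hdis h'.1)
    · exact absurd (h'.1 ▸ h) ha2
    · have := i2 h
      omega
    · exact ⟨h'.2.1, h'.2.2.1⟩
    · have := i2 h
      omega
    · exact absurd h h'.2.1
  · rcases vals hA h1 h2 z with h' | h' | h' | h' | h' | h'
    · exact absurd (h ▸ h'.1) hb1
    · exact absurd (h'.1 ▸ h) hab
    · rw [h, p2b] at h'
      omega
    · have := i2 h'.1
      rw [h, p2b] at this
      omega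
    · exact h'.2.1
    · exact absurd h h'.2.2.2.2.1

/-- the label is `g1` -/
theorem cg1 (hA : MergeA adj W s1 s2 s) (h1 : Pre adj W s1 p1 N1 g1)
    (h2 : Pre adj W s2 p2 N2 g2) {x y : ℕ}
    (h : (0 < cp s1 s2 p1 p2 N1 N2 x ∧ cp s1 s2 p1 p2 N1 N2 x < N1) ∨
      (0 < cp s1 s2 p1 p2 N1 N2 y ∧ cp s1 s2 p1 p2 N1 N2 y < N1) ∨
      (cp s1 s2 p1 p2 N1 N2 x = 0 ∧ cp s1 s2 p1 p2 N1 N2 y = N1) ∨
      (cp s1 s2 p1 p2 N1 N2 x = N1 ∧ cp s1 s2 p1 p2 N1 N2 y = 0)) :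
    cg s1 s2 s g1 g2 (ed x y) = g1 (ed x y) := by
  unfold cg
  rw [if_pos]
  rcases h with h | h | h | h
  · have hx := (cls hA h1 h2 x).1 h.1 h.2
    rcases ed_fst (u := x) (v := y) with e | e
    · left
      rw [e.1]
      exact hx
    · right; left
      rw [e.2]
      exact hx
  · have hy := (cls hA h1 h2 y).1 h.1 h.2
    rcases ed_fst (u := x) (v := y) with e | e
    · right; left
      rw [e.2]
      exact hy
    · left
      rw [e.1]
      exact hy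
  · right; right
    rw [(cls hA h1 h2 x).2.1 h.1, (cls hA h1 h2 y).2.2.1 h.2]
  · right; right
    rw [(cls hA h1 h2 x).2.2.1 h.1, (cls hA h1 h2 y).2.1 h.2, ed_comm]

/-- `g1 = g2` on edges between the two parts -/
theorem g12 (hadj : ∀ i j, adj i j = adj j i) (hA : MergeA adj W s1 s2 s)
    (h1 : Pre adj W s1 p1 N1 g1)
    (h2 : Pre adj W s2 p2 N2 g2) {x y : ℕ} (hx : x ∈ s1.2.2) (hy : y ∈ s2.2.2)
    (hxy : adj x y = true) :
    ((x, y), g1 (ed x y)) ∈ s1.2.1 ∧ ((y, x), g1 (ed x y)) ∈ s2.2.1 ∧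
      g1 (ed x y) = g2 (ed x y) := by
  have rx := (rev hA h1 h2 x).1 hx
  have ry := (rev hA h1 h2 y).2.2.2.1 hy
  have e1 : ((x, y), g1 (ed x y)) ∈ s1.2.1 := by
    rw [h1.rcd]
    refine ⟨hx, h2.wA y hy, ?_, ?_, ?_, hxy, rfl⟩
    · intro h
      have := (rev hA h1 h2 y).1 h
      omega
    · intro h
      have := (rev hA h1 h2 y).2.1 h
      omega
    · intro h
      have := (rev hA h1 h2 y).2.2.1 h
      omega
  have e2 := hA.con12 _ e1 hy
  refine ⟨e1, e2, ?_⟩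
  have e3 := ((h2.rcd y x _).mp e2).2.2.2.2.2.2
  have e4 : g1 (ed x y) = g2 (ed y x) := e3
  rw [e4, ed_comm]

/-- the label is `g2` -/
theorem cg2 (hadj : ∀ i j, adj i j = adj j i) (hA : MergeA adj W s1 s2 s)
    (h1 : Pre adj W s1 p1 N1 g1)
    (h2 : Pre adj W s2 p2 N2 g2) {x y : ℕ} (hxy : adj x y = true)
    (h : (N1 < cp s1 s2 p1 p2 N1 N2 x ∧ cp s1 s2 p1 p2 N1 N2 x < N1 + N2) ∨
      (N1 < cp s1 s2 p1 p2 N1 N2 y ∧ cp s1 s2 p1 p2 N1 N2 y < N1 + N2) ∨
      (cp s1 s2 p1 p2 N1 N2 x = N1 ∧ cp s1 s2 p1 p2 N1 N2 y = N1 + N2) ∨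
      (cp s1 s2 p1 p2 N1 N2 x = N1 + N2 ∧ cp s1 s2 p1 p2 N1 N2 y = N1)) :
    cg s1 s2 s g1 g2 (ed x y) = g2 (ed x y) := by
  have n1 := h1.pos
  have n2 := h2.pos
  by_cases c : x ∈ s1.2.2 ∨ y ∈ s1.2.2
  · have hc1 : cg s1 s2 s g1 g2 (ed x y) = g1 (ed x y) := by
      refine cg1 hA h1 h2 ?_
      rcases c with c | c
      · left
        exact (rev hA h1 h2 x).1 c
      · right; left
        exact (rev hA h1 h2 y).1 c
    rw [hc1]
    rcases c with c | c
    · have hx := (rev hA h1 h2 x).1 c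
      have hy : y ∈ s2.2.2 := (cls hA h1 h2 y).2.2.2.1 (by omega) (by omega)
      exact (g12 hadj hA h1 h2 c hy hxy).2.2
    · have hy := (rev hA h1 h2 y).1 c
      have hx : x ∈ s2.2.2 := (cls hA h1 h2 x).2.2.2.1 (by omega) (by omega)
      have := (g12 hadj hA h1 h2 c hx (by rw [hadj]; exact hxy)).2.2
      rw [ed_comm y x] at this
      exact this
  · have cx : x ∉ s1.2.2 := fun h => c (Or.inl h)
    have cy : y ∉ s1.2.2 := fun h => c (Or.inr h)
    have hne : ed x y ≠ ed s1.1.1.1 s1.1.1.2 := by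
      intro he
      rcases ed_inj he with ⟨h3, h4⟩ | ⟨h3, h4⟩
      · have := (rev hA h1 h2 x).2.1 h3
        have := (rev hA h1 h2 y).2.2.1 h4
        omega
      · have := (rev hA h1 h2 x).2.2.1 h3
        have := (rev hA h1 h2 y).2.1 h4
        omega
    unfold cg
    rw [if_neg, if_pos]
    · rcases h with h | h | h | h
      · have hx := (cls hA h1 h2 x).2.2.2.1 h.1 h.2
        rcases ed_fst (u := x) (v := y) with e | e
        · left
          rw [e.1]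
          exact hx
        · right; left
          rw [e.2]
          exact hx
      · have hy := (cls hA h1 h2 y).2.2.2.1 h.1 h.2
        rcases ed_fst (u := x) (v := y) with e | e
        · right; left
          rw [e.2]
          exact hy
        · left
          rw [e.1]
          exact hy
      · right; right
        rw [(cls hA h1 h2 x).2.2.1 h.1, (cls hA h1 h2 y).2.2.2.2.1 h.2, hA.hv]
      · right; right
        rw [(cls hA h1 h2 x).2.2.2.2.1 h.1, (cls hA h1 h2 y).2.2.1 h.2, hA.hv, ed_comm]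
    · rintro (h3 | h3 | h3)
      · rcases ed_fst (u := x) (v := y) with e | e
        · rw [e.1] at h3
          exact cx h3
        · rw [e.1] at h3
          exact cy h3
      · rcases ed_fst (u := x) (v := y) with e | e
        · rw [e.2] at h3
          exact cy h3
        · rw [e.2] at h3
          exact cx h3
      · exact hne h3

/-- the local edges -/
theorem locEdge (hadj : ∀ i j, adj i j = adj j i) (hA : MergeA adj W s1 s2 s)
    (h1 : Pre adj W s1 p1 N1 g1)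
    (h2 : Pre adj W s2 p2 N2 g2) {x y : ℕ} (hxW : x ∈ W) (hyW : y ∈ W) (hxy : adj x y = true)
    (hlt : cp s1 s2 p1 p2 N1 N2 x < cp s1 s2 p1 p2 N1 N2 y)
    (h : (cp s1 s2 p1 p2 N1 N2 x < N1 ∧ N1 < cp s1 s2 p1 p2 N1 N2 y ∧
        (0 < cp s1 s2 p1 p2 N1 N2 x ∨ cp s1 s2 p1 p2 N1 N2 y ≤ N1 + N2)) ∨
      (N1 ≤ cp s1 s2 p1 p2 N1 N2 x ∧ cp s1 s2 p1 p2 N1 N2 x < N1 + N2 ∧
        cp s1 s2 p1 p2 N1 N2 y = N1 + N2 + 1)) :
    ∃ r ∈ locs adj s1 s2 s, ((r.1.1 = x ∧ r.1.2 = y) ∨ (r.1.1 = y ∧ r.1.2 = x)) ∧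
      r.2 = cg s1 s2 s g1 g2 (ed x y) ∧
      Lcl s1.2.1 s2.2.1 s1.1.1.1 s1.1.1.2 s2.1.1.2 (cp s1 s2 p1 p2 N1 N2) (N1 + N2) x ∧
      Lcl s1.2.1 s2.2.1 s1.1.1.1 s1.1.1.2 s2.1.1.2 (cp s1 s2 p1 p2 N1 N2) (N1 + N2) y := by
  have n1 := h1.pos
  have n2 := h2.pos
  have hyx : adj y x = true := by rw [hadj]; exact hxy
  have innOf : ∀ (L : List Rec) (u w : ℕ) (t : ℕ × ℕ), ((u, w), t) ∈ L → inn L u = true := by
    intro L u w t hm
    unfold inn
    rw [List.any_eq_true]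
    exact ⟨_, hm, by simp⟩
  -- classification of `y` when it is above `v`
  have hyLcl1 : x ∈ s1.2.2 → N1 < cp s1 s2 p1 p2 N1 N2 y →
      Lcl s1.2.1 s2.2.1 s1.1.1.1 s1.1.1.2 s2.1.1.2 (cp s1 s2 p1 p2 N1 N2) (N1 + N2) y := by
    intro hx hy
    rcases lt_trichotomy (cp s1 s2 p1 p2 N1 N2 y) (N1 + N2) with h3 | h3 | h3
    · have hy2 := (cls hA h1 h2 y).2.2.2.1 hy h3
      obtain ⟨_, e2, _⟩ := g12 hadj hA h1 h2 hx hy2 hxy
      exact Or.inr (Or.inr (Or.inr (Or.inr (Or.inl (innOf _ _ _ _ e2)))))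
    · exact Or.inr (Or.inr (Or.inl ((cls hA h1 h2 y).2.2.2.2.1 h3)))
    · exact Or.inr (Or.inr (Or.inr (Or.inr (Or.inr h3))))
  by_cases c1 : x ∈ s1.2.2
  · -- record of `s1`
    have vx := (rev hA h1 h2 x).1 c1
    have hyb : N1 < cp s1 s2 p1 p2 N1 N2 y := by omega
    have e1 : ((x, y), g1 (ed x y)) ∈ s1.2.1 := by
      rw [h1.rcd]
      refine ⟨c1, hyW, ?_, ?_, ?_, hxy, rfl⟩
      · intro h3
        have := (rev hA h1 h2 y).1 h3
        omega
      · intro h3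
        have := (rev hA h1 h2 y).2.1 h3
        omega
      · intro h3
        have := (rev hA h1 h2 y).2.2.1 h3
        omega
    refine ⟨((x, y), g1 (ed x y)), ?_, Or.inl ⟨rfl, rfl⟩, ?_, ?_, hyLcl1 c1 hyb⟩
    · unfold locs
      exact List.mem_append_left _ e1
    · exact (cg1 hA h1 h2 (Or.inl vx)).symm
    · exact Or.inr (Or.inr (Or.inr (Or.inl (innOf _ _ _ _ e1))))
  by_cases c2 : x ∈ s2.2.2
  · have vx := (rev hA h1 h2 x).2.2.2.1 c2
    have hyo : cp s1 s2 p1 p2 N1 N2 y = N1 + N2 + 1 := by omega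
    have yo := (cls hA h1 h2 y).2.2.2.2.2.1 hyo
    have e1 : ((x, y), g2 (ed x y)) ∈ s2.2.1 := by
      rw [h2.rcd]
      refine ⟨c2, hyW, yo.2.1, ?_, yo.2.2.2.2, hxy, rfl⟩
      rw [hA.hv]
      exact yo.2.2.2.1
    refine ⟨((x, y), g2 (ed x y)), ?_, Or.inl ⟨rfl, rfl⟩, ?_, ?_, ?_⟩
    · unfold locs
      exact List.mem_append_right _ (List.mem_append_left _ e1)
    · exact (cg2 hadj hA h1 h2 hxy (Or.inl vx)).symm
    · exact Or.inr (Or.inr (Or.inr (Or.inr (Or.inl (innOf _ _ _ _ e1)))))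
    · refine Or.inr (Or.inr (Or.inr (Or.inr (Or.inr ?_))))
      omega
  by_cases c3 : cp s1 s2 p1 p2 N1 N2 x = N1
  · -- the record of the vertex v
    have hxv := (cls hA h1 h2 x).2.2.1 c3
    have hyo : cp s1 s2 p1 p2 N1 N2 y = N1 + N2 + 1 := by omega
    have yo := (cls hA h1 h2 y).2.2.2.2.2.1 hyo
    have hys : y ∉ s.2.2 := by
      intro h3
      rcases hA.sub y h3 with h4 | h4 | h4
      · exact yo.1 h4
      · exact yo.2.2.2.1 h4
      · exact yo.2.1 h4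
    have hya : y ≠ s.1.1.1 := by
      rw [← hA.ha]
      exact yo.2.2.1
    have hyb : y ≠ s.1.1.2 := by
      rw [← hA.hb]
      exact yo.2.2.2.2
    obtain ⟨r, hr, hr1⟩ := hA.bwdv y hyW (by rw [← hxv]; exact hxy) hys hya hyb
    have hr11 : r.1.1 = x := by rw [hr1, hxv]
    have hr12 : r.1.2 = y := by rw [hr1]
    refine ⟨r, ?_, Or.inl ⟨hr11, hr12⟩, ?_, Or.inr (Or.inl hxv), ?_⟩
    · unfold locs
      refine List.mem_append_right _ (List.mem_append_right _ (List.mem_append_left _ ?_))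
      rw [List.mem_filter]
      refine ⟨hr, ?_⟩
      simp only [decide_eq_true_eq]
      rw [hr11, hxv]
    · -- the label
      have hab : s1.1.1.1 ≠ s2.1.1.2 := by
        rw [hA.ha, hA.hb]
        exact hA.ab
      unfold cg
      rw [if_neg, if_neg, if_neg]
      · have hex : ∃ r' ∈ s.2.1, (fun r : Rec => decide (ed r.1.1 r.1.2 = ed x y)) r' = true :=
          ⟨r, hr, by simp only [hr11, hr12, decide_true]⟩
        cases hf : s.2.1.find? (fun r : Rec => decide (ed r.1.1 r.1.2 = ed x y)) with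
        | none =>
          exfalso
          rw [List.find?_eq_none] at hf
          obtain ⟨r', hr', h3⟩ := hex
          exact hf r' hr' h3
        | some r' =>
          simp only
          have h3 := List.find?_some hf
          have h4 := List.mem_of_find?_eq_some hf
          simp only [decide_eq_true_eq] at h3
          have h5 := hA.out r' h4
          rcases ed_inj h3 with ⟨h6, h7⟩ | ⟨h6, h7⟩
          · have h8 : r.1 = r'.1 := by
              rw [Prod.ext_iff]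
              exact ⟨by rw [hr11, h6], by rw [hr12, h7]⟩
            rw [hA.func r hr r' h4 h8]
          · exfalso
            apply h5.1
            rw [h7, hxv]
            exact hA.supv
      · intro he
        rcases ed_inj he with ⟨h3, h4⟩ | ⟨h3, h4⟩
        · exact hyb h4
        · exact hya h4
      · rintro (h3 | h3 | h3)
        · rcases ed_fst (u := x) (v := y) with e | e
          · rw [e.1] at h3
            exact c2 h3
          · rw [e.1] at h3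
            exact yo.2.1 h3
        · rcases ed_fst (u := x) (v := y) with e | e
          · rw [e.2] at h3
            exact yo.2.1 h3
          · rw [e.2] at h3
            exact c2 h3
        · rcases ed_inj h3 with ⟨h4, h5⟩ | ⟨h4, h5⟩
          · exact yo.2.2.2.2 h5
          · rw [hA.hv] at h5
            exact yo.2.2.2.1 h5
      · rintro (h3 | h3 | h3)
        · rcases ed_fst (u := x) (v := y) with e | e
          · rw [e.1] at h3
            exact c1 h3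
          · rw [e.1] at h3
            exact yo.1 h3
        · rcases ed_fst (u := x) (v := y) with e | e
          · rw [e.2] at h3
            exact yo.1 h3
          · rw [e.2] at h3
            exact c1 h3
        · rcases ed_inj h3 with ⟨h4, h5⟩ | ⟨h4, h5⟩
          · exact yo.2.2.2.1 h5
          · exact yo.2.2.1 h5
    · refine Or.inr (Or.inr (Or.inr (Or.inr (Or.inr ?_))))
      omega
  · -- x = a
    have hx0 : cp s1 s2 p1 p2 N1 N2 x = 0 := by
      by_contra h0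
      rcases Nat.lt_or_ge (cp s1 s2 p1 p2 N1 N2 x) N1 with h3 | h3
      · exact c1 ((cls hA h1 h2 x).1 (by omega) h3)
      · exact c2 ((cls hA h1 h2 x).2.2.2.1 (by omega) (by omega))
    have hxa := (cls hA h1 h2 x).2.1 hx0
    have hy1 : N1 < cp s1 s2 p1 p2 N1 N2 y := by omega
    have hy2 : cp s1 s2 p1 p2 N1 N2 y ≤ N1 + N2 := by omega
    rcases Nat.lt_or_ge (cp s1 s2 p1 p2 N1 N2 y) (N1 + N2) with h3 | h3
    · -- y in A2
      have hyA := (cls hA h1 h2 y).2.2.2.1 hy1 h3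
      have e1 : ((y, x), g2 (ed x y)) ∈ s2.2.1 := by
        rw [h2.rcd]
        refine ⟨hyA, hxW, c2, ?_, ?_, hyx, by rw [ed_comm]⟩
        · rw [hA.hv]
          intro h4
          have := (rev hA h1 h2 x).2.2.1 h4
          omega
        · intro h4
          have := (rev hA h1 h2 x).2.2.2.2 h4
          omega
      refine ⟨((y, x), g2 (ed x y)), ?_, Or.inr ⟨rfl, rfl⟩, ?_, Or.inl hxa, ?_⟩
      · unfold locs
        exact List.mem_append_right _ (List.mem_append_left _ e1)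
      · exact (cg2 hadj hA h1 h2 hxy (Or.inr (Or.inl ⟨hy1, h3⟩))).symm
      · exact Or.inr (Or.inr (Or.inr (Or.inr (Or.inl (innOf _ _ _ _ e1)))))
    · have hyb := (cls hA h1 h2 y).2.2.2.2.1 (by omega)
      have hsx : s.1.1.1 = x := by rw [← hA.ha, hxa]
      have hsy : s.1.1.2 = y := by rw [← hA.hb, hyb]
      have hys2 : y ∉ s2.2.2 := by
        intro h4
        have := (rev hA h1 h2 y).2.2.2.1 h4
        omega
      have hys1 : y ∉ s1.2.2 := by
        intro h4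
        have := (rev hA h1 h2 y).1 h4
        omega
      refine ⟨s.1, ?_, Or.inl ⟨hsx, hsy⟩, ?_, Or.inl hxa, Or.inr (Or.inr (Or.inl hyb))⟩
      · unfold locs
        refine List.mem_append_right _ (List.mem_append_right _ (List.mem_append_right _
          (List.mem_append_right _ (List.mem_append_right _ ?_))))
        rw [hsx, hsy, if_pos hxy]
        exact List.mem_singleton_self _
      · unfold cg
        rw [if_neg, if_neg, if_pos]
        · rw [hsx, hsy]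
        · rintro (h4 | h4 | h4)
          · rcases ed_fst (u := x) (v := y) with e | e
            · rw [e.1] at h4
              exact c2 h4
            · rw [e.1] at h4
              exact hys2 h4
          · rcases ed_fst (u := x) (v := y) with e | e
            · rw [e.2] at h4
              exact hys2 h4
            · rw [e.2] at h4
              exact c2 h4
          · rcases ed_inj h4 with ⟨h5, h6⟩ | ⟨h5, h6⟩
            · rw [hA.hv] at h5
              have := (rev hA h1 h2 x).2.2.1 h5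
              omega
            · have := (rev hA h1 h2 x).2.2.2.2 h5
              omega
        · rintro (h4 | h4 | h4)
          · rcases ed_fst (u := x) (v := y) with e | e
            · rw [e.1] at h4
              exact c1 h4
            · rw [e.1] at h4
              exact hys1 h4
          · rcases ed_fst (u := x) (v := y) with e | e
            · rw [e.2] at h4
              exact hys1 h4
            · rw [e.2] at h4
              exact c1 h4
          · rcases ed_inj h4 with ⟨h5, h6⟩ | ⟨h5, h6⟩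
            · have := (rev hA h1 h2 y).2.2.1 h6
              omega
            · have := (rev hA h1 h2 x).2.2.1 h5
              omega

/-- the positions in terms of the common position -/
theorem pvals (hA : MergeA adj W s1 s2 s) (h1 : Pre adj W s1 p1 N1 g1)
    (h2 : Pre adj W s2 p2 N2 g2) (z : ℕ) :
    (cp s1 s2 p1 p2 N1 N2 z ≤ N1 → p1 z = cp s1 s2 p1 p2 N1 N2 z) ∧
    (N1 < cp s1 s2 p1 p2 N1 N2 z → p1 z = N1 + 1) ∧
    (N1 ≤ cp s1 s2 p1 p2 N1 N2 z → cp s1 s2 p1 p2 N1 N2 z ≤ N1 + N2 →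
      p2 z + N1 = cp s1 s2 p1 p2 N1 N2 z) ∧
    (cp s1 s2 p1 p2 N1 N2 z < N1 → p2 z = N2 + 1) ∧
    (N1 + N2 < cp s1 s2 p1 p2 N1 N2 z → p2 z = N2 + 1) := by
  have n1 := h1.pos
  have n2 := h2.pos
  rcases vals hA h1 h2 z with h | h | h | h | h | h
  · obtain ⟨_, h3, h4, h5, h6⟩ := h
    refine ⟨?_, ?_, ?_, ?_, ?_⟩ <;> omega
  · obtain ⟨_, h3, h4, h5⟩ := h
    refine ⟨?_, ?_, ?_, ?_, ?_⟩ <;> omega
  · obtain ⟨_, h3, h4, h5⟩ := h
    refine ⟨?_, ?_, ?_, ?_, ?_⟩ <;> omega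
  · obtain ⟨_, h3, h4, h5, h6⟩ := h
    refine ⟨?_, ?_, ?_, ?_, ?_⟩ <;> omega
  · obtain ⟨_, h3, h4, h5⟩ := h
    refine ⟨?_, ?_, ?_, ?_, ?_⟩ <;> omega
  · obtain ⟨_, _, _, _, _, h3, h4, h5⟩ := h
    refine ⟨?_, ?_, ?_, ?_, ?_⟩ <;> omega

theorem alt_of_lt {a b c d : ℕ} (h1 : a < c) (h2 : c < b) (h3 : b < d) : Alt a b c d := by
  unfold Alt
  omega

theorem alt_of_lt' {a b c d : ℕ} (h1 : c < b) (h2 : b < d) (h3 : d < a) : Alt a b c d := by
  unfold Alt
  omega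

/-- the main statement for sorted ends -/
theorem sorted (hL : Stmt_LOC) (hadj : ∀ i j, adj i j = adj j i) (hA : MergeA adj W s1 s2 s)
    (hC : MergeC adj s1 s2 s) (h1 : Pre adj W s1 p1 N1 g1)
    (h2 : Pre adj W s2 p2 N2 g2) (ok1 : OKc adj W p1 g1) (ok2 : OKc adj W p2 g2)
    {u v x y : ℕ} (huW : u ∈ W) (hvW : v ∈ W) (hxW : x ∈ W) (hyW : y ∈ W)
    (huv : adj u v = true) (hxy : adj x y = true)
    (l1 : cp s1 s2 p1 p2 N1 N2 u < cp s1 s2 p1 p2 N1 N2 x)
    (l2 : cp s1 s2 p1 p2 N1 N2 x < cp s1 s2 p1 p2 N1 N2 v)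
    (l3 : cp s1 s2 p1 p2 N1 N2 v < cp s1 s2 p1 p2 N1 N2 y) :
    cg s1 s2 s g1 g2 (ed u v) = ed x y ∨ cg s1 s2 s g1 g2 (ed x y) = ed u v := by
  have n1 := h1.pos
  have n2 := h2.pos
  have vu := pvals hA h1 h2 u
  have vv := pvals hA h1 h2 v
  have vx := pvals hA h1 h2 x
  have vy := pvals hA h1 h2 y
  have by' := (cls hA h1 h2 y).2.2.2.2.2.2
  by_cases cI : cp s1 s2 p1 p2 N1 N2 v ≤ N1
  · -- case I
    have hx1 : 0 < cp s1 s2 p1 p2 N1 N2 x ∧ cp s1 s2 p1 p2 N1 N2 x < N1 := by omega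
    have hu1 : (0 < cp s1 s2 p1 p2 N1 N2 u ∧ cp s1 s2 p1 p2 N1 N2 u < N1) ∨
      (0 < cp s1 s2 p1 p2 N1 N2 v ∧ cp s1 s2 p1 p2 N1 N2 v < N1) ∨
      (cp s1 s2 p1 p2 N1 N2 u = 0 ∧ cp s1 s2 p1 p2 N1 N2 v = N1) ∨
      (cp s1 s2 p1 p2 N1 N2 u = N1 ∧ cp s1 s2 p1 p2 N1 N2 v = 0) := by
      clear vu vv vx vy
      omega
    rw [cg1 hA h1 h2 hu1, cg1 hA h1 h2 (Or.inl hx1)]
    refine ok1 u huW v hvW x hxW y hyW huv hxy ?_
    have e1 := vu.1 (by clear vu vv vx vy; omega)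
    have e2 := vv.1 cI
    have e3 := vx.1 hx1.2.le
    have hy1 : p1 v < p1 y := by
      rcases Nat.lt_or_ge N1 (cp s1 s2 p1 p2 N1 N2 y) with h3 | h3
      · have e4 := vy.2.1 h3
        clear vu vv vx vy
        omega
      · have e4 := vy.1 h3
        clear vu vv vx vy
        omega
    clear vu vv vx vy
    exact alt_of_lt (by omega) (by omega) hy1
  by_cases cII : (N1 ≤ cp s1 s2 p1 p2 N1 N2 x ∧ cp s1 s2 p1 p2 N1 N2 y ≤ N1 + N2) ∨
      N1 ≤ cp s1 s2 p1 p2 N1 N2 u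
  · have hv1 : N1 < cp s1 s2 p1 p2 N1 N2 v := by omega
    have hc1 : cg s1 s2 s g1 g2 (ed u v) = g2 (ed u v) := by
      refine cg2 hadj hA h1 h2 huv ?_
      clear vu vv vx vy
      omega
    have hc2 : cg s1 s2 s g1 g2 (ed x y) = g2 (ed x y) := by
      refine cg2 hadj hA h1 h2 hxy ?_
      clear vu vv vx vy
      omega
    rw [hc1, hc2]
    refine ok2 u huW v hvW x hxW y hyW huv hxy ?_
    have hx1 : N1 ≤ cp s1 s2 p1 p2 N1 N2 x := by
      clear vu vv vx vy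
      omega
    have hv2 : cp s1 s2 p1 p2 N1 N2 v ≤ N1 + N2 := by
      clear vu vv vx vy
      omega
    have e3 := vx.2.2.1 hx1 (by clear vu vv vx vy; omega)
    have e2 := vv.2.2.1 hv1.le hv2
    rcases Nat.lt_or_ge (cp s1 s2 p1 p2 N1 N2 u) N1 with h3 | h3
    · have e1 := vu.2.2.2.1 h3
      have hy2 : cp s1 s2 p1 p2 N1 N2 y ≤ N1 + N2 := by
        clear vu vv vx vy
        omega
      have e4 := vy.2.2.1 (by clear vu vv vx vy; omega) hy2
      clear vu vv vx vy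
      exact alt_of_lt' (by omega) (by omega) (by omega)
    · have e1 := vu.2.2.1 h3 (by clear vu vv vx vy; omega)
      have hy1 : p2 v < p2 y := by
        rcases Nat.lt_or_ge (N1 + N2) (cp s1 s2 p1 p2 N1 N2 y) with h4 | h4
        · have e4 := vy.2.2.2.2 h4
          clear vu vv vx vy
          omega
        · have e4 := vy.2.2.1 (by clear vu vv vx vy; omega) h4
          clear vu vv vx vy
          omega
      clear vu vv vx vy
      exact alt_of_lt (by omega) (by omega) hy1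
  · clear vu vv vx vy
    obtain ⟨r, hr, hre, hrl, lu, lv⟩ := locEdge hadj hA h1 h2 huW hvW huv (l1.trans l2) (by omega)
    obtain ⟨r', hr', hre', hrl', lx, ly⟩ := locEdge hadj hA h1 h2 hxW hyW hxy (l2.trans l3)
      (by omega)
    have hcpL1 : ∀ r ∈ s1.2.1, 0 < cp s1 s2 p1 p2 N1 N2 r.1.1 ∧
        cp s1 s2 p1 p2 N1 N2 r.1.1 < N1 := by
      intro r hr
      obtain ⟨⟨x', y'⟩, t⟩ := r
      have := ((h1.rcd x' y' t).mp hr).1
      exact (rev hA h1 h2 x').1 this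
    have hcpL2 : ∀ r ∈ s2.2.1, N1 < cp s1 s2 p1 p2 N1 N2 r.1.1 ∧
        cp s1 s2 p1 p2 N1 N2 r.1.1 < N1 + N2 := by
      intro r hr
      obtain ⟨⟨x', y'⟩, t⟩ := r
      have := ((h2.rcd x' y' t).mp hr).1
      exact (rev hA h1 h2 x').2.2.2.1 this
    have hsrt1 : s1.2.1.Pairwise (fun r r' => cp s1 s2 p1 p2 N1 N2 r.1.1 ≤
        cp s1 s2 p1 p2 N1 N2 r'.1.1) := by
      refine List.Pairwise.imp_of_mem ?_ h1.srt
      intro r r' hr hr' hle
      have v1 := (pvals hA h1 h2 r.1.1).1 (hcpL1 r hr).2.le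
      have v2 := (pvals hA h1 h2 r'.1.1).1 (hcpL1 r' hr').2.le
      rw [← v1, ← v2]
      exact hle
    have hsrt2 : s2.2.1.Pairwise (fun r r' => cp s1 s2 p1 p2 N1 N2 r.1.1 ≤
        cp s1 s2 p1 p2 N1 N2 r'.1.1) := by
      refine List.Pairwise.imp_of_mem ?_ h2.srt
      intro r r' hr hr' hle
      have v1 := (pvals hA h1 h2 r.1.1).2.2.1 (hcpL2 r hr).1.le (hcpL2 r hr).2.le
      have v2 := (pvals hA h1 h2 r'.1.1).2.2.1 (hcpL2 r' hr').1.le (hcpL2 r' hr').2.le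
      rw [← v1, ← v2]
      exact Nat.add_le_add_right hle N1
    have hloc := hL s1.2.1 s2.2.1 s1.1.1.1 s1.1.1.2 s2.1.1.2 (cp s1 s2 p1 p2 N1 N2) N1 (N1 + N2)
      ((rev hA h1 h2 _).2.1 rfl) ((rev hA h1 h2 _).2.2.1 rfl) ((rev hA h1 h2 _).2.2.2.2 rfl)
      n1 (by omega) (fun z => (cls hA h1 h2 z).2.2.2.2.2.2) hcpL1 hcpL2 hsrt1 hsrt2
    have o1 : lc s1 s2 u < lc s1 s2 x := (hloc u x lu lx).1 l1
    have o2 : lc s1 s2 x < lc s1 s2 v := (hloc x v lx lv).1 l2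
    have o3 : lc s1 s2 v < lc s1 s2 y := (hloc v y lv ly).1 l3
    have halt : Alt (lc s1 s2 r.1.1) (lc s1 s2 r.1.2) (lc s1 s2 r'.1.1) (lc s1 s2 r'.1.2) := by
      unfold Alt
      rcases hre with ⟨e1, e2⟩ | ⟨e1, e2⟩ <;> rcases hre' with ⟨e3, e4⟩ | ⟨e3, e4⟩ <;>
        rw [e1, e2, e3, e4] <;> omega
    have hed : ed r.1.1 r.1.2 = ed u v := by
      rcases hre with ⟨e1, e2⟩ | ⟨e1, e2⟩
      · rw [e1, e2]
      · rw [e1, e2, ed_comm]
    have hed' : ed r'.1.1 r'.1.2 = ed x y := by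
      rcases hre' with ⟨e1, e2⟩ | ⟨e1, e2⟩
      · rw [e1, e2]
      · rw [e1, e2, ed_comm]
    have hcrs := hC.crs r hr r' hr' halt
    rw [hed, hed', hrl, hrl'] at hcrs
    exact hcrs

end

end Pool.Agent.OGP.SNDBX

namespace Pool.Agent.OGP

open SNDBX in
theorem sndb_proof (hL : Stmt_LOC) : Stmt_SNDB := by
  intro adj W s1 s2 s p1 p2 N1 N2 g1 g2 hadj hA hC h1 h2 ok1 ok2
  intro u hu v hv x hx y hy huv hxy halt
  have hvu : adj v u = true := by rw [hadj]; exact huv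
  have hyx : adj y x = true := by rw [hadj]; exact hxy
  have S := fun {u v x y : ℕ} => sorted (u := u) (v := v) (x := x) (y := y) hL hadj hA hC h1 h2
    ok1 ok2
  unfold Alt at halt
  rcases Nat.lt_or_ge (cp s1 s2 p1 p2 N1 N2 u) (cp s1 s2 p1 p2 N1 N2 v) with a1 | a1 <;>
    rcases Nat.lt_or_ge (cp s1 s2 p1 p2 N1 N2 x) (cp s1 s2 p1 p2 N1 N2 y) with a2 | a2 <;>
    rcases Nat.lt_or_ge (min (cp s1 s2 p1 p2 N1 N2 u) (cp s1 s2 p1 p2 N1 N2 v))
      (min (cp s1 s2 p1 p2 N1 N2 x) (cp s1 s2 p1 p2 N1 N2 y)) with a3 | a3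
  · exact S hu hv hx hy huv hxy (by omega) (by omega) (by omega)
  · exact (S hx hy hu hv hxy huv (by omega) (by omega) (by omega)).symm
  · rw [ed_comm x y]
    exact S hu hv hy hx huv hyx (by omega) (by omega) (by omega)
  · rw [ed_comm x y]
    exact (S hy hx hu hv hyx huv (by omega) (by omega) (by omega)).symm
  · rw [ed_comm u v]
    exact S hv hu hx hy hvu hxy (by omega) (by omega) (by omega)
  · rw [ed_comm u v]
    exact (S hx hy hv hu hxy hvu (by omega) (by omega) (by omega)).symm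
  · rw [ed_comm u v, ed_comm x y]
    exact S hv hu hy hx hvu hyx (by omega) (by omega) (by omega)
  · rw [ed_comm u v, ed_comm x y]
    exact (S hy hx hv hu hyx hvu (by omega) (by omega) (by omega)).symm

end Pool.Agent.OGP
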