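import Pool.Agent.OGP.Stmts

/-!
# OGP, module TRI: triangulations of drawings with at most one gap per edge
-/

set_option linter.unusedVariables false

namespace Pool.Agent.OGP

namespace TRIX

theorem main (hM : Stmt_MINS) (hP : Stmt_PROJ) (hF : Stmt_FACE) (E : Finset (ℕ × ℕ))
    (hE : ∀ e ∈ E, e.1 < e.2) (hG : Gapped E) : ∀ d i j : ℕ, i < j → j - i ≤ d →
    (thru E i j).card ≤ 1 → RT E 6 i j := by
  intro d
  induction d with
  | zero => intro i j hij hd _; omega
  | succ d ih =>
    intro i j hij hd hc
    rcases Nat.lt_or_ge j (i + 2) with h2 | h2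
    · have hj : j = i + 1 := by omega
      subst hj
      exact RT.base i
    · obtain ⟨r, s, hr, hs0, hsr, hmono, hone, htwo⟩ := hM E i j h2
      have hlast : ∀ b, 1 ≤ b → b < r → (thru E (s 0) (s (b + 1))).card ≤ 6 := by
        intro b hb hbr
        rcases Nat.lt_or_ge (b + 1) r with h3 | h3
        · have hr3 : 3 ≤ r := by omega
          have hc' : (thru E (s 0) (s r)).card ≤ 1 := by rw [hs0, hsr]; exact hc
          obtain ⟨H, hH, hHb⟩ := hP E r s hr3 hE hG hmono hc' hone htwo
          exact (hHb (b + 1) (by omega) h3).trans
            (hF (r + 1) H (by omega) hH (b + 1) (by omega) (by omega))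
        · have h4 : b + 1 = r := by omega
          rw [h4, hs0, hsr]
          omega
      have key : ∀ b, 1 ≤ b → b ≤ r → RT E 6 (s 0) (s b) := by
        intro b hb
        induction b, hb using Nat.le_induction with
        | base =>
          intro h1r
          have e1 := hmono 0 1 (by omega) h1r
          have e2 := hmono 1 r (by omega) le_rfl
          exact ih (s 0) (s 1) e1 (by omega) (hone 0 (by omega))
        | succ b hb ihb =>
          intro hbr
          have e1 := hmono 0 b (by omega) (by omega)
          have e2 := hmono b (b + 1) (by omega) hbr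
          have e3 : s (b + 1) ≤ s r := by
            rcases Nat.lt_or_ge (b + 1) r with h3 | h3
            · exact (hmono (b + 1) r h3 le_rfl).le
            · have h4 : b + 1 = r := by omega
              rw [h4]
          exact RT.step e1 e2 (ihb (by omega))
            (ih (s b) (s (b + 1)) e2 (by omega) (hone b (by omega))) (hlast b hb (by omega))
      have := key r (by omega) le_rfl
      rwa [hs0, hsr] at this

end TRIX

theorem tri_proof (hM : Stmt_MINS) (hP : Stmt_PROJ) (hF : Stmt_FACE) : Stmt_TRI := by
  intro E m hm hE hG
  refine TRIX.main hM hP hF E (fun e he => (hE e he).1) hG (m - 1) 0 (m - 1) (by omega) (by omega)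
    ?_
  have h0 : thru E 0 (m - 1) = ∅ := by
    unfold thru
    rw [Finset.filter_eq_empty_iff]
    intro e he
    have := hE e he
    simp only [Alt]
    omega
  rw [h0]
  simp

end Pool.Agent.OGP
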