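import Pool.Agent.OGP.Asm
import Pool.Agent.OGP.DEG
import Pool.Agent.OGP.CONN
import Pool.Agent.OGP.SIDE
import Pool.Agent.OGP.FACE
import Pool.Agent.OGP.MINS
import Pool.Agent.OGP.PROJ
import Pool.Agent.OGP.TRI
import Pool.Agent.OGP.LOC
import Pool.Agent.OGP.SNDA
import Pool.Agent.OGP.SNDB
import Pool.Agent.OGP.BASE
import Pool.Agent.OGP.CMA
import Pool.Agent.OGP.CMC
import Pool.Agent.OGP.CLEN
import Pool.Agent.OGP.MB
import Pool.Agent.OGP.LOOPS
import Pool.Agent.OGP.LOOPC
import Pool.Agent.OGP.ROT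
import Pool.Agent.OGP.GLUE
import Pool.Agent.OGP.BLKUP
import Pool.Agent.OGP.BLKC
import Pool.Agent.OGP.NORM
import Pool.Agent.OGP.PEG
import Pool.Agent.OGP.SEP
import Pool.Agent.OGP.KB
import Pool.Agent.OGP.REPS
import Pool.Agent.OGP.RSPEC
import Pool.Agent.OGP.CAND
import Pool.Agent.OGP.MEMB
import Pool.Agent.OGP.CONS
import Pool.Agent.OGP.GIFF
import Pool.Agent.OGP.CIFF
import Pool.Agent.OGP.DECO
import Pool.Agent.OGP.PTUP
import Pool.Agent.OGP.PREACH
import Pool.Agent.OGP.PCAND
import Pool.Agent.OGP.PMGA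
import Pool.Agent.OGP.PMGB
import Pool.Agent.OGP.PLOC
import Pool.Agent.OGP.PMGC
import Pool.Agent.OGP.PDP
import Pool.Agent.OGP.PBLK
import Pool.Agent.OGP.PALG

/-!
# Recognition of outer 1-gap planar graphs is in P
-/

namespace Pool.Agent.OGP

theorem tri_all : Stmt_TRI :=
  tri_proof mins_proof proj_proof (face_proof deg_proof con_proof side_proof)

theorem loops_all : Stmt_LOOPS :=
  loops_proof (snda_proof loc_proof) (sndb_proof loc_proof) base_proof mb_proof

theorem loopc_all : Stmt_LOOPC := loopc_proof cma_proof (cmc_proof loc_proof) mb_proof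

theorem cand_all : Stmt_CAND := cand_proof clen_proof (reps_proof (kb_proof sep_proof)) rspec_proof

theorem blkup_all : Stmt_BLKUP := blkup_proof (glue_proof rot_proof)

theorem pdp_all : Stmt_PDP :=
  pdp_proof (pcand_proof ptup_proof preach_proof) pmga_proof pmgb_proof (pmgc_proof ploc_proof)

theorem palg_all : Stmt_PALG := palg_proof pdp_all (pblk_proof preach_proof)

/-- The recognition problem is in `P`. -/
theorem main : InP OuterOneGap :=
  ⟨alg, palg_all, alg_iff tri_all loops_all loopc_all blkc_proof norm_proof peg_proof cand_all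
    (memb_proof rspec_proof) blkup_all (cons_proof rspec_proof) giff_proof ciff_proof deco_proof⟩

end Pool.Agent.OGP
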