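import Pool.Agent.OGP.StmtsP

/-!
# OGP, module PMGA: the first test runs in polynomial time
-/

set_option linter.unusedVariables false

namespace Pool.Agent.OGP

open Pool.Agent.PT81 Pool.Agent.IsoImp Turing Polynomial

namespace PMGAX

variable {E : Env} {γ : Type} [Enc E γ]

theorem poly_memb {z : γ → ℕ} {l : γ → List ℕ} (hz : Poly E z) (hl : Poly E l) :
    Poly E (fun c => memb (z c) (l c)) :=
  Poly.any (g := fun p : γ × ℕ => decide (p.2 = z p.1)) hl
    (Poly.eq Poly.snd (hz.comp Poly.fst))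

theorem poly_allmemb {l l' : γ → List ℕ} (hl : Poly E l) (hl' : Poly E l') :
    Poly E (fun c => (l c).all fun x => memb x (l' c)) :=
  Poly.all (g := fun p : γ × ℕ => memb p.2 (l' p.1)) hl
    (poly_memb Poly.snd (hl'.comp Poly.fst))

theorem poly_a {s : γ → St} (hs : Poly E s) : Poly E (fun c => (s c).1.1.1) :=
  (Poly.fst.comp (Poly.fst.comp Poly.fst)).comp hs

theorem poly_b {s : γ → St} (hs : Poly E s) : Poly E (fun c => (s c).1.1.2) :=
  (Poly.snd.comp (Poly.fst.comp Poly.fst)).comp hs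

theorem poly_A {s : γ → St} (hs : Poly E s) : Poly E (fun c => (s c).2.2) :=
  (Poly.snd.comp Poly.snd).comp hs

end PMGAX

open PMGAX in
theorem pmga_proof : Stmt_PMGA := by
  intro E γ _ s1 s2 s h1 h2 h
  have a := poly_a h
  have b := poly_b h
  have a1 := poly_a h1
  have b1 := poly_b h1
  have a2 := poly_a h2
  have b2 := poly_b h2
  have A := poly_A h
  have A1 := poly_A h1
  have A2 := poly_A h2
  refine Poly.and (Poly.and (Poly.and (Poly.and (Poly.eq a1 a) (Poly.eq a2 b1))
    (Poly.and (Poly.eq b2 b) (Poly.not (Poly.eq a b))))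
    (Poly.and (Poly.and (Poly.not (poly_memb a A2)) (Poly.not (poly_memb b A1))) ?_))
    (Poly.and (Poly.and ?_ (poly_memb b1 A))
      (Poly.and (poly_allmemb A1 A) (poly_allmemb A2 A)))
  · exact Poly.all (g := fun p : γ × ℕ => !memb p.2 (s2 p.1).2.2) A1
      (Poly.not (poly_memb Poly.snd (A2.comp Poly.fst)))
  · exact Poly.all (g := fun p : γ × ℕ => memb p.2 (s1 p.1).2.2 ||
      (decide (p.2 = (s1 p.1).1.1.2) || memb p.2 (s2 p.1).2.2)) A
      (Poly.or (poly_memb Poly.snd (A1.comp Poly.fst))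
        (Poly.or (Poly.eq Poly.snd (b1.comp Poly.fst))
          (poly_memb Poly.snd (A2.comp Poly.fst))))

end Pool.Agent.OGP
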