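import Pool.Agent.OGP.Stmts

/-!
# Squad OGP, module ROT: rotation of the circle
-/

namespace Pool.Agent.OGP

namespace ROTX

/-- The rotation which moves `C` to `0`. -/
def rot (C M z : ℕ) : ℕ := if C ≤ z then z - C else z + M + 1 - C

theorem rot_alt (C M u v x y : ℕ) (hC : C ≤ M) (hu : u ≤ M) (hv : v ≤ M) (hx : x ≤ M)
    (hy : y ≤ M) (h : Alt (rot C M u) (rot C M v) (rot C M x) (rot C M y)) : Alt u v x y := by
  simp only [Alt] at h ⊢
  have eu : (C ≤ u ∧ rot C M u = u - C) ∨ (u < C ∧ rot C M u = u + M + 1 - C) := by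
    unfold rot; split_ifs <;> omega
  have ev : (C ≤ v ∧ rot C M v = v - C) ∨ (v < C ∧ rot C M v = v + M + 1 - C) := by
    unfold rot; split_ifs <;> omega
  have ex : (C ≤ x ∧ rot C M x = x - C) ∨ (x < C ∧ rot C M x = x + M + 1 - C) := by
    unfold rot; split_ifs <;> omega
  have ey : (C ≤ y ∧ rot C M y = y - C) ∨ (y < C ∧ rot C M y = y + M + 1 - C) := by
    unfold rot; split_ifs <;> omega
  rcases eu with ⟨hu', eu⟩ | ⟨hu', eu⟩ <;> rcases ev with ⟨hv', ev⟩ | ⟨hv', ev⟩ <;>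
    rcases ex with ⟨hx', ex⟩ | ⟨hx', ex⟩ <;> rcases ey with ⟨hy', ey⟩ | ⟨hy', ey⟩ <;>
    rw [eu, ev, ex, ey] at h <;> omega

end ROTX

open ROTX in
theorem rot_proof : Stmt_ROT := by
  intro pos V c hV hc hinj
  obtain ⟨M, hM⟩ : ∃ M, ∀ x ∈ V, pos x ≤ M := by
    obtain ⟨M, hM⟩ := (hV.image pos).bddAbove
    exact ⟨M, fun x hx => hM ⟨x, hx, rfl⟩⟩
  have key : ∀ x ∈ V, ∀ y ∈ V, rot (pos c) M (pos x) = rot (pos c) M (pos y) → x = y := by
    intro x hx y hy h
    refine hinj x hx y hy ?_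
    have h1 := hM x hx
    have h2 := hM y hy
    have h3 := hM c hc
    unfold rot at h
    split_ifs at h <;> omega
  have h0 : rot (pos c) M (pos c) = 0 := by
    unfold rot
    rw [if_pos le_rfl, Nat.sub_self]
  refine ⟨fun x => rot (pos c) M (pos x), h0, ?_, key, ?_⟩
  · intro x hx hxc
    refine Nat.pos_of_ne_zero fun h => hxc (key x hx c hc ?_)
    rw [h0]
    exact h
  · intro u hu v hv x hx y hy h
    exact rot_alt (pos c) M _ _ _ _ (hM c hc) (hM u hu) (hM v hv) (hM x hx) (hM y hy) h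

end Pool.Agent.OGP
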