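import Pool.Agent.OGP.Alg

/-!
# Exact statements of the modules (combinatorics)
-/

set_option linter.unusedVariables false

namespace Pool.Agent.OGP

open Pool.Agent.Bx81 (seg)

/-! ### Part T: triangulations -/

/-- In a face with at least five vertices every edge crosses exactly two others. -/
def Stmt_DEG : Prop := ∀ (R : ℕ) (H : Finset (ℕ × ℕ)), 5 ≤ R → Face R H →
  ∀ f ∈ H, (thru H f.1 f.2).card = 2

/-- The crossing graph of a face with at least five vertices is connected. -/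
def Stmt_CON : Prop := ∀ (R : ℕ) (H : Finset (ℕ × ℕ)), 5 ≤ R → Face R H →
  (∀ f ∈ H, (thru H f.1 f.2).card = 2) → ∀ C ⊆ H, C.Nonempty →
  (∀ f ∈ C, ∀ h ∈ H, Alt f.1 f.2 h.1 h.2 → h ∈ C) → C = H

/-- If the crossing graph is connected and 2-regular, all edges that do not cross `f` are on the
same side of `f`. -/
def Stmt_SIDE : Prop := ∀ H : Finset (ℕ × ℕ), (∀ h ∈ H, h.1 < h.2) →
  (∀ f ∈ H, (thru H f.1 f.2).card = 2) →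
  (∀ C ⊆ H, C.Nonempty → (∀ f ∈ C, ∀ h ∈ H, Alt f.1 f.2 h.1 h.2 → h ∈ C) → C = H) →
  ∀ f ∈ H, (∀ h ∈ H, h ≠ f → ¬ Alt f.1 f.2 h.1 h.2 → ¬ (f.1 ≤ h.1 ∧ h.2 ≤ f.2)) ∨
    (∀ h ∈ H, h ≠ f → ¬ Alt f.1 f.2 h.1 h.2 → f.1 ≤ h.1 ∧ h.2 ≤ f.2)

/-- In a face the diagonals at the vertex `0` are crossed at most six times. -/
def Stmt_FACE : Prop := ∀ (R : ℕ) (H : Finset (ℕ × ℕ)), 4 ≤ R → Face R H →
  ∀ b, 2 ≤ b → b + 1 < R → (thru H 0 (2 * b)).card ≤ 6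

/-- A minimal subdivision of the polygon `i, …, j` by chords that are crossed at most once. -/
def Stmt_MINS : Prop := ∀ (E : Finset (ℕ × ℕ)) (i j : ℕ), i + 2 ≤ j → ∃ (r : ℕ) (s : ℕ → ℕ),
  2 ≤ r ∧ s 0 = i ∧ s r = j ∧ (∀ a b, a < b → b ≤ r → s a < s b) ∧
  (∀ a, a < r → (thru E (s a) (s (a + 1))).card ≤ 1) ∧
  ∀ a b, a + 2 ≤ b → b ≤ r → ¬ (a = 0 ∧ b = r) → 2 ≤ (thru E (s a) (s b)).card

/-- A minimal subdivision is a face. -/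
def Stmt_PROJ : Prop := ∀ (E : Finset (ℕ × ℕ)) (r : ℕ) (s : ℕ → ℕ), 3 ≤ r →
  (∀ e ∈ E, e.1 < e.2) → Gapped E → (∀ a b, a < b → b ≤ r → s a < s b) →
  (thru E (s 0) (s r)).card ≤ 1 → (∀ a, a < r → (thru E (s a) (s (a + 1))).card ≤ 1) →
  (∀ a b, a + 2 ≤ b → b ≤ r → ¬ (a = 0 ∧ b = r) → 2 ≤ (thru E (s a) (s b)).card) →
  ∃ H : Finset (ℕ × ℕ), Face (r + 1) H ∧
    ∀ b, 2 ≤ b → b < r → (thru E (s 0) (s b)).card ≤ (thru H 0 (2 * b)).card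

/-- Every drawing in which every edge has at most one gap has a triangulation all of whose chords
are crossed by at most six edges. -/
def Stmt_TRI : Prop := ∀ (E : Finset (ℕ × ℕ)) (m : ℕ), 2 ≤ m → (∀ e ∈ E, e.1 < e.2 ∧ e.2 < m) →
  Gapped E → RT E 6 0 (m - 1)

/-! ### Part D: dynamic programming -/

/-- The points whose local position is meaningful. -/
def Lcl (L1 L2 : List Rec) (a v b : ℕ) (p : ℕ → ℕ) (N z : ℕ) : Prop :=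
  z = a ∨ z = v ∨ z = b ∨ inn L1 z = true ∨ inn L2 z = true ∨ N < p z

/-- Local positions are in the right order. -/
def Stmt_LOC : Prop := ∀ (L1 L2 : List Rec) (a v b : ℕ) (p : ℕ → ℕ) (N1 N : ℕ),
  p a = 0 → p v = N1 → p b = N → 0 < N1 → N1 < N → (∀ z, p z ≤ N + 1) →
  (∀ r ∈ L1, 0 < p r.1.1 ∧ p r.1.1 < N1) → (∀ r ∈ L2, N1 < p r.1.1 ∧ p r.1.1 < N) →
  L1.Pairwise (fun r r' => p r.1.1 ≤ p r'.1.1) → L2.Pairwise (fun r r' => p r.1.1 ≤ p r'.1.1) →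
  ∀ z z', Lcl L1 L2 a v b p N z → Lcl L1 L2 a v b p N z' →
    (p z < p z' → loc L1 L2 a v b z < loc L1 L2 a v b z') ∧
    (N < p z → N < p z' → loc L1 L2 a v b z = loc L1 L2 a v b z')

/-- Soundness of a merge, first half. -/
def Stmt_SNDA : Prop := ∀ (adj : ℕ → ℕ → Bool) (W : List ℕ) (s1 s2 s : St) (p1 p2 : ℕ → ℕ)
  (N1 N2 : ℕ) (g1 g2 : ℕ × ℕ → ℕ × ℕ), (∀ i j, adj i j = adj j i) →
  MergeA adj W s1 s2 s → MergeC adj s1 s2 s → Pre adj W s1 p1 N1 g1 → Pre adj W s2 p2 N2 g2 →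
  Pre adj W s (cp s1 s2 p1 p2 N1 N2) (N1 + N2) (cg s1 s2 s g1 g2)

/-- Soundness of a merge, second half. -/
def Stmt_SNDB : Prop := ∀ (adj : ℕ → ℕ → Bool) (W : List ℕ) (s1 s2 s : St) (p1 p2 : ℕ → ℕ)
  (N1 N2 : ℕ) (g1 g2 : ℕ × ℕ → ℕ × ℕ), (∀ i j, adj i j = adj j i) →
  MergeA adj W s1 s2 s → MergeC adj s1 s2 s → Pre adj W s1 p1 N1 g1 → Pre adj W s2 p2 N2 g2 →
  OKc adj W p1 g1 → OKc adj W p2 g2 →
  OKc adj W (cp s1 s2 p1 p2 N1 N2) (cg s1 s2 s g1 g2)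

/-- Sides of the polygon, complete drawings. -/
def Stmt_BASE : Prop := (∀ (adj : ℕ → ℕ → Bool) (W : List ℕ) (s : St), s.2.1 = [] → s.2.2 = [] →
    s.1.1.1 ≠ s.1.1.2 → s.1.1.1 ∈ W → s.1.1.2 ∈ W → Real adj W s) ∧
  (∀ (adj : ℕ → ℕ → Bool) (W : List ℕ) (s : St), Real adj W s → s.2.1 = [] →
    (∀ w ∈ W, w = s.1.1.1 ∨ w = s.1.1.2 ∨ w ∈ s.2.2) → Good adj {x | x ∈ W})

/-- The states of a drawing can be merged, first half. -/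
def Stmt_CMA : Prop := ∀ (adj : ℕ → ℕ → Bool) (W π : List ℕ) (g : ℕ × ℕ → ℕ × ℕ),
  (∀ i j, adj i j = adj j i) → Arr adj W π g → ∀ a ∈ W, ∀ v ∈ W, ∀ b ∈ W,
  π.idxOf a < π.idxOf v → π.idxOf v < π.idxOf b →
  MergeA adj W (can adj W π g a v) (can adj W π g v b) (can adj W π g a b)

/-- The states of a drawing can be merged, second half. -/
def Stmt_CMC : Prop := ∀ (adj : ℕ → ℕ → Bool) (W π : List ℕ) (g : ℕ × ℕ → ℕ × ℕ),
  (∀ i j, adj i j = adj j i) → Arr adj W π g → ∀ a ∈ W, ∀ v ∈ W, ∀ b ∈ W,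
  π.idxOf a < π.idxOf v → π.idxOf v < π.idxOf b →
  MergeC adj (can adj W π g a v) (can adj W π g v b) (can adj W π g a b)

/-- The number of records. -/
def Stmt_CLEN : Prop := ∀ (adj : ℕ → ℕ → Bool) (W π : List ℕ) (g : ℕ × ℕ → ℕ × ℕ),
  (∀ i j, adj i j = adj j i) → W.Nodup → Arr adj W π g → ∀ a ∈ W, ∀ b ∈ W,
  π.idxOf a < π.idxOf b →
  (can adj W π g a b).2.1.length ≤ (thru (PE adj W π) (π.idxOf a) (π.idxOf b)).card

/-- Correctness of the test for merges. -/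
def Stmt_MB : Prop := ∀ (M : List (List Bool)) (W : List ℕ) (s1 s2 s : St),
  mergeB M W s1 s2 s = true ↔ MergeA (ent M) W s1 s2 s ∧ MergeC (ent M) s1 s2 s

/-- Soundness of the dynamic programming. -/
def Stmt_LOOPS : Prop := ∀ (M : List (List Bool)) (W : List ℕ) (cs : List St) (k : ℕ),
  (∀ i j, ent M i j = ent M j i) →
  (((dpStep M W cs)^[k] []).any fun s => finalB W s) = true → Good (ent M) {x | x ∈ W}

/-- Completeness of the dynamic programming. -/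
def Stmt_LOOPC : Prop := ∀ (M : List (List Bool)) (W π : List ℕ) (g : ℕ × ℕ → ℕ × ℕ) (n : ℕ)
  (cs : List St), (∀ i j, ent M i j = ent M j i) → W.Nodup → 2 ≤ W.length → W.length ≤ n →
  Arr (ent M) W π g → RT (PE (ent M) W π) 6 0 (π.length - 1) →
  (∀ a ∈ W, ∀ b ∈ W, π.idxOf a < π.idxOf b →
    (thru (PE (ent M) W π) (π.idxOf a) (π.idxOf b)).card ≤ 6 → can (ent M) W π g a b ∈ cs) →
  (((dpStep M W cs)^[n] []).any fun s => finalB W s) = true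

/-! ### Part G: graphs -/

/-- Rotation of the circle. -/
def Stmt_ROT : Prop := ∀ (pos : ℕ → ℕ) (V : Set ℕ) (c : ℕ), V.Finite → c ∈ V →
  (∀ x ∈ V, ∀ y ∈ V, pos x = pos y → x = y) → ∃ pos' : ℕ → ℕ, pos' c = 0 ∧
  (∀ x ∈ V, x ≠ c → 0 < pos' x) ∧ (∀ x ∈ V, ∀ y ∈ V, pos' x = pos' y → x = y) ∧
  ∀ u ∈ V, ∀ v ∈ V, ∀ x ∈ V, ∀ y ∈ V, Alt (pos' u) (pos' v) (pos' x) (pos' y) →
    Alt (pos u) (pos v) (pos x) (pos y)

/-- Two drawings are glued at a common vertex. -/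
def Stmt_GLUE : Prop := ∀ (adj : ℕ → ℕ → Bool) (V₁ V₂ : Set ℕ) (c : ℕ),
  (∀ i j, adj i j = adj j i) → V₁.Finite → V₂.Finite → c ∈ V₁ → c ∈ V₂ →
  (∀ x ∈ V₁, x ∈ V₂ → x = c) → (∀ x ∈ V₁, ∀ y ∈ V₂, x ≠ c → y ≠ c → adj x y = false) →
  Good adj V₁ → Good adj V₂ → Good adj (V₁ ∪ V₂)

/-- A connected graph is outer 1-gap planar if its blocks are. -/
def Stmt_BLKUP : Prop := ∀ (adj : ℕ → ℕ → Bool) (V : Set ℕ), V.Finite →
  (∀ i j, adj i j = adj j i) → (∀ i, adj i i = false) → ConnOn adj V →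
  (∀ u ∈ V, ∀ v ∈ V, adj u v = true → Good adj (Blk adj V u v)) → Good adj V

/-- Blocks have no cut vertices. -/
def Stmt_BLKC : Prop := ∀ (adj : ℕ → ℕ → Bool) (V : Set ℕ) (u v : ℕ),
  (∀ i j, adj i j = adj j i) → u ∈ V → v ∈ V → u ≠ v → adj u v = true →
  u ∈ Blk adj V u v ∧ v ∈ Blk adj V u v ∧
    ∀ c ∈ Blk adj V u v, ConnOn adj {t | t ∈ Blk adj V u v ∧ t ≠ c}

/-- Lists instead of positions. -/
def Stmt_NORM : Prop := ∀ (adj : ℕ → ℕ → Bool) (W : List ℕ) (n : ℕ), W.Nodup →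
  (∀ x ∈ W, x < n) → 0 < n → Good adj {x | x ∈ W} → ∃ (π : List ℕ) (g : ℕ × ℕ → ℕ × ℕ),
  Arr adj W π g ∧ ∀ e, (g e).1 < n ∧ (g e).2 < n

/-- The edges of a drawing as pairs of positions. -/
def Stmt_PEG : Prop := ∀ (adj : ℕ → ℕ → Bool) (W π : List ℕ) (g : ℕ × ℕ → ℕ × ℕ),
  Arr adj W π g → Gapped (PE adj W π) ∧ ∀ e ∈ PE adj W π, e.1 < e.2 ∧ e.2 < π.length

/-- Triangulations and separation. -/
def Stmt_SEP : Prop := ∀ (E : Finset (ℕ × ℕ)) (I J : ℕ), RT E 6 I J → ∀ α β, I ≤ α → α < β →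
  β ≤ J → (∃ u w, u < w ∧ (thru E u w).card ≤ 6 ∧
    ((u < α ∧ α < w ∧ w < β) ∨ (α < u ∧ u < β ∧ β < w))) ∨
  ((β = α + 1 ∨ ∃ k, α < k ∧ k < β ∧ (thru E α k).card ≤ 6 ∧ (thru E k β).card ≤ 6) ∧
   ((I = α ∧ J = β) ∨ (∃ k, k < α ∧ (thru E k α).card ≤ 6 ∧ (thru E k β).card ≤ 6) ∨
    ∃ k, β < k ∧ (thru E β k).card ≤ 6 ∧ (thru E α k).card ≤ 6))

/-- The number of components of a block without two of its vertices. -/
def Stmt_KB : Prop := ∀ (adj : ℕ → ℕ → Bool) (W π : List ℕ), (∀ i j, adj i j = adj j i) →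
  π.Nodup → (∀ x, x ∈ π ↔ x ∈ W) → RT (PE adj W π) 6 0 (π.length - 1) →
  (∀ c ∈ W, ConnOn adj {t | t ∈ W ∧ t ≠ c}) → ∀ a ∈ W, ∀ b ∈ W, a ≠ b → ∀ R : Finset ℕ,
  (∀ z ∈ R, z ∈ W ∧ z ≠ a ∧ z ≠ b) →
  (∀ z ∈ R, ∀ z' ∈ R, z ≠ z' → ¬ Reach adj {t | t ∈ W ∧ t ≠ a ∧ t ≠ b} z z') → R.card ≤ 26

/-- Representatives for the set of the vertices between `a` and `b`. -/
def Stmt_REPS : Prop := ∀ (adj : ℕ → ℕ → Bool) (W π : List ℕ), (∀ i j, adj i j = adj j i) →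
  π.Nodup → (∀ x, x ∈ π ↔ x ∈ W) → RT (PE adj W π) 6 0 (π.length - 1) →
  (∀ c ∈ W, ConnOn adj {t | t ∈ W ∧ t ≠ c}) → ∀ a ∈ W, ∀ b ∈ W, π.idxOf a < π.idxOf b →
  ∃ R : List ℕ, R.length ≤ 26 ∧
    (∀ x ∈ R, x ∈ W ∧ π.idxOf a < π.idxOf x ∧ π.idxOf x < π.idxOf b) ∧
    ∀ z ∈ W, π.idxOf a < π.idxOf z → π.idxOf z < π.idxOf b → ∃ x,
      (x ∈ R ∨ (x ∈ W ∧ π.idxOf a < π.idxOf x ∧ π.idxOf x < π.idxOf b ∧
        ∃ y ∈ W, adj x y = true ∧ (π.idxOf y < π.idxOf a ∨ π.idxOf b < π.idxOf y))) ∧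
      Reach adj {t | t ∈ W ∧ π.idxOf a < π.idxOf t ∧ π.idxOf t < π.idxOf b} x z

/-- The search. -/
def Stmt_RSPEC : Prop := ∀ (M : List (List Bool)) (bad : List Rec) (S T : List ℕ) (n : ℕ),
  S.Nodup → S.length ≤ n →
  (∀ z, z ∈ reachB M bad S T n ↔ z ∈ S ∧ ∃ x ∈ T, x ∈ S ∧
    Relation.ReflTransGen (fun u v => ent M u v = true ∧ u ∈ S ∧ v ∈ S ∧
      ∀ r ∈ bad, r.1 ≠ (u, v) ∧ r.1 ≠ (v, u)) x z) ∧
  reachB M bad S T n = S.filter fun z => memb z (reachB M bad S T n)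

/-- The states of a drawing are candidates. -/
def Stmt_CAND : Prop := ∀ (M : List (List Bool)) (W π : List ℕ) (g : ℕ × ℕ → ℕ × ℕ) (n : ℕ),
  (∀ i j, ent M i j = ent M j i) → W.Nodup → (∀ x ∈ W, x < n) → Arr (ent M) W π g →
  (∀ e, (g e).1 < n ∧ (g e).2 < n) → RT (PE (ent M) W π) 6 0 (π.length - 1) →
  (∀ c ∈ W, ConnOn (ent M) {t | t ∈ W ∧ t ≠ c}) →
  ∀ a ∈ W, ∀ b ∈ W, π.idxOf a < π.idxOf b →
    (thru (PE (ent M) W π) (π.idxOf a) (π.idxOf b)).card ≤ 6 →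
    can (ent M) W π g a b ∈ cands M W n

/-- The computed block. -/
def Stmt_MEMB : Prop := ∀ (M : List (List Bool)) (n u v : ℕ),
  (∀ w, w ∈ blockB M n u v ↔ w ∈ Blk (ent M) {x | x < n} u v) ∧ (blockB M n u v).Nodup ∧
    (blockB M n u v).length ≤ n ∧ ∀ w ∈ blockB M n u v, w < n

/-- The connectivity test. -/
def Stmt_CONS : Prop := ∀ (M : List (List Bool)) (n : ℕ), 0 < n →
  (∀ i j, ent M i j = ent M j i) → (connB M n = true ↔ ConnOn (ent M) {x | x < n})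

/-- Cased drawings and gap functions. -/
def Stmt_GIFF : Prop := ∀ (n : ℕ) (G : SimpleGraph (Fin n)) (adj : ℕ → ℕ → Bool),
  (∀ i j, adj i j = true ↔ ∃ (hi : i < n) (hj : j < n), G.Adj ⟨i, hi⟩ ⟨j, hj⟩) →
  (OuterGapPlanar 1 G ↔ Good adj {x | x < n})

/-- Connectivity. -/
def Stmt_CIFF : Prop := ∀ (n : ℕ) (G : SimpleGraph (Fin n)) (adj : ℕ → ℕ → Bool),
  (∀ i j, adj i j = true ↔ ∃ (hi : i < n) (hj : j < n), G.Adj ⟨i, hi⟩ ⟨j, hj⟩) →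
  (G.Connected ↔ 0 < n ∧ ConnOn adj {x | x < n})

/-- Coding and decoding. -/
def Stmt_DECO : Prop := (∀ (n : ℕ) (G : SimpleGraph (Fin n)), (seg (encode G)).length - 1 = n ∧
    chkM (seg (encode G)) n = true ∧
    ∀ i j, ent (seg (encode G)) i j = true ↔ ∃ (hi : i < n) (hj : j < n), G.Adj ⟨i, hi⟩ ⟨j, hj⟩) ∧
  ∀ w : List (Option Bool), chkM (seg w) ((seg w).length - 1) = true →
    ∃ (n : ℕ) (G : SimpleGraph (Fin n)), w = encode G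

end Pool.Agent.OGP
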