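import Pool.Agent.OGP.Alg
import Pool.Agent.Lib_MP_33ea09_lc.VerP

/-!
# Exact statements of the modules (polynomial time)
-/

set_option linter.unusedVariables false

namespace Pool.Agent.OGP

open Pool.Agent.PT81 Pool.Agent.IsoImp Turing Polynomial

/-- Lists of bounded length. -/
def Stmt_PTUP : Prop := ∀ (E : Env) (γ α : Type) [Enc E γ] [Enc E α] (k : ℕ) (l : γ → List α),
  Poly E l → Poly E (fun c => tup k (l c))

/-- The search. -/
def Stmt_PREACH : Prop := ∀ (E : Env) (γ : Type) [Enc E γ] (M : γ → List (List Bool))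
  (bad : γ → List Rec) (S T : γ → List ℕ) (k : γ → ℕ), Poly E M → Poly E bad → Poly E S →
  Poly E T → Poly E k → Poly E (fun c => reachB (M c) (bad c) (S c) (T c) (k c))

/-- The candidates. -/
def Stmt_PCAND : Prop := ∀ (E : Env) (γ : Type) [Enc E γ] (M : γ → List (List Bool))
  (W : γ → List ℕ) (n : γ → ℕ), Poly E M → Poly E W → Poly E n →
  Poly E (fun c => cands (M c) (W c) (n c))

/-- The first test. -/
def Stmt_PMGA : Prop := ∀ (E : Env) (γ : Type) [Enc E γ] (s1 s2 s : γ → St), Poly E s1 →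
  Poly E s2 → Poly E s → Poly E (fun c => mg1 (s1 c) (s2 c) (s c))

/-- The second test. -/
def Stmt_PMGB : Prop := ∀ (E : Env) (γ : Type) [Enc E γ] (M : γ → List (List Bool))
  (W : γ → List ℕ) (s1 s2 s : γ → St), Poly E M → Poly E W → Poly E s1 →
  Poly E s2 → Poly E s → Poly E (fun c => mg2 (M c) (W c) (s1 c) (s2 c) (s c))

/-- Local positions. -/
def Stmt_PLOC : Prop := ∀ (E : Env) (γ : Type) [Enc E γ] (s1 s2 : γ → St) (z : γ → ℕ),
  Poly E s1 → Poly E s2 → Poly E z → Poly E (fun c => lc (s1 c) (s2 c) (z c))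

/-- The third test. -/
def Stmt_PMGC : Prop := ∀ (E : Env) (γ : Type) [Enc E γ] (M : γ → List (List Bool))
  (s1 s2 s : γ → St), Poly E M → Poly E s1 →
  Poly E s2 → Poly E s → Poly E (fun c => mg3 (M c) (s1 c) (s2 c) (s c))

/-- The dynamic programming. -/
def Stmt_PDP : Prop := ∀ (E : Env) (γ : Type) [Enc E γ] (M : γ → List (List Bool))
  (W : γ → List ℕ) (n : γ → ℕ), Poly E M → Poly E W → Poly E n →
  Poly E (fun c => dp (M c) (W c) (n c))

/-- Blocks. -/
def Stmt_PBLK : Prop := ∀ (E : Env) (γ : Type) [Enc E γ] (M : γ → List (List Bool))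
  (n u v : γ → ℕ), Poly E M → Poly E n → Poly E u → Poly E v →
  Poly E (fun c => blockB (M c) (n c) (u c) (v c)) ∧ Poly E (fun c => connB (M c) (n c)) ∧
    Poly E (fun c => chkM (M c) (n c))

/-- The algorithm runs in polynomial time. -/
def Stmt_PALG : Prop := Nonempty (TM2ComputableInPolyTime (fun x : List (Option Bool) => x)
  (fun b : Bool => [b]) alg)

end Pool.Agent.OGP
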